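import Pool.Agent.N880.QI.Stm
import Pool.Agent.H385R2.FinA0
import Pool.Agent.H385R2.FinDB
import Pool.Agent.H385R2.FamAbsD
import Pool.Agent.H385R2.NLowD
import Pool.Agent.H385R5.HE7
import Pool.Agent.N880.QF.Core

/-!
Project QI, G11: the main inequality for a part of the family.
-/

set_option autoImplicit false

open Complex Filter Topology MeasureTheory Set
open H385 (ZI bt wt Rw lamK2 cK wc Selb SW SW_cont SW_nonneg SW_le Rw_nonneg fa_Rw_cont fa_Rw_le)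
open H370 (NN Nd Ns)
open Pool.Agent.H304R3.HK (tc HC LH aH tc_star_mul one_le_norm_tc goodH)
open Pool.Agent.N880.QF (choose_sig ms_parts sq_parts)

namespace Pool.Agent.N880.QI

/-! ### arithmetic of the members of the family -/

lemma core_nz_eq (m : ZI) : nz m = ‖tc m‖ ^ 2 := (tc_star_mul m).symm

lemma core_nz_mul (a b : ZI) : nz (a * b) = nz a * nz b := by
  unfold nz
  rw [Zsqrtd.norm_mul]
  push_cast
  ring

lemma core_nz_nonneg (a : ZI) : 0 ≤ nz a := by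
  rw [core_nz_eq]; positivity

lemma core_one_le_nz {a : ZI} (ha : a ≠ 0) : 1 ≤ nz a := by
  rw [core_nz_eq]; exact one_le_pow₀ (one_le_norm_tc ha)

lemma core_not_dvd {π b : ZI} (hb : b ≠ 0) (h : nz b < nz π) : ¬ π ∣ b := by
  rintro ⟨c, rfl⟩
  have hc : c ≠ 0 := by
    rintro rfl
    simp at hb
  rw [core_nz_mul] at h
  have h1 := core_one_le_nz hc
  have h2 := core_nz_nonneg π
  nlinarith

lemma core_sy_mul_sq {k b π : ZI} (hπ : Prime π) (hb : ¬ π ∣ b) :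
    sy (k * b ^ 2) π = sy k π := by
  have hdb : ¬ π ∣ b ^ 2 := fun h => hb (hπ.dvd_of_dvd_pow h)
  have h1 : π ∣ k * b ^ 2 ↔ π ∣ k := by
    constructor
    · intro h
      exact (hπ.dvd_or_dvd h).resolve_right hdb
    · exact fun h => h.mul_right _
  have h2 : (∃ c : ZI, π ∣ c ^ 2 - k * b ^ 2) ↔ ∃ c : ZI, π ∣ c ^ 2 - k := by
    constructor
    · rintro ⟨c, hc⟩
      have hcop : IsCoprime π b := (hπ.irreducible.coprime_iff_not_dvd).2 hb
      obtain ⟨x, y, hxy⟩ := hcop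
      refine ⟨y * c, ?_⟩
      have e : (y * c) ^ 2 - k = y ^ 2 * (c ^ 2 - k * b ^ 2) + k * ((y * b) ^ 2 - 1) := by ring
      rw [e]
      refine dvd_add (hc.mul_left _) (Dvd.dvd.mul_left ?_ _)
      have e2 : (y * b) ^ 2 - 1 = π * (-x * (y * b + 1)) := by
        linear_combination (y * b + 1) * hxy
      exact ⟨_, e2⟩
    · rintro ⟨c, hc⟩
      refine ⟨c * b, ?_⟩
      have e : (c * b) ^ 2 - k * b ^ 2 = b ^ 2 * (c ^ 2 - k) := by ring
      rw [e]
      exact hc.mul_left _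
  have e0 : ∀ a c : ZI, (π ∣ a ↔ π ∣ c) →
      ((∃ t : ZI, π ∣ t ^ 2 - a) ↔ ∃ t : ZI, π ∣ t ^ 2 - c) → sy a π = sy c π := by
    intro a c g1 g2
    unfold sy
    by_cases ha : π ∣ a
    · rw [if_pos ha, if_pos (g1.1 ha)]
    · rw [if_neg ha, if_neg (fun hc => ha (g1.2 hc))]
      by_cases hb' : ∃ t : ZI, π ∣ t ^ 2 - a
      · rw [if_pos hb', if_pos (g2.1 hb')]
      · rw [if_neg hb', if_neg (fun hc => hb' (g2.2 hc))]
  exact e0 _ _ h1 h2

lemma core_nsq {k b : ZI} (hk : ¬ IsSquare k) (hb : b ≠ 0) : ¬ IsSquare (k * b ^ 2) := by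
  rintro ⟨r, hr⟩
  have h2 : b ^ 2 ∣ r ^ 2 := ⟨k, by rw [sq r, ← hr]; ring⟩
  have h3 : b ∣ r := (IsIntegrallyClosed.pow_dvd_pow_iff two_ne_zero).1 h2
  obtain ⟨t, rfl⟩ := h3
  apply hk
  refine ⟨t, ?_⟩
  have h5 : b ^ 2 * k = b ^ 2 * (t * t) := by rw [mul_comm, hr]; ring
  exact mul_left_cancel₀ (pow_ne_zero 2 hb) h5

lemma core_att_of {k b : ZI} (hb : b ≠ 0) {ψ₀ ψ : ZI →* ℂ} (h : Att ψ₀ (k * b ^ 2) ψ) :
    Att ψ₀ k ψ := by
  obtain ⟨B, hB⟩ := h
  refine ⟨max B (nz b + 1), fun π hπ hBπ => ?_⟩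
  rw [hB π hπ ((le_max_left _ _).trans hBπ), core_sy_mul_sq hπ (core_not_dvd hb ?_)]
  have := (le_max_right B (nz b + 1)).trans hBπ
  linarith

/-- bounds for `log (‖d m‖ T)` -/
theorem core_per_m {ψ₀ : ZI →* ℂ} {Cc : ℝ} (hCc : 1 ≤ Cc)
    (hchar : ∀ k : ZI, Squarefree k → ∀ (d : ZI) (ψ : ZI →* ℂ), HC d ψ → Att ψ₀ k ψ →
      nz k ≤ Cc * nz d ∧ nz d ≤ Cc * nz k)
    (B : ℕ) (η : ℝ) (hη : 0 < η) (d : ZI → ZI) (ψ : ZI → (ZI →* ℂ)) (hq : QD ψ₀ d ψ)
    (X T : ℝ) (m : ZI) (hX : Real.exp (1 / η ^ 2 + Real.log Cc / η + 1) ≤ X) (hT1 : 1 ≤ T)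
    (hT : T ≤ X ^ η) (hm : MainL B η X m) :
    HC (d m) (ψ m) ∧ 1 ≤ ‖tc (d m)‖ ∧
    2 * Real.log (‖tc (d m)‖ * T) ≤ (1 + 4 * η) * Real.log X ∧
    (1 - η) * Real.log X - Real.log Cc ≤ 2 * Real.log (‖tc (d m)‖ * T) := by
  obtain ⟨hmX, k, b, hk, hk1, hb, hbB, rfl, hkX⟩ := hm
  have hX0 : 0 < X := lt_of_lt_of_le (Real.exp_pos _) hX
  have hL0 : 1 / η ^ 2 + Real.log Cc / η + 1 ≤ Real.log X := by
    rwa [Real.le_log_iff_exp_le hX0]
  have hT0 : 0 < T := by linarith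
  have hmsq : ¬ IsSquare (k * b ^ 2) := core_nsq hk1 hb
  have hHC := hq.hc _ hmsq
  have hatt : Att ψ₀ k (ψ (k * b ^ 2)) := core_att_of hb (hq.att _ hmsq)
  obtain ⟨hkN, hNk⟩ := hchar k hk _ _ hHC hatt
  obtain ⟨D, hD⟩ : ∃ D, D = d (k * b ^ 2) := ⟨_, rfl⟩
  rw [← hD] at hHC hkN hNk ⊢
  have hQ1 : 1 ≤ ‖tc D‖ := one_le_norm_tc hHC.q0
  have hQ0 : 0 < ‖tc D‖ := by linarith
  have hN1 : 1 ≤ nz D := core_one_le_nz hHC.q0
  have hN0 : 0 < nz D := by linarith
  have hk0 : 1 ≤ nz k := core_one_le_nz hk.ne_zero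
  have hkm : nz k ≤ nz (k * b ^ 2) := by
    rw [core_nz_mul]
    have h1 : 1 ≤ nz (b ^ 2) := core_one_le_nz (pow_ne_zero 2 hb)
    exact le_mul_of_one_le_right (by linarith) h1
  have hlogQ : Real.log (nz D) = 2 * Real.log ‖tc D‖ := by
    rw [core_nz_eq, Real.log_pow]
    norm_num
  have hη2 : 0 < 1 / η ^ 2 := by positivity
  have hlC : 0 ≤ Real.log Cc := Real.log_nonneg hCc
  have hη3 : 0 ≤ Real.log Cc / η := by positivity
  obtain ⟨L, hL⟩ : ∃ L, L = Real.log X := ⟨_, rfl⟩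
  rw [← hL] at hL0 hmX ⊢
  have hL1 : 1 ≤ L := by linarith
  have hlogT : Real.log T ≤ η * L := by
    have := Real.log_le_log hT0 hT
    rwa [Real.log_rpow hX0, ← hL] at this
  have hlogT0 : 0 ≤ Real.log T := Real.log_nonneg hT1
  have hsqL : 0 < Real.sqrt L := Real.sqrt_pos.2 (by linarith)
  have hCc0 : 0 < Cc := by linarith
  have hlogQT : 2 * Real.log (‖tc D‖ * T) = Real.log (nz D) + 2 * Real.log T := by
    rw [Real.log_mul hQ0.ne' hT0.ne', hlogQ]; ring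
  refine ⟨hHC, hQ1, ?_, ?_⟩
  · have h1 : nz D ≤ Cc * (X * Real.sqrt L) := by
      refine hNk.trans (mul_le_mul_of_nonneg_left (hkm.trans hmX) hCc0.le)
    have h3 : Real.log (nz D) ≤ Real.log Cc + (L + Real.log (Real.sqrt L)) := by
      have := Real.log_le_log hN0 h1
      rwa [Real.log_mul hCc0.ne' (by positivity), Real.log_mul hX0.ne' hsqL.ne', ← hL] at this
    have h5 : Real.log (Real.sqrt L) ≤ Real.sqrt L := by
      have := Real.log_le_sub_one_of_pos hsqL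
      linarith
    have h6 : Real.sqrt L ≤ η * L := by
      have h7 : 1 / η ≤ Real.sqrt L := by
        apply Real.le_sqrt_of_sq_le
        have : (1 / η) ^ 2 = 1 / η ^ 2 := by rw [div_pow]; norm_num
        linarith
      have h8 : Real.sqrt L * Real.sqrt L = L := Real.mul_self_sqrt (by linarith)
      rw [div_le_iff₀ hη] at h7
      have h9 : 1 * Real.sqrt L ≤ (Real.sqrt L * η) * Real.sqrt L :=
        mul_le_mul_of_nonneg_right h7 hsqL.le
      have h10 : (Real.sqrt L * η) * Real.sqrt L = η * (Real.sqrt L * Real.sqrt L) := by ring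
      rw [h10, h8] at h9
      linarith
    have h9 : Real.log Cc ≤ η * L := by
      have : Real.log Cc / η ≤ L := by linarith
      rw [div_le_iff₀ hη] at this
      linarith
    rw [hlogQT]
    have e : (1 + 4 * η) * L = L + 2 * (η * L) + η * L + η * L := by ring
    rw [e]
    linarith
  · have h1 : X ^ (1 - η) ≤ Cc * nz D := hkX.trans hkN
    have h2 := Real.log_le_log (Real.rpow_pos_of_pos hX0 _) h1
    rw [Real.log_rpow hX0, ← hL, Real.log_mul hCc0.ne' hN0.ne'] at h2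
    rw [hlogQT]
    linarith

/-- lower bound for the number of zeros of a member of the family -/
theorem core_per_low {A : ℝ} (hA : 1 ≤ A)
    (hgood : ∀ (q : ZI) (χ : ZI →* ℂ), HC q χ → H385.GoodD 2 A ‖tc q‖ (LH χ) (aH χ))
    {ψ₀ : ZI →* ℂ} {Cc : ℝ} (hCc : 1 ≤ Cc)
    (hchar : ∀ k : ZI, Squarefree k → ∀ (d : ZI) (ψ : ZI →* ℂ), HC d ψ → Att ψ₀ k ψ →
      nz k ≤ Cc * nz d ∧ nz d ≤ Cc * nz k) :
    ∃ C : ℝ, 0 < C ∧ ∀ (B : ℕ) (η : ℝ), 0 < η → η < 1 / 10 →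
    ∀ (d : ZI → ZI) (ψ : ZI → (ZI →* ℂ)), QD ψ₀ d ψ →
    ∀ (X T : ℝ) (m : ZI), Real.exp (1 / η ^ 2 + Real.log Cc / η + 12) ≤ X →
      (Real.log X) ^ 2 ≤ T → T ≤ X ^ η → MainL B η X m →
      (1 - η) * (T / (2 * Real.pi) * Real.log X) - C * T ≤ (NN (LH (ψ m)) T (2 * T) : ℝ) := by
  obtain ⟨C2, hC2, hlow⟩ := H385.N_lower_D 2 A (by norm_num) hA
  have hlC : 0 ≤ Real.log Cc := Real.log_nonneg hCc
  refine ⟨5 * C2 + Real.log Cc, by positivity, ?_⟩
  intro B η hη hη1 d ψ hq X T m hX hT1 hT2 hm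
  have hX' : Real.exp (1 / η ^ 2 + Real.log Cc / η + 1) ≤ X :=
    (Real.exp_le_exp.2 (by linarith)).trans hX
  have hX0 : 0 < X := lt_of_lt_of_le (Real.exp_pos _) hX
  have hη2 : 0 < 1 / η ^ 2 := by positivity
  have hη3 : 0 ≤ Real.log Cc / η := by positivity
  have hL12 : 12 ≤ Real.log X := by
    have : 1 / η ^ 2 + Real.log Cc / η + 12 ≤ Real.log X := by rwa [Real.le_log_iff_exp_le hX0]
    linarith
  have hTT : 1 ≤ T := by nlinarith
  have hT0 : 0 < T := by linarith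
  obtain ⟨g1, g2, g3, g4⟩ := core_per_m hCc hchar B η hη d ψ hq X T m hX' hTT hT2 hm
  set L : ℝ := Real.log X with hL
  have hT2' : T ≤ Real.exp (η * L) := by
    rw [mul_comm, ← Real.rpow_def_of_pos hX0]; exact hT2
  obtain ⟨p1, p2, p3, p4, p5, p6⟩ := H385.param_ok 1 L T η one_pos (by linarith)
    (by linarith) (by linarith) hT1 hT2'
  have hl := hlow ‖tc (d m)‖ (LH (ψ m)) _ g2 (hgood _ _ g1) T L p1 p2
  refine le_trans ?_ hl
  have hpi := Real.pi_pos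
  have hlog2 : Real.log (‖tc (d m)‖ * T) ≤ 3 * L := by
    have : (1 + 4 * η) * L ≤ 2 * L := mul_le_mul_of_nonneg_right (by linarith) (by linarith)
    linarith
  have hlog0 : 0 ≤ Real.log (‖tc (d m)‖ * T) := by
    apply Real.log_nonneg
    calc (1 : ℝ) = 1 * 1 := (mul_one 1).symm
      _ ≤ ‖tc (d m)‖ * T := mul_le_mul g2 hTT zero_le_one (by linarith)
  have a1 : T / (2 * Real.pi) * ((1 - η) * L - Real.log Cc) ≤
      T / (2 * Real.pi) * (2 * Real.log (‖tc (d m)‖ * T)) :=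
    mul_le_mul_of_nonneg_left g4 (by positivity)
  have a0 : T / (2 * Real.pi) * Real.log Cc ≤ Real.log Cc * T := by
    have b1 : T / (2 * Real.pi) ≤ T := by
      apply div_le_self hT0.le
      linarith [Real.pi_gt_three]
    calc T / (2 * Real.pi) * Real.log Cc ≤ T * Real.log Cc := mul_le_mul_of_nonneg_right b1 hlC
      _ = _ := mul_comm _ _
  have a2 : L * Real.log (‖tc (d m)‖ * T) ≤ 3 * T := by
    have : L * Real.log (‖tc (d m)‖ * T) ≤ L * (3 * L) :=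
      mul_le_mul_of_nonneg_left hlog2 (by linarith)
    linarith [show L * (3 * L) = 3 * L ^ 2 by ring]
  have a3 : T * Real.log (‖tc (d m)‖ * T) ^ 2 * Real.exp (-L ^ 2 / 2) ≤ T := by
    have b1 : Real.log (‖tc (d m)‖ * T) ^ 2 ≤ (3 * L) ^ 2 := pow_le_pow_left₀ hlog0 hlog2 2
    have b2 : Real.log (‖tc (d m)‖ * T) ^ 2 * Real.exp (-L ^ 2 / 2) ≤ 1 := by
      refine le_trans (mul_le_mul_of_nonneg_right b1 (Real.exp_pos _).le) ?_
      rw [show (3 * L) ^ 2 = 9 * L ^ 2 by ring]; exact p6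
    calc _ = T * (Real.log (‖tc (d m)‖ * T) ^ 2 * Real.exp (-L ^ 2 / 2)) := by ring
      _ ≤ T * 1 := mul_le_mul_of_nonneg_left b2 hT0.le
      _ = T := mul_one T
  have a4 : C2 * (T + L * Real.log (‖tc (d m)‖ * T) +
      T * Real.log (‖tc (d m)‖ * T) ^ 2 * Real.exp (-L ^ 2 / 2)) ≤ C2 * (5 * T) :=
    mul_le_mul_of_nonneg_left (by linarith) hC2.le
  have a5 : (1 - η) * (T / (2 * Real.pi) * L) - (5 * C2 + Real.log Cc) * T =
      T / (2 * Real.pi) * ((1 - η) * L - Real.log Cc) + T / (2 * Real.pi) * Real.log Cc -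
        Real.log Cc * T - C2 * (5 * T) := by ring
  rw [a5]
  linarith

/-! ### the main term -/

lemma core_innI_eq (h : ∀ n, lamK2 n = ArithmeticFunction.vonMangoldt n ^ 2 * ‖cK n‖ ^ 2)
    (u : ℝ) : innI u = SW cK u := by
  unfold innI SW wc
  refine tsum_congr fun n => ?_
  rw [h n]

lemma core_Yint (γ : ℝ) (h0 : 0 < γ) (hπ : γ < Real.pi) {s : ℝ} (hs : 0 < s) :
    ∃ L0 : ℝ, 0 < L0 ∧ ∀ (Λ A B T κ : ℝ), L0 ≤ Λ → 0 ≤ A → 0 ≤ B → 0 ≤ T → 0 ≤ κ →
    ∫ u in (0 : ℝ)..Λ, Rw γ (u / Λ) * (A * innI u + B * (T + κ * (u + 1))) ≤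
      A * (Real.sqrt Real.pi * Λ ^ 2 * ((∫ α in (0 : ℝ)..1, α * Rw γ α) + s)) +
        B * (Rw γ 0 * Λ * (T + κ * (Λ + 1))) := by
  obtain ⟨C0, hC0, hS, -, hlam⟩ := H385.selb_cK
  have hinn : innI = SW cK := funext fun u => core_innI_eq hlam u
  obtain ⟨C, hC, hmain⟩ := H385.lam_smooth_abs (wc cK) (H385.wc_nonneg cK) (H385.wc_zero cK) C0 hS
    γ h0 hπ
  have hsp : 0 < Real.sqrt Real.pi := Real.sqrt_pos.2 Real.pi_pos
  refine ⟨1 + C / (Real.sqrt Real.pi * s), by positivity, ?_⟩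
  intro Λ A B T κ hΛ hA hB hT hκ
  have hC1 : 0 ≤ C / (Real.sqrt Real.pi * s) := by positivity
  have hΛ1 : 1 ≤ Λ := by linarith
  have hΛ0 : 0 < Λ := by linarith
  have hRc := fa_Rw_cont γ h0 hπ
  have hc1 : Continuous (fun u : ℝ => Rw γ (u / Λ)) := hRc.comp (continuous_id.div_const Λ)
  have hc2 : Continuous innI := by rw [hinn]; exact SW_cont cK C0 hS
  have hm : ∫ u in (0 : ℝ)..Λ, Rw γ (u / Λ) * innI u ≤
      Real.sqrt Real.pi * Λ ^ 2 * ((∫ α in (0 : ℝ)..1, α * Rw γ α) + s) := by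
    have h1 := hmain Λ hΛ1
    rw [hinn]
    have h2 : C * Λ ≤ Real.sqrt Real.pi * Λ ^ 2 * s := by
      have h3 : C / (Real.sqrt Real.pi * s) ≤ Λ := by linarith
      rw [div_le_iff₀ (by positivity)] at h3
      calc C * Λ ≤ (Λ * (Real.sqrt Real.pi * s)) * Λ := mul_le_mul_of_nonneg_right h3 hΛ0.le
        _ = _ := by ring
    have h4 : Real.sqrt Real.pi * Λ ^ 2 * ((∫ α in (0 : ℝ)..1, α * Rw γ α) + s) =
      Real.sqrt Real.pi * Λ ^ 2 * (∫ α in (0 : ℝ)..1, α * Rw γ α) +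
        Real.sqrt Real.pi * Λ ^ 2 * s := by ring
    rw [h4]
    refine le_trans ?_ (add_le_add le_rfl h2)
    exact h1
  have e1 : ∀ u : ℝ, Rw γ (u / Λ) * (A * innI u + B * (T + κ * (u + 1))) =
      A * (Rw γ (u / Λ) * innI u) + B * (Rw γ (u / Λ) * (T + κ * (u + 1))) := by
    intro u; ring
  simp_rw [e1]
  rw [intervalIntegral.integral_add, intervalIntegral.integral_const_mul,
    intervalIntegral.integral_const_mul]
  · refine add_le_add (mul_le_mul_of_nonneg_left hm hA) (mul_le_mul_of_nonneg_left ?_ hB)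
    have h3 : ∫ u in (0 : ℝ)..Λ, Rw γ (u / Λ) * (T + κ * (u + 1)) ≤
        ∫ u in (0 : ℝ)..Λ, Rw γ 0 * (T + κ * (Λ + 1)) := by
      apply intervalIntegral.integral_mono_on hΛ0.le
      · exact (hc1.mul (by fun_prop)).intervalIntegrable _ _
      · exact continuous_const.intervalIntegrable _ _
      · intro u hu
        have h4 : Rw γ (u / Λ) ≤ Rw γ 0 := fa_Rw_le γ h0 hπ (div_nonneg hu.1 hΛ0.le)
        have h5 := Rw_nonneg γ h0 hπ (u / Λ)
        have h6 := Rw_nonneg γ h0 hπ 0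
        have h7 : κ * (u + 1) ≤ κ * (Λ + 1) := by
          have := hu.2
          gcongr
        have h8 : 0 ≤ κ * (u + 1) := mul_nonneg hκ (by linarith [hu.1])
        exact mul_le_mul h4 (by linarith) (by linarith) h6
    refine h3.trans (le_of_eq ?_)
    rw [intervalIntegral.integral_const, smul_eq_mul]
    ring
  · exact ((hc1.mul hc2).const_mul A |>.intervalIntegrable _ _)
  · exact ((hc1.mul (by fun_prop)).const_mul B |>.intervalIntegrable _ _)

/-- from the shape of the abstract theorem in degree two to the shape in degree one -/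
lemma core_shape {SM W M R T Λ κ J y C : ℝ} (hW : 0 ≤ W) (hM : 0 ≤ M) (hT : 0 ≤ T) (hΛ : 0 < Λ)
    (hκ : 0 ≤ κ) (hy : 0 ≤ y) (hC : 0 < C)
    (h : SM ≤ W * (2 * (M / 2)) ^ 2 * R * T / (2 * Real.pi * Λ) + J +
      C * (W * ((M / 2) ^ 2 * κ / Λ + (M / 2) * T / Λ + κ * (M / 2)) +
        Real.sqrt W * (M / 2) * T * y / Λ)) :
    SM ≤ W * M ^ 2 * R * T / (2 * Real.pi * Λ) + J +
      C * (W * (M ^ 2 * κ / Λ + M * T / Λ + κ * M) + Real.sqrt W * M * T * y / Λ) := by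
  have e : 2 * (M / 2) = M := by ring
  rw [e] at h
  refine h.trans (add_le_add le_rfl (mul_le_mul_of_nonneg_left ?_ hC.le))
  have hM2 : M / 2 ≤ M := by linarith
  have hM0 : 0 ≤ M / 2 := by linarith
  gcongr

set_option maxHeartbeats 4000000 in
/-- G11: the main inequality for a part of the family -/
theorem core_main (hms : S_ms) (hchar : S_char) : S_core := by
  intro d₀ ψ₀ hHC w κ0 hw hκ0
  have hpi := Real.pi_pos
  have hpi3 := Real.pi_gt_three
  have hγ0 : (0 : ℝ) < 1.414 := by norm_num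
  have hγπ : (1.414 : ℝ) < Real.pi := by linarith
  obtain ⟨A, hA, hgood0⟩ := goodH
  have hgood : ∀ (q : ZI) (χ : ZI →* ℂ), HC q χ → H385.GoodD 2 A ‖tc q‖ (LH χ) (aH χ) :=
    fun q χ h => (hgood0 q χ h).2.2.2
  obtain ⟨Cc, hCc, hchar0⟩ := hchar d₀ ψ₀ hHC
  have hchar' : ∀ k : ZI, Squarefree k → ∀ (d : ZI) (ψ : ZI →* ℂ), HC d ψ → Att ψ₀ k ψ →
      nz k ≤ Cc * nz d ∧ nz d ≤ Cc * nz k :=
    fun k hk d ψ h1 h2 => ((hchar0 k hk).2 d ψ h1 h2).2
  have hlC : 0 ≤ Real.log Cc := Real.log_nonneg hCc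
  obtain ⟨C1, hC1, hfam⟩ := H385.fam_abstract_D 1.414 hγ0 hγπ 2 A (by norm_num) hA
  obtain ⟨C1', hC1', hfam'⟩ := H385.fam_abstract_d_D 1.414 hγ0 hγπ 2 A (by norm_num) hA
  obtain ⟨C, hC, hlow⟩ := core_per_low hA hgood hCc hchar'
  obtain ⟨C0, hC0, hSelb, -, hlam⟩ := H385.selb_cK
  have hinn : innI = SW cK := funext fun u => core_innI_eq hlam u
  obtain ⟨Ci, hCi, hinner⟩ := SW_le cK C0 hSelb
  obtain ⟨R, hRdef⟩ : ∃ R, R = Rw 1.414 0 := ⟨_, rfl⟩
  obtain ⟨J, hJdef⟩ : ∃ J, J = ∫ α in (0:ℝ)..1, α * Rw 1.414 α := ⟨_, rfl⟩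
  obtain ⟨f, hfdef⟩ : ∃ f : ℝ, f = 1 := ⟨_, rfl⟩
  rw [← hRdef, ← hJdef, ← hfdef] at hκ0
  have hR : 0 ≤ R := hRdef ▸ Rw_nonneg 1.414 hγ0 hγπ 0
  have hJ : 0 ≤ J := by
    rw [hJdef]
    apply intervalIntegral.integral_nonneg zero_le_one
    intro α hα
    exact mul_nonneg hα.1 (Rw_nonneg 1.414 hγ0 hγπ α)
  have hf : 0 ≤ f := by rw [hfdef]; exact zero_le_one
  obtain ⟨s, hs, hs1, hsκ⟩ := choose_sig hκ0
  obtain ⟨LY, hLY, hYint⟩ := core_Yint 1.414 hγ0 hγπ hs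
  obtain ⟨β, hβdef⟩ : ∃ β, β = 1 - s := ⟨_, rfl⟩
  obtain ⟨c', hc'def⟩ : ∃ c', c' = 2 * (f / w) * (1 + s) * (J + s) := ⟨_, rfl⟩
  rw [← hβdef, ← hc'def] at hsκ
  have hβ : 0 < β := by linarith
  have hc' : 0 ≤ c' := by rw [hc'def]; positivity
  obtain ⟨κ1, hκ1def⟩ : ∃ κ1, κ1 = (R / β + c' + s) / β := ⟨_, rfl⟩
  rw [← hκ1def] at hsκ
  have hκ1 : 0 ≤ κ1 := by rw [hκ1def]; positivity
  obtain ⟨CC, hCC0, hCCa, hCCb⟩ : ∃ CC, 0 < CC ∧ C1 ≤ CC ∧ C1' ≤ CC :=
    ⟨max C1 C1', lt_max_of_lt_left hC1, le_max_left _ _, le_max_right _ _⟩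
  obtain ⟨ε1, hε1, hε1a, hε1b⟩ : ∃ ε1 : ℝ, 0 < ε1 ∧ ε1 ≤ s / 8 ∧
      6 * Real.pi * CC * ε1 / β ≤ s / 8 := by
    refine ⟨min (s / 8) (s / 8 * β / (6 * Real.pi * CC)), ?_, min_le_left _ _, ?_⟩
    · exact lt_min (by positivity) (by positivity)
    · have : 6 * Real.pi * CC * min (s / 8) (s / 8 * β / (6 * Real.pi * CC)) ≤
          6 * Real.pi * CC * (s / 8 * β / (6 * Real.pi * CC)) := by
        gcongr; exact min_le_right _ _
      rw [div_le_iff₀ hβ]
      refine this.trans (le_of_eq ?_)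
      field_simp
  obtain ⟨η', hη', hη'1, hη'2⟩ : ∃ η : ℝ, 0 < η ∧ η ≤ s / 2 ∧ 8 * η * (R / β) ≤ s / 8 := by
    have h2 : 0 ≤ R / β := by positivity
    refine ⟨min (s / 2) (s / 64 / (R / β + 1)), lt_min (by positivity) (by positivity),
      min_le_left _ _, ?_⟩
    have h1 : min (s / 2) (s / 64 / (R / β + 1)) ≤ s / 64 / (R / β + 1) := min_le_right _ _
    have h3 : s / 64 / (R / β + 1) * (R / β) ≤ s / 64 := by
      rw [div_mul_eq_mul_div, div_le_iff₀ (by positivity)]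
      exact mul_le_mul_of_nonneg_left (by linarith) (by positivity)
    have h4 : min (s / 2) (s / 64 / (R / β + 1)) * (R / β) ≤
        s / 64 / (R / β + 1) * (R / β) := mul_le_mul_of_nonneg_right h1 h2
    linarith
  obtain ⟨η, hηdef⟩ : ∃ η, η = η' / 2 := ⟨_, rfl⟩
  have hη : 0 < η := by rw [hηdef]; positivity
  have hη1 : η ≤ s / 4 := by linarith
  have hη10 : η < 1 / 10 := by linarith
  refine ⟨(κ0 - κ1) * w / 8, η, div_pos (mul_pos (by linarith) hw) (by norm_num), hη, hη10, ?_⟩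
  intro B hB
  obtain ⟨CM, XM, hCM, hXM, hmsb⟩ := hms d₀ ψ₀ hHC s s B hs hs (by linarith) hB
  obtain ⟨L0, q1, q2, q3, q4, q5, q6, q7, q8, q9⟩ : ∃ L0 : ℝ,
      1 / η ^ 2 + Real.log Cc / η + 12 ≤ L0 ∧ 4 * β + 8 ≤ L0 ∧ 1 / β ≤ L0 ∧ LY / β ≤ L0 ∧
      CC * (12 / β + 3) * (2 * Real.pi) ≤ s / 8 * L0 ∧
      10 * Real.pi * (2 * C / 5) * (R / β + c' + s) ≤ s / 2 * L0 ∧
      12 * Real.pi * CM * R / (w * ε1) ≤ L0 ∧
      (Real.sqrt (f * Ci + CM) + Real.sqrt CM) / (ε1 * Real.sqrt w) ≤ L0 ∧ 60 * C ≤ L0 := by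
    have a1 : 0 ≤ 1 / η ^ 2 + Real.log Cc / η + 12 := by positivity
    have a2 : 0 ≤ 4 * β + 8 := by positivity
    have a3 : 0 ≤ 1 / β := by positivity
    have a4 : 0 ≤ LY / β := by positivity
    have a5 : 0 ≤ CC * (12 / β + 3) * (2 * Real.pi) * (8 / s) := by positivity
    have a6 : 0 ≤ 10 * Real.pi * (2 * C / 5) * (R / β + c' + s) * (2 / s) := by positivity
    have a7 : 0 ≤ 12 * Real.pi * CM * R / (w * ε1) := by positivity
    have a8 : 0 ≤ (Real.sqrt (f * Ci + CM) + Real.sqrt CM) / (ε1 * Real.sqrt w) := by positivity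
    have a9 : 0 ≤ 60 * C := by positivity
    refine ⟨(1 / η ^ 2 + Real.log Cc / η + 12) + (4 * β + 8) + 1 / β + LY / β +
      CC * (12 / β + 3) * (2 * Real.pi) * (8 / s) +
      10 * Real.pi * (2 * C / 5) * (R / β + c' + s) * (2 / s) +
      12 * Real.pi * CM * R / (w * ε1) +
      (Real.sqrt (f * Ci + CM) + Real.sqrt CM) / (ε1 * Real.sqrt w) + 60 * C,
      by linarith, by linarith, by linarith, by linarith, ?_, ?_, by linarith, by linarith,
      by linarith⟩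
    · have e1 : CC * (12 / β + 3) * (2 * Real.pi) =
          s / 8 * (CC * (12 / β + 3) * (2 * Real.pi) * (8 / s)) := by field_simp
      rw [e1]
      refine mul_le_mul_of_nonneg_left ?_ (by positivity)
      rw [← e1]
      linarith
    · have e1 : 10 * Real.pi * (2 * C / 5) * (R / β + c' + s) =
          s / 2 * (10 * Real.pi * (2 * C / 5) * (R / β + c' + s) * (2 / s)) := by field_simp
      rw [e1]
      refine mul_le_mul_of_nonneg_left ?_ (by positivity)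
      rw [← e1]
      linarith
  refine ⟨max XM (max 3 (Real.exp L0)), (le_max_left _ _).trans (le_max_right _ _), ?_⟩
  intro d ψ hq X T I hX hT1 hT2 hI hWI
  have hXXM : XM ≤ X := (le_max_left _ _).trans hX
  have hX3 : 3 ≤ X := ((le_max_left _ _).trans (le_max_right _ _)).trans hX
  have hXe : Real.exp L0 ≤ X := ((le_max_right _ _).trans (le_max_right _ _)).trans hX
  have hXpos : 0 < X := by linarith
  obtain ⟨L, hL⟩ : ∃ L, L = Real.log X := ⟨_, rfl⟩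
  have hLL0 : L0 ≤ L := by
    rw [hL, Real.le_log_iff_exp_le hXpos]; exact hXe
  have hXexp : Real.exp (1 / η ^ 2 + Real.log Cc / η + 12) ≤ X :=
    (Real.exp_le_exp.2 q1).trans hXe
  have hXexp' : Real.exp (1 / η ^ 2 + Real.log Cc / η + 1) ≤ X :=
    (Real.exp_le_exp.2 (by linarith)).trans hXexp
  rw [← hL] at hT1 ⊢
  have hL12 : 12 ≤ L := by
    have : 0 ≤ 1 / η ^ 2 + Real.log Cc / η := by positivity
    linarith
  have hLT : L ≤ T := by
    refine le_trans ?_ hT1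
    rw [sq]
    exact le_mul_of_one_le_right (by linarith) (by linarith)
  have hTT : 1 ≤ T := by linarith
  have hTpos : 0 < T := by linarith
  have hT2' : T ≤ Real.exp (η * L) := by
    rw [mul_comm, hL, ← Real.rpow_def_of_pos hXpos]; exact hT2
  have hTX : T ≤ X := by
    refine hT2.trans ?_
    calc X ^ η ≤ X ^ (1 : ℝ) := Real.rpow_le_rpow_of_exponent_le (by linarith) (by linarith)
      _ = X := Real.rpow_one X
  obtain ⟨p1, p2, p3, p4, p5, p6⟩ := H385.param_ok β L T η hβ (by linarith) (q2.trans hLL0)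
    (q3.trans hLL0) hT1 hT2'
  obtain ⟨W, hW⟩ : ∃ W, W = ∑ m ∈ I, om X m := ⟨_, rfl⟩
  have hom : ∀ m, 0 ≤ om X m := fun m => (Real.exp_pos _).le
  rw [← hW] at hWI
  have hW0 : 0 ≤ W := by
    rw [hW]; exact Finset.sum_nonneg fun m _ => hom m
  have hβL : β * L ≤ L := mul_le_of_le_one_left (by linarith) (by linarith)
  have hβL0 : 0 < β * L := by positivity
  -- family data
  have hM4 : (1 + 4 * η) * L = (1 + 2 * η') * L := by rw [hηdef]; ring
  have hdata : ∀ m ∈ I, 0 ≤ om X m ∧ (1 : ℝ) ≤ ‖tc (d m)‖ ∧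
      H385.GoodD 2 A ‖tc (d m)‖ (LH (ψ m)) (aH (ψ m)) ∧
      Real.log (‖tc (d m)‖ * T) ≤ ((1 + 2 * η') * L) / 2 := by
    intro m hm
    obtain ⟨g1, g2, g3, -⟩ := core_per_m hCc hchar' B η hη d ψ hq X T m hXexp' hTT hT2
      (hI m hm)
    refine ⟨hom m, g2, hgood _ _ g1, ?_⟩
    rw [← hL, hM4] at g3
    linarith
  have hη'10 : η' ≤ 1 := by linarith
  have hLm : (1 + 2 * η') * L ≤ 3 * L := mul_le_mul_of_nonneg_right (by linarith) (by linarith)
  have hLmL : L ≤ (1 + 2 * η') * L :=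
    le_mul_of_one_le_left (by linarith) (by linarith)
  have hLm1 : 1 ≤ ((1 + 2 * η') * L) / 2 := by linarith
  have hLm0 : 0 ≤ (1 + 2 * η') * L := by linarith
  have hLm2 : (((1 + 2 * η') * L) / 2) ^ 2 ≤ 9 * L ^ 2 := by
    have h0 : (((1 + 2 * η') * L) / 2) ^ 2 ≤ (3 * L) ^ 2 :=
      pow_le_pow_left₀ (by linarith) (by linarith) 2
    linarith [show (3 * L) ^ 2 = 9 * L ^ 2 by ring]
  have hexp : (((1 + 2 * η') * L) / 2) ^ 2 * Real.exp (β * L - L ^ 2 / 2) ≤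
      Real.exp (-(β * L)) :=
    le_trans (mul_le_mul_of_nonneg_right hLm2 (Real.exp_pos _).le) p5
  obtain ⟨Yf, hYf⟩ : ∃ Yf : ℝ → ℝ, Yf = fun u => (1 + s) * (f * X) * (T / (2 * Real.pi)) *
      innI u + (CM * X) * (T + L * (u + 1)) := ⟨_, rfl⟩
  have hms' : ∀ u ∈ Set.Icc 0 (β * L),
        ∫ t : ℝ, ∑ m ∈ I, om X m *
          ‖∑' n : ℕ, aH (ψ m) n *
            ((Real.sqrt n : ℂ)⁻¹ * bt T u t (Real.log n))‖ ^ 2 ≤ Yf u := by
    intro u hu
    rw [hYf, hfdef, hL]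
    have h1 := hmsb d ψ hq X T u I hXXM (by rw [← hL]; exact hT1) hTX hu.1
      (by rw [← hL, ← hβdef]; exact hu.2) (fun m hm => ?_)
    · simp only [one_mul]
      exact h1
    · obtain ⟨b1, k, b, b2, b3, b4, b5, b6, -⟩ := hI m hm
      exact ⟨b1, k, b, b2, b3, b4, b5, b6⟩
  have hbd : ∀ u ∈ Set.Icc 0 (β * L), Yf u ≤ T * ((X * (f * Ci + CM)) * (u + 1) + X * CM) := by
    intro u hu
    rw [hYf]
    have hu0 : 0 ≤ u := hu.1
    have h1 : innI u ≤ Ci * (u + 1) := by rw [hinn]; exact (hinner u hu0).2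
    have h0 : 0 ≤ innI u := by rw [hinn]; exact (hinner u hu0).1
    have h2 : (1 + s) * (f * X) * (T / (2 * Real.pi)) * innI u ≤
        (f * X * T) * (Ci * (u + 1)) := by
      have e1 : (1 + s) * (f * X) * (T / (2 * Real.pi)) =
        (f * X * T) * ((1 + s) / (2 * Real.pi)) := by field_simp
      rw [e1]
      have e2 : (1 + s) / (2 * Real.pi) ≤ 1 := by
        rw [div_le_one (by positivity)]; linarith
      have e3 : (f * X * T) * ((1 + s) / (2 * Real.pi)) ≤ f * X * T :=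
        mul_le_of_le_one_right (by positivity) e2
      exact mul_le_mul e3 h1 h0 (by positivity)
    have h3 : L * (u + 1) ≤ T * (u + 1) := mul_le_mul_of_nonneg_right hLT (by linarith)
    have h4 : (CM * X) * (T + L * (u + 1)) ≤ (CM * X) * (T + T * (u + 1)) :=
      mul_le_mul_of_nonneg_left (by linarith) (by positivity)
    have h5 : T * ((X * (f * Ci + CM)) * (u + 1) + X * CM) =
      (f * X * T) * (Ci * (u + 1)) + (CM * X) * (T + T * (u + 1)) := by ring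
    rw [h5]
    exact add_le_add h2 h4
  have hYi : IntervalIntegrable Yf volume 0 (β * L) := by
    have hc2 : Continuous innI := by rw [hinn]; exact SW_cont cK C0 hSelb
    rw [hYf]
    exact Continuous.intervalIntegrable (by fun_prop) _ _
  have hy1 : 0 ≤ X * (f * Ci + CM) := by positivity
  have hy2 : 0 ≤ X * CM := by positivity
  have k1 := hfam I (om X) (fun m => ‖tc (d m)‖) (fun m => LH (ψ m)) (fun m => aH (ψ m))
    T L (β * L) (((1 + 2 * η') * L) / 2) (X * (f * Ci + CM)) (X * CM) Yf hdata p1 p2 p3 p4 hLm1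
    hexp hy1 hy2 hms' hbd hYi
  have k2 := hfam' I (om X) (fun m => ‖tc (d m)‖) (fun m => LH (ψ m)) (fun m => aH (ψ m))
    T L (β * L) (((1 + 2 * η') * L) / 2) (X * (f * Ci + CM)) (X * CM) Yf hdata p1 p2 p3 p4 hLm1
    hexp hy1 hy2 hms' hbd hYi
  -- number of zeros
  obtain ⟨SN, hSN⟩ : ∃ SN, SN = ∑ m ∈ I, om X m * (NN (LH (ψ m)) T (2 * T) : ℝ) := ⟨_, rfl⟩
  have hN : W * ((1 - η) * (T / (2 * Real.pi) * L) - C * T) ≤ SN := by
    rw [hW, hSN, Finset.sum_mul]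
    refine Finset.sum_le_sum fun m hm => mul_le_mul_of_nonneg_left ?_ (hom m)
    have := hlow B η hη hη10 d ψ hq X T m hXexp (by rw [← hL]; exact hT1) hT2 (hI m hm)
    rw [← hL] at this
    exact this
  have hSN0 : 0 ≤ SN := by
    rw [hSN]; exact Finset.sum_nonneg fun m _ => mul_nonneg (hom m) (Nat.cast_nonneg _)
  have hη1m : 0 < 1 - η := by linarith
  have hN' : W * (T / (2 * Real.pi) * L - 5 * (2 * C / 5) * T) ≤ SN / (1 - η) := by
    rw [le_div_iff₀ hη1m]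
    refine le_trans ?_ hN
    have e1 : W * (T / (2 * Real.pi) * L - 5 * (2 * C / 5) * T) * (1 - η) =
      W * ((1 - η) * (T / (2 * Real.pi) * L) - 2 * (1 - η) * (C * T)) := by ring
    rw [e1]
    refine mul_le_mul_of_nonneg_left ?_ hW0
    have : C * T ≤ 2 * (1 - η) * (C * T) := by
      have h0 : 0 < C * T := by positivity
      exact le_mul_of_one_le_left h0.le (by linarith)
    linarith
  have hSNlow : X * T * L * (w / 8) ≤ SN := by
    refine le_trans ?_ hN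
    have e1 : T * L / 8 ≤ (1 - η) * (T / (2 * Real.pi) * L) - C * T := by
      have b1 : C * T ≤ T * L / 60 := by
        have := mul_le_mul_of_nonneg_right (q9.trans hLL0) hTpos.le
        linarith
      have b2 : 0.9 * (T / (2 * Real.pi) * L) ≤ (1 - η) * (T / (2 * Real.pi) * L) :=
        mul_le_mul_of_nonneg_right (by linarith) (by positivity)
      have b3 : T * L * (1 / 8 + 1 / 60) ≤ 0.9 * (T / (2 * Real.pi) * L) := by
        have c1 : 0.9 * (T / (2 * Real.pi) * L) = T * L * (0.45 / Real.pi) := by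
          field_simp; ring
        rw [c1]
        refine mul_le_mul_of_nonneg_left ?_ (by positivity)
        rw [le_div_iff₀ hpi]
        have := Real.pi_lt_d2
        linarith
      linarith
    calc X * T * L * (w / 8) = (w * X) * (T * L / 8) := by ring
      _ ≤ W * (T * L / 8) := mul_le_mul_of_nonneg_right hWI (by positivity)
      _ ≤ _ := mul_le_mul_of_nonneg_left e1 hW0
  have hs8L : s / 8 * L0 ≤ s / 8 * L := mul_le_mul_of_nonneg_left hLL0 (by positivity)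
  have hs2L : s / 2 * L0 ≤ s / 2 * L := mul_le_mul_of_nonneg_left hLL0 (by positivity)
  have hJ1 : (2 / (Real.sqrt Real.pi * (β * L))) * (∫ u in (0 : ℝ)..(β * L),
      Rw 1.414 (u / (β * L)) * Yf u) ≤ T / (2 * Real.pi) * L * W * (c' + ε1) := by
    have h1 := hYint (β * L) ((1 + s) * (f * X) * (T / (2 * Real.pi))) (CM * X) T L
      (by have := q4.trans hLL0; rw [div_le_iff₀ hβ] at this; linarith) (by positivity)
      (by positivity) hTpos.le (by linarith)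
    rw [← hJdef, ← hRdef] at h1
    have h2 := ms_parts (CM := CM) (R := R) hw hWI hXpos hs (by linarith : 1 ≤ L) hT1 hβL0 hβL hf hJ
      hR hCM hε1 (q7.trans hLL0)
    rw [hc'def]
    refine le_trans (mul_le_mul_of_nonneg_left ?_ (by positivity)) h2
    rw [hYf]
    exact h1
  have hs12 : Real.sqrt (X * (f * Ci + CM)) + Real.sqrt (X * CM) ≤ ε1 * L * Real.sqrt W :=
    sq_parts hw hWI hXpos hε1 (q8.trans hLL0)
  have core : ∀ (D : ℝ) (SM : ℝ), 0 < D → D ≤ CC →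
      SM ≤ W * (2 * (((1 + 2 * η') * L) / 2)) ^ 2 * R * T / (2 * Real.pi * (β * L)) +
        (2 / (Real.sqrt Real.pi * (β * L))) * (∫ u in (0 : ℝ)..(β * L),
          Rw 1.414 (u / (β * L)) * Yf u) +
      D * (W * ((((1 + 2 * η') * L) / 2) ^ 2 * L / (β * L) +
        (((1 + 2 * η') * L) / 2) * T / (β * L) +
        L * (((1 + 2 * η') * L) / 2)) + Real.sqrt W * (((1 + 2 * η') * L) / 2) * T *
          (Real.sqrt (X * (f * Ci + CM)) + Real.sqrt (X * CM)) / (β * L)) →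
      SM + (κ0 - κ1) * w / 8 * (X * T * L) ≤ κ0 * SN := by
    intro D SM hD hDC hSM0
    have hSM := core_shape hW0 hLm0 hTpos.le hβL0 (by linarith : 0 ≤ L) (by positivity) hD hSM0
    have h1 : SM ≤ (R / β + c' + s) * (SN / (1 - η)) := by
      refine H385.numeric_core β c' s R D (2 * C / 5) η' ε1 L T W _ SM _ _ hβ hc' hs hR hD
        (by positivity) hη' hη'10 hε1 (by linarith) hT1 hW0 hη'2 hε1a ?_ ?_ ?_ hJ1 hs12 hSM hN'
      · refine le_trans ?_ (q5.trans hs8L)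
        have : 0 ≤ (12 / β + 3) * (2 * Real.pi) := by positivity
        rw [mul_assoc, mul_assoc]
        exact mul_le_mul_of_nonneg_right hDC this
      · refine le_trans ?_ hε1b
        gcongr
      · exact q6.trans hs2L
    have h2 : (R / β + c' + s) * (SN / (1 - η)) ≤ κ1 * SN := by
      have e1 : κ1 * SN = (R / β + c' + s) * (SN / β) := by rw [hκ1def]; ring
      rw [e1]
      refine mul_le_mul_of_nonneg_left ?_ (by positivity)
      exact div_le_div_of_nonneg_left hSN0 hβ (by linarith)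
    have h3 : (κ0 - κ1) * w / 8 * (X * T * L) ≤ (κ0 - κ1) * SN := by
      have e1 : (κ0 - κ1) * w / 8 * (X * T * L) = (κ0 - κ1) * (X * T * L * (w / 8)) := by ring
      rw [e1]
      exact mul_le_mul_of_nonneg_left hSNlow (by linarith)
    have h4 : κ0 * SN = κ1 * SN + (κ0 - κ1) * SN := by ring
    rw [h4]
    exact add_le_add (h1.trans h2) h3
  rw [← hSN]
  constructor
  · refine core C1 _ hC1 hCCa ?_
    rw [← hW, ← hRdef] at k1
    exact k1
  · refine core C1' _ hC1' hCCb ?_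
    rw [← hW, ← hRdef] at k2
    exact k2

end Pool.Agent.N880.QI
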