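import Pool.Agent.N880.QI.Star
import Pool.Agent.N880.QI.Core
import Pool.Agent.N880.QF.Ms
import Pool.Agent.H385R2.Cut

/-! # The mean square over the family (Gaussian field) -/

set_option autoImplicit false

open Complex Filter Topology MeasureTheory Set
open H385 (ZI bt wt Rw lamK2 bt_norm wt_nonneg wt_le_one bt_sq_int wt_sq_int bt_cont)
open Pool.Agent.H304R3.HK (tc HC LH aH)

namespace Pool.Agent.N880.QI

namespace Ms

lemma main_nsq {B : ℕ} {X : ℝ} {m : ZI} (h : Main B X m) : ¬ IsSquare m := by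
  obtain ⟨_, k, b, h1, h2, h3, _, h5⟩ := h
  rw [h5]
  exact core_nsq h2 h3

lemma main_ne {B : ℕ} {X : ℝ} {m : ZI} (h : Main B X m) : m ≠ 0 := by
  rintro rfl
  exact main_nsq h IsSquare.zero

/-- the coefficient at the main primes -/
lemma chi_val {d₀ : ZI} {ψ₀ : ZI →* ℂ} {C : ℝ}
    (hk : ∀ k : ZI, Squarefree k →
    (∃ (d : ZI) (ψ : ZI →* ℂ), HC d ψ ∧ Att ψ₀ k ψ) ∧
    ∀ (d : ZI) (ψ : ZI →* ℂ), HC d ψ → Att ψ₀ k ψ →
      (∀ π : ZI, Prime π → ¬ π ∣ 2 → ¬ π ∣ d₀ → ψ π = ψ₀ π * ((sy k π : ℝ) : ℂ)) ∧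
      nz k ≤ C * nz d ∧ nz d ≤ C * nz k)
    {d : ZI → ZI} {ψ : ZI → (ZI →* ℂ)} (hD : QD ψ₀ d ψ)
    {B : ℕ} {X : ℝ} {m : ZI} (hm : Main B X m) {p : ZI} (hp : Prime p) (hp2 : ¬ p ∣ 2)
    (hpd : ¬ p ∣ d₀) (hpB : (B : ℝ) < nz p) :
    ψ m p = ψ₀ p * ((sy m p : ℝ) : ℂ) := by
  have hsq := main_nsq hm
  obtain ⟨_, k, b, h1, h2, h3, h4, h5⟩ := hm
  have hatt := hD.att m hsq
  have hatt2 : Att ψ₀ (k * b ^ 2) (ψ m) := by
    rw [← h5]; exact hatt
  have hka : Att ψ₀ k (ψ m) := core_att_of h3 hatt2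
  obtain ⟨h6, _⟩ := (hk k h1).2 (d m) (ψ m) (hD.hc m hsq) hka
  rw [h6 p hp hp2 hpd]
  have h7 : sy m p = sy k p := by
    rw [h5]
    exact core_sy_mul_sq hp (core_not_dvd h3 (lt_of_le_of_lt h4 hpB))
  rw [h7]

lemma om_pos (X : ℝ) (m : ZI) : 0 < om X m := Real.exp_pos _

/-- total weight -/
lemma om_total (hgs : S_gs) {X : ℝ} (hX : 0 < X) (I : Finset ZI) (hI : ∀ m ∈ I, m ≠ 0) :
    ∑ m ∈ I, om X m ≤ X := by
  classical
  have hY : 0 < 1 / X := by positivity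
  obtain ⟨h1, h2, _⟩ := hgs.1 (1 / X) hY
  have e : ∀ m : ZI, om X m = Real.exp (-(Real.pi * (nz m * (1 / X)))) := by
    intro m
    unfold om
    congr 3
    ring
  rw [one_div_one_div] at h2
  refine le_trans ?_ h2
  have hs : Summable (fun k : ZI => if k = 0 then 0 else
      Real.exp (-(Real.pi * (nz k * (1 / X))))) := by
    refine Summable.of_nonneg_of_le (fun k => ?_) (fun k => ?_) h1
    · split_ifs
      · exact le_rfl
      · exact (Real.exp_pos _).le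
    · split_ifs
      · exact (Real.exp_pos _).le
      · exact le_rfl
  refine le_trans (Finset.sum_le_sum fun m hm => ?_) (le_trans (hs.sum_le_tsum I fun m _ => ?_)
    (le_of_eq (tsum_congr fun k => ?_)))
  · rw [if_neg (hI m hm), e]
  · split_ifs
    · exact le_rfl
    · exact (Real.exp_pos _).le
  · split_ifs <;> rfl

lemma hc_norm_le {d₀ : ZI} {ψ₀ : ZI →* ℂ} (h0 : HC d₀ ψ₀) (p : ZI) : ‖ψ₀ p‖ ≤ 1 := by
  by_cases h : IsCoprime p d₀
  · exact (h0.nrm p h).le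
  · have : ψ₀ p = 0 := by
      by_contra h1
      exact h ((h0.supp p).1 h1)
    rw [this, norm_zero]
    exact zero_le_one

/-- the coefficients of the primes -/
noncomputable def yy (ψ₀ : ZI →* ℂ) (p : ZI) : ℂ :=
  ψ₀ p * (tc p / (‖tc p‖ : ℂ)) * (Real.log (nz p) / Real.sqrt (nz p) : ℝ)

lemma yy_norm {d₀ : ZI} {ψ₀ : ZI →* ℂ} (h0 : HC d₀ ψ₀) (p : ZI) (hp : 1 ≤ nz p) :
    ‖yy ψ₀ p‖ ≤ Real.log (nz p) / Real.sqrt (nz p) := by
  unfold yy
  rw [norm_mul, norm_mul, Complex.norm_real, Real.norm_eq_abs, norm_div, Complex.norm_real,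
    norm_norm]
  have h1 : ‖ψ₀ p‖ ≤ 1 := hc_norm_le h0 p
  have h2 : ‖tc p‖ / ‖tc p‖ ≤ 1 := div_self_le_one _
  have h3 : 0 ≤ Real.log (nz p) / Real.sqrt (nz p) := by
    have := Real.log_nonneg hp
    positivity
  rw [abs_of_nonneg h3]
  have h4 : ‖ψ₀ p‖ * (‖tc p‖ / ‖tc p‖) ≤ 1 :=
    mul_le_one₀ h1 (by positivity) h2
  exact mul_le_of_le_one_left h3 h4

lemma yy_sq {d₀ : ZI} {ψ₀ : ZI →* ℂ} (h0 : HC d₀ ψ₀) (p : ZI) (hp : 1 ≤ nz p) :
    ‖yy ψ₀ p‖ ^ 2 ≤ Real.log (nz p) ^ 2 / nz p := by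
  have h := pow_le_pow_left₀ (norm_nonneg _) (yy_norm h0 p hp) 2
  rwa [div_pow, Real.sq_sqrt (by linarith)] at h

lemma yy_abs {d₀ : ZI} {ψ₀ : ZI →* ℂ} (h0 : HC d₀ ψ₀) (p : ZI) (hp : 1 ≤ nz p) :
    ‖yy ψ₀ p‖ ≤ 2 := by
  refine (yy_norm h0 p hp).trans ?_
  have hp0 : 0 < nz p := by linarith
  rw [div_le_iff₀ (Real.sqrt_pos.2 hp0)]
  have h2 := Real.log_le_sub_one_of_pos (Real.sqrt_pos.2 hp0)
  rw [Real.log_sqrt hp0.le] at h2
  linarith

lemma main_sum_integrable {ι : Type} (P : Finset ι) (z : ι → ℂ) (ℓ : ι → ℝ) {T κ u : ℝ}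
    (hκ : 1 ≤ κ) (hT : 1 ≤ T) (hTκ : T ≤ Real.exp (κ ^ 2)) : Integrable (fun t : ℝ =>
      ‖∑ p ∈ P, z p * bt T u t (ℓ p)‖ ^ 2) := by
  obtain ⟨C, _, h⟩ := bt_sq_int
  have h1 : Integrable (fun t : ℝ => (P.card : ℝ) * ∑ p ∈ P, ‖z p‖ ^ 2 *
      ‖bt T u t (ℓ p)‖ ^ 2) :=
    (integrable_finsetSum P fun p _ =>
      (h T κ u (ℓ p) hκ hT hTκ).1.const_mul (‖z p‖ ^ 2)).const_mul (P.card : ℝ)
  have hcont : Continuous (fun t : ℝ => ‖∑ p ∈ P, z p * bt T u t (ℓ p)‖ ^ 2) := by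
    apply Continuous.pow
    apply Continuous.norm
    refine continuous_finsetSum _ fun p _ => continuous_const.mul ?_
    exact (bt_cont T (ℓ p)).comp (continuous_const.prodMk continuous_id)
  refine h1.mono' hcont.aestronglyMeasurable (Eventually.of_forall fun t => ?_)
  rw [Real.norm_eq_abs, abs_of_nonneg (by positivity)]
  have h2 : ‖∑ p ∈ P, z p * bt T u t (ℓ p)‖ ≤ ∑ p ∈ P, ‖z p‖ * ‖bt T u t (ℓ p)‖ := by
    refine (norm_sum_le _ _).trans (le_of_eq (Finset.sum_congr rfl fun p _ => ?_))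
    rw [norm_mul]
  calc _ ≤ (∑ p ∈ P, ‖z p‖ * ‖bt T u t (ℓ p)‖) ^ 2 := pow_le_pow_left₀ (norm_nonneg _) h2 2
    _ ≤ (P.card : ℝ) * ∑ p ∈ P, (‖z p‖ * ‖bt T u t (ℓ p)‖) ^ 2 := sq_sum_le_card_mul_sum_sq
    _ = _ := by
        congr 1
        refine Finset.sum_congr rfl fun p _ => ?_
        rw [mul_pow]

end Ms

open Ms

theorem ms_main (hstar : S_star) (hwin : S_win) (hrest : S_rest) (hchar : S_char) (hgs : S_gs)
    (hel : S_el) : S_ms := by
  intro d₀ ψ₀ h0 s ε B hs hε hε1 hB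
  obtain ⟨r1, r2, ⟨C5, hC5, r3⟩, r4⟩ := hrest
  obtain ⟨Ck, hCk, hk⟩ := hchar d₀ ψ₀ h0
  obtain ⟨-, -, -, -, e5, e6, e7, -, -, e10⟩ := hel
  set δ : ℝ := min s 1 / 10 with hδ
  have hδ0 : 0 < δ := by rw [hδ]; positivity
  have hδs : 10 * δ ≤ s := by
    have := min_le_left s 1
    rw [hδ]; linarith
  have hδ1 : 10 * δ ≤ 1 := by
    have := min_le_right s 1
    rw [hδ]; linarith
  set ε2 : ℝ := min (ε / 2) (1 / 20) with hε2
  have hε20 : 0 < ε2 := by rw [hε2]; positivity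
  have hε2a : ε2 ≤ ε / 2 := min_le_left _ _
  have hε2b : ε2 ≤ 1 / 20 := min_le_right _ _
  set B' : ℕ := B + ⌈nz d₀⌉₊ + 4 with hB'
  have hB'B : (B : ℝ) ≤ B' := by rw [hB']; push_cast; linarith [Nat.cast_nonneg (α := ℝ) ⌈nz d₀⌉₊]
  have hB'd : nz d₀ ≤ B' := by
    have h1 := Nat.le_ceil (nz d₀)
    rw [hB']; push_cast; linarith [Nat.cast_nonneg (α := ℝ) B]
  have hB'4 : (4 : ℝ) ≤ B' := by
    rw [hB']; push_cast
    linarith [Nat.cast_nonneg (α := ℝ) B, Nat.cast_nonneg (α := ℝ) ⌈nz d₀⌉₊]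
  obtain ⟨X1, hX1, hst⟩ := hstar δ (ε / 2) B hδ0 (by linarith) (by linarith)
  obtain ⟨C2, κ0, hC2, hκ0, hw⟩ := hwin δ hδ0
  obtain ⟨CR, hCR, hr⟩ := r4 B' ε2 hε20
  obtain ⟨C3, hC3, hwt⟩ := wt_sq_int
  refine ⟨4 * C2 * C5 + 2 * C2 * (324 * Real.exp 16) + (1 + 1 / δ) * CR ^ 2 * (1 + C3),
    max X1 (Real.exp κ0), by positivity, hX1.trans (le_max_left _ _), ?_⟩
  intro d ψ hD X T u I hX hT1 hT2 hu0 hu hI
  have hXX1 : X1 ≤ X := (le_max_left _ _).trans hX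
  have hX3 : 3 ≤ X := hX1.trans hXX1
  have hX0 : 0 < X := by linarith
  set L := Real.log X with hL
  have hLκ : κ0 ≤ L := by
    rw [hL, Real.le_log_iff_exp_le hX0]
    exact (le_max_right _ _).trans hX
  have hL1 : 1 ≤ L := hκ0.trans hLκ
  have hL0 : 0 < L := by linarith
  have hT1' : 1 ≤ T := by nlinarith
  have hT0 : 0 ≤ T := by linarith
  have hXe : X = Real.exp L := (Real.exp_log hX0).symm
  have hTκ : T ≤ Real.exp (L ^ 2) := by
    refine hT2.trans ?_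
    rw [hXe]
    apply Real.exp_le_exp.2
    nlinarith
  set P : Finset ZI := (r1 B' ε2 L u).toFinset with hP
  have hPiff : ∀ p, p ∈ P ↔ InP B' ε2 L u p := by
    intro p
    rw [hP, Set.Finite.mem_toFinset, Set.mem_setOf_eq]
  have hPm : ∀ p ∈ P, PZ p ∧ (B' : ℝ) < nz p ∧ |Real.log (nz p) - u| ≤ ε2 * L :=
    fun p hp => (hPiff p).1 hp
  have hPn : ∀ p ∈ P, 1 ≤ nz p := fun p hp => by linarith [(hPm p hp).2.1]
  have hreg : (∀ p ∈ P, Real.log (nz p) ≤ 45 / 100 * Real.log X) ∨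
      (∀ p ∈ P, 3 / 10 * Real.log X ≤ Real.log (nz p) ∧
        Real.log (nz p) ≤ (1 - ε / 2) * Real.log X) := by
    rcases le_or_gt u (3 / 8 * L) with h | h
    · left
      intro p hp
      have h1 := (abs_le.1 (hPm p hp).2.2).2
      have h2 : ε2 * L ≤ 1 / 20 * L := mul_le_mul_of_nonneg_right hε2b hL0.le
      linarith
    · right
      intro p hp
      have h1 := abs_le.1 (hPm p hp).2.2
      have h2 : ε2 * L ≤ 1 / 20 * L := mul_le_mul_of_nonneg_right hε2b hL0.le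
      have h3 : ε2 * L ≤ ε / 2 * L := mul_le_mul_of_nonneg_right hε2a hL0.le
      constructor
      · linarith [h1.1]
      · have : (1 - ε) * L + ε / 2 * L = (1 - ε / 2) * L := by ring
        linarith [h1.2]
  have hW : ∑ m ∈ I, om X m ≤ X := om_total hgs hX0 I fun m hm => main_ne (hI m hm)
  have hW0 : 0 ≤ ∑ m ∈ I, om X m := Finset.sum_nonneg fun m _ => (om_pos X m).le
  set W := ∑ m ∈ I, om X m with hWd
  have hu1 : u ≤ L := by nlinarith
  -- the pointwise bound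
  set M : ZI → ℝ → ℂ := fun m t => ∑ p ∈ P, ((sy m p : ℝ) : ℂ) * yy ψ₀ p *
    bt T u t (Real.log (nz p)) with hM
  have hpt : ∀ t : ℝ, ∑ m ∈ I, om X m * ‖∑' n : ℕ, aH (ψ m) n *
        ((Real.sqrt n : ℂ)⁻¹ * bt T u t (Real.log n))‖ ^ 2 ≤
      (1 + δ) * ∑ m ∈ I, om X m * ‖M m t‖ ^ 2 + (1 + 1 / δ) * (CR ^ 2 * W) * wt T t ^ 2 := by
    intro t
    have hwn := wt_nonneg T t hT0
    have hkk : ∀ m ∈ I, om X m * ‖∑' n : ℕ, aH (ψ m) n *
        ((Real.sqrt n : ℂ)⁻¹ * bt T u t (Real.log n))‖ ^ 2 ≤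
        om X m * ((1 + δ) * ‖M m t‖ ^ 2 + (1 + 1 / δ) * (CR * wt T t) ^ 2) := by
      intro m hm
      refine mul_le_mul_of_nonneg_left ?_ (om_pos X m).le
      have h1 := hr L u T t (d m) (ψ m) P hL1 hu0 hu1 hT0 (hD.hc m (main_nsq (hI m hm))) hPiff
      have h2 : ∑ p ∈ P, (ψ m p * (tc p / (‖tc p‖ : ℂ)) *
          (Real.log (nz p) / Real.sqrt (nz p) : ℝ)) * bt T u t (Real.log (nz p)) = M m t := by
        simp only [hM]
        refine Finset.sum_congr rfl fun p hp => ?_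
        obtain ⟨q1, q2, _⟩ := hPm p hp
        have hnp2 : ¬ p ∣ 2 := by
          refine core_not_dvd (by decide) ?_
          have : nz 2 = 4 := by
            unfold nz Zsqrtd.norm
            norm_num
          rw [this]
          linarith
        have hnpd : ¬ p ∣ d₀ := core_not_dvd h0.q0
          (lt_of_le_of_lt hB'd q2)
        rw [chi_val hk hD (hI m hm) (e7 p q1).1 hnp2 hnpd (lt_of_le_of_lt hB'B q2)]
        unfold yy
        ring
      rw [h2] at h1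
      have h3 := norm_le_norm_add_norm_sub' (∑' n : ℕ, aH (ψ m) n *
        ((Real.sqrt n : ℂ)⁻¹ * bt T u t (Real.log n))) (M m t)
      exact (pow_le_pow_left₀ (norm_nonneg _) (h3.trans (add_le_add le_rfl h1)) 2).trans
        (QF.sq_add_le hδ0 _ _)
    refine (Finset.sum_le_sum hkk).trans (le_of_eq ?_)
    rw [Finset.mul_sum, hWd, Finset.mul_sum, Finset.mul_sum, Finset.sum_mul,
      ← Finset.sum_add_distrib]
    refine Finset.sum_congr rfl fun m _ => ?_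
    ring
  -- integrability
  have hMi : ∀ m : ZI, Integrable (fun t => ‖M m t‖ ^ 2) := by
    intro m
    exact main_sum_integrable P (fun p => ((sy m p : ℝ) : ℂ) * yy ψ₀ p)
      (fun p => Real.log (nz p)) hL1 hT1' hTκ
  have hi1 : Integrable (fun t => ∑ m ∈ I, om X m * ‖M m t‖ ^ 2) :=
    integrable_finsetSum _ fun m _ => (hMi m).const_mul _
  have hi2 : Integrable (fun t => wt T t ^ 2) := (hwt T hT0).1
  have hint : Integrable (fun t => (1 + δ) * ∑ m ∈ I, om X m * ‖M m t‖ ^ 2 +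
      (1 + 1 / δ) * (CR ^ 2 * W) * wt T t ^ 2) := (hi1.const_mul _).add (hi2.const_mul _)
  refine (integral_mono_of_nonneg (Eventually.of_forall fun t =>
    Finset.sum_nonneg fun m _ => mul_nonneg (om_pos X m).le (by positivity)) hint
    (Eventually.of_forall hpt)).trans ?_
  rw [integral_add (hi1.const_mul _) (hi2.const_mul _), integral_const_mul, integral_const_mul]
  -- the window lemma
  have hwin1 := hw ZI ZI I (om X) sy P (fun p => Real.log (nz p)) (yy ψ₀) ((1 + δ) * X) L T u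
    (fun m _ => (om_pos X m).le) (fun m p => e5 m p)
    (fun p hp => Real.log_nonneg (hPn p hp)) hLκ hT1 (by positivity)
    (fun x => by
      have := hst X P I x hXX1 (fun p hp => ⟨(hPm p hp).1, lt_of_le_of_lt hB'B (hPm p hp).2.1⟩)
        hreg hI
      unfold GG at this
      exact this)
  have s1 : ∑ p ∈ P, ‖yy ψ₀ p‖ ^ 2 * Real.exp (-(u - Real.log (nz p)) ^ 2) ≤ innI u := by
    refine le_trans (Finset.sum_le_sum fun p hp => ?_) (r2 u P (fun p hp => (hPm p hp).1))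
    exact mul_le_mul_of_nonneg_right (yy_sq h0 p (hPn p hp)) (Real.exp_pos _).le
  have s2 : ∑ p ∈ P, ‖yy ψ₀ p‖ ^ 2 * Real.exp (-(u - Real.log (nz p)) ^ 2 / 2) ≤
      C5 * (u + 1) := by
    refine le_trans (Finset.sum_le_sum fun p hp => ?_) (r3 u P hu0 (fun p hp => (hPm p hp).1))
    exact mul_le_mul_of_nonneg_right (yy_sq h0 p (hPn p hp)) (Real.exp_pos _).le
  have s3 : Real.exp (-L ^ 2 / 16) * (∑ p ∈ P, ‖yy ψ₀ p‖) ^ 2 ≤ 324 * Real.exp 16 := by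
    have h1 : ∑ p ∈ P, ‖yy ψ₀ p‖ ≤ 18 * X := by
      have h2 : ∑ p ∈ P, ‖yy ψ₀ p‖ ≤ ∑ _p ∈ P, (2 : ℝ) :=
        Finset.sum_le_sum fun p hp => yy_abs h0 p (hPn p hp)
      rw [Finset.sum_const, nsmul_eq_mul] at h2
      have h3 : (P.card : ℝ) ≤ 9 * X := by
        refine e10 P X (by linarith) (fun p hp => ⟨(hPm p hp).1, ?_⟩)
        have h4 := (abs_le.1 (hPm p hp).2.2).2
        have : ε2 * L ≤ ε / 2 * L := mul_le_mul_of_nonneg_right hε2a hL0.le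
        rw [← hL]
        nlinarith
      linarith
    have h4 : (∑ p ∈ P, ‖yy ψ₀ p‖) ^ 2 ≤ (18 * X) ^ 2 :=
      pow_le_pow_left₀ (Finset.sum_nonneg fun p _ => norm_nonneg _) h1 2
    calc _ ≤ Real.exp (-L ^ 2 / 16) * (18 * X) ^ 2 :=
          mul_le_mul_of_nonneg_left h4 (Real.exp_pos _).le
      _ = 324 * Real.exp (-L ^ 2 / 16 + (L + L)) := by
          rw [Real.exp_add, Real.exp_add, ← hXe]; ring
      _ ≤ _ := by
          refine mul_le_mul_of_nonneg_left (Real.exp_le_exp.2 ?_) (by norm_num)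
          nlinarith [sq_nonneg (L - 16)]
  have hwtI := (hwt T hT0).2
  have hTp : 0 ≤ T / (2 * Real.pi) := by positivity
  have hI1n : 0 ≤ innI u := by
    have := r2 u ∅ (by simp)
    simpa using this
  have hwin2 : ∫ t : ℝ, ∑ m ∈ I, om X m * ‖M m t‖ ^ 2 ≤
      (1 + δ) * ((1 + δ) * (1 * X)) * (T / (2 * Real.pi)) * innI u +
      C2 * ((1 + δ) * (1 * X)) * L * (C5 * (u + 1)) + C2 * W * T * (324 * Real.exp 16) := by
    refine hwin1.trans ?_
    have b1 := mul_le_mul_of_nonneg_left s1 (show 0 ≤ (1 + δ) * ((1 + δ) * X) *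
      (T / (2 * Real.pi)) by positivity)
    have b2 := mul_le_mul_of_nonneg_left s2 (show 0 ≤ C2 * ((1 + δ) * X) * L by positivity)
    have b3 := mul_le_mul_of_nonneg_left s3 (show 0 ≤ C2 * W * T by positivity)
    rw [← hWd]
    have b4 : C2 * W * T * Real.exp (-L ^ 2 / 16) * (∑ p ∈ P, ‖yy ψ₀ p‖) ^ 2 =
      C2 * W * T * (Real.exp (-L ^ 2 / 16) * (∑ p ∈ P, ‖yy ψ₀ p‖) ^ 2) := by ring
    rw [b4, one_mul]
    linarith
  have hfin := QF.num_ms (δ := δ) (s := s) (f := 1) (X := X) (Tp := T / (2 * Real.pi))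
    (I1 := innI u) (C2 := C2) (C5 := C5) (Cw := 324 * Real.exp 16) (L := L)
    (u := u) (T := T) (W := W) (E16 := 324 * Real.exp 16) (CR := CR) (C3 := C3)
    hδ0 hs hδs hδ1 one_pos le_rfl hX0 hTp hI1n hC2 hC5 hL0 hu0 hT1' hW0 hW (by positivity) le_rfl
    (by positivity) hCR hC3
  have e1 : (1 + s) * (1 * X) * (T / (2 * Real.pi)) * innI u =
    (1 + s) * X * (T / (2 * Real.pi)) * innI u := by ring
  rw [e1] at hfin
  refine le_trans ?_ hfin
  refine add_le_add (mul_le_mul_of_nonneg_left hwin2 (by linarith)) ?_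
  exact mul_le_mul_of_nonneg_left hwtI (by positivity)

end Pool.Agent.N880.QI
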