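import Pool.Agent.N880.QI.Stm
import Pool.Agent.N767.QF.Win3

/-!
QI/G8: the window lemma for general index types and complex coefficients.
-/

set_option autoImplicit false

open Complex Filter Topology MeasureTheory Set
open H385 (bt wt)
open Pool.Agent.N767.QF (win_int interval_bound edge_double cs c1 c1_pos bt_near edge_weight)

namespace Pool.Agent.N880.QI

namespace Wn

variable {J ι : Type}

/-- the Dirichlet polynomial -/
noncomputable def EX (P : Finset ι) (ℓ z : ι → ℝ) (x : ι → ℂ) (u v : ℝ) : ℂ :=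
  ∑ p ∈ P, ((z p : ℝ) : ℂ) * x p * cexp (I * v * (u - ℓ p))

/-- the weighted sum of the squares -/
noncomputable def FX (I : Finset J) (ω : J → ℝ) (z : J → ι → ℝ) (P : Finset ι) (ℓ : ι → ℝ)
    (x : ι → ℂ) (u v : ℝ) : ℝ := ∑ i ∈ I, ω i * ‖EX P ℓ (z i) x u v‖ ^ 2

theorem EX_cont (P : Finset ι) (ℓ z : ι → ℝ) (x : ι → ℂ) (u : ℝ) :
    Continuous (fun v : ℝ => EX P ℓ z x u v) := by
  unfold EX
  fun_prop

theorem FX_cont (I : Finset J) (ω : J → ℝ) (z : J → ι → ℝ) (P : Finset ι) (ℓ : ι → ℝ) (x : ι → ℂ)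
    (u : ℝ) : Continuous (fun v : ℝ => FX I ω z P ℓ x u v) := by
  unfold FX
  refine continuous_finsetSum _ fun i _ => ?_
  exact continuous_const.mul ((EX_cont P ℓ (z i) x u).norm.pow 2)

theorem FX_nonneg {I : Finset J} {ω : J → ℝ} (hω : ∀ i ∈ I, 0 ≤ ω i) (z : J → ι → ℝ)
    (P : Finset ι) (ℓ : ι → ℝ) (x : ι → ℂ) (u v : ℝ) : 0 ≤ FX I ω z P ℓ x u v :=
  Finset.sum_nonneg fun i hi => mul_nonneg (hω i hi) (by positivity)

/-- the real quadratic form -/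
noncomputable def GF (P : Finset ι) (ℓ : ι → ℝ) (κ : ℝ) (z x : ι → ℝ) : ℝ :=
  ∑ p ∈ P, ∑ q ∈ P, x p * x q * (z p * z q) * Real.exp (-(κ ^ 2 * (ℓ p - ℓ q) ^ 2 / 4))

theorem EX_sq (P : Finset ι) (ℓ z : ι → ℝ) (x : ι → ℂ) (u v : ℝ) :
    ((‖EX P ℓ z x u v‖ ^ 2 : ℝ) : ℂ) =
    ∑ p ∈ P, ∑ q ∈ P, ((z p * z q : ℝ) : ℂ) * (x p * (starRingEnd ℂ) (x q)) *
      cexp (((v * (ℓ q - ℓ p) : ℝ) : ℂ) * I) := by
  have h1 : ((‖EX P ℓ z x u v‖ ^ 2 : ℝ) : ℂ) =
      EX P ℓ z x u v * (starRingEnd ℂ) (EX P ℓ z x u v) := by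
    rw [Complex.mul_conj, Complex.normSq_eq_norm_sq]
  rw [h1]
  unfold EX
  rw [map_sum, Finset.sum_mul_sum]
  refine Finset.sum_congr rfl fun p _ => ?_
  refine Finset.sum_congr rfl fun q _ => ?_
  rw [map_mul, map_mul, Complex.conj_ofReal, ← Complex.exp_conj]
  have h4 : (starRingEnd ℂ) (I * v * (u - ℓ q)) = -(I * v * (u - ℓ q)) := by
    simp only [map_mul, map_sub, Complex.conj_I, Complex.conj_ofReal]
    ring
  rw [h4]
  have h5 : cexp (((v * (ℓ q - ℓ p) : ℝ) : ℂ) * I) =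
      cexp (I * v * (u - ℓ p)) * cexp (-(I * v * (u - ℓ q))) := by
    rw [← Complex.exp_add]
    congr 1
    push_cast
    ring
  rw [h5]
  push_cast
  ring

theorem exp_win_int {κ : ℝ} (hκ : 0 < κ) (a b : ℝ) :
    Integrable (fun v : ℝ => cexp (((v * b : ℝ) : ℂ) * I) *
      ((Real.exp (-((v - a) / κ) ^ 2) : ℝ) : ℂ)) := by
  refine (win_int hκ a).mono' (by fun_prop) (Eventually.of_forall fun v => ?_)
  rw [norm_mul, Complex.norm_exp_ofReal_mul_I, one_mul, Complex.norm_real,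
    Real.norm_of_nonneg (Real.exp_pos _).le]

theorem exp_win {κ : ℝ} (hκ : 0 < κ) (a b : ℝ) :
    ∫ v : ℝ, cexp (((v * b : ℝ) : ℂ) * I) * ((Real.exp (-((v - a) / κ) ^ 2) : ℝ) : ℂ) =
      ((Real.sqrt Real.pi * κ * Real.exp (-(κ ^ 2 * b ^ 2 / 4)) : ℝ) : ℂ) *
        cexp (((a * b : ℝ) : ℂ) * I) := by
  have hκ2 : (0 : ℝ) < κ ^ 2 := by positivity
  have hκc : (κ : ℂ) ≠ 0 := by exact_mod_cast hκ.ne'
  have h1 : ∫ v : ℝ, cexp ((-(1 / (κ : ℂ) ^ 2)) * (v : ℂ) ^ 2 + (2 * a / (κ : ℂ) ^ 2 + I * b) * v +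
      (-((a : ℂ) ^ 2 / (κ : ℂ) ^ 2))) = _ :=
    integral_cexp_quadratic (b := -(1 / (κ : ℂ) ^ 2)) (by
      have : (-(1 / (κ : ℂ) ^ 2)) = ((-(1 / κ ^ 2) : ℝ) : ℂ) := by push_cast; ring
      rw [this, Complex.ofReal_re]
      have : 0 < 1 / κ ^ 2 := by positivity
      linarith) (2 * a / (κ : ℂ) ^ 2 + I * b) (-((a : ℂ) ^ 2 / (κ : ℂ) ^ 2))
  have h2 : (Real.pi / -(-(1 / (κ : ℂ) ^ 2)) : ℂ) ^ (1 / 2 : ℂ) = ((Real.sqrt Real.pi * κ : ℝ) : ℂ) := by
    have e : (Real.pi / -(-(1 / (κ : ℂ) ^ 2)) : ℂ) = ((Real.pi * κ ^ 2 : ℝ) : ℂ) := by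
      push_cast
      field_simp
    rw [e]
    have e2 : Real.sqrt Real.pi * κ = Real.sqrt (Real.pi * κ ^ 2) := by
      rw [Real.sqrt_mul Real.pi_pos.le, Real.sqrt_sq hκ.le]
    rw [e2, Real.sqrt_eq_rpow, Complex.ofReal_cpow (by positivity)]
    push_cast
    norm_num
  have h3 : -((a : ℂ) ^ 2 / (κ : ℂ) ^ 2) - (2 * a / (κ : ℂ) ^ 2 + I * b) ^ 2 / (4 * -(1 / (κ : ℂ) ^ 2)) =
      ((a * b : ℝ) : ℂ) * I + ((-(κ ^ 2 * b ^ 2 / 4) : ℝ) : ℂ) := by
    have hI : (I : ℂ) ^ 2 = -1 := I_sq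
    push_cast
    field_simp
    ring_nf
    rw [hI]
    ring
  rw [h2, h3] at h1
  have h4 : ∀ v : ℝ, cexp (((v * b : ℝ) : ℂ) * I) * ((Real.exp (-((v - a) / κ) ^ 2) : ℝ) : ℂ) =
      cexp ((-(1 / (κ : ℂ) ^ 2)) * (v : ℂ) ^ 2 + (2 * a / (κ : ℂ) ^ 2 + I * b) * v +
      (-((a : ℂ) ^ 2 / (κ : ℂ) ^ 2))) := by
    intro v
    rw [Complex.ofReal_exp, ← Complex.exp_add]
    congr 1
    push_cast
    field_simp
    ring
  simp_rw [h4]
  rw [h1, Complex.exp_add, ← Complex.ofReal_exp]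
  push_cast
  ring

theorem EX_win_intc {κ : ℝ} (hκ : 0 < κ) (P : Finset ι) (ℓ z : ι → ℝ) (x : ι → ℂ) (u a : ℝ) :
    Integrable (fun v : ℝ => ((‖EX P ℓ z x u v‖ ^ 2 : ℝ) : ℂ) *
      ((Real.exp (-((v - a) / κ) ^ 2) : ℝ) : ℂ)) := by
  simp_rw [EX_sq, Finset.sum_mul]
  refine integrable_finsetSum _ fun p _ => integrable_finsetSum _ fun q _ => ?_
  simp_rw [mul_assoc (((z p * z q : ℝ) : ℂ) * (x p * (starRingEnd ℂ) (x q)))]
  exact (exp_win_int hκ a _).const_mul _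

theorem EX_win_int {κ : ℝ} (hκ : 0 < κ) (P : Finset ι) (ℓ z : ι → ℝ) (x : ι → ℂ) (u a : ℝ) :
    Integrable (fun v : ℝ => ‖EX P ℓ z x u v‖ ^ 2 * Real.exp (-((v - a) / κ) ^ 2)) := by
  have h := (EX_win_intc hκ P ℓ z x u a).re
  refine h.congr (Eventually.of_forall fun v => ?_)
  simp only [RCLike.re_to_complex]
  rw [← Complex.ofReal_mul, Complex.ofReal_re]

/-- the Gaussian window as an integral -/
theorem EX_win {κ : ℝ} (hκ : 0 < κ) (P : Finset ι) (ℓ z : ι → ℝ) (x : ι → ℂ) (u a : ℝ) :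
    ∫ v : ℝ, ‖EX P ℓ z x u v‖ ^ 2 * Real.exp (-((v - a) / κ) ^ 2) =
      Real.sqrt Real.pi * κ * (GF P ℓ κ z (fun p => (x p * cexp (((-(a * ℓ p) : ℝ) : ℂ) * I)).re) +
        GF P ℓ κ z (fun p => (x p * cexp (((-(a * ℓ p) : ℝ) : ℂ) * I)).im)) := by
  have h1 : ((∫ v : ℝ, ‖EX P ℓ z x u v‖ ^ 2 * Real.exp (-((v - a) / κ) ^ 2) : ℝ) : ℂ) =
      ∑ p ∈ P, ∑ q ∈ P, ((z p * z q : ℝ) : ℂ) * (x p * (starRingEnd ℂ) (x q)) *
        (((Real.sqrt Real.pi * κ * Real.exp (-(κ ^ 2 * (ℓ q - ℓ p) ^ 2 / 4)) : ℝ) : ℂ) *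
        cexp (((a * (ℓ q - ℓ p) : ℝ) : ℂ) * I)) := by
    rw [← integral_complex_ofReal]
    simp_rw [Complex.ofReal_mul, EX_sq, Finset.sum_mul]
    rw [integral_finsetSum _ fun p _ => integrable_finsetSum _ fun q _ => by
      simp_rw [mul_assoc (((z p * z q : ℝ) : ℂ) * (x p * (starRingEnd ℂ) (x q)))]
      exact (exp_win_int hκ a _).const_mul _]
    refine Finset.sum_congr rfl fun p _ => ?_
    rw [integral_finsetSum _ fun q _ => by
      simp_rw [mul_assoc (((z p * z q : ℝ) : ℂ) * (x p * (starRingEnd ℂ) (x q)))]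
      exact (exp_win_int hκ a _).const_mul _]
    refine Finset.sum_congr rfl fun q _ => ?_
    simp_rw [mul_assoc (((z p * z q : ℝ) : ℂ) * (x p * (starRingEnd ℂ) (x q)))]
    rw [integral_const_mul, exp_win hκ]
    push_cast
    ring
  have h2 : ∫ v : ℝ, ‖EX P ℓ z x u v‖ ^ 2 * Real.exp (-((v - a) / κ) ^ 2) =
      (∑ p ∈ P, ∑ q ∈ P, ((z p * z q : ℝ) : ℂ) * (x p * (starRingEnd ℂ) (x q)) *
        (((Real.sqrt Real.pi * κ * Real.exp (-(κ ^ 2 * (ℓ q - ℓ p) ^ 2 / 4)) : ℝ) : ℂ) *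
        cexp (((a * (ℓ q - ℓ p) : ℝ) : ℂ) * I))).re := by
    rw [← h1, Complex.ofReal_re]
  rw [h2]
  unfold GF
  rw [Complex.re_sum, ← Finset.sum_add_distrib, Finset.mul_sum]
  refine Finset.sum_congr rfl fun p _ => ?_
  rw [Complex.re_sum, ← Finset.sum_add_distrib, Finset.mul_sum]
  refine Finset.sum_congr rfl fun q _ => ?_
  set wp := x p * cexp (((-(a * ℓ p) : ℝ) : ℂ) * I) with hwp
  set wq := x q * cexp (((-(a * ℓ q) : ℝ) : ℂ) * I) with hwq
  have h3 : ((z p * z q : ℝ) : ℂ) * (x p * (starRingEnd ℂ) (x q)) *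
        (((Real.sqrt Real.pi * κ * Real.exp (-(κ ^ 2 * (ℓ q - ℓ p) ^ 2 / 4)) : ℝ) : ℂ) *
        cexp (((a * (ℓ q - ℓ p) : ℝ) : ℂ) * I)) =
      ((z p * z q * (Real.sqrt Real.pi * κ * Real.exp (-(κ ^ 2 * (ℓ q - ℓ p) ^ 2 / 4))) : ℝ) : ℂ) *
        (wp * (starRingEnd ℂ) wq) := by
    have h4 : (starRingEnd ℂ) wq = (starRingEnd ℂ) (x q) * cexp (((a * ℓ q : ℝ) : ℂ) * I) := by
      rw [hwq, map_mul, ← Complex.exp_conj]
      congr 2
      rw [map_mul, Complex.conj_I, Complex.conj_ofReal]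
      push_cast
      ring
    have h5 : cexp (((a * (ℓ q - ℓ p) : ℝ) : ℂ) * I) =
        cexp (((-(a * ℓ p) : ℝ) : ℂ) * I) * cexp (((a * ℓ q : ℝ) : ℂ) * I) := by
      rw [← Complex.exp_add]
      congr 1
      push_cast
      ring
    rw [h4, h5, hwp]
    push_cast
    ring
  rw [h3, Complex.re_ofReal_mul, Complex.mul_re, Complex.conj_re, Complex.conj_im,
    show (ℓ q - ℓ p) ^ 2 = (ℓ p - ℓ q) ^ 2 by ring]
  ring

theorem FX_win_int {κ : ℝ} (hκ : 0 < κ) (I : Finset J) (ω : J → ℝ) (z : J → ι → ℝ)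
    (P : Finset ι) (ℓ : ι → ℝ) (x : ι → ℂ) (u a : ℝ) :
    Integrable (fun v : ℝ => FX I ω z P ℓ x u v * Real.exp (-((v - a) / κ) ^ 2)) := by
  unfold FX
  simp_rw [Finset.sum_mul, mul_assoc]
  exact integrable_finsetSum _ fun i _ => (EX_win_int hκ P ℓ (z i) x u a).const_mul _

theorem FX_win {κ A : ℝ} (hκ : 0 < κ) (I : Finset J) (ω : J → ℝ) (z : J → ι → ℝ)
    (P : Finset ι) (ℓ : ι → ℝ)
    (hyp : ∀ x : ι → ℝ, ∑ i ∈ I, ω i * GF P ℓ κ (z i) x ≤ A * ∑ p ∈ P, x p ^ 2)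
    (x : ι → ℂ) (u a : ℝ) :
    ∫ v : ℝ, FX I ω z P ℓ x u v * Real.exp (-((v - a) / κ) ^ 2) ≤
      Real.sqrt Real.pi * κ * (A * ∑ p ∈ P, ‖x p‖ ^ 2) := by
  have h1 : ∫ v : ℝ, FX I ω z P ℓ x u v * Real.exp (-((v - a) / κ) ^ 2) =
      Real.sqrt Real.pi * κ *
        (∑ i ∈ I, ω i * GF P ℓ κ (z i) (fun p => (x p * cexp (((-(a * ℓ p) : ℝ) : ℂ) * Complex.I)).re) +
        ∑ i ∈ I, ω i * GF P ℓ κ (z i)
          (fun p => (x p * cexp (((-(a * ℓ p) : ℝ) : ℂ) * Complex.I)).im)) := by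
    unfold FX
    simp_rw [Finset.sum_mul, mul_assoc]
    rw [integral_finsetSum _ fun i _ => (EX_win_int hκ P ℓ (z i) x u a).const_mul _,
      ← Finset.sum_add_distrib, Finset.mul_sum, Finset.mul_sum]
    refine Finset.sum_congr rfl fun i _ => ?_
    rw [integral_const_mul, EX_win hκ]
    ring
  rw [h1]
  have h2 := hyp (fun p => (x p * cexp (((-(a * ℓ p) : ℝ) : ℂ) * Complex.I)).re)
  have h3 := hyp (fun p => (x p * cexp (((-(a * ℓ p) : ℝ) : ℂ) * Complex.I)).im)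
  have h4 : ∑ p ∈ P, ‖x p‖ ^ 2 =
      ∑ p ∈ P, (x p * cexp (((-(a * ℓ p) : ℝ) : ℂ) * Complex.I)).re ^ 2 +
      ∑ p ∈ P, (x p * cexp (((-(a * ℓ p) : ℝ) : ℂ) * Complex.I)).im ^ 2 := by
    rw [← Finset.sum_add_distrib]
    refine Finset.sum_congr rfl fun p _ => ?_
    have h5 : ‖x p‖ = ‖x p * cexp (((-(a * ℓ p) : ℝ) : ℂ) * Complex.I)‖ := by
      rw [norm_mul, Complex.norm_exp_ofReal_mul_I, mul_one]
    rw [h5, ← Complex.normSq_eq_norm_sq, Complex.normSq_apply]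
    ring
  rw [h4]
  refine mul_le_mul_of_nonneg_left ?_ (by positivity)
  linarith

/-- the smoothed sum -/
noncomputable def SS (P : Finset ι) (ℓ z : ι → ℝ) (y : ι → ℂ) (T u t : ℝ) : ℂ :=
  ∑ p ∈ P, ((z p : ℝ) : ℂ) * y p * bt T u t (ℓ p)

noncomputable def x1 (u : ℝ) (ℓ : ι → ℝ) (y : ι → ℂ) (p : ι) : ℂ :=
  y p * ((Real.exp (-(u - ℓ p) ^ 2 / 4) : ℝ) : ℂ)

noncomputable def x2 (u : ℝ) (ℓ : ι → ℝ) (y : ι → ℂ) (p : ι) : ℂ :=
  y p * ((Real.exp (-(u - ℓ p) ^ 2 / 2) : ℝ) : ℂ)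

theorem SS_cont (P : Finset ι) (ℓ z : ι → ℝ) (y : ι → ℂ) (T u : ℝ) : Continuous (fun t => SS P ℓ z y T u t) := by
  unfold SS
  refine continuous_finsetSum _ fun p _ => continuous_const.mul ?_
  exact (H385.bt_cont T (ℓ p)).comp (by fun_prop : Continuous fun t : ℝ => (u, t))

theorem SS_eq (P : Finset ι) (ℓ z : ι → ℝ) (y : ι → ℂ) (T u t : ℝ) : SS P ℓ z y T u t =
    (c1 : ℂ) * ∫ τ in T..(2 * T), (Real.exp (-(t - τ) ^ 2 / 4) : ℂ) *
      EX P ℓ z (x1 u ℓ y) u ((t + τ) / 2) := by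
  have h1 : ∀ τ : ℝ, (Real.exp (-(t - τ) ^ 2 / 4) : ℂ) * EX P ℓ z (x1 u ℓ y) u ((t + τ) / 2) =
      ∑ p ∈ P, (((z p : ℝ) : ℂ) * x1 u ℓ y p) * ((Real.exp (-(t - τ) ^ 2 / 4) : ℂ) *
        cexp (I * ((t + τ) / 2) * (u - ℓ p))) := by
    intro τ
    unfold EX
    rw [Finset.mul_sum]
    refine Finset.sum_congr rfl fun p _ => ?_
    push_cast
    ring
  have hint : ∀ p ∈ P, IntervalIntegrable (fun τ : ℝ => (((z p : ℝ) : ℂ) * x1 u ℓ y p) *
      ((Real.exp (-(t - τ) ^ 2 / 4) : ℂ) * cexp (I * ((t + τ) / 2) * (u - ℓ p))))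
      volume T (2 * T) := fun p _ =>
    ((H385.Cut.bt_int_cont u t (ℓ p)).intervalIntegrable _ _).const_mul _
  simp_rw [h1]
  rw [intervalIntegral.integral_finsetSum hint, Finset.mul_sum]
  unfold SS
  refine Finset.sum_congr rfl fun p _ => ?_
  rw [intervalIntegral.integral_const_mul, H385.Cut.bt_eq]
  unfold H385.Cut.JJ x1 c1
  push_cast
  ring

/-- the middle of the interval -/
theorem SS_near {P : Finset ι} {ℓ z : ι → ℝ} {y : ι → ℂ} (hz : ∀ p, |z p| ≤ 1) {T κ u t d : ℝ} (hκ : 0 ≤ κ)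
    (hd : 0 < d) (h1 : T + κ ≤ t) (h2 : t ≤ 2 * T - κ) :
    ‖SS P ℓ z y T u t‖ ^ 2 ≤ (1 + d) / (2 * Real.pi) * ‖EX P ℓ z (x2 u ℓ y) u t‖ ^ 2 +
      (1 + 1 / d) / (2 * Real.pi) * Real.exp (-κ ^ 2 / 2) * (∑ p ∈ P, ‖y p‖) ^ 2 := by
  have hs2 := H385.Cut.sqrt_2pi_pos
  have hsq : Real.sqrt (2 * Real.pi) ^ 2 = 2 * Real.pi := Real.sq_sqrt (by positivity)
  set r := 1 / Real.sqrt (2 * Real.pi) with hr
  have hr0 : 0 < r := by positivity
  have hr2 : r ^ 2 = 1 / (2 * Real.pi) := by rw [hr, div_pow, hsq, one_pow]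
  have h3 : ‖SS P ℓ z y T u t - (r : ℂ) * EX P ℓ z (x2 u ℓ y) u t‖ ≤
      r * Real.exp (-κ ^ 2 / 4) * ∑ p ∈ P, ‖y p‖ := by
    have e : SS P ℓ z y T u t - (r : ℂ) * EX P ℓ z (x2 u ℓ y) u t = ∑ p ∈ P, ((z p : ℝ) : ℂ) * y p *
        (bt T u t (ℓ p) - ((r * Real.exp (-(u - ℓ p) ^ 2 / 2) : ℝ) : ℂ) *
          cexp (I * t * (u - ℓ p))) := by
      unfold SS EX x2
      rw [Finset.mul_sum, ← Finset.sum_sub_distrib]
      refine Finset.sum_congr rfl fun p _ => ?_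
      push_cast
      ring
    rw [e, Finset.mul_sum]
    refine (norm_sum_le _ _).trans (Finset.sum_le_sum fun p _ => ?_)
    rw [norm_mul, norm_mul, Complex.norm_real, Real.norm_eq_abs]
    have h4 := bt_near (u := u) (ℓ := ℓ p) hκ h1 h2
    have h5 : |z p| * ‖y p‖ ≤ ‖y p‖ := by
      have := hz p
      nlinarith [norm_nonneg (y p)]
    calc |z p| * ‖y p‖ * _ ≤ ‖y p‖ * (r * Real.exp (-κ ^ 2 / 4)) :=
          mul_le_mul h5 h4 (norm_nonneg _) (norm_nonneg _)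
      _ = _ := by ring
  have h4 : ‖SS P ℓ z y T u t‖ ≤ r * ‖EX P ℓ z (x2 u ℓ y) u t‖ +
      r * Real.exp (-κ ^ 2 / 4) * ∑ p ∈ P, ‖y p‖ := by
    have h5 := norm_sub_norm_le (SS P ℓ z y T u t) ((r : ℂ) * EX P ℓ z (x2 u ℓ y) u t)
    rw [norm_mul, Complex.norm_real, Real.norm_of_nonneg hr0.le] at h5
    linarith
  set X := ‖EX P ℓ z (x2 u ℓ y) u t‖ with hX
  set Y := ∑ p ∈ P, ‖y p‖ with hY
  have hY0 : 0 ≤ Y := Finset.sum_nonneg fun p _ => norm_nonneg _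
  have hee : Real.exp (-κ ^ 2 / 2) = Real.exp (-κ ^ 2 / 4) ^ 2 := by
    rw [← Real.exp_nat_mul]
    congr 1
    push_cast
    ring
  have h6 : ‖SS P ℓ z y T u t‖ ^ 2 ≤ (r * X + r * Real.exp (-κ ^ 2 / 4) * Y) ^ 2 :=
    pow_le_pow_left₀ (norm_nonneg _) h4 2
  have h7 : (r * X + r * Real.exp (-κ ^ 2 / 4) * Y) ^ 2 ≤
      (1 + d) * (r * X) ^ 2 + (1 + 1 / d) * (r * Real.exp (-κ ^ 2 / 4) * Y) ^ 2 := by
    have h8 : 0 ≤ d * (r * X) ^ 2 + 1 / d * (r * Real.exp (-κ ^ 2 / 4) * Y) ^ 2 -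
        2 * (r * X) * (r * Real.exp (-κ ^ 2 / 4) * Y) := by
      have h9 : d * (r * X) ^ 2 + 1 / d * (r * Real.exp (-κ ^ 2 / 4) * Y) ^ 2 -
        2 * (r * X) * (r * Real.exp (-κ ^ 2 / 4) * Y) =
        1 / d * (d * (r * X) - (r * Real.exp (-κ ^ 2 / 4) * Y)) ^ 2 := by
        field_simp
        ring
      rw [h9]
      positivity
    nlinarith
  calc ‖SS P ℓ z y T u t‖ ^ 2 ≤ _ := h6.trans h7
    _ = (1 + d) * r ^ 2 * X ^ 2 + (1 + 1 / d) * r ^ 2 * Real.exp (-κ ^ 2 / 4) ^ 2 * Y ^ 2 := by ring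
    _ = _ := by rw [hr2, hee]; ring

/-- every point: Cauchy-Schwarz -/
theorem SS_cs {P : Finset ι} {ℓ z : ι → ℝ} {y : ι → ℂ} {T u t : ℝ} (hT : 0 < T) :
    ‖SS P ℓ z y T u t‖ ^ 2 ≤ c1 ^ 2 * (2 * Real.sqrt Real.pi) *
      ∫ τ in T..(2 * T), Real.exp (-(t - τ) ^ 2 / 4) * ‖EX P ℓ z (x1 u ℓ y) u ((t + τ) / 2)‖ ^ 2 := by
  have hw : Continuous (fun τ : ℝ => Real.exp (-(t - τ) ^ 2 / 4)) := by fun_prop
  have hE : Continuous (fun τ : ℝ => EX P ℓ z (x1 u ℓ y) u ((t + τ) / 2)) :=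
    (EX_cont P ℓ z (x1 u ℓ y) u).comp (by fun_prop)
  have hf : Continuous (fun τ : ℝ => ‖EX P ℓ z (x1 u ℓ y) u ((t + τ) / 2)‖) := hE.norm
  have h1 := cs hw hf (fun τ => Real.exp_pos _) (show T < 2 * T by linarith)
  have h2 : ‖∫ τ in T..(2 * T), (Real.exp (-(t - τ) ^ 2 / 4) : ℂ) *
      EX P ℓ z (x1 u ℓ y) u ((t + τ) / 2)‖ ≤
      ∫ τ in T..(2 * T), Real.exp (-(t - τ) ^ 2 / 4) * ‖EX P ℓ z (x1 u ℓ y) u ((t + τ) / 2)‖ := by
    refine (intervalIntegral.norm_integral_le_integral_norm (by linarith)).trans (le_of_eq ?_)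
    congr 1
    ext τ
    rw [norm_mul, Complex.norm_real, Real.norm_of_nonneg (Real.exp_pos _).le]
  have h3 : ∫ τ in T..(2 * T), Real.exp (-(t - τ) ^ 2 / 4) ≤ 2 * Real.sqrt Real.pi := by
    have h4 := H385.Cut.interval_le (H385.Cut.int_gauss_shift H385.Cut.hq t)
      (fun τ => (Real.exp_pos _).le) (show T ≤ 2 * T by linarith)
    rw [H385.Cut.integral_gauss_shift, H385.Cut.sqrt_pi_quarter] at h4
    refine le_trans (le_of_eq ?_) h4
    congr 1
    ext τ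
    congr 1
    ring
  have h5 : 0 ≤ ∫ τ in T..(2 * T), Real.exp (-(t - τ) ^ 2 / 4) *
      ‖EX P ℓ z (x1 u ℓ y) u ((t + τ) / 2)‖ ^ 2 :=
    intervalIntegral.integral_nonneg (by linarith) fun τ _ => by positivity
  rw [SS_eq, norm_mul, Complex.norm_real, Real.norm_of_nonneg c1_pos.le, mul_pow, mul_assoc]
  refine mul_le_mul_of_nonneg_left ?_ (sq_nonneg _)
  calc _ ≤ _ := pow_le_pow_left₀ (norm_nonneg _) h2 2
    _ ≤ _ := h1
    _ ≤ _ := mul_le_mul_of_nonneg_right h3 h5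


end Wn

open Wn in
set_option maxHeartbeats 2000000 in
/-- the window lemma -/
theorem win_main : S_win := by
  intro δ hδ
  set δ' := min δ 1 with hδ'
  have hδ0 : 0 < δ' := lt_min hδ one_pos
  have hδ1 : δ' ≤ 1 := min_le_right _ _
  have hδδ : δ' ≤ δ := min_le_left _ _
  set K := 8 / δ' with hK
  have hK8 : 8 ≤ K := by rw [hK, le_div_iff₀ hδ0]; nlinarith
  have hK0 : 0 < K := by linarith
  have hKe : Real.exp (-K ^ 2) ≤ δ' / 8 := by
    have h1 : Real.exp (-K ^ 2) ≤ Real.exp (-K) := Real.exp_le_exp.2 (by nlinarith)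
    have h2 : Real.exp (-K) ≤ 1 / K := by
      rw [Real.exp_neg, one_div]
      exact inv_anti₀ hK0 (by linarith [Real.add_one_le_exp K])
    have h3 : 1 / K = δ' / 8 := by rw [hK]; field_simp
    linarith
  set d := δ' / 8 with hd
  have hd0 : 0 < d := by positivity
  have hpi := Real.pi_pos
  have hsp := H385.Cut.sqrt_pi_pos
  set Ce := c1 ^ 2 * (2 * Real.sqrt Real.pi) * Real.exp 2 * Real.sqrt (8 * Real.pi) *
    (2 * Real.sqrt Real.pi) with hCe
  have hCe0 : 0 < Ce := by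
    have := c1_pos
    positivity
  set Cm := (1 + 1 / d) / (2 * Real.pi) with hCm
  have hCm0 : 0 < Cm := by positivity
  refine ⟨Ce + Cm, max 2 (2 * K * (8 / δ')), by positivity, le_max_of_le_left (by norm_num), ?_⟩
  intro J ι I ω z P ℓ y A κ T u hω hz hP hκ0 hκT hA hyp
  have hκ2 : 2 ≤ κ := (le_max_left _ _).trans hκ0
  have hκ : 0 < κ := by linarith
  have hT : 0 < T := by nlinarith
  have hKκ : 2 * K * κ ≤ δ' / 8 * T := by
    have h1 : 2 * K * (8 / δ') ≤ κ := (le_max_right _ _).trans hκ0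
    have h2 : 2 * K ≤ δ' / 8 * κ := by
      have h3 : 2 * K = δ' / 8 * (2 * K * (8 / δ')) := by field_simp
      rw [h3]
      exact mul_le_mul_of_nonneg_left h1 (by positivity)
    calc 2 * K * κ ≤ δ' / 8 * κ * κ := mul_le_mul_of_nonneg_right h2 hκ.le
      _ = δ' / 8 * κ ^ 2 := by ring
      _ ≤ _ := mul_le_mul_of_nonneg_left hκT (by positivity)
  -- windows
  have hwin : ∀ (x : ι → ℂ) (a : ℝ), ∫ v : ℝ, FX I ω z P ℓ x u v * Real.exp (-((v - a) / κ) ^ 2) ≤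
      Real.sqrt Real.pi * κ * (A * ∑ p ∈ P, ‖x p‖ ^ 2) := by
    intro x a
    exact FX_win hκ I ω z P ℓ hyp x u a
  set Q2 := ∑ p ∈ P, ‖y p‖ ^ 2 * Real.exp (-(u - ℓ p) ^ 2) with hQ2
  set Q1 := ∑ p ∈ P, ‖y p‖ ^ 2 * Real.exp (-(u - ℓ p) ^ 2 / 2) with hQ1
  set Y := ∑ p ∈ P, ‖y p‖ with hY
  set W := ∑ i ∈ I, ω i with hW
  have hW0 : 0 ≤ W := Finset.sum_nonneg hω
  have hx2 : ∑ p ∈ P, ‖x2 u ℓ y p‖ ^ 2 = Q2 := by
    refine Finset.sum_congr rfl fun p _ => ?_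
    unfold x2
    rw [norm_mul, Complex.norm_real, Real.norm_of_nonneg (Real.exp_pos _).le, mul_pow,
      ← Real.exp_nat_mul]
    congr 2
    push_cast
    ring
  have hx1 : ∑ p ∈ P, ‖x1 u ℓ y p‖ ^ 2 = Q1 := by
    refine Finset.sum_congr rfl fun p _ => ?_
    unfold x1
    rw [norm_mul, Complex.norm_real, Real.norm_of_nonneg (Real.exp_pos _).le, mul_pow,
      ← Real.exp_nat_mul]
    congr 2
    push_cast
    ring
  have hQ10 : 0 ≤ Q1 := Finset.sum_nonneg fun p _ => by positivity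
  have hQ20 : 0 ≤ Q2 := Finset.sum_nonneg fun p _ => by positivity
  set G2 := fun v : ℝ => FX I ω z P ℓ (x2 u ℓ y) u v with hG2
  set G1 := fun v : ℝ => FX I ω z P ℓ (x1 u ℓ y) u v with hG1
  have hG2c : Continuous G2 := FX_cont _ _ _ _ _ _ _
  have hG1c : Continuous G1 := FX_cont _ _ _ _ _ _ _
  have hG20 : ∀ v, 0 ≤ G2 v := fun v => FX_nonneg hω _ _ _ _ _ _
  have hG10 : ∀ v, 0 ≤ G1 v := fun v => FX_nonneg hω _ _ _ _ _ _
  -- the middle part
  have hmid : ∫ v in T..(2 * T), G2 v ≤ (1 + δ' / 8) / (1 - δ' / 8) * (T * (A * Q2)) := by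
    have h1 := interval_bound hG2c hG20 hκ (fun a => FX_win_int hκ I ω z P ℓ (x2 u ℓ y) u a)
      (fun a => hwin (x2 u ℓ y) a) (show T ≤ 2 * T by linarith) hK0.le
    rw [hx2] at h1
    have hint0 : 0 ≤ ∫ v in T..(2 * T), G2 v :=
      intervalIntegral.integral_nonneg (by linarith) fun v _ => hG20 v
    have hr : 0 < Real.sqrt Real.pi * κ := by positivity
    have h2 : (1 - Real.exp (-K ^ 2)) * (∫ v in T..(2 * T), G2 v) ≤
        (2 * T - T + 2 * K * κ) * (A * Q2) := by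
      have h3 : (Real.sqrt Real.pi * κ) * ((1 - Real.exp (-K ^ 2)) * (∫ v in T..(2 * T), G2 v)) ≤
          (Real.sqrt Real.pi * κ) * ((2 * T - T + 2 * K * κ) * (A * Q2)) := by
        calc _ = (1 - Real.exp (-K ^ 2)) * (Real.sqrt Real.pi * κ) * ∫ v in T..(2 * T), G2 v := by
              ring
          _ ≤ _ := h1
          _ = _ := by ring
      exact le_of_mul_le_mul_left h3 hr
    have h4 : (1 - δ' / 8) * (∫ v in T..(2 * T), G2 v) ≤ (1 + δ' / 8) * (T * (A * Q2)) := by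
      have h5 : (1 - δ' / 8) * (∫ v in T..(2 * T), G2 v) ≤
          (1 - Real.exp (-K ^ 2)) * (∫ v in T..(2 * T), G2 v) :=
        mul_le_mul_of_nonneg_right (by linarith) hint0
      have h6 : (2 * T - T + 2 * K * κ) * (A * Q2) ≤ (T + δ' / 8 * T) * (A * Q2) :=
        mul_le_mul_of_nonneg_right (by linarith) (by positivity)
      calc _ ≤ _ := h5
        _ ≤ _ := h2
        _ ≤ _ := h6
        _ = _ := by ring
    rw [div_mul_eq_mul_div, le_div_iff₀ (by linarith)]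
    linarith
  -- the function
  set Φ := fun t : ℝ => ∑ i ∈ I, ω i * ‖SS P ℓ (z i) y T u t‖ ^ 2 with hΦ
  have hΦc : Continuous Φ :=
    continuous_finsetSum _ fun i _ => continuous_const.mul ((SS_cont P ℓ (z i) y T u).norm.pow 2)
  have hΦ0 : ∀ t, 0 ≤ Φ t := fun t => Finset.sum_nonneg fun i hi => mul_nonneg (hω i hi) (by positivity)
  have hΦmid : ∀ t ∈ Icc (T + κ) (2 * T - κ), Φ t ≤ (1 + d) / (2 * Real.pi) * G2 t +
      Cm * Real.exp (-κ ^ 2 / 2) * Y ^ 2 * W := by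
    intro t ht
    calc Φ t ≤ ∑ i ∈ I, ω i * ((1 + d) / (2 * Real.pi) * ‖EX P ℓ (z i) (x2 u ℓ y) u t‖ ^ 2 +
          (1 + 1 / d) / (2 * Real.pi) * Real.exp (-κ ^ 2 / 2) * (∑ p ∈ P, ‖y p‖) ^ 2) :=
          Finset.sum_le_sum fun i hi => mul_le_mul_of_nonneg_left
            (SS_near (hz i) hκ.le hd0 ht.1 ht.2) (hω i hi)
      _ = _ := by
          simp only [hG2, FX, mul_add, Finset.sum_add_distrib, Finset.mul_sum, hW, hCm, hY]
          congr 1
          · refine Finset.sum_congr rfl fun i _ => ?_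
            ring
          · refine Finset.sum_congr rfl fun i _ => ?_
            ring
  set H := fun v : ℝ => G1 v * (Real.exp (-((v - T) / κ) ^ 2) +
    Real.exp (-((v - 2 * T) / κ) ^ 2)) with hH
  have hHc : Continuous H := by
    rw [hH]
    exact hG1c.mul (by fun_prop)
  have hH0 : ∀ v, 0 ≤ H v := fun v => mul_nonneg (hG10 v) (by positivity)
  have hHi : Integrable H := by
    have h1 := (FX_win_int hκ I ω z P ℓ (x1 u ℓ y) u T).add (FX_win_int hκ I ω z P ℓ (x1 u ℓ y) u (2 * T))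
    refine h1.congr (Eventually.of_forall fun v => ?_)
    simp only [Pi.add_apply, hH, hG1]
    ring
  have hHint : ∫ v, H v ≤ 2 * (Real.sqrt Real.pi * κ * (A * Q1)) := by
    have e : ∫ v, H v = (∫ v, G1 v * Real.exp (-((v - T) / κ) ^ 2)) +
        ∫ v, G1 v * Real.exp (-((v - 2 * T) / κ) ^ 2) := by
      rw [← integral_add (FX_win_int hκ I ω z P ℓ (x1 u ℓ y) u T)
        (FX_win_int hκ I ω z P ℓ (x1 u ℓ y) u (2 * T))]
      refine integral_congr_ae (Eventually.of_forall fun v => ?_)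
      simp only [hH]
      ring
    have h1 := hwin (x1 u ℓ y) T
    have h2 := hwin (x1 u ℓ y) (2 * T)
    rw [hx1] at h1 h2
    rw [e]
    linarith
  set C2 := c1 ^ 2 * (2 * Real.sqrt Real.pi) * Real.exp 2 with hC2
  have hC20 : 0 < C2 := by
    have := c1_pos
    positivity
  have hΦedge : ∀ t : ℝ, t ∉ Icc (T + κ) (2 * T - κ) → ENNReal.ofReal (Φ t) ≤
      ENNReal.ofReal C2 * ∫⁻ τ : ℝ, ENNReal.ofReal (Real.exp (-(t - τ) ^ 2 / 8) * H ((t + τ) / 2)) := by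
    intro t ht
    have ht' : t ≤ T + κ ∨ 2 * T - κ ≤ t := by
      by_contra hcon
      push Not at hcon
      exact ht ⟨hcon.1.le, hcon.2.le⟩
    have hcont : Continuous fun τ : ℝ => Real.exp (-(t - τ) ^ 2 / 8) * H ((t + τ) / 2) := by
      fun_prop
    have h1 : Φ t ≤ C2 * ∫ τ in T..(2 * T), Real.exp (-(t - τ) ^ 2 / 8) * H ((t + τ) / 2) := by
      have hc3 : ∀ i, Continuous fun τ : ℝ => Real.exp (-(t - τ) ^ 2 / 4) *
          ‖EX P ℓ (z i) (x1 u ℓ y) u ((t + τ) / 2)‖ ^ 2 := by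
        intro i
        have hE : Continuous (fun τ : ℝ => EX P ℓ (z i) (x1 u ℓ y) u ((t + τ) / 2)) :=
          (EX_cont P ℓ (z i) (x1 u ℓ y) u).comp (by fun_prop)
        have hEn := hE.norm
        fun_prop
      calc Φ t ≤ ∑ i ∈ I, ω i * (c1 ^ 2 * (2 * Real.sqrt Real.pi) *
            ∫ τ in T..(2 * T), Real.exp (-(t - τ) ^ 2 / 4) *
              ‖EX P ℓ (z i) (x1 u ℓ y) u ((t + τ) / 2)‖ ^ 2) :=
            Finset.sum_le_sum fun i hi => mul_le_mul_of_nonneg_left (SS_cs hT) (hω i hi)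
        _ = c1 ^ 2 * (2 * Real.sqrt Real.pi) * ∫ τ in T..(2 * T),
              Real.exp (-(t - τ) ^ 2 / 4) * G1 ((t + τ) / 2) := by
            have e : ∀ τ : ℝ, Real.exp (-(t - τ) ^ 2 / 4) * G1 ((t + τ) / 2) =
                ∑ i ∈ I, ω i * (Real.exp (-(t - τ) ^ 2 / 4) *
                  ‖EX P ℓ (z i) (x1 u ℓ y) u ((t + τ) / 2)‖ ^ 2) := by
              intro τ
              simp only [hG1, FX, Finset.mul_sum]
              refine Finset.sum_congr rfl fun i _ => ?_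
              ring
            simp_rw [e]
            rw [intervalIntegral.integral_finsetSum fun i _ =>
              ((hc3 i).intervalIntegrable _ _).const_mul _, Finset.mul_sum]
            refine Finset.sum_congr rfl fun i _ => ?_
            rw [intervalIntegral.integral_const_mul]
            ring
        _ ≤ c1 ^ 2 * (2 * Real.sqrt Real.pi) * ∫ τ in T..(2 * T),
              Real.exp 2 * (Real.exp (-(t - τ) ^ 2 / 8) * H ((t + τ) / 2)) := by
            refine mul_le_mul_of_nonneg_left ?_ (by positivity)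
            refine intervalIntegral.integral_mono_on (by linarith) ?_ ?_ ?_
            · refine Continuous.intervalIntegrable ?_ _ _
              fun_prop
            · exact (continuous_const.mul hcont).intervalIntegrable _ _
            · intro τ hτ
              have h2 := edge_weight (t := t) hκ2 hτ.1 hτ.2 ht'
              have h3 := mul_le_mul_of_nonneg_right h2 (hG10 ((t + τ) / 2))
              refine h3.trans (le_of_eq ?_)
              simp only [hH]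
              ring
        _ = _ := by
            rw [intervalIntegral.integral_const_mul]
            ring
    have h2 : ∫ τ in T..(2 * T), Real.exp (-(t - τ) ^ 2 / 8) * H ((t + τ) / 2) =
        ∫ τ in Ioc T (2 * T), Real.exp (-(t - τ) ^ 2 / 8) * H ((t + τ) / 2) :=
      intervalIntegral.integral_of_le (by linarith)
    have hint : IntegrableOn (fun τ : ℝ => Real.exp (-(t - τ) ^ 2 / 8) * H ((t + τ) / 2))
        (Ioc T (2 * T)) :=
      (hcont.integrableOn_Icc (a := T) (b := 2 * T)).mono_set Ioc_subset_Icc_self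
    calc ENNReal.ofReal (Φ t) ≤ ENNReal.ofReal (C2 * ∫ τ in T..(2 * T),
          Real.exp (-(t - τ) ^ 2 / 8) * H ((t + τ) / 2)) := ENNReal.ofReal_le_ofReal h1
      _ = ENNReal.ofReal C2 * ∫⁻ τ in Ioc T (2 * T),
          ENNReal.ofReal (Real.exp (-(t - τ) ^ 2 / 8) * H ((t + τ) / 2)) := by
          rw [ENNReal.ofReal_mul hC20.le, h2, ofReal_integral_eq_lintegral_ofReal hint
            (Eventually.of_forall fun τ => mul_nonneg (Real.exp_pos _).le (hH0 _))]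
      _ ≤ _ := by
          gcongr
          exact Measure.restrict_le_self
  -- total
  have hbd2 : 0 ≤ Cm * Real.exp (-κ ^ 2 / 2) * Y ^ 2 * W := by positivity
  have htot : ∫⁻ t : ℝ, ENNReal.ofReal (Φ t) ≤ ENNReal.ofReal
      (((1 + d) / (2 * Real.pi) * (∫ v in T..(2 * T), G2 v) +
        Cm * Real.exp (-κ ^ 2 / 2) * Y ^ 2 * W * T) +
        C2 * (Real.sqrt (8 * Real.pi) * ∫ v, H v)) := by
    rw [← lintegral_add_compl _ (measurableSet_Icc (a := T + κ) (b := 2 * T - κ)),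
      ENNReal.ofReal_add]
    · refine add_le_add ?_ ?_
      · have hcont : Continuous fun t : ℝ => (1 + d) / (2 * Real.pi) * G2 t +
            Cm * Real.exp (-κ ^ 2 / 2) * Y ^ 2 * W := by fun_prop
        calc ∫⁻ t in Icc (T + κ) (2 * T - κ), ENNReal.ofReal (Φ t)
            ≤ ∫⁻ t in Icc (T + κ) (2 * T - κ), ENNReal.ofReal ((1 + d) / (2 * Real.pi) * G2 t +
              Cm * Real.exp (-κ ^ 2 / 2) * Y ^ 2 * W) :=
              setLIntegral_mono' measurableSet_Icc fun t ht =>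
                ENNReal.ofReal_le_ofReal (hΦmid t ht)
          _ ≤ ∫⁻ t in Icc T (2 * T), ENNReal.ofReal ((1 + d) / (2 * Real.pi) * G2 t +
              Cm * Real.exp (-κ ^ 2 / 2) * Y ^ 2 * W) :=
              lintegral_mono_set (Icc_subset_Icc (by linarith) (by linarith))
          _ = ENNReal.ofReal (∫ t in Icc T (2 * T), ((1 + d) / (2 * Real.pi) * G2 t +
              Cm * Real.exp (-κ ^ 2 / 2) * Y ^ 2 * W)) := by
              rw [ofReal_integral_eq_lintegral_ofReal hcont.integrableOn_Icc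
                (Eventually.of_forall fun t => add_nonneg (mul_nonneg (by positivity) (hG20 t))
                  hbd2)]
          _ = _ := by
              congr 1
              have hc4 : Continuous fun t : ℝ => (1 + d) / (2 * Real.pi) * G2 t := by fun_prop
              rw [integral_Icc_eq_integral_Ioc, ← intervalIntegral.integral_of_le (by linarith),
                intervalIntegral.integral_add (hc4.intervalIntegrable _ _)
                  (continuous_const.intervalIntegrable _ _), intervalIntegral.integral_const_mul,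
                intervalIntegral.integral_const, smul_eq_mul]
              ring
      · calc ∫⁻ t in (Icc (T + κ) (2 * T - κ))ᶜ, ENNReal.ofReal (Φ t)
            ≤ ∫⁻ t in (Icc (T + κ) (2 * T - κ))ᶜ, ENNReal.ofReal C2 * ∫⁻ τ : ℝ,
              ENNReal.ofReal (Real.exp (-(t - τ) ^ 2 / 8) * H ((t + τ) / 2)) :=
              setLIntegral_mono' measurableSet_Icc.compl fun t ht => hΦedge t ht
          _ ≤ ∫⁻ t : ℝ, ENNReal.ofReal C2 * ∫⁻ τ : ℝ,
              ENNReal.ofReal (Real.exp (-(t - τ) ^ 2 / 8) * H ((t + τ) / 2)) :=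
              setLIntegral_le_lintegral _ _
          _ = _ := by
              rw [lintegral_const_mul', edge_double hHc hH0 hHi, ENNReal.ofReal_mul hC20.le]
              exact ENNReal.ofReal_ne_top
    · refine add_nonneg (mul_nonneg (by positivity) ?_) (mul_nonneg hbd2 hT.le)
      exact intervalIntegral.integral_nonneg (by linarith) fun v _ => hG20 v
    · exact mul_nonneg hC20.le (mul_nonneg (by positivity) (integral_nonneg hH0))
  have hmain : ∫ t, Φ t ≤ ((1 + d) / (2 * Real.pi) * (∫ v in T..(2 * T), G2 v) +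
        Cm * Real.exp (-κ ^ 2 / 2) * Y ^ 2 * W * T) +
        C2 * (Real.sqrt (8 * Real.pi) * ∫ v, H v) := by
    rw [integral_eq_lintegral_of_nonneg_ae (Eventually.of_forall hΦ0)
      hΦc.aestronglyMeasurable]
    refine ENNReal.toReal_le_of_le_ofReal ?_ htot
    refine add_nonneg (add_nonneg (mul_nonneg (by positivity) ?_) (mul_nonneg hbd2 hT.le)) ?_
    · exact intervalIntegral.integral_nonneg (by linarith) fun v _ => hG20 v
    · exact mul_nonneg hC20.le (mul_nonneg (by positivity) (integral_nonneg hH0))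
  refine hmain.trans ?_
  -- numerics
  have hAQ2 : 0 ≤ T * (A * Q2) := by positivity
  have n1 : (1 + d) / (2 * Real.pi) * (∫ v in T..(2 * T), G2 v) ≤
      (1 + δ) * A * (T / (2 * Real.pi)) * Q2 := by
    have h1 : (1 + d) / (2 * Real.pi) * (∫ v in T..(2 * T), G2 v) ≤
        (1 + d) / (2 * Real.pi) * ((1 + δ' / 8) / (1 - δ' / 8) * (T * (A * Q2))) :=
      mul_le_mul_of_nonneg_left hmid (by positivity)
    have h2 : (1 + d) * ((1 + δ' / 8) / (1 - δ' / 8)) ≤ 1 + δ := by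
      have h3 : (1 + d) * ((1 + δ' / 8) / (1 - δ' / 8)) ≤ 1 + δ' := by
        rw [mul_div_assoc', div_le_iff₀ (by linarith), hd]
        nlinarith
      linarith
    calc _ ≤ _ := h1
      _ = ((1 + d) * ((1 + δ' / 8) / (1 - δ' / 8))) * (T * (A * Q2) / (2 * Real.pi)) := by
          field_simp
      _ ≤ (1 + δ) * (T * (A * Q2) / (2 * Real.pi)) :=
          mul_le_mul_of_nonneg_right h2 (by positivity)
      _ = _ := by ring
  have n2 : Cm * Real.exp (-κ ^ 2 / 2) * Y ^ 2 * W * T ≤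
      Cm * W * T * Real.exp (-κ ^ 2 / 16) * Y ^ 2 := by
    have h1 : Real.exp (-κ ^ 2 / 2) ≤ Real.exp (-κ ^ 2 / 16) :=
      Real.exp_le_exp.2 (by nlinarith)
    calc _ = (Cm * W * T * Y ^ 2) * Real.exp (-κ ^ 2 / 2) := by ring
      _ ≤ (Cm * W * T * Y ^ 2) * Real.exp (-κ ^ 2 / 16) :=
          mul_le_mul_of_nonneg_left h1 (by positivity)
      _ = _ := by ring
  have n3 : C2 * (Real.sqrt (8 * Real.pi) * ∫ v, H v) ≤ Ce * A * κ * Q1 := by
    calc _ ≤ C2 * (Real.sqrt (8 * Real.pi) * (2 * (Real.sqrt Real.pi * κ * (A * Q1)))) := by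
          refine mul_le_mul_of_nonneg_left (mul_le_mul_of_nonneg_left hHint ?_) hC20.le
          positivity
      _ = _ := by
          rw [hCe, hC2]
          ring
  have n4 : Ce * A * κ * Q1 ≤ (Ce + Cm) * A * κ * Q1 := by
    have h1 : 0 ≤ Cm * A * κ * Q1 := by positivity
    have h2 : (Ce + Cm) * A * κ * Q1 = Ce * A * κ * Q1 + Cm * A * κ * Q1 := by ring
    linarith
  have n5 : Cm * W * T * Real.exp (-κ ^ 2 / 16) * Y ^ 2 ≤
      (Ce + Cm) * W * T * Real.exp (-κ ^ 2 / 16) * Y ^ 2 := by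
    have h1 : 0 ≤ Ce * W * T * Real.exp (-κ ^ 2 / 16) * Y ^ 2 := by positivity
    have h2 : (Ce + Cm) * W * T * Real.exp (-κ ^ 2 / 16) * Y ^ 2 =
        Ce * W * T * Real.exp (-κ ^ 2 / 16) * Y ^ 2 +
          Cm * W * T * Real.exp (-κ ^ 2 / 16) * Y ^ 2 := by ring
    linarith
  linarith


end Pool.Agent.N880.QI
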