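import Pool.Agent.N880.QI.Stm
import Pool.Agent.H268R2.RZ_HT
import Pool.Agent.Y697.MQ.Rcp

set_option autoImplicit false

open Complex Filter Topology MeasureTheory Set

/-!
# QI/G1: Poisson summation over the Gaussian integers with quadratic symbols
-/

namespace Pool.Agent.N880.QI.Pois

open Pool.Agent.N880.QI
open Pool.Agent.Y697.MQ (leg OP Pr leg_eq_zero leg_cases leg_ne leg_congr leg_sq_eq leg_mul leg_int
  leg_one_deg dvd_int_iff recip norm_eq)
open Pool.Agent.H306R2.RZ (js Gk cas)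
open HurwitzZeta (evenKernel cosKernel hasSum_int_evenKernel hasSum_int_cosKernel
  evenKernel_functional_equation)

/-! ### primes -/

/-- the norm of `p` -/
def ln (p : GaussianInt) : ℕ := (Zsqrtd.norm p).natAbs

/-- `re (m * conj p)` -/
def lm (p m : GaussianInt) : ℤ := m.re * p.re + m.im * p.im

lemma ln_int (p : GaussianInt) : ((ln p : ℕ) : ℤ) = p.re * p.re + p.im * p.im := by
  unfold ln
  rw [Int.natCast_natAbs, abs_of_nonneg (GaussianInt.norm_nonneg _), norm_eq]

lemma ln_real (p : GaussianInt) : ((ln p : ℕ) : ℝ) = (p.re : ℝ) ^ 2 + (p.im : ℝ) ^ 2 := by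
  have h : (((ln p : ℕ) : ℤ) : ℝ) = ((p.re * p.re + p.im * p.im : ℤ) : ℝ) := by rw [ln_int]
  push_cast at h
  rw [h]
  ring

lemma nz_eq (m : GaussianInt) : nz m = (m.re : ℝ) ^ 2 + (m.im : ℝ) ^ 2 := by
  unfold nz
  rw [norm_eq]
  push_cast
  ring

lemma nz_ln (p : GaussianInt) : nz p = (ln p : ℝ) := by rw [nz_eq, ln_real]

lemma mods {p : GaussianInt} (h : PZ p) : Pr p := by
  obtain ⟨c, hc⟩ := h.prm
  have h1 := congrArg Zsqrtd.re hc
  have h2 := congrArg Zsqrtd.im hc
  simp only [Zsqrtd.re_sub, Zsqrtd.im_sub, Zsqrtd.re_mul, Zsqrtd.im_mul, Zsqrtd.re_one,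
    Zsqrtd.im_one] at h1 h2
  unfold Pr
  omega

lemma prime_of {p : GaussianInt} (h : PZ p) : Prime p := by
  have h1 : Irreducible p := by
    rw [irreducible_iff]
    refine ⟨fun hu => ?_, fun a b hab => ?_⟩
    · have := Zsqrtd.norm_eq_one_iff.2 hu
      exact h.pr.one_lt.ne' this
    · have h2 : (Zsqrtd.norm p).natAbs = (Zsqrtd.norm a).natAbs * (Zsqrtd.norm b).natAbs := by
        rw [hab, Zsqrtd.norm_mul, Int.natAbs_mul]
      rcases (Nat.prime_mul_iff.1 (h2 ▸ h.pr)) with ⟨-, h3⟩ | ⟨-, h3⟩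
      · right; exact Zsqrtd.norm_eq_one_iff.1 h3
      · left; exact Zsqrtd.norm_eq_one_iff.1 h3
  exact h1.prime

lemma op {p : GaussianInt} (h : PZ p) : OP p := ⟨prime_of h, mods h⟩

lemma ln_prime {p : GaussianInt} (h : PZ p) : (ln p).Prime := h.pr

lemma ln_mod {p : GaussianInt} (h : PZ p) : ln p % 4 = 1 := by
  have h1 := ln_int p
  have h2 := mods h
  unfold Pr at h2
  have h3 : ((ln p : ℕ) : ℤ) % 4 = 1 := by
    rw [h1]
    rcases h2 with ⟨ha, hb⟩ | ⟨ha, hb⟩
    · simp [Int.add_emod, Int.mul_emod, ha, hb]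
    · simp [Int.add_emod, Int.mul_emod, ha, hb]
  omega

lemma ln_pos {p : GaussianInt} (h : PZ p) : 0 < ln p := (ln_prime h).pos

lemma ln_pos' {p : GaussianInt} (h : PZ p) : (0 : ℝ) < ln p := by exact_mod_cast ln_pos h

lemma sy_leg (m p : GaussianInt) : sy m p = ((leg p m : ℤ) : ℝ) := by
  unfold sy leg
  split_ifs <;> simp

/-- the symbol as a Legendre symbol -/
lemma leg_js {p : GaussianInt} (h : PZ p) (m : GaussianInt) :
    ((leg p m : ℤ) : ℝ) = js (lm p m) (ln p) := by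
  have : Fact (ln p).Prime := ⟨ln_prime h⟩
  unfold js
  rw [← jacobiSym.legendreSym.to_jacobiSym]
  by_cases hd : p ∣ m
  · rw [leg_eq_zero.2 hd]
    have h1 : p ∣ ((lm p m : ℤ) : GaussianInt) := by
      have h2 : ((lm p m : ℤ) : GaussianInt) =
          ((p.re : ℤ) : GaussianInt) * m - p * (⟨0, 1⟩ * (m.im : GaussianInt)) := by
        unfold lm
        ext
        · simp [Zsqrtd.re_mul, Zsqrtd.im_mul]
          ring
        · simp [Zsqrtd.re_mul, Zsqrtd.im_mul]
          try ring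
      rw [h2]
      exact dvd_sub (hd.mul_left _) (dvd_mul_right _ _)
    rw [dvd_int_iff (ln_prime h) rfl] at h1
    have h3 : legendreSym (ln p) (lm p m) = 0 := by
      rw [legendreSym.eq_zero_iff]
      exact (ZMod.intCast_zmod_eq_zero_iff_dvd _ _).2 h1
    rw [h3]
  · rw [leg_one_deg (q := ln p) (op h) rfl (ln_mod h) m hd]
    rfl

/-- the symbol of an integer -/
lemma leg_nat {p : GaussianInt} (h : PZ p) (r : ℕ) :
    ((leg p ((r : ℤ) : GaussianInt) : ℤ) : ℝ) = js r (ln p) := by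
  have : Fact (ln p).Prime := ⟨ln_prime h⟩
  unfold js
  rw [← jacobiSym.legendreSym.to_jacobiSym]
  by_cases hd : p ∣ ((r : ℤ) : GaussianInt)
  · rw [leg_eq_zero.2 hd]
    rw [dvd_int_iff (ln_prime h) rfl] at hd
    have h3 : legendreSym (ln p) (r : ℤ) = 0 := by
      rw [legendreSym.eq_zero_iff]
      exact (ZMod.intCast_zmod_eq_zero_iff_dvd _ _).2 hd
    rw [h3]
  · rw [leg_int (q := ln p) (op h) rfl _ hd]

/-! ### Gauss sums -/

lemma gauss {p : GaussianInt} (h : PZ p) (m : GaussianInt) :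
    ∑ r ∈ Finset.range (ln p), ((js r (ln p) : ℝ) : ℂ) *
      cexp (2 * Real.pi * I * ((lm p m : ℝ) * (r : ℝ) / (ln p : ℝ) : ℝ)) =
      ((sy m p * Real.sqrt (ln p) : ℝ) : ℂ) := by
  have ho : Odd (ln p) := Nat.odd_iff.2 (by have := ln_mod h; omega)
  have hs : Squarefree (ln p) := (ln_prime h).prime.squarefree
  have h1 := Pool.Agent.H268R2.RZHT.sum_cos (lm p m) (ln p) ho hs (ln_mod h)
  have h2 := Pool.Agent.H268R2.RZHT.Gk_all (lm p m) (ln p) ho hs
  have h3 : ∑ r ∈ Finset.range (ln p), js r (ln p) *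
      Real.sin (2 * Real.pi * (lm p m : ℝ) * (r : ℝ) / (ln p : ℝ)) = 0 := by
    have h4 : Gk (lm p m) (ln p) = ∑ r ∈ Finset.range (ln p), js r (ln p) *
        Real.cos (2 * Real.pi * (lm p m : ℝ) * (r : ℝ) / (ln p : ℝ)) +
        ∑ r ∈ Finset.range (ln p), js r (ln p) *
        Real.sin (2 * Real.pi * (lm p m : ℝ) * (r : ℝ) / (ln p : ℝ)) := by
      unfold Gk cas
      rw [← Finset.sum_add_distrib]
      refine Finset.sum_congr rfl fun r _ => ?_
      ring
    rw [h2, h1] at h4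
    linarith
  have h5 : ∀ r ∈ Finset.range (ln p), ((js r (ln p) : ℝ) : ℂ) *
      cexp (2 * Real.pi * I * ((lm p m : ℝ) * (r : ℝ) / (ln p : ℝ) : ℝ)) =
      ((js r (ln p) * Real.cos (2 * Real.pi * (lm p m : ℝ) * (r : ℝ) / (ln p : ℝ)) : ℝ) : ℂ) +
      ((js r (ln p) * Real.sin (2 * Real.pi * (lm p m : ℝ) * (r : ℝ) / (ln p : ℝ)) : ℝ) : ℂ) * I := by
    intro r _
    have e : (2 * Real.pi * I * ((lm p m : ℝ) * (r : ℝ) / (ln p : ℝ) : ℝ) : ℂ) =
        ((2 * Real.pi * (lm p m : ℝ) * (r : ℝ) / (ln p : ℝ) : ℝ) : ℂ) * I := by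
      push_cast
      ring
    rw [e, Complex.exp_mul_I, ← Complex.ofReal_cos, ← Complex.ofReal_sin]
    push_cast
    ring
  rw [Finset.sum_congr rfl h5, Finset.sum_add_distrib, ← Finset.sum_mul, ← Complex.ofReal_sum,
    ← Complex.ofReal_sum, h1, h3, sy_leg, leg_js h]
  simp

/-! ### two-dimensional Poisson summation -/

/-- coordinates -/
def co : GaussianInt ≃ ℤ × ℤ where
  toFun m := (m.re, m.im)
  invFun x := ⟨x.1, x.2⟩
  left_inv _ := rfl
  right_inv _ := rfl

lemma prodC {f g : ℤ → ℂ} {a b : ℂ} (hf : HasSum f a) (hg : HasSum g b) :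
    HasSum (fun m : GaussianInt => f m.re * g m.im) (a * b) := by
  have h3 : HasSum (fun x : ℤ × ℤ => f x.1 * g x.2) (a * b) :=
    hf.mul hg (summable_mul_of_summable_norm hf.summable.norm hg.summable.norm)
  exact co.hasSum_iff.2 h3

lemma prodR {f g : ℤ → ℝ} {a b : ℝ} (hf : HasSum f a) (hg : HasSum g b) :
    HasSum (fun m : GaussianInt => f m.re * g m.im) (a * b) := by
  have h3 : HasSum (fun x : ℤ × ℤ => f x.1 * g x.2) (a * b) :=
    hf.mul hg (summable_mul_of_summable_norm hf.summable.norm hg.summable.norm)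
  exact co.hasSum_iff.2 h3

lemma cosK2 (a b : ℝ) {t : ℝ} (ht : 0 < t) :
    HasSum (fun m : GaussianInt => cexp (2 * Real.pi * I * ((m.re : ℝ) * a + (m.im : ℝ) * b : ℝ)) *
      ((Real.exp (-(Real.pi * (nz m * t))) : ℝ) : ℂ)) ((cosKernel a t * cosKernel b t : ℝ) : ℂ) := by
  have h4 := prodC (hasSum_int_cosKernel a ht) (hasSum_int_cosKernel b ht)
  rw [← Complex.ofReal_mul] at h4
  refine h4.congr_fun fun m => ?_
  have e1 : cexp (2 * Real.pi * I * ((m.re : ℝ) * a + (m.im : ℝ) * b : ℝ)) =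
      cexp (2 * Real.pi * I * a * m.re) * cexp (2 * Real.pi * I * b * m.im) := by
    rw [← Complex.exp_add]
    congr 1
    push_cast
    ring
  have e2 : Real.exp (-(Real.pi * (nz m * t))) =
      Real.exp (-Real.pi * (m.re : ℝ) ^ 2 * t) * Real.exp (-Real.pi * (m.im : ℝ) ^ 2 * t) := by
    rw [nz_eq, ← Real.exp_add]
    congr 1
    ring
  rw [e1, e2, Complex.ofReal_mul]
  ring

lemma evenK2 (a b : ℝ) {t : ℝ} (ht : 0 < t) :
    HasSum (fun m : GaussianInt => Real.exp (-(Real.pi * ((((m.re : ℝ) + a) ^ 2 +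
      ((m.im : ℝ) + b) ^ 2) * t)))) (evenKernel a t * evenKernel b t) := by
  have h4 := prodR (hasSum_int_evenKernel a ht) (hasSum_int_evenKernel b ht)
  refine h4.congr_fun fun m => ?_
  rw [← Real.exp_add]
  congr 1
  ring

/-! ### residue classes modulo `p q` -/

/-- the point of the class `(r, s)` -/
def ph (p q : GaussianInt) (r s : ℕ) (k : GaussianInt) : GaussianInt :=
  k * (p * q) + ((r : ℤ) : GaussianInt) * q + ((s : ℤ) : GaussianInt) * p

lemma not_dvd {p q : GaussianInt} (hp : PZ p) (hq : PZ q) (hne : p ≠ q) : ¬ p ∣ q :=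
  fun h => hne ((op hp).dvd (op hq) h)

lemma rng_eq {p : GaussianInt} (hp : PZ p) {r r' : ℕ} (h1 : r ∈ Finset.range (ln p))
    (h2 : r' ∈ Finset.range (ln p))
    (h : p ∣ ((r : ℤ) : GaussianInt) - ((r' : ℤ) : GaussianInt)) : r = r' := by
  have h3 : p ∣ (((r : ℤ) - (r' : ℤ) : ℤ) : GaussianInt) := by
    push_cast
    push_cast at h
    exact h
  rw [dvd_int_iff (ln_prime hp) rfl] at h3
  rw [Finset.mem_range] at h1 h2
  have h4 : ((ln p : ℕ) : ℤ) ∣ (r : ℤ) - (r' : ℤ) := h3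
  have h5 : ((r : ℤ) - (r' : ℤ)) = 0 := by
    apply Int.eq_zero_of_abs_lt_dvd h4
    rw [abs_lt]
    constructor <;> omega
  omega

lemma ph_inj {p q : GaussianInt} (hp : PZ p) (hq : PZ q) (hne : p ≠ q) {r r' s s' : ℕ}
    (h1 : r ∈ Finset.range (ln p)) (h2 : r' ∈ Finset.range (ln p))
    (h3 : s ∈ Finset.range (ln q)) (h4 : s' ∈ Finset.range (ln q)) {k k' : GaussianInt}
    (h : ph p q r s k = ph p q r' s' k') : r = r' ∧ s = s' ∧ k = k' := by
  unfold ph at h
  have e1 : r = r' := by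
    apply rng_eq hp h1 h2
    have h5 : p ∣ (((r : ℤ) : GaussianInt) - ((r' : ℤ) : GaussianInt)) * q := by
      refine ⟨k' * q + ((s' : ℤ) : GaussianInt) - (k * q + ((s : ℤ) : GaussianInt)), ?_⟩
      linear_combination h
    exact ((prime_of hp).dvd_or_dvd h5).resolve_right (not_dvd hp hq hne)
  have e2 : s = s' := by
    apply rng_eq hq h3 h4
    have h5 : q ∣ (((s : ℤ) : GaussianInt) - ((s' : ℤ) : GaussianInt)) * p := by
      refine ⟨k' * p + ((r' : ℤ) : GaussianInt) - (k * p + ((r : ℤ) : GaussianInt)), ?_⟩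
      linear_combination h
    exact ((prime_of hq).dvd_or_dvd h5).resolve_right (not_dvd hq hp hne.symm)
  refine ⟨e1, e2, ?_⟩
  subst e1 e2
  have h6 : k * (p * q) = k' * (p * q) := by linear_combination h
  exact mul_right_cancel₀ (mul_ne_zero (prime_of hp).ne_zero (prime_of hq).ne_zero) h6

/-- integer representatives -/
lemma exists_rep {p : GaussianInt} (hp : PZ p) (z : GaussianInt) :
    ∃ r ∈ Finset.range (ln p), p ∣ z - ((r : ℤ) : GaussianInt) := by
  have hP := prime_of hp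
  have hl := ln_prime hp
  have hlz := ln_int p
  have hm := mods hp
  unfold Pr at hm
  have hcop : IsCoprime p.re ((ln p : ℕ) : ℤ) := by
    rw [Int.isCoprime_iff_gcd_eq_one, Int.gcd_comm]
    have hnd : ¬ ((ln p : ℕ) : ℤ) ∣ p.re := by
      intro h
      have h0 : p.re ≠ 0 := by omega
      have h1 := Int.le_of_dvd (abs_pos.2 h0) ((dvd_abs _ _).2 h)
      have h2 : |p.re| * |p.re| = p.re * p.re := abs_mul_abs_self _
      have h3 := mul_self_nonneg p.im
      have h4 : 1 < ((ln p : ℕ) : ℤ) := by exact_mod_cast hl.one_lt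
      nlinarith
    rcases (Nat.coprime_or_dvd_of_prime hl p.re.natAbs) with h | h
    · exact h
    · exact absurd (Int.natCast_dvd.2 h) hnd
  obtain ⟨a, b, hab⟩ := hcop
  -- z = a re(p) z = a (lm p z) mod p
  have hl0 : ((ln p : ℕ) : ℤ) ≠ 0 := by exact_mod_cast hl.ne_zero
  refine ⟨((a * lm p z) % ((ln p : ℕ) : ℤ)).toNat, ?_, ?_⟩
  · rw [Finset.mem_range]
    have h1 := Int.emod_nonneg (a * lm p z) hl0
    have h2 := Int.emod_lt_of_pos (a * lm p z) (by exact_mod_cast hl.pos : (0 : ℤ) < (ln p : ℕ))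
    omega
  · have h1 := Int.emod_nonneg (a * lm p z) hl0
    rw [Int.toNat_of_nonneg h1]
    have hpl : p ∣ (((ln p : ℕ) : ℤ) : GaussianInt) := (dvd_int_iff hl rfl _).2 dvd_rfl
    have h2 : (((a * lm p z) % ((ln p : ℕ) : ℤ) : ℤ) : GaussianInt) =
        ((a * lm p z : ℤ) : GaussianInt) -
          (((ln p : ℕ) : ℤ) : GaussianInt) * ((a * lm p z / ((ln p : ℕ) : ℤ) : ℤ) : GaussianInt) := by
      have h3 : (a * lm p z) % ((ln p : ℕ) : ℤ) = a * lm p z -
          ((ln p : ℕ) : ℤ) * (a * lm p z / ((ln p : ℕ) : ℤ)) := by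
        rw [Int.emod_def]
      rw [h3]
      push_cast
      ring
    rw [h2]
    have h4 : ((a : GaussianInt) * (p.re : GaussianInt) +
        (b : GaussianInt) * (((ln p : ℕ) : ℤ) : GaussianInt)) = 1 := by
      exact_mod_cast congrArg (fun x : ℤ => (x : GaussianInt)) hab
    have h5 : ((lm p z : ℤ) : GaussianInt) =
        ((p.re : ℤ) : GaussianInt) * z - p * (⟨0, 1⟩ * (z.im : GaussianInt)) := by
      unfold lm
      ext
      · simp [Zsqrtd.re_mul, Zsqrtd.im_mul]
        ring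
      · simp [Zsqrtd.re_mul, Zsqrtd.im_mul]
        try ring
    have h6 : z - (((a * lm p z : ℤ) : GaussianInt) -
        (((ln p : ℕ) : ℤ) : GaussianInt) * ((a * lm p z / ((ln p : ℕ) : ℤ) : ℤ) : GaussianInt)) =
        (((ln p : ℕ) : ℤ) : GaussianInt) * ((b : GaussianInt) * z +
          ((a * lm p z / ((ln p : ℕ) : ℤ) : ℤ) : GaussianInt)) +
          p * ((a : GaussianInt) * (⟨0, 1⟩ * (z.im : GaussianInt))) := by
      have h7 : ((a * lm p z : ℤ) : GaussianInt) =
          (a : GaussianInt) * ((lm p z : ℤ) : GaussianInt) := by push_cast; ring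
      rw [h7, h5]
      linear_combination (-z) * h4
    rw [h6]
    exact dvd_add (hpl.mul_right _) (dvd_mul_right _ _)

lemma ph_surj {p q : GaussianInt} (hp : PZ p) (hq : PZ q) (hne : p ≠ q) (M : GaussianInt) :
    ∃ r ∈ Finset.range (ln p), ∃ s ∈ Finset.range (ln q), ∃ k, ph p q r s k = M := by
  have hc : IsCoprime p q := by
    rw [(prime_of hp).irreducible.coprime_iff_not_dvd]
    exact not_dvd hp hq hne
  obtain ⟨a, b, hab⟩ := hc
  obtain ⟨r, hr, c, hc⟩ := exists_rep hp (M * b)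
  obtain ⟨s, hs, d, hd⟩ := exists_rep hq (M * a)
  refine ⟨r, hr, s, hs, c + d, ?_⟩
  unfold ph
  linear_combination (-q) * hc + (-p) * hd + M * hab

/-- the values of the symbols -/
lemma sy_ph {p q : GaussianInt} (hp : PZ p) (hq : PZ q) (hne : p ≠ q) (r s : ℕ)
    (k : GaussianInt) : sy (ph p q r s k) p * sy (ph p q r s k) q = js r (ln p) * js s (ln q) := by
  rw [sy_leg, sy_leg]
  have h1 : leg p (ph p q r s k) = leg p (((r : ℤ) : GaussianInt) * q) := by
    apply leg_congr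
    refine ⟨k * q + ((s : ℤ) : GaussianInt), ?_⟩
    unfold ph
    ring
  have h2 : leg q (ph p q r s k) = leg q (((s : ℤ) : GaussianInt) * p) := by
    apply leg_congr
    refine ⟨k * p + ((r : ℤ) : GaussianInt), ?_⟩
    unfold ph
    ring
  rw [h1, h2, leg_mul (prime_of hp), leg_mul (prime_of hq), recip (op hq) (op hp) hne.symm]
  have h3 : leg p q * leg p q = 1 := leg_sq_eq (not_dvd hp hq hne)
  have h4 : ((leg p q : ℤ) : ℝ) * ((leg p q : ℤ) : ℝ) = 1 := by exact_mod_cast h3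
  rw [Int.cast_mul, Int.cast_mul, leg_nat hp, leg_nat hq]
  linear_combination (js r (ln p) * js s (ln q)) * h4

/-- the shifts -/
noncomputable def w1 (p q : GaussianInt) (r s : ℕ) : ℝ :=
  (p.re : ℝ) * r / ln p + (q.re : ℝ) * s / ln q

noncomputable def w2 (p q : GaussianInt) (r s : ℕ) : ℝ :=
  (p.im : ℝ) * r / ln p + (q.im : ℝ) * s / ln q

lemma nz_ph {p q : GaussianInt} (hp : PZ p) (hq : PZ q) (r s : ℕ) (k : GaussianInt) :
    nz (ph p q r s k) = ln p * ln q *
      (((k.re : ℝ) + w1 p q r s) ^ 2 + (-(k.im : ℝ) + w2 p q r s) ^ 2) := by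
  have h1 := ln_pos' hp
  have h2 := ln_pos' hq
  have e1 := ln_real p
  have e2 := ln_real q
  have er : (((ph p q r s k).re : ℤ) : ℝ) = k.re * (p.re * q.re - p.im * q.im) -
      k.im * (p.re * q.im + p.im * q.re) + r * q.re + s * p.re := by
    unfold ph
    simp only [Zsqrtd.re_add, Zsqrtd.re_mul, Zsqrtd.im_mul, Zsqrtd.re_intCast, Zsqrtd.im_intCast]
    push_cast
    ring
  have ei : (((ph p q r s k).im : ℤ) : ℝ) = k.im * (p.re * q.re - p.im * q.im) +
      k.re * (p.re * q.im + p.im * q.re) + r * q.im + s * p.im := by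
    unfold ph
    simp only [Zsqrtd.im_add, Zsqrtd.re_mul, Zsqrtd.im_mul, Zsqrtd.re_intCast, Zsqrtd.im_intCast]
    push_cast
    ring
  rw [nz_eq, er, ei]
  unfold w1 w2
  have h3 : (ln p : ℝ) * ln q * (((k.re : ℝ) + ((p.re : ℝ) * r / ln p + (q.re : ℝ) * s / ln q)) ^ 2 +
      (-(k.im : ℝ) + ((p.im : ℝ) * r / ln p + (q.im : ℝ) * s / ln q)) ^ 2) =
      (((k.re : ℝ) * ln p * ln q + p.re * r * ln q + q.re * s * ln p) ^ 2 +
      (-(k.im : ℝ) * ln p * ln q + p.im * r * ln q + q.im * s * ln p) ^ 2) / (ln p * ln q) := by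
    field_simp
    ring
  rw [h3, eq_div_iff (by positivity), e1, e2]
  ring

/-! ### the two sides -/

lemma left_side {p q : GaussianInt} (hp : PZ p) (hq : PZ q) {t : ℝ} (ht : 0 < t) :
    HasSum (fun m : GaussianInt => Real.exp (-(Real.pi * (nz m * t))) * (sy m p * sy m q) *
      (Real.sqrt (ln p) * Real.sqrt (ln q)))
      (∑ r ∈ Finset.range (ln p), ∑ s ∈ Finset.range (ln q), js r (ln p) * js s (ln q) *
        (cosKernel (w1 p q r s) t * cosKernel (w2 p q r s) t)) := by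
  rw [← Complex.hasSum_ofReal]
  have h1 : HasSum (fun m : GaussianInt => ∑ r ∈ Finset.range (ln p), ∑ s ∈ Finset.range (ln q),
      ((js r (ln p) * js s (ln q) : ℝ) : ℂ) *
      (cexp (2 * Real.pi * I * ((m.re : ℝ) * w1 p q r s + (m.im : ℝ) * w2 p q r s : ℝ)) *
      ((Real.exp (-(Real.pi * (nz m * t))) : ℝ) : ℂ)))
      (∑ r ∈ Finset.range (ln p), ∑ s ∈ Finset.range (ln q),
        ((js r (ln p) * js s (ln q) : ℝ) : ℂ) *
        ((cosKernel (w1 p q r s) t * cosKernel (w2 p q r s) t : ℝ) : ℂ)) :=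
    hasSum_sum fun r _ => hasSum_sum fun s _ => (cosK2 (w1 p q r s) (w2 p q r s) ht).mul_left _
  have e : ((∑ r ∈ Finset.range (ln p), ∑ s ∈ Finset.range (ln q), js r (ln p) * js s (ln q) *
        (cosKernel (w1 p q r s) t * cosKernel (w2 p q r s) t) : ℝ) : ℂ) =
      (∑ r ∈ Finset.range (ln p), ∑ s ∈ Finset.range (ln q),
        ((js r (ln p) * js s (ln q) : ℝ) : ℂ) *
        ((cosKernel (w1 p q r s) t * cosKernel (w2 p q r s) t : ℝ) : ℂ)) := by
    rw [Complex.ofReal_sum]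
    refine Finset.sum_congr rfl fun r _ => ?_
    rw [Complex.ofReal_sum]
    refine Finset.sum_congr rfl fun s _ => ?_
    rw [Complex.ofReal_mul]
  rw [e]
  refine h1.congr_fun fun m => ?_
  have h2 : ∀ r ∈ Finset.range (ln p), ∀ s ∈ Finset.range (ln q),
      ((js r (ln p) * js s (ln q) : ℝ) : ℂ) *
      (cexp (2 * Real.pi * I * ((m.re : ℝ) * w1 p q r s + (m.im : ℝ) * w2 p q r s : ℝ)) *
      ((Real.exp (-(Real.pi * (nz m * t))) : ℝ) : ℂ)) =
      ((Real.exp (-(Real.pi * (nz m * t))) : ℝ) : ℂ) *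
      ((((js r (ln p) : ℝ) : ℂ) *
        cexp (2 * Real.pi * I * ((lm p m : ℝ) * (r : ℝ) / (ln p : ℝ) : ℝ))) *
      (((js s (ln q) : ℝ) : ℂ) *
        cexp (2 * Real.pi * I * ((lm q m : ℝ) * (s : ℝ) / (ln q : ℝ) : ℝ)))) := by
    intro r _ s _
    have e1 : cexp (2 * Real.pi * I * ((m.re : ℝ) * w1 p q r s + (m.im : ℝ) * w2 p q r s : ℝ)) =
        cexp (2 * Real.pi * I * ((lm p m : ℝ) * (r : ℝ) / (ln p : ℝ) : ℝ)) *
        cexp (2 * Real.pi * I * ((lm q m : ℝ) * (s : ℝ) / (ln q : ℝ) : ℝ)) := by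
      rw [← Complex.exp_add, ← mul_add, ← Complex.ofReal_add]
      congr 3
      unfold w1 w2 lm
      push_cast
      ring
    rw [e1, Complex.ofReal_mul]
    ring
  rw [Finset.sum_congr rfl fun r hr => Finset.sum_congr rfl fun s hs => h2 r hr s hs]
  simp only [← Finset.mul_sum]
  rw [← Finset.sum_mul, gauss hp, gauss hq]
  push_cast
  ring

/-- conjugation -/
def cjE : GaussianInt ≃ GaussianInt where
  toFun m := ⟨m.re, -m.im⟩
  invFun m := ⟨m.re, -m.im⟩
  left_inv m := by ext <;> simp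
  right_inv m := by ext <;> simp

open Classical in
lemma right_side {p q : GaussianInt} (hp : PZ p) (hq : PZ q) (hne : p ≠ q) {t : ℝ} (ht : 0 < t) :
    HasSum (fun m : GaussianInt => Real.exp (-(Real.pi * (nz m / (ln p * ln q) * t))) *
      (sy m p * sy m q))
      (∑ r ∈ Finset.range (ln p), ∑ s ∈ Finset.range (ln q), js r (ln p) * js s (ln q) *
        (evenKernel (w1 p q r s) t * evenKernel (w2 p q r s) t)) := by
  have hlp := ln_pos' hp
  have hlq := ln_pos' hq
  obtain ⟨F, hF⟩ : ∃ F : GaussianInt → ℝ, F = fun m : GaussianInt =>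
    Real.exp (-(Real.pi * (nz m / (ln p * ln q) * t))) * (sy m p * sy m q) := ⟨_, rfl⟩
  rw [← hF]
  have h0 : ∀ r s : ℕ, HasSum (fun k : GaussianInt => F (ph p q r s k))
      (js r (ln p) * js s (ln q) * (evenKernel (w1 p q r s) t * evenKernel (w2 p q r s) t)) := by
    intro r s
    have h1 := evenK2 (w1 p q r s) (w2 p q r s) ht
    have h2 := (cjE.hasSum_iff.2 h1).mul_left (js r (ln p) * js s (ln q))
    refine h2.congr_fun fun k => ?_
    rw [hF]
    show Real.exp (-(Real.pi * (nz (ph p q r s k) / (ln p * ln q) * t))) *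
      (sy (ph p q r s k) p * sy (ph p q r s k) q) = js r (ln p) * js s (ln q) *
      Real.exp (-(Real.pi * ((((k.re : ℝ) + w1 p q r s) ^ 2 +
        (((-k.im : ℤ) : ℝ) + w2 p q r s) ^ 2) * t)))
    rw [sy_ph hp hq hne, nz_ph hp hq, mul_comm, Int.cast_neg]
    congr 4
    field_simp
  have h3 : ∀ r ∈ Finset.range (ln p), ∀ s ∈ Finset.range (ln q),
      HasSum (fun M : GaussianInt => if M ∈ Set.range (ph p q r s) then F M else 0)
      (js r (ln p) * js s (ln q) * (evenKernel (w1 p q r s) t * evenKernel (w2 p q r s) t)) := by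
    intro r hr s hs
    have hinj : Function.Injective (ph p q r s) := fun k k' h =>
      (ph_inj hp hq hne hr hr hs hs h).2.2
    rw [← hinj.hasSum_iff]
    · refine (h0 r s).congr_fun fun k => ?_
      show (if ph p q r s k ∈ Set.range (ph p q r s) then F (ph p q r s k) else 0) = _
      rw [if_pos ⟨k, rfl⟩]
    · intro M hM
      rw [if_neg hM]
  have h4 : HasSum (fun M : GaussianInt => ∑ r ∈ Finset.range (ln p), ∑ s ∈ Finset.range (ln q),
      if M ∈ Set.range (ph p q r s) then F M else 0)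
      (∑ r ∈ Finset.range (ln p), ∑ s ∈ Finset.range (ln q), js r (ln p) * js s (ln q) *
        (evenKernel (w1 p q r s) t * evenKernel (w2 p q r s) t)) :=
    hasSum_sum fun r hr => hasSum_sum fun s hs => h3 r hr s hs
  refine h4.congr_fun fun M => ?_
  obtain ⟨r, hr, s, hs, k, hk⟩ := ph_surj hp hq hne M
  rw [Finset.sum_eq_single_of_mem r hr, Finset.sum_eq_single_of_mem s hs, if_pos ⟨k, hk⟩]
  · intro s' hs' hne'
    rw [if_neg]
    rintro ⟨k', hk'⟩
    exact hne' (ph_inj hp hq hne hr hr hs' hs (hk'.trans hk.symm)).2.1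
  · intro r' hr' hne'
    refine Finset.sum_eq_zero fun s' hs' => ?_
    rw [if_neg]
    rintro ⟨k', hk'⟩
    exact hne' (ph_inj hp hq hne hr' hr hs' hs (hk'.trans hk.symm)).1

theorem main : S_pois := by
  intro p q X r hp hq hne hX
  have hlp := ln_pos' hp
  have hlq := ln_pos' hq
  obtain ⟨Y, hY⟩ : ∃ Y : ℝ, Y = X * Real.exp r := ⟨_, rfl⟩
  have hY0 : 0 < Y := by rw [hY]; positivity
  have h1 := (left_side hp hq (t := 1 / Y) (by positivity)).tsum_eq
  have h2 := (right_side hp hq hne hY0).tsum_eq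
  have h3 : ∀ a b : ℝ, cosKernel a (1 / Y) * cosKernel b (1 / Y) =
      Y * (evenKernel a Y * evenKernel b Y) := by
    intro a b
    have e1 := evenKernel_functional_equation (a : UnitAddCircle) Y
    have e2 := evenKernel_functional_equation (b : UnitAddCircle) Y
    have e3 : Y ^ (1 / 2 : ℝ) * Y ^ (1 / 2 : ℝ) = Y := by
      rw [← Real.rpow_add hY0]
      norm_num
    have e4 : 0 < Y ^ (1 / 2 : ℝ) := by positivity
    rw [e1, e2]
    field_simp
    linear_combination (cosKernel a (1 / Y) * cosKernel b (1 / Y)) * e3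
  have h4 : ∑ r ∈ Finset.range (ln p), ∑ s ∈ Finset.range (ln q), js r (ln p) * js s (ln q) *
        (cosKernel (w1 p q r s) (1 / Y) * cosKernel (w2 p q r s) (1 / Y)) =
      Y * ∑ r ∈ Finset.range (ln p), ∑ s ∈ Finset.range (ln q), js r (ln p) * js s (ln q) *
        (evenKernel (w1 p q r s) Y * evenKernel (w2 p q r s) Y) := by
    rw [Finset.mul_sum]
    refine Finset.sum_congr rfl fun r _ => ?_
    rw [Finset.mul_sum]
    refine Finset.sum_congr rfl fun s _ => ?_
    rw [h3]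
    ring
  rw [h4, ← h2, tsum_mul_right] at h1
  have e1 : ∀ m : GaussianInt, he (nz m / X) r * (sy m p * sy m q) =
      Real.exp (-(Real.pi * (nz m * (1 / Y)))) * (sy m p * sy m q) := by
    intro m
    unfold he
    rw [hY, Real.exp_neg r]
    congr 3
    field_simp
  have e2 : ∀ k : GaussianInt, Real.exp (-(Real.pi * (nz k * (X * Real.exp r) / (nz p * nz q)))) *
      (sy k p * sy k q) = Real.exp (-(Real.pi * (nz k / (ln p * ln q) * Y))) *
        (sy k p * sy k q) := by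
    intro k
    rw [hY, nz_ln p, nz_ln q]
    congr 4
    ring
  rw [tsum_congr e1, tsum_congr e2, nz_ln p, nz_ln q, ← hY, Real.sqrt_mul hlp.le]
  have h5 : 0 < Real.sqrt (ln p) * Real.sqrt (ln q) :=
    mul_pos (Real.sqrt_pos.2 hlp) (Real.sqrt_pos.2 hlq)
  rw [div_mul_eq_mul_div, eq_div_iff h5.ne']
  exact h1

end Pool.Agent.N880.QI.Pois

namespace Pool.Agent.N880.QI

/-- G1: Poisson summation for the product of two primes -/
theorem pois_main : S_pois := Pois.main

end Pool.Agent.N880.QI
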