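import Pool.Agent.N880.QI.Qch
import Pool.Agent.N880.QI.Pois
import Pool.Agent.H385R5.HE9
import Pool.Agent.N768.QI.Sym

/-!
Project QI (helper880): the primitive characters `ψ₀ χ_k`.
-/

set_option autoImplicit false

open Complex Filter Topology MeasureTheory Set
open H385 (ZI RQ chiZ im1 prim_exists he9_lift he9_cop he9_unit)
open Pool.Agent.H304R3.HK (tc HC)
open Pool.Agent.Y697.MQ (leg leg_eq_zero)

namespace Pool.Agent.N880.QI.Chr

open Pool.Agent.N880.QI Qch

/-- characters modulo `M` -/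
structure Pd (M : ZI) (θ : ZI →* ℂ) : Prop where
  per : ∀ a b : ZI, M ∣ a - b → θ a = θ b
  supp : ∀ a : ZI, θ a ≠ 0 ↔ IsCoprime a M
  unit : θ ⟨0, 1⟩ = -I

lemma out_dvd (M : ZI) (x : RQ M) (a : ZI) (h : Ideal.Quotient.mk (Ideal.span {M}) a = x) :
    M ∣ Quotient.out x - a := by
  rw [← Ideal.mem_span_singleton, ← Ideal.Quotient.eq, Ideal.Quotient.mk_out, h]

/-- the multiplicative character of the residue ring -/
noncomputable def mc {M : ZI} {θ : ZI →* ℂ} (h : Pd M θ) : MulChar (RQ M) ℂ where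
  toFun := fun x => θ (Quotient.out x)
  map_one' := by
    rw [h.per _ 1 (out_dvd M 1 1 (map_one _)), map_one]
  map_mul' := by
    intro x y
    show θ (Quotient.out (x * y)) = θ (Quotient.out x) * θ (Quotient.out y)
    rw [← map_mul]
    refine h.per _ _ (out_dvd M _ _ ?_)
    rw [map_mul, Ideal.Quotient.mk_out, Ideal.Quotient.mk_out]
  map_nonunit' := by
    intro x hx
    show θ (Quotient.out x) = 0
    by_contra h1
    have h2 := he9_unit M _ ((h.supp _).1 h1)
    rw [Ideal.Quotient.mk_out] at h2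
    exact hx h2

lemma mc_eq {M : ZI} {θ : ZI →* ℂ} (h : Pd M θ) (a : ZI) : chiZ M (mc h) a = θ a :=
  h.per _ _ (out_dvd M _ a rfl)

/-- the primitive character inducing `θ` -/
lemma exists_prim {M : ZI} (hM : M ≠ 0) {θ : ZI →* ℂ} (h : Pd M θ) :
    ∃ (d : ZI) (ψ : ZI →* ℂ), d ∣ M ∧ HC d ψ ∧ ∀ a : ZI, IsCoprime a M → ψ a = θ a := by
  obtain ⟨d, ψ, h1, h2, h3⟩ := prim_exists M hM (mc h) (by
    rw [mc_eq h]; exact h.unit)
  exact ⟨d, ψ, h1, h2, fun a ha => (h3 a ha).trans (mc_eq h a)⟩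

lemma unit_eq {ψ θ : ZI →* ℂ} (hi : ψ ⟨0, 1⟩ = θ ⟨0, 1⟩) {u : ZI} (hu : IsUnit u) : ψ u = θ u := by
  rcases unit4 hu with h | h | h | h
  · rw [h, map_one, map_one]
  · rw [h, map_mul, map_mul, hi]
  · rw [h, hi]
  · rw [h, map_mul, map_mul, map_mul, map_mul, hi]

lemma agree_big {ψ θ : ZI →* ℂ} {B : ℝ} (hi : ψ ⟨0, 1⟩ = θ ⟨0, 1⟩)
    (h : ∀ π : ZI, Prime π → B ≤ nz π → ψ π = θ π) (a : ZI) :
    a ≠ 0 → (∀ π : ZI, Prime π → π ∣ a → B ≤ nz π) → ψ a = θ a := by
  refine UniqueFactorizationMonoid.induction_on_prime a (fun h => absurd rfl h)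
    (fun u hu _ _ => unit_eq hi hu) ?_
  intro a p ha hp ih _ h2
  rw [map_mul, map_mul, h p hp (h2 p hp (dvd_mul_right _ _)),
    ih ha (fun π hπ h3 => h2 π hπ (h3.mul_left _))]

open Classical in
/-- product of all small Gaussian integers -/
noncomputable def Wp (B : ℝ) : ZI := ⟨1, 1⟩ * ∏ x ∈ (El.box B).filter (fun x => x ≠ 0), x

lemma Wp_ne (B : ℝ) : Wp B ≠ 0 := by
  classical
  unfold Wp
  refine mul_ne_zero (by decide) (Finset.prod_ne_zero_iff.2 fun x hx => ?_)
  exact (Finset.mem_filter.1 hx).2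

lemma Wp_dvd {B : ℝ} {π : ZI} (h0 : π ≠ 0) (h : nz π < B) : π ∣ Wp B := by
  classical
  unfold Wp
  refine Dvd.dvd.mul_left (Finset.dvd_prod_of_mem (fun x => x) ?_) _
  exact Finset.mem_filter.2 ⟨El.mem_box h.le, h0⟩

lemma lift_big {N a : ZI} (h : IsCoprime a N) (B : ℝ) : ∃ b : ZI, N ∣ b - a ∧ b ≠ 0 ∧
    ∀ π : ZI, Prime π → π ∣ b → B ≤ nz π := by
  obtain ⟨b, h1, h2⟩ := he9_lift (Wp B) N a (Wp_ne B) h
  refine ⟨b, h1, ?_, ?_⟩
  · rintro rfl
    have h3 : IsUnit (Wp B) := isCoprime_zero_left.1 h2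
    unfold Wp at h3
    exact prime_lam.not_isUnit (isUnit_of_mul_isUnit_left h3)
  · intro π hπ h3
    by_contra h4
    exact hπ.not_isUnit (h2.isUnit_of_dvd' h3 (Wp_dvd hπ.ne_zero (not_le.1 h4)))

/-- characters which agree at the large primes -/
lemma agree {d M : ZI} {ψ θ : ZI →* ℂ} (hψ : HC d ψ) (hθ : Pd M θ) {B : ℝ}
    (h : ∀ π : ZI, Prime π → B ≤ nz π → ψ π = θ π) {a : ZI} (ha : IsCoprime a (d * M)) :
    ψ a = θ a := by
  obtain ⟨b, h1, h2, h3⟩ := lift_big ha B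
  have h4 := agree_big (hψ.unit.trans hθ.unit.symm) h b h2 h3
  rw [← hψ.per b a ((dvd_mul_right d M).trans h1), ← hθ.per b a ((dvd_mul_left M d).trans h1), h4]

/-- the conductor divides every modulus -/
lemma cond_dvd {d M : ZI} {ψ θ : ZI →* ℂ} (hψ : HC d ψ)
    (h : ∀ a : ZI, IsCoprime a (d * M) → ψ a = θ a) (hθ : Pd M θ) : d ∣ M := by
  by_contra hcon
  set g := EuclideanDomain.gcd d M with hg
  have hg1 : g ∣ d := EuclideanDomain.gcd_dvd_left d M
  have hg2 : g ∣ M := EuclideanDomain.gcd_dvd_right d M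
  obtain ⟨a, ha, hga, hne⟩ := hψ.prim g hg1 (fun hh => hcon (hh.trans hg2))
  obtain ⟨c, hc⟩ := hga
  have hb : g = d * EuclideanDomain.gcdA d M + M * EuclideanDomain.gcdB d M :=
    EuclideanDomain.gcd_eq_gcd_ab d M
  set x := EuclideanDomain.gcdA d M
  set y := EuclideanDomain.gcdB d M
  have h1 : d ∣ (1 + M * y * c) - a := ⟨-(x * c), by rw [sub_eq_iff_eq_add.1 hc, hb]; ring⟩
  have h2 : M ∣ (1 + M * y * c) - 1 := ⟨y * c, by ring⟩
  have h3 : IsCoprime (1 + M * y * c) d := he9_cop h1 ha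
  have h4 : IsCoprime (1 + M * y * c) M := he9_cop h2 isCoprime_one_left
  have h5 := h _ (h3.mul_right h4)
  rw [hψ.per _ a h1, hθ.per _ 1 h2, map_one] at h5
  exact hne h5

/-- a quadratic character as a complex character -/
noncomputable def toC (ρ : ZI →* ℤ) : ZI →* ℂ := ((Int.castRingHom ℂ : ℤ →+* ℂ) : ℤ →* ℂ).comp ρ

lemma toC_apply (ρ : ZI →* ℤ) (a : ZI) : toC ρ a = ((ρ a : ℤ) : ℂ) := rfl

lemma pd_mul {d₀ k : ZI} {ψ₀ : ZI →* ℂ} (h0 : HC d₀ ψ₀) {ρ : ZI →* ℤ} (hρ : QE k ρ) :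
    Pd (d₀ * (8 * k)) (ψ₀ * toC ρ) where
  per := fun a b h => by
    rw [MonoidHom.mul_apply, MonoidHom.mul_apply, toC_apply, toC_apply,
      h0.per a b ((dvd_mul_right _ _).trans h), hρ.per a b ((dvd_mul_left _ _).trans h)]
  supp := fun a => by
    rw [MonoidHom.mul_apply, mul_ne_zero_iff, toC_apply, h0.supp]
    have : (((ρ a : ℤ) : ℂ) ≠ 0) ↔ IsCoprime a (8 * k) := by
      rw [← hρ.supp]; exact_mod_cast Iff.rfl
    rw [this]
    exact ⟨fun h => h.1.mul_right h.2, fun h => ⟨h.of_mul_right_left, h.of_mul_right_right⟩⟩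
  unit := by
    rw [MonoidHom.mul_apply, toC_apply, hρ.unit, h0.unit]
    simp

lemma sq_dvd {k : ZI} (N : ZI) : Squarefree k → (∀ π : ZI, Prime π → π ∣ k → π ∣ N) → k ∣ N := by
  revert N
  refine UniqueFactorizationMonoid.induction_on_prime k ?_ ?_ ?_
  · intro N h
    exact absurd h not_squarefree_zero
  · intro u hu N _ _
    exact hu.dvd
  · intro a p ha hp ih N hs h
    obtain ⟨N', rfl⟩ := h p hp (dvd_mul_right _ _)
    refine mul_dvd_mul_left p (ih N' (hs.squarefree_of_dvd (dvd_mul_left _ _)) ?_)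
    intro π hπ h1
    rcases hπ.dvd_or_dvd (h π hπ (h1.mul_left _)) with h2 | h2
    · exfalso
      have h3 : p ∣ π := (hπ.associated_of_dvd hp h2).symm.dvd
      have h4 : p * p ∣ p * a := mul_dvd_mul_left p (h3.trans h1)
      exact hp.not_isUnit (hs p h4)
    · exact h2

/-- the values at the primes of the character with `Att` -/
lemma att_agree {d₀ k : ZI} {ψ₀ : ZI →* ℂ} (_h0 : HC d₀ ψ₀) {ρ : ZI →* ℤ} (hρ : QE k ρ) {ψ : ZI →* ℂ}
    (hatt : Att ψ₀ k ψ) : ∃ B : ℝ, ∀ π : ZI, Prime π → B ≤ nz π → ψ π = (ψ₀ * toC ρ) π := by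
  obtain ⟨B, hB⟩ := hatt
  refine ⟨max B 5, fun π hπ h1 => ?_⟩
  have h2 : ¬ π ∣ 2 := by
    intro h
    have h3 := Pool.Agent.N768.QI.nz_le_of_dvd (by norm_num) h
    have h4 : nz 2 = 4 := by
      unfold nz
      have : Zsqrtd.norm (2 : ZI) = 4 := by decide
      rw [this]; norm_num
    have h5 := (le_max_right B 5).trans h1
    linarith
  rw [hB π hπ ((le_max_left _ _).trans h1), MonoidHom.mul_apply, toC_apply, hρ.prm π hπ h2,
    Pois.sy_leg]
  push_cast
  rfl

end Chr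

open Chr Qch in
theorem char_main : S_char := by
  intro d₀ ψ₀ h0
  have hd0 : 0 < nz d₀ := El.nz_pos h0.q0
  have hd1 : 1 ≤ nz d₀ := El.nz_ge_one h0.q0
  have hnz2 : nz 2 = 4 := by
    unfold nz
    have : Zsqrtd.norm (2 : ZI) = 4 := by decide
    rw [this]; norm_num
  have hnz8 : nz 8 = 64 := by
    unfold nz
    have : Zsqrtd.norm (8 : ZI) = 64 := by decide
    rw [this]; norm_num
  refine ⟨64 * nz d₀, by linarith, fun k hk => ⟨?_, ?_⟩⟩
  · -- existence
    have hk0 := hk.ne_zero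
    obtain ⟨ρ, hρ⟩ := QE_all k hk0
    have hpd := pd_mul h0 hρ
    have hM : d₀ * (8 * k) ≠ 0 := mul_ne_zero h0.q0 (mul_ne_zero (by norm_num) hk0)
    obtain ⟨d, ψ, h1, h2, h3⟩ := exists_prim hM hpd
    refine ⟨d, ψ, h2, nz (d₀ * (8 * k)) + 1, fun π hπ h4 => ?_⟩
    have h5 : ¬ π ∣ d₀ * (8 * k) := by
      intro h
      have := Pool.Agent.N768.QI.nz_le_of_dvd hM h
      linarith
    have h6 : ¬ π ∣ 2 := by
      intro h
      apply h5
      have : (2 : ZI) ∣ d₀ * (8 * k) := ⟨d₀ * (4 * k), by ring⟩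
      exact h.trans this
    rw [h3 π ((hπ.irreducible.coprime_iff_not_dvd).2 h5), MonoidHom.mul_apply, toC_apply,
      hρ.prm π hπ h6, Pois.sy_leg]
    push_cast
    rfl
  · intro d ψ hψ hatt
    have hk0 := hk.ne_zero
    have hd : 0 < nz d := El.nz_pos hψ.q0
    obtain ⟨ρ, hρ⟩ := QE_all k hk0
    have hpd := pd_mul h0 hρ
    have hM : d₀ * (8 * k) ≠ 0 := mul_ne_zero h0.q0 (mul_ne_zero (by norm_num) hk0)
    obtain ⟨B, hB⟩ := att_agree h0 hρ hatt
    have hag : ∀ a : ZI, IsCoprime a (d * (d₀ * (8 * k))) → ψ a = (ψ₀ * toC ρ) a :=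
      fun a ha => agree hψ hpd hB ha
    have hdM : d ∣ d₀ * (8 * k) := cond_dvd hψ hag hpd
    -- primes dividing `k`
    have hpk : ∀ π : ZI, Prime π → ¬ π ∣ 2 → ¬ π ∣ d₀ → π ∣ k → π ∣ d := by
      intro π hπ h2 h3 h4
      by_contra h5
      obtain ⟨k', rfl⟩ := h4
      have hk' : k' ≠ 0 := right_ne_zero_of_mul hk0
      obtain ⟨ρ1, q1, b, hb, hb1⟩ := QE_oddprime hπ h2
      obtain ⟨ρ2, q2⟩ := QE_all k' hk'
      have q3 := q1.mul q2
      have hpd2 := pd_mul h0 q3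
      obtain ⟨B2, hB2⟩ := att_agree h0 q3 hatt
      have hk'π : ¬ π ∣ k' := by
        intro h
        exact hπ.not_isUnit (hk π (mul_dvd_mul_left π h))
      have h8 : ¬ π ∣ 8 := by
        intro h
        have e : (8 : ZI) = 2 ^ 3 := by norm_num
        rw [e] at h
        exact h2 (hπ.dvd_of_dvd_pow h)
      set M1 : ZI := d₀ * (8 * k') with hM1
      have hπM1 : ¬ π ∣ M1 := by
        intro h
        rcases hπ.dvd_or_dvd h with h | h
        · exact h3 h
        · rcases hπ.dvd_or_dvd h with h | h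
          · exact h8 h
          · exact hk'π h
      have hdM1 : d ∣ M1 := by
        have e : d₀ * (8 * (π * k')) = π * M1 := by rw [hM1]; ring
        rw [e] at hdM
        refine IsCoprime.dvd_of_dvd_mul_left ?_ hdM
        exact ((hπ.irreducible.coprime_iff_not_dvd).2 h5).symm
      obtain ⟨x, y, hxy⟩ := (hπ.irreducible.coprime_iff_not_dvd).2 hπM1
      -- `x π + y M1 = 1`
      set a : ZI := 1 + (b - 1) * (y * M1) with ha
      have a1 : M1 ∣ a - 1 := ⟨(b - 1) * y, by rw [ha]; ring⟩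
      have a2 : π ∣ a - b := ⟨-((b - 1) * x), by
        have : y * M1 = 1 - x * π := by linear_combination hxy
        rw [ha, this]; ring⟩
      have c1 : IsCoprime a M1 := he9_cop a1 isCoprime_one_left
      have c2' : IsCoprime a π := he9_cop a2 (((hπ.irreducible.coprime_iff_not_dvd).2 hb).symm)
      have c3 : IsCoprime a d := c1.of_isCoprime_of_dvd_right hdM1
      have c4 : IsCoprime a (d * (d₀ * (8 * (π * k')))) := by
        have e : d₀ * (8 * (π * k')) = M1 * π := by rw [hM1]; ring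
        rw [e]
        exact c3.mul_right (c1.mul_right c2')
      have e1 := agree hψ hpd2 hB2 c4
      have e2 : ψ a = 1 := by
        rw [hψ.per a 1 (hdM1.trans a1), map_one]
      have e3 : ψ₀ a = 1 := by
        rw [h0.per a 1 ((dvd_mul_right _ _).trans a1), map_one]
      have e4 : ρ2 a = 1 := by
        rw [q2.per a 1 ((dvd_mul_left _ _).trans a1), map_one]
      have e5 : ρ1 a = -1 := by
        refine hb1 a (Dvd.dvd.trans ⟨d₀ * k', by rw [hM1]; ring⟩ a1) a2
      rw [e2, MonoidHom.mul_apply, toC_apply, MonoidHom.mul_apply, e3, e4, e5] at e1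
      norm_num at e1
    refine ⟨?_, ?_, ?_⟩
    · intro π hπ h2 h3
      by_cases h4 : π ∣ k
      · have h5 := hpk π hπ h2 h3 h4
        have h6 : ψ π = 0 := by
          by_contra h
          exact hπ.not_isUnit (((hψ.supp π).1 h).isUnit_of_dvd' dvd_rfl h5)
        rw [h6, Pois.sy_leg, leg_eq_zero.2 h4]
        simp
      · have h8 : ¬ π ∣ 8 := by
          intro h
          have e : (8 : ZI) = 2 ^ 3 := by norm_num
          rw [e] at h
          exact h2 (hπ.dvd_of_dvd_pow h)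
        have h5 : ¬ π ∣ d₀ * (8 * k) := by
          intro h
          rcases hπ.dvd_or_dvd h with h | h
          · exact h3 h
          · rcases hπ.dvd_or_dvd h with h | h
            · exact h8 h
            · exact h4 h
        have h6 : ¬ π ∣ d := fun h => h5 (h.trans hdM)
        have c1 := (hπ.irreducible.coprime_iff_not_dvd).2 h5
        have c2' := (hπ.irreducible.coprime_iff_not_dvd).2 h6
        rw [hag π (c2'.mul_right c1), MonoidHom.mul_apply, toC_apply, hρ.prm π hπ h2, Pois.sy_leg]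
        push_cast
        rfl
    · have h1 : k ∣ 2 * d₀ * d := by
        refine sq_dvd _ hk fun π hπ h => ?_
        by_cases h2 : π ∣ 2
        · exact (h2.mul_right _).mul_right _
        by_cases h3 : π ∣ d₀
        · exact (h3.mul_left _).mul_right _
        exact (hpk π hπ h2 h3 h).mul_left _
      have h2 : (2 : ZI) * d₀ * d ≠ 0 := mul_ne_zero (mul_ne_zero (by norm_num) h0.q0) hψ.q0
      have h3 := Pool.Agent.N768.QI.nz_le_of_dvd h2 h1
      rw [El.nz_mul, El.nz_mul, hnz2] at h3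
      have h4 : 0 ≤ nz d₀ * nz d := by positivity
      nlinarith
    · have h3 := Pool.Agent.N768.QI.nz_le_of_dvd hM hdM
      rw [El.nz_mul, El.nz_mul, hnz8] at h3
      linarith

end Pool.Agent.N880.QI
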