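import Pool.Agent.N768.QI.Local

/-!
Project QI, leaf EC: the Euler product of `y² = x³ - x` over the quadratic extensions of `ℚ(i)`.
-/

set_option autoImplicit false

open NumberField IsDedekindDomain Complex
open H385 (ZI nrm)
open Pool.Agent.H304R3.HK (tc HC psi LH uh_psi goodH)
open Pool.Agent.H921R2.TatePole (below nm nm_eq nm_summable two_le_nm)
open Pool.Agent.H82R3.EK (below_eq_of_mem factor_sub_bound)
open Pool.Agent.W164.RC (Ip Ip_spec eulerFactor eulerFactor_eq epf hasProd_epf Cq Cq_ne Cq_diff two2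
  places_finite lpoly lpoly_ne lpoly_diff eulerFactor_lpoly tr)
open Pool.Agent.N768.QI (psi0 hc_psi0 psi0_prim fiber hecke_side mem_exc_iff ndvd att_red sq_split
  beta_exists squarefree_star iota_inj)

namespace Pool.Agent.N880.QI

section
variable {K : Type} [Field K] [NumberField K] (ι : ZI →+* 𝓞 K)

/-- the product over the places not above two -/
theorem ec_good (hK : Module.finrank ℚ K = 4) {k : ZI} {β : 𝓞 K} (hk : Squarefree k)
    (hns : ¬ IsSquare k) (hβ : β ^ 2 = ι k) {d d' : ZI} {ψ ψ' : ZI →* ℂ}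
    (hd : HC d ψ) (hd' : HC d' ψ')
    (h1 : ∀ π : ZI, Prime π → ¬ π ∣ 2 → ¬ π ∣ two2 → ψ π = psi0 π * ((sy k π : ℝ) : ℂ))
    (h1' : ∀ π : ZI, Prime π → ¬ π ∣ 2 → ¬ π ∣ two2 → ψ' π = psi0 π * ((sy (star k) π : ℝ) : ℂ))
    {s : ℂ} (hs : 3 / 2 < s.re) :
    HasProd (open Classical in fun v : HeightOneSpectrum (𝓞 K) =>
      if v ∈ exc K then 1 else eulerFactor s v)
      (LH psi0 (s - 1 / 2) * Cq two2 (psi psi0) (s - 1 / 2) *
        (LH psi0 (s - 1 / 2) * Cq two2 (psi psi0) (s - 1 / 2)) *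
        (LH ψ (s - 1 / 2) * Cq two2 (psi ψ) (s - 1 / 2)) *
        (LH ψ' (s - 1 / 2) * Cq two2 (psi ψ') (s - 1 / 2))) := by
  classical
  have hre : 1 < (s - 1 / 2).re := by
    have : (s - 1 / 2).re = s.re - 1 / 2 := by simp
    rw [this]; linarith
  have hre0 : 0 < (s - 1 / 2).re := by linarith
  have h20 : two2 ≠ 0 := by decide
  obtain ⟨A, hA, hgood⟩ := goodH
  have hc0 : HC two2 psi0 := hc_psi0
  have g0 := hasProd_epf h20 dvd_rfl (uh_psi _ _ hc0) hre0 ((hgood _ _ hc0).2.1 _ hre)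
  have g1 := hasProd_epf h20 dvd_rfl (uh_psi _ _ hd) hre0 ((hgood _ _ hd).2.1 _ hre)
  have g2 := hasProd_epf h20 dvd_rfl (uh_psi _ _ hd') hre0 ((hgood _ _ hd').2.1 _ hre)
  have g := ((g0.mul g0).mul g1).mul g2
  have h3 : ∀ p : Nat.Primes, epf two2 (psi psi0) (s - 1 / 2) p *
      epf two2 (psi psi0) (s - 1 / 2) p * epf two2 (psi ψ) (s - 1 / 2) p *
      epf two2 (psi ψ') (s - 1 / 2) p =
      ∏ v : {v : HeightOneSpectrum (𝓞 K) // below v = p},
        (if v.1 ∈ exc K then 1 else eulerFactor s v.1) := by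
    intro p
    have k0 : (p : ℕ) ≠ 2 → ∀ z ∈ Ip p, psi0 z = 1 := by
      intro hp2 z hz
      exact psi0_prim ((Pool.Agent.W164.RC.prim_iff_dvd z).1 (Ip_spec p.2 hz).1)
    rw [fiber ι hK hk hns hβ p s]
    refine hecke_side p.2 k0 ?_ ?_ s
    · intro hp2 z hz
      rw [h1 z (Ip_spec p.2 hz).2.1 (ndvd p.2 hp2 hz (by decide)) (ndvd p.2 hp2 hz (by decide)),
        k0 hp2 z hz, one_mul]
    · intro hp2 z hz
      rw [h1' z (Ip_spec p.2 hz).2.1 (ndvd p.2 hp2 hz (by decide)) (ndvd p.2 hp2 hz (by decide)),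
        k0 hp2 z hz, one_mul]
  simp_rw [h3] at g
  have h4 : Multipliable (fun v : HeightOneSpectrum (𝓞 K) =>
      if v ∈ exc K then 1 else eulerFactor s v) := by
    have hsum := nm_summable (K := K) (x := s.re - 1 / 2) (by linarith)
    have h5 : Summable (fun v : HeightOneSpectrum (𝓞 K) =>
        ‖(if v ∈ exc K then 1 else eulerFactor s v) - 1‖) := by
      refine Summable.of_norm_bounded_eventually (hsum.mul_left 6) ?_
      have h6 := hsum.tendsto_cofinite_zero.eventually (Iio_mem_nhds (by norm_num : (0 : ℝ) < 1 / 6))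
      filter_upwards [h6] with v hv
      rw [norm_norm]
      split_ifs with hiq
      · rw [sub_self, norm_zero]
        positivity
      · have hv2 : (below v : ℕ) ≠ 2 := fun hb => hiq ((mem_exc_iff v).2 hb)
        rw [eulerFactor_eq v hv2]
        exact factor_sub_bound v s hs (le_of_lt hv)
    have h7 := multipliable_one_add_of_summable h5
    refine h7.congr (fun v => ?_)
    ring
  rw [← (Equiv.sigmaFiberEquiv (below (K := K))).hasProd_iff]
  refine HasProd.sigma_of_hasProd g (fun p => ?_) ?_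
  · exact hasProd_fintype _
  · exact (Equiv.sigmaFiberEquiv (below (K := K))).multipliable_iff.2 h4

end

/-- the Euler product -/
theorem ec_main (hch : S_char) : S_EC := by
  classical
  refine ⟨two2, psi0, hc_psi0, ?_⟩
  intro K _ _ hK ι m α hm hα d d' ψ ψ' hd hatt hd' hatt' a ε hpos
  -- the squarefree part
  have hm0 : m ≠ 0 := by
    rintro rfl
    exact hm ⟨0, by ring⟩
  obtain ⟨k, b, hk, hb, hkb⟩ := sq_split _ m rfl hm0
  have hns : ¬ IsSquare k := by
    rintro ⟨c, hc⟩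
    exact hm ⟨c * b, by rw [hkb, hc]; ring⟩
  obtain ⟨β, hβ⟩ := beta_exists ι (iota_inj ι) hkb hb hα
  have hskb : star m = star k * star b ^ 2 := by
    rw [hkb, star_mul, star_pow]; ring
  have hsb : star b ≠ 0 := fun h => hb (by rw [← star_star b, h, star_zero])
  have hc0 : HC two2 psi0 := hc_psi0
  obtain ⟨C, hC, hchar⟩ := hch two2 psi0 hc0
  have h1 := ((hchar k hk).2 d ψ hd (att_red hkb hb hatt)).1
  have h1' := ((hchar (star k) (squarefree_star hk)).2 d' ψ' hd' (att_red hskb hsb hatt')).1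
  -- the places above two
  have h2K : (2 : 𝓞 K) ≠ 0 := two_ne_zero
  have hfin : (exc K).Finite := places_finite h2K
  refine ⟨hfin, ?_⟩
  set S : Finset (HeightOneSpectrum (𝓞 K)) := hfin.toFinset with hS
  have hmemS : ∀ v, v ∈ S ↔ v ∈ exc K := fun v => by rw [hS]; simp
  have hn2 : ∀ v : HeightOneSpectrum (𝓞 K), 2 ≤ Ideal.absNorm v.asIdeal := fun v => two_le_nm v
  have hlp : ∀ (a ε : ℤ) (n : ℕ) (s : ℂ), lp a ε n s = lpoly a ε n s := fun _ _ _ _ => rfl
  obtain ⟨P, hP⟩ : ∃ P : HeightOneSpectrum (𝓞 K) → ℂ → ℂ, P = fun v s =>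
    lpoly (a v) (ε v) (Ideal.absNorm v.asIdeal) s := ⟨_, rfl⟩
  have hPdiff : ∀ v, Differentiable ℂ (P v) := by
    intro v
    rw [hP]
    exact lpoly_diff _ _ (hn2 v)
  have hPne : ∀ v ∈ S, ∀ s : ℂ, 1 / 2 < s.re → P v s ≠ 0 := by
    intro v hv s hs
    rw [hP]
    exact lpoly_ne (hn2 v) (hpos v ((hmemS v).1 hv)) hs
  obtain ⟨R0, hR0⟩ : ∃ R0 : ℂ → ℂ, R0 = fun s => Cq two2 (psi psi0) (s - 1 / 2) *
    Cq two2 (psi psi0) (s - 1 / 2) * Cq two2 (psi ψ) (s - 1 / 2) * Cq two2 (psi ψ') (s - 1 / 2) :=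
    ⟨_, rfl⟩
  have hsub : Differentiable ℂ (fun s : ℂ => s - 1 / 2) := differentiable_id.sub_const _
  have hR0diff : Differentiable ℂ R0 := by
    rw [hR0]
    exact ((((Cq_diff two2 (psi psi0)).comp hsub).mul ((Cq_diff two2 (psi psi0)).comp hsub)).mul
      ((Cq_diff two2 (psi ψ)).comp hsub)).mul ((Cq_diff two2 (psi ψ')).comp hsub)
  have hre : ∀ s : ℂ, 1 / 2 < s.re → 0 < (s - 1 / 2).re := by
    intro s hs
    have : (s - 1 / 2).re = s.re - 1 / 2 := by simp
    rw [this]; linarith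
  have hR0ne : ∀ s : ℂ, 1 / 2 < s.re → R0 s ≠ 0 := by
    intro s hs
    rw [hR0]
    have hs' := hre s hs
    exact mul_ne_zero (mul_ne_zero (mul_ne_zero (Cq_ne two2 (uh_psi _ _ hc0) hs')
      (Cq_ne two2 (uh_psi _ _ hc0) hs')) (Cq_ne two2 (uh_psi _ _ hd) hs'))
      (Cq_ne two2 (uh_psi _ _ hd') hs')
  obtain ⟨R, hR⟩ : ∃ R : ℂ → ℂ, R = fun s => R0 s * ∏ v ∈ S, (P v s)⁻¹ := ⟨_, rfl⟩
  refine ⟨R, R0, hR0diff, ?_, ?_⟩
  · intro s hs
    refine ⟨?_, ?_, ?_⟩
    · rw [hR]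
      refine (hR0diff.analyticAt s).mul ?_
      apply Finset.analyticAt_fun_prod
      intro v hv
      exact ((hPdiff v).analyticAt s).inv (hPne v hv s hs)
    · rw [hR]
      refine mul_ne_zero (hR0ne s hs) ?_
      rw [Finset.prod_ne_zero_iff]
      intro v hv
      exact inv_ne_zero (hPne v hv s hs)
    · have h3 : ∏ᶠ v ∈ exc K, lp (a v) (ε v) (Ideal.absNorm v.asIdeal) s = ∏ v ∈ S, P v s := by
        rw [← finprod_mem_coe_finset]
        have : (S : Set (HeightOneSpectrum (𝓞 K))) = exc K := by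
          ext v
          exact hmemS v
        rw [this, hP]
        rfl
      rw [h3, hR]
      show R0 s * (∏ v ∈ S, (P v s)⁻¹) * (∏ v ∈ S, P v s) = R0 s
      rw [mul_assoc, ← Finset.prod_mul_distrib]
      have h4 : ∏ v ∈ S, ((P v s)⁻¹ * P v s) = 1 :=
        Finset.prod_eq_one fun v hv => inv_mul_cancel₀ (hPne v hv s hs)
      rw [h4, mul_one]
  · intro s hs
    have hgood := ec_good ι hK hk hns hβ hd hd' h1 h1' hs
    have h3 : HasProd (fun v : HeightOneSpectrum (𝓞 K) =>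
        if v ∈ S then (P v s)⁻¹ else 1) (∏ v ∈ S, (P v s)⁻¹) := by
      have h4 : ∏ v ∈ S, (P v s)⁻¹ = ∏ v ∈ S, (if v ∈ S then (P v s)⁻¹ else 1) :=
        Finset.prod_congr rfl fun v hv => by rw [if_pos hv]
      rw [h4]
      apply hasProd_prod_of_ne_finset_one
      intro v hv
      rw [if_neg hv]
    have h5 := hgood.mul h3
    have h6 : LH psi0 (s - 1 / 2) ^ 2 * LH ψ (s - 1 / 2) * LH ψ' (s - 1 / 2) * R s =
        LH psi0 (s - 1 / 2) * Cq two2 (psi psi0) (s - 1 / 2) *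
        (LH psi0 (s - 1 / 2) * Cq two2 (psi psi0) (s - 1 / 2)) *
        (LH ψ (s - 1 / 2) * Cq two2 (psi ψ) (s - 1 / 2)) *
        (LH ψ' (s - 1 / 2) * Cq two2 (psi ψ') (s - 1 / 2)) * ∏ v ∈ S, (P v s)⁻¹ := by
      rw [hR, hR0]
      ring
    rw [h6]
    refine h5.congr_fun ?_
    intro v
    unfold fac
    by_cases hv : v ∈ exc K
    · rw [if_pos hv, if_pos hv, if_pos ((hmemS v).2 hv), hlp, hP, one_mul]
    · have hvS : v ∉ S := fun h => hv ((hmemS v).1 h)
      rw [if_neg hv, if_neg hv, if_neg hvS, mul_one, hlp, eulerFactor_lpoly]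
      rfl

end Pool.Agent.N880.QI
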