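import Pool.Agent.N880.QI.Stm
import Pool.Agent.H304R3.HK.LgB
import Pool.Agent.H304R3.HK.LamH

/-!
Project QI, part G2 (helper692): positivity of the lattice defect.  By the theorem on sums of two
squares `phi z = Σ_j (e((4j+1)√z) - e((4j+3)√z))` with `e(x) = 1/x - 2 Σ_m exp(-π m² x²)`, and `e`
is a decreasing function (functional equation of the theta function).
-/

set_option autoImplicit false

open Filter Topology
open H385 (ZI)
open Pool.Agent.H304R3.HK (bb UH ts ee CS)
open Pool.Agent.H304R3.HK.M4 (T mem_T h1 h1_of h1i ccf_h1 ccf_pow norm_nn norm_zero_iff bb_eq hf1)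

namespace Pool.Agent.N880.QI

namespace Phi

/-- half of the theta series -/
noncomputable def ps (x : ℝ) : ℝ :=
  ∑' m : ℕ, Real.exp (-(Real.pi * (((m : ℝ) + 1) ^ 2 * x ^ 2)))

lemma geo {x : ℝ} (hx : 0 < x) : Summable fun m : ℕ => Real.exp (-(Real.pi * x ^ 2)) ^ (m + 1) := by
  have h1 : Real.exp (-(Real.pi * x ^ 2)) < 1 := by
    rw [Real.exp_lt_one_iff]
    have := Real.pi_pos
    have : 0 < Real.pi * x ^ 2 := by positivity
    linarith
  exact (summable_nat_add_iff 1).2 (summable_geometric_of_lt_one (Real.exp_pos _).le h1)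

lemma ps_summable {x : ℝ} (hx : 0 < x) :
    Summable fun m : ℕ => Real.exp (-(Real.pi * (((m : ℝ) + 1) ^ 2 * x ^ 2))) := by
  refine Summable.of_nonneg_of_le (fun m => (Real.exp_pos _).le) (fun m => ?_) (geo hx)
  rw [← Real.exp_nat_mul]
  apply Real.exp_le_exp.2
  have hp := Real.pi_pos
  push_cast
  have h1 : (0 : ℝ) ≤ m := Nat.cast_nonneg m
  have h2 : 0 ≤ Real.pi * x ^ 2 := by positivity
  nlinarith [mul_nonneg h2 (mul_nonneg h1 (by linarith : (0 : ℝ) ≤ m + 1))]

lemma ps_nonneg (x : ℝ) : 0 ≤ ps x := tsum_nonneg fun _ => (Real.exp_pos _).le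

lemma th_eq {x : ℝ} (hx : 0 < x) :
    ∑' n : ℤ, Real.exp (-Real.pi * x ^ 2 * (n : ℝ) ^ 2) = 1 + 2 * ps x := by
  have hs : HasSum _ (ps x) := (ps_summable hx).hasSum
  have h1 : HasSum (fun n : ℕ => Real.exp (-Real.pi * x ^ 2 * (((n : ℤ) + 1 : ℤ) : ℝ) ^ 2)) (ps x) := by
    convert hs using 3 with n
    push_cast
    ring
  have h2 : HasSum (fun n : ℕ => Real.exp (-Real.pi * x ^ 2 * ((-((n : ℤ) + 1) : ℤ) : ℝ) ^ 2)) (ps x) := by
    convert hs using 3 with n
    push_cast
    ring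
  have h3 := HasSum.of_add_one_of_neg_add_one (f := fun n : ℤ => Real.exp (-Real.pi * x ^ 2 * (n : ℝ) ^ 2))
    h1 h2
  rw [h3.tsum_eq]
  simp only [Int.cast_zero]
  norm_num
  ring

lemma fe {x : ℝ} (hx : 0 < x) : 1 + 2 * ps x = 1 / x * (1 + 2 * ps (1 / x)) := by
  have h := Real.tsum_exp_neg_mul_int_sq (a := x ^ 2) (by positivity)
  rw [th_eq hx] at h
  rw [h]
  have h1 : (x ^ 2) ^ (1 / 2 : ℝ) = x := by
    rw [← Real.sqrt_eq_rpow, Real.sqrt_sq hx.le]
  rw [h1, ← th_eq (x := 1 / x) (by positivity)]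
  congr 2
  funext n
  congr 2
  field_simp

/-- defect of the one-dimensional sum -/
noncomputable def Ee (x : ℝ) : ℝ := 1 / x - 2 * ps x

lemma Ee_low {x : ℝ} (hx : 0 < x) : Ee x = 1 - 2 * (1 / x * ps (1 / x)) := by
  have h := fe hx
  unfold Ee
  linarith [h, (by ring : 1 / x * (1 + 2 * ps (1 / x)) = 1 / x + 2 * (1 / x * ps (1 / x)))]

lemma Ee_le_one {x : ℝ} (hx : 0 < x) : Ee x ≤ 1 := by
  rw [Ee_low hx]
  have h1 : 0 ≤ 1 / x * ps (1 / x) := mul_nonneg (by positivity) (ps_nonneg _)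
  linarith

lemma pi_gt : 3 < Real.pi := Real.pi_gt_three

/-- monotonicity near zero, one term -/
lemma term_low {u v a : ℝ} (hv : 1 ≤ v) (huv : v ≤ u) (ha : 1 ≤ a) :
    u * Real.exp (-(a * u ^ 2)) ≤ v * Real.exp (-(a * v ^ 2)) := by
  have e1 : Real.exp (-(a * v ^ 2)) = Real.exp (-(a * u ^ 2)) * Real.exp (a * (u ^ 2 - v ^ 2)) := by
    rw [← Real.exp_add]
    congr 1
    ring
  rw [e1]
  have h1 := Real.add_one_le_exp (a * (u ^ 2 - v ^ 2))
  have h2 : u - v ≤ u ^ 2 - v ^ 2 := by nlinarith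
  have h3 : u ^ 2 - v ^ 2 ≤ a * (u ^ 2 - v ^ 2) := by nlinarith
  have h4 : u ≤ v * Real.exp (a * (u ^ 2 - v ^ 2)) := by nlinarith
  have h5 := mul_le_mul_of_nonneg_right h4 (Real.exp_pos (-(a * u ^ 2))).le
  linarith [h5, (by ring : v * (Real.exp (-(a * u ^ 2)) * Real.exp (a * (u ^ 2 - v ^ 2))) =
    v * Real.exp (a * (u ^ 2 - v ^ 2)) * Real.exp (-(a * u ^ 2)))]

lemma Ee_anti_low {x y : ℝ} (hx : 0 < x) (hxy : x ≤ y) (hy : y ≤ 1) : Ee y ≤ Ee x := by
  have hy0 : 0 < y := lt_of_lt_of_le hx hxy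
  rw [Ee_low hx, Ee_low hy0]
  have h1 : 1 / x * ps (1 / x) ≤ 1 / y * ps (1 / y) := by
    unfold ps
    rw [← tsum_mul_left, ← tsum_mul_left]
    refine Summable.tsum_le_tsum (fun m => ?_) ((ps_summable (by positivity)).mul_left _)
      ((ps_summable (by positivity)).mul_left _)
    have h2 := term_low (u := 1 / x) (v := 1 / y) (a := Real.pi * ((m : ℝ) + 1) ^ 2)
      (by rw [le_div_iff₀ hy0]; linarith) (one_div_le_one_div_of_le hx hxy) (by
        have h3 : (1 : ℝ) ≤ ((m : ℝ) + 1) ^ 2 := by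
          have : (0 : ℝ) ≤ m := Nat.cast_nonneg m
          nlinarith
        have := pi_gt
        nlinarith)
    have e : ∀ w : ℝ, Real.pi * ((m : ℝ) + 1) ^ 2 * w ^ 2 = Real.pi * (((m : ℝ) + 1) ^ 2 * w ^ 2) :=
      fun w => by ring
    rw [e, e] at h2
    exact h2
  linarith

/-- the term with the parameter `a` for arguments at least one -/
lemma term_high {x y a : ℝ} (hx : 1 ≤ x) (hxy : x ≤ y) (ha : 3 ≤ a) :
    Real.exp (-(a * x ^ 2)) - Real.exp (-(a * y ^ 2)) ≤ 2 * a * Real.exp (-a) * (1 / x - 1 / y) := by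
  set K : ℝ := 2 * a * Real.exp (-a) with hK
  have hanti : AntitoneOn (fun s : ℝ => K * s⁻¹ - Real.exp (-(a * s ^ 2))) (Set.Ici 1) := by
    have hd : ∀ s : ℝ, 1 ≤ s → HasDerivAt (fun s : ℝ => K * s⁻¹ - Real.exp (-(a * s ^ 2)))
        (-(K / s ^ 2) + 2 * a * s * Real.exp (-(a * s ^ 2))) s := by
      intro s hs
      have hs0 : s ≠ 0 := by linarith
      have h1 : HasDerivAt (fun s : ℝ => K * s⁻¹) (K * -(s ^ 2)⁻¹) s :=
        (hasDerivAt_inv hs0).const_mul K
      have h2 : HasDerivAt (fun s : ℝ => s ^ 2) (2 * s) s := by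
        simpa using hasDerivAt_pow 2 s
      have h3 : HasDerivAt (fun s : ℝ => -(a * s ^ 2)) (-(a * (2 * s))) s :=
        (h2.const_mul a).fun_neg
      have h4 : HasDerivAt (fun s : ℝ => K * s⁻¹ - Real.exp (-(a * s ^ 2)))
        (K * -(s ^ 2)⁻¹ - Real.exp (-(a * s ^ 2)) * (-(a * (2 * s)))) s := h1.fun_sub h3.exp
      refine h4.congr_deriv ?_
      rw [div_eq_mul_inv]
      ring
    refine antitoneOn_of_deriv_nonpos (convex_Ici 1) (fun s hs => (hd s hs).continuousAt.continuousWithinAt)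
      (fun s hs => ?_) (fun s hs => ?_)
    · rw [interior_Ici] at hs
      exact (hd s (le_of_lt hs)).differentiableAt.differentiableWithinAt
    · rw [interior_Ici] at hs
      have hs1 : 1 < s := hs
      rw [(hd s hs1.le).deriv]
      have hs0 : 0 < s := by linarith
      have h1 : s ^ 3 ≤ Real.exp (a * (s ^ 2 - 1)) := by
        have h2 : s ≤ Real.exp (s - 1) := by
          have := Real.add_one_le_exp (s - 1)
          linarith
        calc s ^ 3 ≤ (Real.exp (s - 1)) ^ 3 := pow_le_pow_left₀ hs0.le h2 3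
          _ = Real.exp (3 * (s - 1)) := by
              rw [← Real.exp_nat_mul]
              norm_num
          _ ≤ Real.exp (a * (s ^ 2 - 1)) := by
              apply Real.exp_le_exp.2
              nlinarith [mul_nonneg (by linarith : (0 : ℝ) ≤ a - 3) (by nlinarith : (0 : ℝ) ≤ s ^ 2 - 1)]
      have e1 : Real.exp (-a) = Real.exp (-(a * s ^ 2)) * Real.exp (a * (s ^ 2 - 1)) := by
        rw [← Real.exp_add]
        congr 1
        ring
      have h3 : 2 * a * s * Real.exp (-(a * s ^ 2)) ≤ K / s ^ 2 := by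
        rw [le_div_iff₀ (by positivity), hK, e1]
        have h4 := mul_le_mul_of_nonneg_left h1
          (by positivity : 0 ≤ 2 * a * Real.exp (-(a * s ^ 2)))
        linarith [h4, (by ring : 2 * a * s * Real.exp (-(a * s ^ 2)) * s ^ 2 =
          2 * a * Real.exp (-(a * s ^ 2)) * s ^ 3),
          (by ring : 2 * a * (Real.exp (-(a * s ^ 2)) * Real.exp (a * (s ^ 2 - 1))) =
          2 * a * Real.exp (-(a * s ^ 2)) * Real.exp (a * (s ^ 2 - 1)))]
      linarith
  have h := hanti (Set.mem_Ici.2 hx) (Set.mem_Ici.2 (hx.trans hxy)) hxy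
  simp only at h
  have e : K * (1 / x - 1 / y) = K * x⁻¹ - K * y⁻¹ := by
    rw [one_div, one_div]
    ring
  rw [e]
  linarith

lemma e3 : (20 : ℝ) < Real.exp 3 := by
  have h := Real.exp_one_gt_d9
  have e : Real.exp 3 = Real.exp 1 ^ 3 := by
    rw [← Real.exp_nat_mul]
    norm_num
  rw [e]
  have h2 : (2.718 : ℝ) ^ 3 < Real.exp 1 ^ 3 := by
    apply pow_lt_pow_left₀ _ (by norm_num) (by norm_num)
    linarith
  refine lt_trans ?_ h2
  norm_num

/-- bound for the constant of the term number `m` -/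
lemma kterm (m : ℕ) : 2 * (Real.pi * ((m : ℝ) + 1) ^ 2) * Real.exp (-(Real.pi * ((m : ℝ) + 1) ^ 2)) ≤
    3 / 10 * (1 / 20) ^ m := by
  set a : ℝ := Real.pi * ((m : ℝ) + 1) ^ 2 with ha
  have hm : (0 : ℝ) ≤ m := Nat.cast_nonneg m
  have hp := pi_gt
  have ha1 : 3 + 6 * m ≤ a := by
    rw [ha]
    nlinarith [mul_nonneg hm hm]
  have h1 : a ≤ 3 * Real.exp ((a - 3) / 3) := by
    have := Real.add_one_le_exp ((a - 3) / 3)
    linarith
  have h2 : a * Real.exp (-a) ≤ 3 * Real.exp (-3) * Real.exp (-(2 / 3 * (a - 3))) := by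
    have h3 := mul_le_mul_of_nonneg_right h1 (Real.exp_pos (-a)).le
    refine h3.trans (le_of_eq ?_)
    rw [mul_assoc, mul_assoc, ← Real.exp_add, ← Real.exp_add]
    congr 2
    ring
  have h4 : Real.exp (-(2 / 3 * (a - 3))) ≤ (1 / 20) ^ m := by
    have h5 : Real.exp (-(2 / 3 * (a - 3))) ≤ Real.exp (-(3 * m)) := by
      apply Real.exp_le_exp.2
      linarith
    refine h5.trans ?_
    have e : Real.exp (-(3 * (m : ℝ))) = (Real.exp (-3)) ^ m := by
      rw [← Real.exp_nat_mul]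
      congr 1
      ring
    rw [e]
    apply pow_le_pow_left₀ (Real.exp_pos _).le
    rw [Real.exp_neg, one_div]
    exact inv_anti₀ (by norm_num) e3.le
  have h6 : 3 * Real.exp (-3) ≤ 3 / 20 := by
    rw [Real.exp_neg]
    have := inv_anti₀ (by norm_num) e3.le
    linarith
  have h7 : a * Real.exp (-a) ≤ 3 / 20 * (1 / 20) ^ m :=
    h2.trans (mul_le_mul h6 h4 (Real.exp_pos _).le (by norm_num))
  linarith [h7, (by ring : 2 * a * Real.exp (-a) = 2 * (a * Real.exp (-a))),
    (by ring : 2 * (3 / 20 * (1 / 20 : ℝ) ^ m) = 3 / 10 * (1 / 20) ^ m)]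

lemma Ee_diff {x y : ℝ} (hx : 1 ≤ x) (hxy : x ≤ y) : 1 / 4 * (1 / x - 1 / y) ≤ Ee x - Ee y := by
  have hx0 : 0 < x := by linarith
  have hy0 : 0 < y := by linarith
  have hD : 0 ≤ 1 / x - 1 / y := sub_nonneg.2 (one_div_le_one_div_of_le hx0 hxy)
  have hsx := ps_summable hx0
  have hsy := ps_summable hy0
  have hg : HasSum (fun m : ℕ => 3 / 10 * (1 / 20 : ℝ) ^ m) (3 / 10 * (1 - 1 / 20)⁻¹) :=
    (hasSum_geometric_of_lt_one (by norm_num) (by norm_num)).mul_left _
  have h1 : ps x - ps y ≤ 3 / 10 * (1 - 1 / 20)⁻¹ * (1 / x - 1 / y) := by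
    unfold ps
    rw [← hsx.tsum_sub hsy, ← (hg.mul_right _).tsum_eq]
    refine Summable.tsum_le_tsum (fun m => ?_) (hsx.sub hsy) (hg.mul_right _).summable
    have hm : (0 : ℝ) ≤ m := Nat.cast_nonneg m
    have h2 := term_high (x := x) (y := y) (a := Real.pi * ((m : ℝ) + 1) ^ 2) hx hxy (by
      have := pi_gt
      nlinarith [mul_nonneg hm hm])
    have e : ∀ w : ℝ, Real.pi * ((m : ℝ) + 1) ^ 2 * w ^ 2 = Real.pi * (((m : ℝ) + 1) ^ 2 * w ^ 2) :=
      fun w => by ring
    rw [e, e] at h2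
    exact h2.trans (mul_le_mul_of_nonneg_right (kterm m) hD)
  unfold Ee
  have h3 : (3 / 10 * (1 - 1 / 20)⁻¹ : ℝ) ≤ 3 / 8 := by norm_num
  have h4 := mul_le_mul_of_nonneg_right h3 hD
  linarith

lemma Ee_anti {x y : ℝ} (hx : 0 < x) (hxy : x ≤ y) : Ee y ≤ Ee x := by
  rcases le_total y 1 with hy | hy
  · exact Ee_anti_low hx hxy hy
  · rcases le_total x 1 with hx1 | hx1
    · have h1 := Ee_anti_low hx hx1 le_rfl
      have h2 := Ee_diff le_rfl hy
      have h3 : (0 : ℝ) ≤ 1 / 1 - 1 / y := sub_nonneg.2 (one_div_le_one_div_of_le one_pos hy)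
      linarith
    · have h2 := Ee_diff hx1 hxy
      have h3 : (0 : ℝ) ≤ 1 / x - 1 / y := sub_nonneg.2 (one_div_le_one_div_of_le hx hxy)
      linarith

lemma Ee_ge {x : ℝ} (hx : 0 < x) : -1 ≤ Ee x := by
  -- compare with a larger argument
  have h0 : Ee (max x 1) ≤ Ee x := Ee_anti hx (le_max_left _ _)
  refine le_trans ?_ h0
  set y := max x 1 with hy
  have hy1 : 1 ≤ y := le_max_right _ _
  have h1 : ps y ≤ 1 / 2 := by
    have h2 : ∀ m : ℕ, Real.exp (-(Real.pi * (((m : ℝ) + 1) ^ 2 * y ^ 2))) ≤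
        1 / 20 * (1 / 20) ^ m := by
      intro m
      have hm : (0 : ℝ) ≤ m := Nat.cast_nonneg m
      have h3 : Real.exp (-(Real.pi * (((m : ℝ) + 1) ^ 2 * y ^ 2))) ≤ Real.exp (-(3 * ((m : ℝ) + 1))) := by
        apply Real.exp_le_exp.2
        have hp := pi_gt
        have h4 : (m : ℝ) + 1 ≤ ((m : ℝ) + 1) ^ 2 * y ^ 2 := by
          have h5 : (m : ℝ) + 1 ≤ ((m : ℝ) + 1) ^ 2 := by nlinarith
          have h6 : (1 : ℝ) ≤ y ^ 2 := by nlinarith
          nlinarith
        nlinarith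
      refine h3.trans ?_
      have e : Real.exp (-(3 * ((m : ℝ) + 1))) = (Real.exp (-3)) ^ (m + 1) := by
        rw [← Real.exp_nat_mul]
        congr 1
        push_cast
        ring
      rw [e, ← pow_succ']
      apply pow_le_pow_left₀ (Real.exp_pos _).le
      rw [Real.exp_neg, one_div]
      exact inv_anti₀ (by norm_num) e3.le
    have hg : HasSum (fun m : ℕ => 1 / 20 * (1 / 20 : ℝ) ^ m) (1 / 20 * (1 - 1 / 20)⁻¹) :=
      (hasSum_geometric_of_lt_one (by norm_num) (by norm_num)).mul_left _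
    have h4 := Summable.tsum_le_tsum h2 (ps_summable (by linarith : 0 < y)) hg.summable
    rw [hg.tsum_eq] at h4
    refine h4.trans ?_
    norm_num
  unfold Ee
  have : 0 < 1 / y := by positivity
  linarith

/-- the bounds for the limit of the alternating sum -/
lemma bounds {h φ : ℝ} (hh : 0 < h) (hlim : Tendsto (fun J : ℕ => ∑ j ∈ Finset.range J,
    (Ee ((4 * (j : ℝ) + 1) * h) - Ee ((4 * (j : ℝ) + 3) * h))) atTop (𝓝 φ)) :
    1 / 40 * min 1 (1 / h) ≤ φ ∧ φ ≤ 2 := by
  set t : ℕ → ℝ := fun j => Ee ((4 * (j : ℝ) + 1) * h) - Ee ((4 * (j : ℝ) + 3) * h) with ht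
  have ht0 : ∀ j, 0 ≤ t j := by
    intro j
    have hj : (0 : ℝ) ≤ j := Nat.cast_nonneg j
    refine sub_nonneg.2 (Ee_anti (by positivity) ?_)
    nlinarith
  have hmono : Monotone (fun J : ℕ => ∑ j ∈ Finset.range J, t j) :=
    monotone_nat_of_le_succ fun n => by
      rw [Finset.sum_range_succ]
      linarith [ht0 n]
  constructor
  · -- the first index with an argument at least one
    have hex : ∃ j : ℕ, 1 ≤ (4 * (j : ℝ) + 1) * h := by
      obtain ⟨j, hj⟩ := exists_nat_ge (1 / h)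
      refine ⟨j, ?_⟩
      rw [div_le_iff₀ hh] at hj
      have : (0 : ℝ) ≤ j := Nat.cast_nonneg j
      nlinarith [mul_nonneg this hh.le]
    classical
    set j0 := Nat.find hex with hj0
    have h1 : 1 ≤ (4 * (j0 : ℝ) + 1) * h := Nat.find_spec hex
    have h2 : min 1 (1 / h) ≤ 5 * (1 / ((4 * (j0 : ℝ) + 1) * h)) := by
      rcases Nat.eq_zero_or_pos j0 with h0 | h0
      · rw [h0]
        refine (min_le_right _ _).trans ?_
        have e : 5 * (1 / ((4 * ((0 : ℕ) : ℝ) + 1) * h)) = 5 * (1 / h) := by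
          push_cast
          ring_nf
        rw [e]
        have : 0 < 1 / h := by positivity
        linarith
      · refine (min_le_left _ _).trans ?_
        have h3 : ¬ 1 ≤ (4 * ((j0 - 1 : ℕ) : ℝ) + 1) * h := Nat.find_min hex (by omega)
        rw [Nat.cast_sub h0] at h3
        push Not at h3
        push_cast at h3
        have hj1 : (1 : ℝ) ≤ j0 := by exact_mod_cast h0
        have h4 : (4 * (j0 : ℝ) + 1) * h ≤ 5 := by
          have h5 : h < 1 := by nlinarith
          nlinarith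
        rw [mul_one_div, le_div_iff₀ (by positivity)]
        linarith
    have key : ∀ n : ℕ, 1 / 8 * (1 / ((4 * (j0 : ℝ) + 1) * h) - 1 / ((4 * ((j0 + n : ℕ) : ℝ) + 1) * h)) ≤
        ∑ j ∈ Finset.range (j0 + n), t j := by
      intro n
      induction n with
      | zero =>
        simp only [add_zero, sub_self, mul_zero]
        exact Finset.sum_nonneg fun j _ => ht0 j
      | succ n ih =>
        rw [← add_assoc, Finset.sum_range_succ]
        set J : ℝ := ((j0 + n : ℕ) : ℝ) with hJ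
        have hJ0 : (j0 : ℝ) ≤ J := by rw [hJ]; exact_mod_cast Nat.le_add_right _ _
        have hj00 : (0 : ℝ) ≤ j0 := Nat.cast_nonneg _
        have hJ1 : ((j0 + n + 1 : ℕ) : ℝ) = J + 1 := by rw [hJ]; push_cast; ring
        rw [hJ1]
        have hge : 1 ≤ (4 * J + 1) * h := by nlinarith
        have hd : 1 / 4 * (1 / ((4 * J + 1) * h) - 1 / ((4 * J + 3) * h)) ≤ t (j0 + n) := by
          have := Ee_diff (x := (4 * J + 1) * h) (y := (4 * J + 3) * h) hge (by nlinarith)
          exact this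
        have hconv : 1 / ((4 * J + 1) * h) - 1 / ((4 * (J + 1) + 1) * h) ≤
            2 * (1 / ((4 * J + 1) * h) - 1 / ((4 * J + 3) * h)) := by
          have hJp : 0 ≤ J := hj00.trans hJ0
          have e : 2 * (1 / ((4 * J + 1) * h) - 1 / ((4 * J + 3) * h)) -
              (1 / ((4 * J + 1) * h) - 1 / ((4 * (J + 1) + 1) * h)) =
              8 / ((4 * J + 1) * (4 * J + 3) * (4 * (J + 1) + 1) * h) := by
            have h1 : (4 * J + 1) ≠ 0 := by positivity
            have h2 : (4 * J + 3) ≠ 0 := by positivity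
            have h3 : (4 * (J + 1) + 1) ≠ 0 := by positivity
            field_simp
            ring
          have : 0 ≤ 8 / ((4 * J + 1) * (4 * J + 3) * (4 * (J + 1) + 1) * h) := by positivity
          linarith
        linarith
    have hlim2 : Tendsto (fun n : ℕ => 1 / 8 * (1 / ((4 * (j0 : ℝ) + 1) * h) -
        1 / ((4 * ((j0 + n : ℕ) : ℝ) + 1) * h))) atTop (𝓝 (1 / 8 * (1 / ((4 * (j0 : ℝ) + 1) * h) - 0))) := by
      refine Tendsto.const_mul _ (tendsto_const_nhds.sub ?_)
      have h5 : Tendsto (fun n : ℕ => (4 * ((j0 + n : ℕ) : ℝ) + 1) * h) atTop atTop := by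
        refine Tendsto.atTop_mul_const hh (tendsto_atTop_add_const_right _ _ ?_)
        refine Tendsto.const_mul_atTop (by norm_num) ?_
        exact tendsto_natCast_atTop_atTop.comp (tendsto_add_atTop_nat j0 |>.congr fun n => by ring)
      refine h5.inv_tendsto_atTop.congr fun n => ?_
      rw [Pi.inv_apply, one_div]
    have hlim3 : Tendsto (fun n : ℕ => ∑ j ∈ Finset.range (j0 + n), t j) atTop (𝓝 φ) := by
      have := hlim.comp (tendsto_add_atTop_nat j0)
      refine this.congr fun n => ?_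
      simp only [Function.comp]
      rw [add_comm]
    have hfin := le_of_tendsto_of_tendsto' hlim2 hlim3 key
    rw [sub_zero] at hfin
    linarith
  · refine le_of_tendsto' hlim fun J => ?_
    have hJ : ∀ J : ℕ, ∑ j ∈ Finset.range J, t j ≤ Ee h - Ee ((4 * (J : ℝ) + 1) * h) := by
      intro J
      induction J with
      | zero => simp
      | succ J ih =>
        rw [Finset.sum_range_succ]
        have hJ0 : (0 : ℝ) ≤ J := Nat.cast_nonneg J
        have h1 : Ee ((4 * ((J + 1 : ℕ) : ℝ) + 1) * h) ≤ Ee ((4 * (J : ℝ) + 3) * h) := by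
          refine Ee_anti (by positivity) ?_
          push_cast
          nlinarith
        simp only [ht]
        linarith
    have h1 := hJ J
    have hJ0 : (0 : ℝ) ≤ J := Nat.cast_nonneg J
    have h2 := Ee_le_one hh
    have h3 := Ee_ge (x := (4 * (J : ℝ) + 1) * h) (by positivity)
    linarith

/-- the arithmetic function of the character modulo four -/
def X4 : ArithmeticFunction ℤ := ⟨fun n => ZMod.χ₄ (n : ZMod 4), by simp⟩

lemma X4_apply (n : ℕ) : X4 n = ZMod.χ₄ (n : ZMod 4) := rfl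

lemma X4_mul (m n : ℕ) : X4 (m * n) = X4 m * X4 n := by
  rw [X4_apply, X4_apply, X4_apply, Nat.cast_mul, map_mul]

lemma X4_mult : X4.IsMultiplicative := ⟨by rw [X4_apply]; simp, fun {m n} _ => X4_mul m n⟩

/-- the sum of the character over the divisors -/
def A4 : ArithmeticFunction ℤ := X4 * (ArithmeticFunction.zeta : ArithmeticFunction ℤ)

lemma A4_apply (n : ℕ) : A4 n = ∑ d ∈ n.divisors, X4 d := by
  unfold A4
  rw [ArithmeticFunction.coe_mul_zeta_apply]

lemma A4_mult : A4.IsMultiplicative :=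
  X4_mult.mul (ArithmeticFunction.isMultiplicative_zeta.natCast)

lemma A4_pow {p : ℕ} (hp : p.Prime) (k : ℕ) : A4 (p ^ k) = ∑ j ∈ Finset.range (k + 1), X4 p ^ j := by
  rw [A4_apply, Nat.sum_divisors_prime_pow hp]
  refine Finset.sum_congr rfl fun j _ => ?_
  rw [X4_apply, X4_apply, Nat.cast_pow, map_pow]

lemma uh1 : UH h1 := by
  refine ⟨?_, ?_, h1i⟩
  · show (if (0 : GaussianInt) = 0 then (0 : ℂ) else 1) = 0
    rw [if_pos rfl]
  · intro a
    show ‖(if a = 0 then (0 : ℂ) else 1)‖ ≤ 1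
    split_ifs <;> simp

lemma in1 : Pool.Agent.H304R3.HK.M3.In h1 :=
  ⟨Pool.Agent.H304R3.HK.bb_zero h1 uh1.h0, fun k m hm => Pool.Agent.H304R3.HK.bb_two_odd h1 uh1.hi k m hm⟩

lemma bb_prime {p : ℕ} (hp : p.Prime) : bb h1 p = 1 + (X4 p : ℂ) := by
  have h := ccf_h1 p hp 1 one_pos
  rw [ccf_pow h1 p hp 1 one_pos, pow_one] at h
  exact h

lemma ee_prime {p : ℕ} (hp : p.Prime) : ee h1 p = (X4 p : ℂ) := by
  have h0 : (p : GaussianInt) ≠ 0 := by
    intro h
    have := congrArg Zsqrtd.re h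
    simp at this
    exact hp.ne_zero this
  rw [X4_apply]
  unfold ee
  by_cases h2 : p = 2
  · rw [if_pos h2, h2]
    have : ZMod.χ₄ ((2 : ℕ) : ZMod 4) = 0 := by decide
    rw [this]
    simp
  · rw [if_neg h2]
    have hodd := hp.eq_two_or_odd
    rcases (by omega : p % 4 = 1 ∨ p % 4 = 3) with h4 | h4
    · rw [if_neg (by omega), h1_of h0, ZMod.χ₄_nat_one_mod_four h4]
      simp
    · rw [if_pos h4, h1_of h0, ZMod.χ₄_nat_three_mod_four h4]
      simp

lemma bb_A4 (n : ℕ) : bb h1 n = (A4 n : ℂ) := by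
  induction n using Nat.recOnPosPrimePosCoprime with
  | prime_pow p k hp hk =>
    have key : ∀ k : ℕ, bb h1 (p ^ k) = (A4 (p ^ k) : ℂ) ∧ bb h1 (p ^ (k + 1)) = (A4 (p ^ (k + 1)) : ℂ) := by
      intro k
      induction k with
      | zero =>
        constructor
        · rw [pow_zero, Pool.Agent.H304R3.HK.M3.b_one in1, A4_mult.map_one]
          simp
        · rw [zero_add, pow_one, bb_prime hp]
          have := A4_pow hp 1
          rw [pow_one] at this
          rw [this]
          simp [Finset.sum_range_succ]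
      | succ k ih =>
        refine ⟨ih.2, ?_⟩
        rw [show k + 1 + 1 = k + 2 from rfl, Pool.Agent.H304R3.HK.M3.b_rec uh1 in1 p hp k, ih.1, ih.2,
          bb_prime hp, ee_prime hp, A4_pow hp, A4_pow hp, A4_pow hp,
          Finset.sum_range_succ _ (k + 2), Finset.sum_range_succ _ (k + 1)]
        push_cast
        have e := Finset.sum_range_succ (fun j => (X4 p : ℂ) ^ j) k
        ring
    exact (key k).1
  | zero => rw [in1.z0]; simp
  | one => rw [Pool.Agent.H304R3.HK.M3.b_one in1, A4_mult.map_one]; simp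
  | coprime a b ha hb hab iha ihb =>
    rw [Pool.Agent.H304R3.HK.M3.b_mul in1 a b hab, iha, ihb, A4_mult.map_mul_of_coprime hab]
    push_cast
    rfl

/-- Jacobi's two squares theorem -/
lemma card_T {n : ℕ} (hn : n ≠ 0) : ((T n).card : ℤ) = 4 * A4 n := by
  have h := bb_A4 n
  rw [bb_eq] at h
  have h2 : ∑ z ∈ T n, h1 z = ((T n).card : ℂ) := by
    rw [Finset.sum_congr rfl (g := fun _ => (1 : ℂ))]
    · simp
    · intro z hz
      refine h1_of ?_
      rintro rfl
      rw [mem_T] at hz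
      simp at hz
      exact hn (by exact_mod_cast hz.symm)
  rw [h2] at h
  have h3 : ((T n).card : ℂ) = 4 * (A4 n : ℂ) := by
    rw [← h]
    ring
  exact_mod_cast h3


/-! ### the sums -/

/-- the weight of the norm `n` -/
noncomputable def gg (x : ℝ) (n : ℕ) : ℝ := Real.exp (-(Real.pi * ((n : ℝ) ^ 2 * x ^ 2)))

lemma hs_congr {β : Type} {f g : β → ℝ} {a : ℝ} (h : ∀ b, f b = g b) (hg : HasSum g a) :
    HasSum f a := by
  have e : f = g := funext h
  rw [e]
  exact hg

lemma summable_int {x : ℝ} (hx : 0 < x) :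
    Summable fun n : ℤ => Real.exp (-Real.pi * x ^ 2 * (n : ℝ) ^ 2) := by
  have hs : HasSum _ (ps x) := (ps_summable hx).hasSum
  have h1 : HasSum (fun n : ℕ => Real.exp (-Real.pi * x ^ 2 * (((n : ℤ) + 1 : ℤ) : ℝ) ^ 2)) (ps x) := by
    convert hs using 3 with n
    push_cast
    ring
  have h2 : HasSum (fun n : ℕ => Real.exp (-Real.pi * x ^ 2 * ((-((n : ℤ) + 1) : ℤ) : ℝ) ^ 2)) (ps x) := by
    convert hs using 3 with n
    push_cast
    ring
  exact (HasSum.of_add_one_of_neg_add_one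
    (f := fun n : ℤ => Real.exp (-Real.pi * x ^ 2 * (n : ℝ) ^ 2)) h1 h2).summable

lemma nz_eq (b : ZI) : nz b = (b.re : ℝ) ^ 2 + (b.im : ℝ) ^ 2 := by
  unfold nz
  rw [Zsqrtd.norm_def]
  push_cast
  ring

lemma nz_nat (b : ZI) : nz b = ((Zsqrtd.norm b).natAbs : ℝ) := by
  unfold nz
  have h := norm_nn b
  rw [← Int.cast_natCast, Int.natAbs_of_nonneg h]

lemma nz_le_sq (b : ZI) : nz b ≤ nz b ^ 2 := by
  rw [nz_nat]
  have : (Zsqrtd.norm b).natAbs ≤ (Zsqrtd.norm b).natAbs ^ 2 := Nat.le_self_pow (by norm_num) _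
  exact_mod_cast this

lemma summable_G {x : ℝ} (hx : 0 < x) :
    Summable fun b : ZI => Real.exp (-(Real.pi * (nz b ^ 2 * x ^ 2))) := by
  have h1 := (summable_int hx).mul_of_nonneg (summable_int hx) (fun _ => (Real.exp_pos _).le)
    (fun _ => (Real.exp_pos _).le)
  have hinj : Function.Injective (fun b : ZI => (b.re, b.im)) := by
    intro a b h
    rw [Prod.mk.injEq] at h
    exact Zsqrtd.ext h.1 h.2
  have h2 := h1.comp_injective hinj
  refine Summable.of_nonneg_of_le (fun b => (Real.exp_pos _).le) (fun b => ?_) h2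
  simp only [Function.comp]
  rw [← Real.exp_add]
  apply Real.exp_le_exp.2
  have h3 := nz_le_sq b
  rw [nz_eq b] at h3
  rw [nz_eq b]
  have h4 : 0 ≤ Real.pi * x ^ 2 := by have := Real.pi_pos; positivity
  nlinarith [mul_le_mul_of_nonneg_left h3 h4]

open Classical in
lemma two_Sq {x : ℝ} (hx : 0 < x) : HasSum (fun b : ZI => if b = 0 then 0 else
    Real.exp (-(Real.pi * (nz b ^ 2 * x ^ 2)))) (2 * Sq (x ^ 2)) := by
  have hG := summable_G hx
  have hC : HasSum (fun b : ZI => if Can b then Real.exp (-(Real.pi * (nz b ^ 2 * x ^ 2))) else 0)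
      (Sq (x ^ 2)) := by
    refine Summable.hasSum ?_
    refine Summable.of_nonneg_of_le (fun b => ?_) (fun b => ?_) hG
    · split_ifs
      · exact (Real.exp_pos _).le
      · exact le_rfl
    · split_ifs
      · exact le_rfl
      · exact (Real.exp_pos _).le
  have hC2 : HasSum (fun b : ZI => if Can (-b) then Real.exp (-(Real.pi * (nz (-b) ^ 2 * x ^ 2))) else 0)
      (Sq (x ^ 2)) := by
    exact (Equiv.neg ZI).hasSum_iff.2 hC
  have h := hC.add hC2
  rw [← two_mul] at h
  convert h using 1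
  funext b
  have e : nz (-b) = nz b := by
    rw [nz_eq, nz_eq]
    simp
  rw [e]
  have hre : (-b).re = -b.re := rfl
  have him : (-b).im = -b.im := rfl
  by_cases h0 : b = 0
  · subst h0
    have h1 : ¬ Can (0 : ZI) := by
      rintro (h | ⟨-, h⟩)
      · exact lt_irrefl _ h
      · exact lt_irrefl _ h
    rw [if_pos rfl, neg_zero, if_neg h1, add_zero]
  · rw [if_neg h0]
    have h2 : b.re ≠ 0 ∨ b.im ≠ 0 := by
      by_contra hcon
      push Not at hcon
      exact h0 (Zsqrtd.ext hcon.1 hcon.2)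
    by_cases h3 : Can b
    · have h4 : ¬ Can (-b) := by
        rintro (h | ⟨h, h'⟩)
        · rw [hre] at h
          rcases h3 with h5 | ⟨h5, h6⟩ <;> omega
        · rw [hre] at h
          rw [him] at h'
          rcases h3 with h5 | ⟨h5, h6⟩ <;> omega
      rw [if_pos h3, if_neg h4, add_zero]
    · have h4 : Can (-b) := by
        unfold Can at h3 ⊢
        push Not at h3
        rw [hre, him]
        rcases lt_trichotomy b.re 0 with h5 | h5 | h5
        · left; omega
        · right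
          have h6 := h3.2 h5
          rcases h2 with h7 | h7
          · exact absurd h5 h7
          · omega
        · exact absurd h5 (not_lt.2 h3.1)
      rw [if_neg h3, if_pos h4, zero_add]

lemma sum_norm {x : ℝ} (hx : 0 < x) :
    HasSum (fun n : ℕ => if n = 0 then 0 else 4 * (A4 n : ℝ) * gg x n) (2 * Sq (x ^ 2)) := by
  classical
  have h := (two_Sq hx).tsum_fiberwise (fun b : ZI => (Zsqrtd.norm b).natAbs)
  refine hs_congr (fun n => ?_) h
  have hset : (fun b : ZI => (Zsqrtd.norm b).natAbs) ⁻¹' {n} = ((T n : Finset ZI) : Set ZI) := by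
    ext b
    rw [Set.mem_preimage, Set.mem_singleton_iff, Finset.mem_coe, mem_T]
    have := norm_nn b
    omega
  rw [hset, Finset.tsum_subtype' (T n) (fun b : ZI => if b = 0 then (0 : ℝ) else
    Real.exp (-(Real.pi * (nz b ^ 2 * x ^ 2))))]
  by_cases hn : n = 0
  · rw [if_pos hn]
    symm
    refine Finset.sum_eq_zero fun b hb => ?_
    rw [mem_T, hn] at hb
    rw [if_pos (norm_zero_iff (by simpa using hb))]
  · rw [if_neg hn, Finset.sum_congr rfl (g := fun _ => gg x n)]
    · rw [Finset.sum_const, nsmul_eq_mul]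
      congr 1
      exact_mod_cast (card_T hn).symm
    · intro b hb
      rw [mem_T] at hb
      rw [if_neg]
      · unfold gg
        rw [nz_nat, hb, Int.natAbs_natCast]
      · rintro rfl
        simp at hb
        exact hn (by exact_mod_cast hb.symm)

/-- the double series -/
noncomputable def F2 (x : ℝ) (p : ℕ × ℕ) : ℝ :=
  if p.2 = 0 then 0 else (X4 p.1 : ℝ) * gg x (p.1 * p.2)

lemma X4_zero : X4 0 = 0 := by
  rw [X4_apply]
  simp

lemma X4_abs (n : ℕ) : |(X4 n : ℝ)| ≤ 1 := by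
  have h : ∀ a : ZMod 4, |ZMod.χ₄ a| ≤ 1 := by decide
  have h2 := h (n : ZMod 4)
  rw [X4_apply]
  exact_mod_cast h2

lemma F2_summable {x : ℝ} (hx : 0 < x) : Summable (F2 x) := by
  set r : ℝ := Real.exp (-(Real.pi * x ^ 2 / 2)) with hr
  have hpx : 0 < Real.pi * x ^ 2 := by have := Real.pi_pos; positivity
  have hr1 : r < 1 := by
    rw [hr, Real.exp_lt_one_iff]
    linarith
  have hg := summable_geometric_of_lt_one (Real.exp_pos _).le hr1
  have h1 := hg.mul_of_nonneg hg (fun n => pow_nonneg (Real.exp_pos _).le n)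
    (fun n => pow_nonneg (Real.exp_pos _).le n)
  refine Summable.of_norm_bounded h1 fun p => ?_
  obtain ⟨d, m⟩ := p
  unfold F2
  simp only
  rw [Real.norm_eq_abs]
  have hpos : 0 ≤ r ^ d * r ^ m := by positivity
  split_ifs with hm
  · rw [abs_zero]
    exact hpos
  · rcases Nat.eq_zero_or_pos d with hd | hd
    · rw [hd, X4_zero]
      simp only [Int.cast_zero, zero_mul, abs_zero]
      rw [hd] at hpos
      exact hpos
    · rw [abs_mul]
      have h2 : |gg x (d * m)| ≤ r ^ d * r ^ m := by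
        unfold gg
        rw [abs_of_pos (Real.exp_pos _), hr, ← Real.exp_nat_mul, ← Real.exp_nat_mul, ← Real.exp_add]
        apply Real.exp_le_exp.2
        have hd1 : (1 : ℝ) ≤ d := by exact_mod_cast hd
        have hm1 : (1 : ℝ) ≤ m := by exact_mod_cast Nat.pos_of_ne_zero hm
        push_cast
        have h3 : (d : ℝ) + m ≤ 2 * (d * m) := by nlinarith [mul_nonneg (sub_nonneg.2 hd1) (sub_nonneg.2 hm1)]
        have h4 : (1 : ℝ) ≤ d * m := by nlinarith
        have h5 : (d : ℝ) * m ≤ (d * m) ^ 2 := by nlinarith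
        have h6 : ((d : ℝ) + m) / 2 ≤ (d * m) ^ 2 := by linarith
        nlinarith [mul_le_mul_of_nonneg_left h6 hpx.le]
      calc |(X4 d : ℝ)| * |gg x (d * m)| ≤ 1 * (r ^ d * r ^ m) :=
            mul_le_mul (X4_abs d) h2 (abs_nonneg _) zero_le_one
        _ = _ := one_mul _

lemma F2_fiber {x : ℝ} (hx : 0 < x) :
    HasSum (fun n : ℕ => if n = 0 then 0 else (A4 n : ℝ) * gg x n) (∑' p, F2 x p) := by
  classical
  have h := (F2_summable hx).hasSum.tsum_fiberwise (fun p : ℕ × ℕ => p.1 * p.2)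
  refine hs_congr (fun n => ?_) h
  by_cases hn : n = 0
  · rw [if_pos hn]
    symm
    rw [← tsum_zero (β := ((fun p : ℕ × ℕ => p.1 * p.2) ⁻¹' {n}))]
    congr 1
    funext p
    obtain ⟨⟨d, m⟩, hp⟩ := p
    rw [Set.mem_preimage, Set.mem_singleton_iff, hn] at hp
    unfold F2
    simp only at hp ⊢
    split_ifs with hm
    · rfl
    · have hd : d = 0 := by
        rcases Nat.mul_eq_zero.1 hp with h | h
        · exact h
        · exact absurd h hm
      rw [hd, X4_zero]
      simp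
  · rw [if_neg hn]
    have hset : (fun p : ℕ × ℕ => p.1 * p.2) ⁻¹' {n} = ((n.divisorsAntidiagonal : Finset (ℕ × ℕ)) :
        Set (ℕ × ℕ)) := by
      ext p
      rw [Set.mem_preimage, Set.mem_singleton_iff, Finset.mem_coe, Nat.mem_divisorsAntidiagonal]
      exact ⟨fun h => ⟨h, hn⟩, fun h => h.1⟩
    rw [hset, Finset.tsum_subtype' n.divisorsAntidiagonal (F2 x)]
    rw [Finset.sum_congr rfl (g := fun p : ℕ × ℕ => (X4 p.1 : ℝ) * gg x n)]
    · rw [Nat.sum_divisorsAntidiagonal (fun d _ => (X4 d : ℝ) * gg x n), ← Finset.sum_mul, A4_apply]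
      push_cast
      rfl
    · intro p hp
      rw [Nat.mem_divisorsAntidiagonal] at hp
      unfold F2
      rw [if_neg, hp.1]
      intro h2
      apply hn
      rw [← hp.1, h2, mul_zero]

lemma Sq_eq {x : ℝ} (hx : 0 < x) : Sq (x ^ 2) = 2 * ∑' p, F2 x p := by
  have h1 := sum_norm hx
  have h2 := (F2_fiber hx).mul_left 4
  have h3 : (fun n : ℕ => 4 * (if n = 0 then 0 else (A4 n : ℝ) * gg x n)) =
      fun n : ℕ => if n = 0 then 0 else 4 * (A4 n : ℝ) * gg x n := by
    funext n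
    split_ifs
    · ring
    · ring
  rw [h3] at h2
  have h4 := h1.unique h2
  linarith

lemma F2_rows {x : ℝ} (hx : 0 < x) :
    HasSum (fun d : ℕ => (X4 d : ℝ) * ps (d * x)) (∑' p, F2 x p) := by
  refine (F2_summable hx).hasSum.prod_fiberwise fun d => ?_
  rcases Nat.eq_zero_or_pos d with hd | hd
  · rw [hd, X4_zero]
    have : (fun m : ℕ => F2 x (0, m)) = fun _ => 0 := by
      funext m
      unfold F2
      rw [X4_zero]
      simp
    rw [this]
    simp only [Int.cast_zero, zero_mul]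
    exact hasSum_zero
  · have hd1 : (0 : ℝ) < d := by exact_mod_cast hd
    have h1 : HasSum _ (ps (d * x)) := (ps_summable (x := (d : ℝ) * x) (by positivity)).hasSum
    have h2 := h1.mul_left (X4 d : ℝ)
    have h3 : HasSum (fun m : ℕ => F2 x (d, m + 1)) ((X4 d : ℝ) * ps (d * x)) := by
      refine hs_congr (fun m => ?_) h2
      unfold F2 gg
      simp only
      rw [if_neg (Nat.succ_ne_zero m)]
      congr 3
      push_cast
      ring
    have h4 := HasSum.zero_add (f := fun m : ℕ => F2 x (d, m)) h3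
    have h5 : F2 x (d, 0) = 0 := by
      unfold F2
      simp
    rw [h5, zero_add] at h4
    exact h4

lemma X4_vals (J : ℕ) : X4 (4 * J) = 0 ∧ X4 (4 * J + 1) = 1 ∧ X4 (4 * J + 2) = 0 ∧
    X4 (4 * J + 3) = -1 := by
  have h4 : ((4 : ℕ) : ZMod 4) = 0 := by decide
  have e : ∀ i : ℕ, (((4 * J + i : ℕ)) : ZMod 4) = ((i : ℕ) : ZMod 4) := by
    intro i
    rw [Nat.cast_add, Nat.cast_mul, h4, zero_mul, zero_add]
  refine ⟨?_, ?_, ?_, ?_⟩
  · have := e 0
    rw [add_zero] at this
    rw [X4_apply, this]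
    decide
  · rw [X4_apply, e 1]
    decide
  · rw [X4_apply, e 2]
    decide
  · rw [X4_apply, e 3]
    decide

lemma lim_ps {x : ℝ} (hx : 0 < x) : Tendsto (fun J : ℕ => ∑ j ∈ Finset.range J,
    (ps ((4 * (j : ℝ) + 1) * x) - ps ((4 * (j : ℝ) + 3) * x))) atTop (𝓝 (∑' p, F2 x p)) := by
  have h1 := (F2_rows hx).tendsto_sum_nat
  have h2 : Tendsto (fun J : ℕ => 4 * J) atTop atTop := tendsto_id.const_mul_atTop' (by norm_num)
  refine (h1.comp h2).congr fun J => ?_
  simp only [Function.comp]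
  induction J with
  | zero => simp
  | succ J ih =>
    rw [show 4 * (J + 1) = 4 * J + 1 + 1 + 1 + 1 by ring, Finset.sum_range_succ, Finset.sum_range_succ,
      Finset.sum_range_succ, Finset.sum_range_succ, ih, Finset.sum_range_succ]
    obtain ⟨e0, e1, e2, e3⟩ := X4_vals J
    rw [show 4 * J + 1 + 1 + 1 = 4 * J + 3 by ring, show 4 * J + 1 + 1 = 4 * J + 2 by ring, e0, e1, e2, e3]
    push_cast
    ring

lemma lim_pi : Tendsto (fun J : ℕ => ∑ j ∈ Finset.range J,
    (1 / (4 * (j : ℝ) + 1) - 1 / (4 * (j : ℝ) + 3))) atTop (𝓝 (Real.pi / 4)) := by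
  have h2 : Tendsto (fun J : ℕ => 2 * J) atTop atTop := tendsto_id.const_mul_atTop' (by norm_num)
  refine (Real.tendsto_sum_pi_div_four.comp h2).congr fun J => ?_
  simp only [Function.comp]
  induction J with
  | zero => simp
  | succ J ih =>
    rw [show 2 * (J + 1) = 2 * J + 1 + 1 by ring, Finset.sum_range_succ, Finset.sum_range_succ, ih,
      Finset.sum_range_succ]
    have h1 : ((-1 : ℝ)) ^ (2 * J) = 1 := by rw [pow_mul]; norm_num
    have h3 : ((-1 : ℝ)) ^ (2 * J + 1) = -1 := by rw [pow_succ, h1]; norm_num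
    rw [h1, h3]
    have e1 : (2 * ((2 * J : ℕ) : ℝ) + 1) = 4 * (J : ℝ) + 1 := by push_cast; ring
    have e2 : (2 * ((2 * J + 1 : ℕ) : ℝ) + 1) = 4 * (J : ℝ) + 3 := by push_cast; ring
    rw [e1, e2]
    ring

lemma lim_phi {x : ℝ} (hx : 0 < x) : Tendsto (fun J : ℕ => ∑ j ∈ Finset.range J,
    (Ee ((4 * (j : ℝ) + 1) * x) - Ee ((4 * (j : ℝ) + 3) * x))) atTop (𝓝 (phi (x ^ 2))) := by
  have h1 := (lim_pi.const_mul (1 / x)).sub ((lim_ps hx).const_mul 2)
  have e : phi (x ^ 2) = 1 / x * (Real.pi / 4) - 2 * ∑' p, F2 x p := by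
    unfold phi
    rw [Sq_eq hx, Real.sqrt_sq hx.le]
    ring
  rw [e]
  refine h1.congr fun J => ?_
  rw [Finset.mul_sum, Finset.mul_sum, ← Finset.sum_sub_distrib]
  refine Finset.sum_congr rfl fun j _ => ?_
  unfold Ee
  have hj : (0 : ℝ) ≤ j := Nat.cast_nonneg j
  have e1 : 1 / ((4 * (j : ℝ) + 1) * x) = 1 / x * (1 / (4 * (j : ℝ) + 1)) := by
    field_simp
  have e2 : 1 / ((4 * (j : ℝ) + 3) * x) = 1 / x * (1 / (4 * (j : ℝ) + 3)) := by
    field_simp
  rw [e1, e2]
  ring

end Phi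

/-- **(G2)** the defect of the sum over the squares is positive and bounded. -/
theorem phi_main : S_phi := by
  refine ⟨1 / 40, 2, by norm_num, by norm_num, fun z hz => ?_⟩
  have hx : 0 < Real.sqrt z := Real.sqrt_pos.2 hz
  have h := Phi.bounds hx (Phi.lim_phi hx)
  rw [Real.sq_sqrt hz.le] at h
  exact h

end Pool.Agent.N880.QI
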