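import Pool.Agent.N880.QI.El
import Pool.Agent.N880.QF.Quad

/-!
Project QI (helper880): the primal side (helper633).
-/

set_option autoImplicit false

open Complex Filter Topology MeasureTheory Set
open H385 (ZI)
open Pool.Agent.N880.QF (gd gd_nonneg gd_int sq_diff)

namespace Pool.Agent.N880.QI.Psd

open Pool.Agent.N880.QI

/-! ### quadratic forms -/

lemma KK_le (τ : ℝ) (p q : ZI) : |KK τ p q| ≤ 1 := by
  unfold KK
  rw [Real.abs_exp, Real.exp_le_one_iff]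
  have : 0 ≤ τ ^ 2 * (Real.log (nz p) - Real.log (nz q)) ^ 2 / 4 := by positivity
  linarith

lemma GG_eq (P : Finset ZI) (y : ZI → ℝ) (τ : ℝ) (z : ZI → ℝ) :
    GG P y τ z = ∑ p ∈ P, ∑ q ∈ P, y p * y q * (z p * z q) * KK τ p q := rfl

/-- the local Gaussian factor -/
noncomputable def gf (τ s : ℝ) (p : ZI) : ℝ :=
  Real.exp (-(τ ^ 2 * (Real.log (nz p) - s / 2) ^ 2 / 2))

/-- linear forms -/
noncomputable def Lc (P : Finset ZI) (y : ZI → ℝ) (τ : ℝ) (z : ZI → ℝ) (s : ℝ) : ℝ :=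
  ∑ p ∈ P, y p * z p * gf τ s p

lemma gf_mul (τ s : ℝ) (p q : ZI) : KK τ p q * gd τ (Real.log (nz p) + Real.log (nz q) - s) =
    τ / (2 * Real.sqrt Real.pi) * (gf τ s p * gf τ s q) := by
  unfold gd gf KK
  rw [← Real.exp_add, mul_comm, mul_assoc, ← Real.exp_add]
  congr 2
  ring

lemma qq_eq (P : Finset ZI) (y : ZI → ℝ) (τ : ℝ) (z : ZI → ℝ) (s : ℝ) :
    qq P y τ z s = τ / (2 * Real.sqrt Real.pi) * Lc P y τ z s ^ 2 := by
  unfold Lc qq
  rw [pow_two, Finset.sum_mul_sum, Finset.mul_sum]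
  refine Finset.sum_congr rfl fun p _ => ?_
  rw [Finset.mul_sum]
  refine Finset.sum_congr rfl fun q _ => ?_
  rw [gf_mul]
  ring

lemma qq_nonneg (P : Finset ZI) (y : ZI → ℝ) {τ : ℝ} (hτ : 0 ≤ τ) (z : ZI → ℝ) (s : ℝ) :
    0 ≤ qq P y τ z s := by
  rw [qq_eq]
  positivity

lemma Lc_sub (P : Finset ZI) (y : ZI → ℝ) (τ : ℝ) (z w : ZI → ℝ) (s : ℝ) :
    Lc P y τ (fun p => z p - w p) s = Lc P y τ z s - Lc P y τ w s := by
  unfold Lc
  rw [← Finset.sum_sub_distrib]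
  exact Finset.sum_congr rfl fun p _ => by ring

/-- perturbation of the quadratic form -/
lemma qq_diff (P : Finset ZI) (y : ZI → ℝ) {τ δ : ℝ} (hτ : 0 ≤ τ) (hδ : 0 < δ) (z w : ZI → ℝ)
    (s : ℝ) : |qq P y τ z s - qq P y τ w s| ≤ δ * qq P y τ w s +
      (1 + 1 / δ) * qq P y τ (fun p => z p - w p) s := by
  rw [qq_eq, qq_eq, qq_eq, Lc_sub]
  have hc : 0 ≤ τ / (2 * Real.sqrt Real.pi) := by positivity
  have h1 := sq_diff hδ (Lc P y τ z s) (Lc P y τ w s)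
  set c := τ / (2 * Real.sqrt Real.pi)
  rw [← mul_sub, abs_mul, abs_of_nonneg hc]
  refine (mul_le_mul_of_nonneg_left h1 hc).trans (le_of_eq ?_)
  ring

section
variable (hgd : QF.S_gd)
include hgd

lemma qq_integrable (P : Finset ZI) (y : ZI → ℝ) {τ : ℝ} (hτ : 0 < τ) (z : ZI → ℝ) :
    Integrable (fun s => qq P y τ z s) := by
  unfold qq
  refine integrable_finsetSum _ fun p _ => integrable_finsetSum _ fun q _ => ?_
  exact ((gd_int hgd hτ _).1.const_mul _).const_mul _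

lemma qq_integral (P : Finset ZI) (y : ZI → ℝ) {τ : ℝ} (hτ : 0 < τ) (z : ZI → ℝ) :
    ∫ s : ℝ, qq P y τ z s = GG P y τ z := by
  unfold qq
  rw [integral_finsetSum _ (fun p _ => integrable_finsetSum _ fun q _ =>
    ((gd_int hgd hτ _).1.const_mul _).const_mul _), GG_eq]
  refine Finset.sum_congr rfl fun p _ => ?_
  rw [integral_finsetSum _ (fun q _ => ((gd_int hgd hτ _).1.const_mul _).const_mul _)]
  refine Finset.sum_congr rfl fun q _ => ?_
  rw [integral_const_mul, integral_const_mul, (gd_int hgd hτ _).2, mul_one]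

lemma GG_nonneg (P : Finset ZI) (y : ZI → ℝ) {τ : ℝ} (hτ : 0 < τ) (z : ZI → ℝ) :
    0 ≤ GG P y τ z := by
  rw [← qq_integral hgd P y hτ z]
  exact integral_nonneg fun s => qq_nonneg P y hτ.le z s

lemma GG_lower (P : Finset ZI) (y : ZI → ℝ) {τ δ : ℝ} (hτ : 0 < τ) (hδ : 0 < δ) (z w : ZI → ℝ) :
    (1 - δ) * GG P y τ w - (1 + 1 / δ) * GG P y τ (fun p => z p - w p) ≤ GG P y τ z := by
  rw [← qq_integral hgd P y hτ w, ← qq_integral hgd P y hτ z,
    ← qq_integral hgd P y hτ (fun p => z p - w p), ← integral_const_mul, ← integral_const_mul,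
    ← integral_sub ((qq_integrable hgd P y hτ w).const_mul _)
      ((qq_integrable hgd P y hτ _).const_mul _)]
  refine integral_mono (((qq_integrable hgd P y hτ w).const_mul _).sub
      ((qq_integrable hgd P y hτ _).const_mul _)) (qq_integrable hgd P y hτ z) fun s => ?_
  have h := qq_diff P y hτ.le hδ z w s
  rw [abs_le] at h
  simp only
  linarith [h.1]

end

lemma GG_le (P : Finset ZI) (y : ZI → ℝ) (τ : ℝ) (z : ZI → ℝ) :
    GG P y τ z ≤ (∑ p ∈ P, |y p| * |z p|) ^ 2 := by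
  rw [GG_eq, pow_two, Finset.sum_mul_sum]
  refine Finset.sum_le_sum fun p _ => Finset.sum_le_sum fun q _ => ?_
  refine (le_abs_self _).trans ?_
  rw [abs_mul, abs_mul, abs_mul, abs_mul]
  have h1 := KK_le τ p q
  calc |y p| * |y q| * (|z p| * |z q|) * |KK τ p q| ≤ |y p| * |y q| * (|z p| * |z q|) * 1 := by
        gcongr
    _ = _ := by ring

lemma Wt_nonneg {τ : ℝ} (hτ : 0 ≤ τ) (x : ℝ) : 0 ≤ Wt τ x := by
  unfold Wt
  refine integral_nonneg fun r => ?_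
  have := gd_nonneg hτ r
  unfold he
  positivity

/-! ### elementary facts -/

lemma prm_mod {p : ZI} (h : PZ p) : p.re % 2 = 1 ∧ p.im % 2 = 0 ∧ (p.re + p.im) % 4 = 1 := by
  obtain ⟨c, hc⟩ := h.prm
  have h1 := congrArg Zsqrtd.re hc
  have h2 := congrArg Zsqrtd.im hc
  simp only [Zsqrtd.re_sub, Zsqrtd.im_sub, Zsqrtd.re_mul, Zsqrtd.im_mul, Zsqrtd.re_one,
    Zsqrtd.im_one] at h1 h2
  refine ⟨?_, ?_, ?_⟩ <;> omega

lemma unit_four {u : ZI} (hu : IsUnit u) : u = ⟨1, 0⟩ ∨ u = ⟨-1, 0⟩ ∨ u = ⟨0, 1⟩ ∨ u = ⟨0, -1⟩ := by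
  have h1 : (Zsqrtd.norm u).natAbs = 1 := Zsqrtd.norm_eq_one_iff.2 hu
  have h2 : Zsqrtd.norm u = 1 := by
    have := GaussianInt.norm_nonneg u
    omega
  rw [Zsqrtd.norm_def] at h2
  have h3 : u.re * u.re + u.im * u.im = 1 := by linarith
  have h4 : u.re * u.re ≤ 1 := by nlinarith [mul_self_nonneg u.im]
  have h4' : u.im * u.im ≤ 1 := by nlinarith [mul_self_nonneg u.re]
  have h5 : -1 ≤ u.re := by nlinarith
  have h6 : u.re ≤ 1 := by nlinarith
  have h5' : -1 ≤ u.im := by nlinarith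
  have h6' : u.im ≤ 1 := by nlinarith
  have h7 : u.re = -1 ∨ u.re = 0 ∨ u.re = 1 := by omega
  have h8 : u.im = -1 ∨ u.im = 0 ∨ u.im = 1 := by omega
  simp only [Zsqrtd.ext_iff]
  rcases h7 with h | h | h <;> rcases h8 with h' | h' | h' <;> rw [h, h'] at h3 <;>
    simp_all

lemma cop {p q : ZI} (hp : PZ p) (hq : PZ q) (hne : p ≠ q) : IsCoprime p q := by
  have hpp := El.pz_prime p hp
  have hqp := El.pz_prime q hq
  rw [hpp.irreducible.coprime_iff_not_dvd]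
  rintro ⟨u, hu⟩
  have hun : IsUnit u := by
    rcases hqp.irreducible.isUnit_or_isUnit hu with h | h
    · exact absurd h hpp.not_isUnit
    · exact h
  obtain ⟨a1, a2, a3⟩ := prm_mod hp
  obtain ⟨b1, b2, b3⟩ := prm_mod hq
  have e1 := congrArg Zsqrtd.re hu
  have e2 := congrArg Zsqrtd.im hu
  rw [Zsqrtd.re_mul] at e1
  rw [Zsqrtd.im_mul] at e2
  rcases unit_four hun with h | h | h | h
  · apply hne
    rw [h] at e1 e2
    simp only [mul_one, mul_zero, add_zero, zero_add] at e1 e2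
    ext
    · exact e1.symm
    · exact e2.symm
  · rw [h] at e1 e2
    simp only [mul_zero, add_zero, zero_add, mul_neg, mul_one] at e1 e2
    omega
  · rw [h] at e1 e2
    simp only [mul_zero, add_zero, zero_add, mul_one] at e1 e2
    omega
  · rw [h] at e1 e2
    simp only [mul_zero, add_zero, zero_add, mul_neg, mul_one] at e1 e2
    omega

open Classical in
/-- indicator of `p² | m` -/
noncomputable def ip (p m : ZI) : ℝ := if p ^ 2 ∣ m then 1 else 0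

lemma ip_nonneg (p m : ZI) : 0 ≤ ip p m := by unfold ip; split_ifs <;> norm_num

lemma sy_diff {p : ZI} (hp : PZ p) (k b : ZI) : |sy (k * b ^ 2) p - sy k p| ≤ ip p (k * b ^ 2) := by
  classical
  rw [El.sy_mul _ _ _ hp, El.sy_sq b p hp]
  by_cases h : p ∣ b
  · have h1 : p ^ 2 ∣ k * b ^ 2 := (pow_dvd_pow_of_dvd h 2).mul_left k
    unfold ip
    rw [if_pos h, if_pos h1, mul_zero, zero_sub, abs_neg]
    exact El.sy_abs _ _
  · rw [if_neg h, mul_one, sub_self, abs_zero]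
    exact ip_nonneg _ _

lemma nz_sq (p : ZI) : nz (p ^ 2) = nz p ^ 2 := by rw [pow_two, El.nz_mul, pow_two]

/-- pairs of primes -/
lemma pair_bd (hDup : S_Dup) (hex : S_exch) {τ X : ℝ} (hτ : 1 ≤ τ) (hX : 1 ≤ X) (M : Finset ZI)
    (hM : ∀ m ∈ M, m ≠ 0) {p q : ZI} (hp : PZ p) (hq : PZ q) :
    ∑ m ∈ M, Wt τ (nz m / X) * (ip p m * ip q m) ≤ X * Real.exp (1 / (4 * τ ^ 2)) *
      ((open Classical in if p = q then 1 / nz p ^ 2 else 0) + 1 / nz p ^ 2 * (1 / nz q ^ 2)) := by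
  have hτ0 : 0 < τ := by linarith
  have hX0 : 0 < X := by linarith
  have hp0 : p ≠ 0 := (El.pz_prime p hp).ne_zero
  have hq0 : q ≠ 0 := (El.pz_prime q hq).ne_zero
  have hpn := El.nz_pos hp0
  have hqn := El.nz_pos hq0
  classical
  obtain ⟨D, hD1, hDdvd, hDle⟩ : ∃ D : ZI, D ≠ 0 ∧ (∀ m : ZI, p ^ 2 ∣ m → q ^ 2 ∣ m → D ∣ m) ∧
      1 / nz D ≤ (if p = q then 1 / nz p ^ 2 else 0) + 1 / nz p ^ 2 * (1 / nz q ^ 2) := by
    by_cases h : p = q
    · subst h
      refine ⟨p ^ 2, pow_ne_zero 2 hp0, fun m h1 _ => h1, ?_⟩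
      rw [if_pos rfl, nz_sq]
      have : 0 ≤ 1 / nz p ^ 2 * (1 / nz p ^ 2) := by positivity
      linarith
    · refine ⟨p ^ 2 * q ^ 2, mul_ne_zero (pow_ne_zero 2 hp0) (pow_ne_zero 2 hq0), ?_, ?_⟩
      · intro m h1 h2
        have hcop : IsCoprime (p ^ 2) (q ^ 2) := (cop hp hq h).pow
        exact hcop.mul_dvd h1 h2
      · rw [if_neg h, zero_add, El.nz_mul, nz_sq, nz_sq, one_div_mul_one_div]
  have h1 := hDup.2 τ X D hτ hX hD1 (fun m => if m ≠ 0 ∧ D ∣ m then 1 else 0)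
    (fun m => by split_ifs <;> norm_num) (fun m => by split_ifs <;> norm_num)
    (fun m hm => by
      by_contra hcon
      apply hm
      rw [if_neg hcon])
  have hs := (hex τ X (fun m => if m ≠ 0 ∧ D ∣ m then 1 else 0) hτ0 hX0
    (fun m => by split_ifs <;> simp) (by simp)).1
  calc ∑ m ∈ M, Wt τ (nz m / X) * (ip p m * ip q m) ≤
      ∑ m ∈ M, Wt τ (nz m / X) * (if m ≠ 0 ∧ D ∣ m then 1 else 0) := by
        refine Finset.sum_le_sum fun m hm => mul_le_mul_of_nonneg_left ?_ (Wt_nonneg hτ0.le _)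
        unfold ip
        by_cases a1 : p ^ 2 ∣ m
        · by_cases a2 : q ^ 2 ∣ m
          · rw [if_pos a1, if_pos a2, if_pos ⟨hM m hm, hDdvd m a1 a2⟩]
            norm_num
          · rw [if_neg a2, mul_zero]
            split_ifs <;> norm_num
        · rw [if_neg a1, zero_mul]
          split_ifs <;> norm_num
    _ ≤ ∑' m : ZI, Wt τ (nz m / X) * (if m ≠ 0 ∧ D ∣ m then 1 else 0) := by
        refine hs.sum_le_tsum _ fun m _ => mul_nonneg (Wt_nonneg hτ0.le _) ?_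
        split_ifs <;> norm_num
    _ ≤ X / nz D * Real.exp (1 / (4 * τ ^ 2)) := h1
    _ = X * Real.exp (1 / (4 * τ ^ 2)) * (1 / nz D) := by ring
    _ ≤ _ := mul_le_mul_of_nonneg_left hDle (by positivity)

lemma cs_bd {C : ℝ} (P : Finset ZI) (hC : ∑ p ∈ P, 1 / nz p ^ 2 ≤ C) (y : ZI → ℝ) :
    (∑ p ∈ P, |y p| * (1 / nz p ^ 2)) ^ 2 ≤ C * ∑ p ∈ P, y p ^ 2 * (1 / nz p ^ 2) := by
  have h1 : (∑ p ∈ P, |y p| * (1 / nz p ^ 2)) ^ 2 ≤
      (∑ p ∈ P, (1 / nz p) ^ 2) * ∑ p ∈ P, (|y p| * (1 / nz p)) ^ 2 := by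
    refine le_trans (le_of_eq ?_) (Finset.sum_mul_sq_le_sq_mul_sq P _ _)
    congr 1
    exact Finset.sum_congr rfl fun p _ => by ring
  have h2 : ∑ p ∈ P, (1 / nz p) ^ 2 ≤ C := by
    refine le_trans (le_of_eq ?_) hC
    exact Finset.sum_congr rfl fun p _ => by rw [one_div_pow]
  have h3 : ∑ p ∈ P, (|y p| * (1 / nz p)) ^ 2 = ∑ p ∈ P, y p ^ 2 * (1 / nz p ^ 2) := by
    refine Finset.sum_congr rfl fun p _ => ?_
    rw [mul_pow, sq_abs, one_div_pow]
  rw [h3] at h1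
  refine h1.trans (mul_le_mul_of_nonneg_right h2 ?_)
  exact Finset.sum_nonneg fun p _ => by positivity

/-- summability of the total mass -/
lemma summ (hex : S_exch) (P : Finset ZI) (y : ZI → ℝ) {τ X : ℝ} (hτ : 0 < τ) (hX : 0 < X) :
    Summable (fun m : ZI => Wt τ (nz m / X) * GG P y τ (sy m)) := by
  have h1 : ∀ p q : ZI, Summable (fun m : ZI => Wt τ (nz m / X) * (sy m p * sy m q)) := by
    intro p q
    refine (hex τ X (fun m => sy m p * sy m q) hτ hX (fun m => ?_) ?_).1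
    · rw [abs_mul]
      exact mul_le_one₀ (El.sy_abs _ _) (abs_nonneg _) (El.sy_abs _ _)
    · simp only [El.sy_zero, mul_zero]
  have h2 : (fun m : ZI => Wt τ (nz m / X) * GG P y τ (sy m)) = fun m : ZI => ∑ p ∈ P, ∑ q ∈ P,
      (y p * y q * KK τ p q) * (Wt τ (nz m / X) * (sy m p * sy m q)) := by
    funext m
    rw [GG_eq, Finset.mul_sum]
    refine Finset.sum_congr rfl fun p _ => ?_
    rw [Finset.mul_sum]
    exact Finset.sum_congr rfl fun q _ => by ring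
  rw [h2]
  exact summable_sum fun p _ => summable_sum fun q _ => (h1 p q).mul_left _

/-- uniqueness of the norm of the square part -/
lemma nz_unique {k b k' b' : ZI} (hk : Squarefree k) (hk' : Squarefree k') (ck' : Can k')
    (cb' : Can b') (hb : b ≠ 0) (h : k * b ^ 2 = k' * b' ^ 2) : nz b = nz b' := by
  have hk0 : k ≠ 0 := hk.ne_zero
  have key : ∃ k1 b1 : ZI, Squarefree k1 ∧ Can k1 ∧ b1 ≠ 0 ∧ nz b1 = nz b ∧
      k * b ^ 2 = k1 * b1 ^ 2 := by
    rcases El.can_or k hk0 with h1 | h1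
    · exact ⟨k, b, hk, h1, hb, rfl, rfl⟩
    · refine ⟨-k, El.iu * b, ?_, h1, ?_, ?_, ?_⟩
      · intro x hx
        exact hk x ((dvd_neg).1 hx)
      · intro h0
        rcases mul_eq_zero.1 h0 with h1 | h1
        · have := congrArg Zsqrtd.im h1
          simp [El.iu] at this
        · exact hb h1
      · rw [El.nz_mul]
        have : nz El.iu = 1 := by
          rw [El.nz_eq]
          simp [El.iu]
        rw [this, one_mul]
      · rw [mul_pow, El.iu_sq]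
        ring
  obtain ⟨k1, b1, hk1, ck1, hb1, hn1, e1⟩ := key
  rw [e1] at h
  rw [← hn1]
  rcases El.can_or b1 hb1 with h2 | h2
  · obtain ⟨_, e2⟩ := El.sq_unique k1 b1 k' b' hk1 hk' ck1 ck' h2 cb' h
    rw [e2]
  · have h' : k1 * (-b1) ^ 2 = k' * b' ^ 2 := by rw [neg_sq]; exact h
    obtain ⟨_, e2⟩ := El.sq_unique k1 (-b1) k' b' hk1 hk' ck1 ck' h2 cb' h'
    rw [← e2, El.nz_eq, El.nz_eq]
    simp

end Psd

open Psd in
theorem PS_main : QF.S_gd → S_exch → S_Dup → S_el → S_PS := by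
  intro hgd hex hDup _
  obtain ⟨C, hC0, hC⟩ := El.sum_inv_sq
  refine ⟨1 + C, by linarith, ?_⟩
  intro P hP y τ X K δ hτ hX hδ B I hI Bs hBs
  have hτ0 : 0 < τ := by linarith
  have hX0 : 0 < X := by linarith
  have hCP : ∑ p ∈ P, 1 / nz p ^ 2 ≤ C := hC P fun p hp => (El.pz_prime p (hP p hp)).ne_zero
  classical
  set M2 : Finset ZI := ((Kset K) ×ˢ Bs).image (fun x => x.1 * x.2 ^ 2) with hM2
  have hinj : Set.InjOn (fun x : ZI × ZI => x.1 * x.2 ^ 2) ((Kset K) ×ˢ Bs : Finset (ZI × ZI)) := by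
    rintro ⟨k, b⟩ hx ⟨k', b'⟩ hx' h
    rw [Finset.mem_coe, Finset.mem_product] at hx hx'
    simp only at h hx hx'
    have b1 := (hBs b hx.2).1
    have b2 := (hBs b' hx'.2).1
    have k1 := (El.kset_iff K k).1 hx.1
    have k2 := (El.kset_iff K k').1 hx'.1
    obtain ⟨e1, e2⟩ := El.sq_unique k b k' b' k1.1 k2.1 k1.2.1 k2.2.1 b1 b2 h
    rw [e1, e2]
  have hdisj : Disjoint I M2 := by
    rw [Finset.disjoint_left]
    intro m hm hm2
    obtain ⟨k, b, h1, h2, h3, h4⟩ := hI m hm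
    rw [hM2, Finset.mem_image] at hm2
    obtain ⟨⟨k', b'⟩, hx, hxe⟩ := hm2
    rw [Finset.mem_product] at hx
    simp only at hx hxe
    have b2 := hBs b' hx.2
    have k2 := (El.kset_iff K k').1 hx.1
    have e2 := nz_unique h1 k2.1 k2.2.1 b2.1 h2 (h4.symm.trans hxe.symm)
    linarith [b2.2]
  have hs := summ hex P y hτ0 hX0
  have hGG : ∀ m : ZI, 0 ≤ GG P y τ (sy m) := fun m => GG_nonneg hgd P y hτ0 _
  have hW : ∀ m : ZI, 0 ≤ Wt τ (nz m / X) := fun m => Wt_nonneg hτ0.le _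
  have h1 : ∑ m ∈ I ∪ M2, Wt τ (nz m / X) * GG P y τ (sy m) ≤
      ∑' m : ZI, Wt τ (nz m / X) * GG P y τ (sy m) :=
    hs.sum_le_tsum _ fun m _ => mul_nonneg (hW m) (hGG m)
  rw [Finset.sum_union hdisj] at h1
  have h3 : ∑ m ∈ M2, Wt τ (nz m / X) * GG P y τ (sy m) =
      ∑ x ∈ (Kset K) ×ˢ Bs, Wt τ (nz (x.1 * x.2 ^ 2) / X) * GG P y τ (sy (x.1 * x.2 ^ 2)) := by
    rw [hM2, Finset.sum_image hinj]
  -- lower bound of each term
  have h4 : ∀ x ∈ (Kset K) ×ˢ Bs, (1 - δ) * (Wt τ (nz (x.1 * x.2 ^ 2) / X) *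
      GG P y τ (sy x.1)) - (1 + 1 / δ) * (Wt τ (nz (x.1 * x.2 ^ 2) / X) *
        (∑ p ∈ P, |y p| * ip p (x.1 * x.2 ^ 2)) ^ 2) ≤
      Wt τ (nz (x.1 * x.2 ^ 2) / X) * GG P y τ (sy (x.1 * x.2 ^ 2)) := by
    intro x _
    have a1 := GG_lower hgd P y hτ0 hδ (sy (x.1 * x.2 ^ 2)) (sy x.1)
    have a2 := GG_le P y τ (fun p => sy (x.1 * x.2 ^ 2) p - sy x.1 p)
    have a3 : (∑ p ∈ P, |y p| * |sy (x.1 * x.2 ^ 2) p - sy x.1 p|) ^ 2 ≤
        (∑ p ∈ P, |y p| * ip p (x.1 * x.2 ^ 2)) ^ 2 := by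
      refine pow_le_pow_left₀ (Finset.sum_nonneg fun p _ => by positivity) ?_ 2
      exact Finset.sum_le_sum fun p hp =>
        mul_le_mul_of_nonneg_left (sy_diff (hP p hp) _ _) (abs_nonneg _)
    have a4 : (1 + 1 / δ) * GG P y τ (fun p => sy (x.1 * x.2 ^ 2) p - sy x.1 p) ≤
        (1 + 1 / δ) * (∑ p ∈ P, |y p| * ip p (x.1 * x.2 ^ 2)) ^ 2 :=
      mul_le_mul_of_nonneg_left (a2.trans a3) (by positivity)
    have a5 : (1 - δ) * GG P y τ (sy x.1) - (1 + 1 / δ) *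
        (∑ p ∈ P, |y p| * ip p (x.1 * x.2 ^ 2)) ^ 2 ≤
        GG P y τ (sy (x.1 * x.2 ^ 2)) := by linarith
    have a6 := mul_le_mul_of_nonneg_left a5 (hW (x.1 * x.2 ^ 2))
    refine le_trans (le_of_eq ?_) a6
    ring
  have h5 := Finset.sum_le_sum h4
  rw [Finset.sum_sub_distrib, ← Finset.mul_sum, ← Finset.mul_sum] at h5
  have h6 : ∑ x ∈ (Kset K) ×ˢ Bs, Wt τ (nz (x.1 * x.2 ^ 2) / X) * GG P y τ (sy x.1) =
      ∑ k ∈ Kset K, Aw τ X Bs k * GG P y τ (sy k) := by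
    rw [Finset.sum_product]
    refine Finset.sum_congr rfl fun k _ => ?_
    unfold Aw
    rw [Finset.sum_mul]
  have h7 : ∑ x ∈ (Kset K) ×ˢ Bs, Wt τ (nz (x.1 * x.2 ^ 2) / X) *
        (∑ p ∈ P, |y p| * ip p (x.1 * x.2 ^ 2)) ^ 2 ≤
      X * Real.exp (1 / (4 * τ ^ 2)) * ((1 + C) * ∑ p ∈ P, y p ^ 2 * (1 / nz p ^ 2)) := by
    have e1 : ∑ x ∈ (Kset K) ×ˢ Bs, Wt τ (nz (x.1 * x.2 ^ 2) / X) *
        (∑ p ∈ P, |y p| * ip p (x.1 * x.2 ^ 2)) ^ 2 =
        ∑ m ∈ M2, Wt τ (nz m / X) * (∑ p ∈ P, |y p| * ip p m) ^ 2 := by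
      rw [hM2, Finset.sum_image hinj]
    have e2 : ∑ m ∈ M2, Wt τ (nz m / X) * (∑ p ∈ P, |y p| * ip p m) ^ 2 =
        ∑ p ∈ P, ∑ q ∈ P, |y p| * |y q| * ∑ m ∈ M2, Wt τ (nz m / X) * (ip p m * ip q m) := by
      have e3 : ∀ m ∈ M2, Wt τ (nz m / X) * (∑ p ∈ P, |y p| * ip p m) ^ 2 =
          ∑ p ∈ P, ∑ q ∈ P, |y p| * |y q| * (Wt τ (nz m / X) * (ip p m * ip q m)) := by
        intro m _
        rw [pow_two, Finset.sum_mul_sum, Finset.mul_sum]
        refine Finset.sum_congr rfl fun p _ => ?_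
        rw [Finset.mul_sum]
        exact Finset.sum_congr rfl fun q _ => by ring
      rw [Finset.sum_congr rfl e3, Finset.sum_comm]
      refine Finset.sum_congr rfl fun p _ => ?_
      rw [Finset.sum_comm]
      exact Finset.sum_congr rfl fun q _ => (Finset.mul_sum _ _ _).symm
    have hM0 : ∀ m ∈ M2, m ≠ 0 := by
      intro m hm
      rw [hM2, Finset.mem_image] at hm
      obtain ⟨⟨k', b'⟩, hx, rfl⟩ := hm
      rw [Finset.mem_product] at hx
      simp only at hx ⊢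
      have k2 := (El.kset_iff K k').1 hx.1
      exact mul_ne_zero k2.1.ne_zero (pow_ne_zero 2 (El.can_ne_zero (hBs b' hx.2).1))
    rw [e1, e2]
    set E := X * Real.exp (1 / (4 * τ ^ 2)) with hE
    have hE0 : 0 ≤ E := by positivity
    calc _ ≤ ∑ p ∈ P, ∑ q ∈ P, |y p| * |y q| * (E *
          ((if p = q then 1 / nz p ^ 2 else 0) + 1 / nz p ^ 2 * (1 / nz q ^ 2))) := by
          refine Finset.sum_le_sum fun p hp => Finset.sum_le_sum fun q hq => ?_
          exact mul_le_mul_of_nonneg_left (pair_bd hDup hex hτ hX M2 hM0 (hP p hp) (hP q hq))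
            (by positivity)
      _ = E * (∑ p ∈ P, y p ^ 2 * (1 / nz p ^ 2) + (∑ p ∈ P, |y p| * (1 / nz p ^ 2)) ^ 2) := by
          rw [pow_two (∑ p ∈ P, |y p| * (1 / nz p ^ 2)), Finset.sum_mul_sum,
            ← Finset.sum_add_distrib, Finset.mul_sum]
          refine Finset.sum_congr rfl fun p hp => ?_
          have e4 : ∀ q ∈ P, |y p| * |y q| * (E *
              ((if p = q then 1 / nz p ^ 2 else 0) + 1 / nz p ^ 2 * (1 / nz q ^ 2))) =
              (if p = q then E * (y p ^ 2 * (1 / nz p ^ 2)) else 0) +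
              E * (|y p| * (1 / nz p ^ 2) * (|y q| * (1 / nz q ^ 2))) := by
            intro q _
            by_cases h : p = q
            · subst h
              rw [if_pos rfl, if_pos rfl, ← sq_abs (y p)]
              ring
            · rw [if_neg h, if_neg h]
              ring
          rw [Finset.sum_congr rfl e4, Finset.sum_add_distrib, Finset.sum_ite_eq, if_pos hp,
            ← Finset.mul_sum]
          ring
      _ ≤ E * ((1 + C) * ∑ p ∈ P, y p ^ 2 * (1 / nz p ^ 2)) := by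
          refine mul_le_mul_of_nonneg_left ?_ hE0
          have := cs_bd P hCP y
          linarith
  have h8 := mul_le_mul_of_nonneg_left h7 (show 0 ≤ 1 + 1 / δ by positivity)
  rw [h3] at h1
  rw [h6] at h5
  linarith

end Pool.Agent.N880.QI
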