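import Pool.Agent.N880.QI.Du

/-!
Project QI (helper880): pointwise bound on the dual side.
-/

set_option autoImplicit false

open Complex Filter Topology MeasureTheory Set
open H385 (ZI)
open Pool.Agent.N880.QF (gd gd_nonneg)

namespace Pool.Agent.N880.QI.PwI

open Pool.Agent.N880.QI Psd Du

lemma gd_diag (τ s : ℝ) (p : ZI) : gd τ (2 * Real.log (nz p) - s) =
    τ / (2 * Real.sqrt Real.pi) * gf τ s p ^ 2 := by
  have h := gf_mul τ s p p
  rw [KK_self, one_mul] at h
  rw [two_mul, h]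
  ring

/-- Cauchy-Schwarz bound -/
lemma qq_le (P : Finset ZI) (y : ZI → ℝ) {τ : ℝ} (hτ : 0 ≤ τ) (z : ZI → ℝ) (s : ℝ) :
    qq P y τ z s ≤ (P.card : ℝ) * ∑ p ∈ P, y p ^ 2 * z p ^ 2 * gd τ (2 * Real.log (nz p) - s) := by
  rw [Psd.qq_eq]
  have hc : 0 ≤ τ / (2 * Real.sqrt Real.pi) := by positivity
  have h1 : Lc P y τ z s ^ 2 ≤ (P.card : ℝ) * ∑ p ∈ P, (y p * z p * gf τ s p) ^ 2 := by
    unfold Lc
    exact sq_sum_le_card_mul_sum_sq
  refine (mul_le_mul_of_nonneg_left h1 hc).trans (le_of_eq ?_)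
  rw [mul_left_comm, Finset.mul_sum]
  congr 1
  refine Finset.sum_congr rfl fun p _ => ?_
  rw [gd_diag]
  ring

/-- the diagonal density -/
noncomputable def dg1 (P : Finset ZI) (y : ZI → ℝ) (τ s : ℝ) : ℝ :=
  ∑ p ∈ P, y p ^ 2 * gd τ (2 * Real.log (nz p) - s)

lemma dg1_nonneg (P : Finset ZI) (y : ZI → ℝ) {τ : ℝ} (hτ : 0 ≤ τ) (s : ℝ) : 0 ≤ dg1 P y τ s :=
  Finset.sum_nonneg fun p _ => mul_nonneg (sq_nonneg _) (gd_nonneg hτ _)

lemma qq_le_dg (P : Finset ZI) (y : ZI → ℝ) {τ : ℝ} (hτ : 0 ≤ τ) (z : ZI → ℝ)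
    (hz : ∀ p, |z p| ≤ 1) (s : ℝ) : qq P y τ z s ≤ (P.card : ℝ) * dg1 P y τ s := by
  refine (qq_le P y hτ z s).trans ?_
  refine mul_le_mul_of_nonneg_left (Finset.sum_le_sum fun p _ => ?_) (Nat.cast_nonneg _)
  have h1 : z p ^ 2 ≤ 1 := by
    rw [← sq_abs]
    exact pow_le_one₀ (abs_nonneg _) (hz p)
  have h2 := gd_nonneg hτ (2 * Real.log (nz p) - s)
  have h3 : y p ^ 2 * z p ^ 2 ≤ y p ^ 2 * 1 := mul_le_mul_of_nonneg_left h1 (sq_nonneg _)
  calc _ ≤ (y p ^ 2 * 1) * gd τ (2 * Real.log (nz p) - s) := mul_le_mul_of_nonneg_right h3 h2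
    _ = _ := by rw [mul_one]

lemma real_bd {F qz qw qd G δ : ℝ} (hF : 0 ≤ F) (hG : 0 ≤ G)
    (h : |qz - qw| ≤ δ * qw + (1 + 1 / δ) * qd) :
    F * (qz - G) ≤ (1 + δ) * F * qw + (1 + 1 / δ) * (F * qd) := by
  have h2 : F * (qz - qw) ≤ F * (δ * qw + (1 + 1 / δ) * qd) :=
    mul_le_mul_of_nonneg_left ((le_abs_self _).trans h) hF
  have h3 : 0 ≤ F * G := mul_nonneg hF hG
  have h4 : F * (qz - G) = F * (qz - qw) + F * qw - F * G := by ring
  rw [h4]
  nlinarith

/-! ### parts of the dual sum -/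

lemma exp_alg (s : ℝ) (N : ℕ) {X C R : ℝ} (hX : 0 < X) (_hN : 1 ≤ N) :
    Real.exp (-(s / 2)) * X * (C / (X * Real.exp (-s)) ^ N * R) =
      C * (X / X ^ N) * Real.exp ((N - 1 / 2) * s) * R := by
  have h1 : Real.exp ((N : ℝ) * s) = (Real.exp s) ^ N := Real.exp_nat_mul s N
  rw [show ((N : ℝ) - 1 / 2) * s = -(s / 2) + N * s by ring, Real.exp_add, h1, Real.exp_neg s,
    mul_pow, inv_pow]
  have h2 := Real.exp_pos s
  field_simp

lemma part_summable (hgs : S_gs) {X : ℝ} (hX : 0 < X) (s : ℝ) (S : ZI → Prop) [DecidablePred S] :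
    Summable (fun k : ZI => if S k then Fs X s k else 0) := by
  refine Summable.of_nonneg_of_le (fun k => ?_) (fun k => ?_) (Fs_summable hgs hX s)
  · split_ifs
    · exact Fs_nonneg hX.le s k
    · exact le_rfl
  · split_ifs
    · exact le_rfl
    · exact Fs_nonneg hX.le s k

lemma part_eq {X : ℝ} (s : ℝ) (S : ZI → Prop) [DecidablePred S] :
    ∑' k : ZI, (if S k then Fs X s k else 0) = Real.exp (-(s / 2)) * X *
      ∑' k : ZI, (if S k then Real.exp (-(Real.pi * (nz k * (X * Real.exp (-s))))) else 0) := by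
  rw [← tsum_mul_left]
  refine tsum_congr fun k => ?_
  unfold Fs
  split_ifs
  · rfl
  · simp

lemma B1 (hgs : S_gs) {X : ℝ} (hX : 0 < X) (s : ℝ) [DecidablePred (fun k : ZI => k ≠ 0)] :
    ∑' k : ZI, (if k ≠ 0 then Fs X s k else 0) ≤ Real.exp (1 / 2 * s) := by
  classical
  have hY : 0 < X * Real.exp (-s) := by positivity
  have h2 := (hgs.1 _ hY).2.1
  rw [part_eq]
  have h3 : ∑' k : ZI, (if k ≠ 0 then Real.exp (-(Real.pi * (nz k * (X * Real.exp (-s))))) else 0) ≤
      1 / (X * Real.exp (-s)) := by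
    refine le_trans (le_of_eq ?_) h2
    refine tsum_congr fun k => ?_
    by_cases h : k = 0
    · simp [h]
    · rw [if_pos h, if_neg h]
  calc _ ≤ Real.exp (-(s / 2)) * X * (1 / (X * Real.exp (-s))) := by gcongr
    _ = Real.exp (1 / 2 * s) := by
      rw [show (1 : ℝ) / 2 * s = -(s / 2) + s by ring, Real.exp_add, Real.exp_neg s]
      have := Real.exp_pos s
      field_simp

lemma B2 (hgs : S_gs) {N : ℕ} (hN : 2 ≤ N) : ∃ C : ℝ, 0 < C ∧
    (∀ (X s K : ℝ) [DecidablePred (fun k : ZI => K ≤ nz k)], 0 < X → 1 ≤ K →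
      ∑' k : ZI, (if K ≤ nz k then Fs X s k else 0) ≤
        C * (X / X ^ N) * Real.exp ((N - 1 / 2) * s) * (K ^ 2 / K ^ N)) ∧
    (∀ (X s : ℝ) (D : ZI) [DecidablePred (fun k : ZI => k ≠ 0 ∧ D ∣ k)], 0 < X → D ≠ 0 →
      ∑' k : ZI, (if k ≠ 0 ∧ D ∣ k then Fs X s k else 0) ≤
        C * (X / X ^ N) * Real.exp ((N - 1 / 2) * s) * (1 / nz D ^ N)) := by
  classical
  obtain ⟨C, hC, h1, h2⟩ := hgs.2.2 N hN
  refine ⟨C, hC, ?_, ?_⟩
  · intro X s K _ hX hK
    have hY : 0 < X * Real.exp (-s) := by positivity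
    rw [part_eq]
    have h3 : ∑' k : ZI, (if K ≤ nz k then Real.exp (-(Real.pi * (nz k * (X * Real.exp (-s)))))
        else 0) ≤ C / (X * Real.exp (-s)) ^ N * (K ^ 2 / K ^ N) := by
      refine le_trans (le_of_eq ?_) ((h1 _ K hY hK).trans (le_of_eq ?_))
      · refine tsum_congr fun k => ?_
        split_ifs <;> rfl
      · ring
    calc _ ≤ Real.exp (-(s / 2)) * X * (C / (X * Real.exp (-s)) ^ N * (K ^ 2 / K ^ N)) := by gcongr
      _ = _ := exp_alg s N hX (by omega)
  · intro X s D _ hX hD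
    have hY : 0 < X * Real.exp (-s) := by positivity
    have hD0 : 0 < nz D := El.nz_pos hD
    rw [part_eq]
    have h3 : ∑' k : ZI, (if k ≠ 0 ∧ D ∣ k then
        Real.exp (-(Real.pi * (nz k * (X * Real.exp (-s))))) else 0) ≤
        C / (X * Real.exp (-s)) ^ N * (1 / nz D ^ N) := by
      refine le_trans (le_of_eq ?_) ((h2 _ D hY hD).trans (le_of_eq ?_))
      · refine tsum_congr fun k => ?_
        split_ifs <;> rfl
      · rw [mul_pow]
        field_simp
    calc _ ≤ Real.exp (-(s / 2)) * X * (C / (X * Real.exp (-s)) ^ N * (1 / nz D ^ N)) := by gcongr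
      _ = _ := exp_alg s N hX (by omega)

/-! ### square classes -/

section
variable (hel : S_el)
include hel

lemma ex_dec (k : ZI) (hk : k ≠ 0) : ∃ x : ZI × ZI, Squarefree x.1 ∧ Can x.1 ∧ Can x.2 ∧
    k = x.1 * x.2 ^ 2 := by
  obtain ⟨a, b, h1, h2, h3, h4⟩ := hel.2.2.1 k hk
  exact ⟨(a, b), h1, h2, h3, h4⟩

omit hel in
/-- squarefree kernel and root -/
noncomputable def dec (k : ZI) : ZI × ZI :=
  open Classical in if h : ∃ x : ZI × ZI, Squarefree x.1 ∧ Can x.1 ∧ Can x.2 ∧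
    k = x.1 * x.2 ^ 2 then h.choose else (0, 0)

lemma dec_spec {k : ZI} (hk : k ≠ 0) :
    Squarefree (dec k).1 ∧ Can (dec k).1 ∧ Can (dec k).2 ∧ k = (dec k).1 * (dec k).2 ^ 2 := by
  unfold dec
  rw [dif_pos (ex_dec hel k hk)]
  exact (ex_dec hel k hk).choose_spec

omit hel in
lemma sq_ne {k b : ZI} (hk : Can k) (hb : Can b) : k * b ^ 2 ≠ 0 :=
  mul_ne_zero (El.can_ne_zero hk) (pow_ne_zero 2 (El.can_ne_zero hb))

lemma dec_eq {k b : ZI} (hk : Squarefree k) (ck : Can k) (cb : Can b) :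
    (dec (k * b ^ 2)).1 = k ∧ (dec (k * b ^ 2)).2 = b := by
  obtain ⟨h1, h2, h3, h4⟩ := dec_spec hel (sq_ne ck cb)
  exact hel.2.2.2.1 _ _ _ _ h1 hk h2 ck h3 cb h4.symm

lemma dec_le {k : ZI} (hk : k ≠ 0) : nz (dec k).1 ≤ nz k := by
  obtain ⟨_, _, h3, h4⟩ := dec_spec hel hk
  have h5 : nz k = nz (dec k).1 * nz (dec k).2 ^ 2 := by
    conv_lhs => rw [h4]
    rw [El.nz_mul, nz_sq]
  have h6 := El.nz_ge_one (El.can_ne_zero h3)
  rw [h5]
  exact le_mul_of_one_le_right (El.nz_nonneg _) (one_le_pow₀ h6)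

/-- reindexing a sum over the square classes -/
lemma sum_classes (K : ℝ) (h : ZI → ℝ) (hs : Summable h)
    (h0 : ∀ k : ZI, (k = 0 ∨ K ≤ nz (dec k).1) → h k = 0) :
    ∑' k : ZI, h k = ∑ k' ∈ Kset K, ∑' b : {b : ZI // Can b}, h (k' * (b : ZI) ^ 2) := by
  have hmem := hel.1 K
  have hinj : Function.Injective (fun x : (Kset K) × {b : ZI // Can b} =>
      (x.1 : ZI) * (x.2 : ZI) ^ 2) := by
    rintro ⟨⟨k, hk⟩, ⟨b, hb⟩⟩ ⟨⟨k', hk'⟩, ⟨b', hb'⟩⟩ hx
    simp only at hx
    obtain ⟨a1, a2, _⟩ := (hmem k).1 hk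
    obtain ⟨c1, c2, _⟩ := (hmem k').1 hk'
    obtain ⟨e1, e2⟩ := hel.2.2.2.1 _ _ _ _ a1 c1 a2 c2 hb hb' hx
    subst e1
    subst e2
    rfl
  have hsupp : Function.support h ⊆ Set.range (fun x : (Kset K) × {b : ZI // Can b} =>
      (x.1 : ZI) * (x.2 : ZI) ^ 2) := by
    intro k hk
    rw [Function.mem_support] at hk
    have hk0 : k ≠ 0 := fun h1 => hk (h0 k (Or.inl h1))
    have hkK : nz (dec k).1 < K := by
      by_contra hcon
      push Not at hcon
      exact hk (h0 k (Or.inr hcon))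
    obtain ⟨a1, a2, a3, a4⟩ := dec_spec hel hk0
    refine ⟨(⟨(dec k).1, (hmem _).2 ⟨a1, a2, hkK⟩⟩, ⟨(dec k).2, a3⟩), ?_⟩
    exact a4.symm
  rw [← hinj.tsum_eq hsupp]
  have hs2 : Summable (fun x : (Kset K) × {b : ZI // Can b} => h ((x.1 : ZI) * (x.2 : ZI) ^ 2)) :=
    hs.comp_injective hinj
  rw [hs2.tsum_prod, tsum_fintype, Finset.sum_coe_sort (Kset K)
    (fun k' => ∑' b : {b : ZI // Can b}, h (k' * (b : ZI) ^ 2))]

lemma Kset_card {K : ℝ} (hK : 1 ≤ K) : ((Kset K).card : ℝ) ≤ 9 * K :=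
  hel.2.1 K hK (Kset K) fun k hk => ((hel.1 K k).1 hk).2.2.le

end

lemma Fs_sq (hgs : S_gs) {k' : ZI} (hk : k' ≠ 0) {X : ℝ} (hX : 0 < X) (s : ℝ) :
    Summable (fun b : {b : ZI // Can b} => Fs X s (k' * (b : ZI) ^ 2)) ∧
    ∑' b : {b : ZI // Can b}, Fs X s (k' * (b : ZI) ^ 2) = Real.pi / 4 * Real.sqrt (X / nz k') -
      X * Real.exp (-(s / 2)) * phi (nz k' * (X * Real.exp (-s))) := by
  classical
  have hk0 : 0 < nz k' := El.nz_pos hk
  set z := nz k' * (X * Real.exp (-s)) with hz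
  have hz0 : 0 < z := by positivity
  have e1 : ∀ b : ZI, Fs X s (k' * b ^ 2) = Real.exp (-(s / 2)) * X *
      Real.exp (-(Real.pi * (nz b ^ 2 * z))) := by
    intro b
    unfold Fs
    rw [El.nz_mul, nz_sq, hz]
    congr 3
    ring
  have hsz := hgs.2.1 z hz0
  have hsub : Summable (fun b : {b : ZI // Can b} => Real.exp (-(Real.pi * (nz (b : ZI) ^ 2 * z)))) :=
    hsz.comp_injective Subtype.coe_injective
  have hSq : ∑' b : {b : ZI // Can b}, Real.exp (-(Real.pi * (nz (b : ZI) ^ 2 * z))) = Sq z := by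
    unfold Sq
    have := tsum_subtype {b : ZI | Can b} (fun b => Real.exp (-(Real.pi * (nz b ^ 2 * z))))
    refine Eq.trans this ?_
    refine tsum_congr fun b => ?_
    by_cases hb : Can b
    · rw [Set.indicator_of_mem (show b ∈ {b : ZI | Can b} from hb), if_pos hb]
    · rw [Set.indicator_of_notMem (show b ∉ {b : ZI | Can b} from hb), if_neg hb]
  simp_rw [e1]
  refine ⟨hsub.mul_left _, ?_⟩
  rw [tsum_mul_left, hSq]
  have h2 : phi z = Real.pi / 4 / Real.sqrt z - Sq z := rfl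
  have h3 : Sq z = Real.pi / 4 / Real.sqrt z - phi z := by rw [h2]; ring
  rw [h3, mul_sub]
  have h4 : Real.exp (-(s / 2)) * X * (Real.pi / 4 / Real.sqrt z) =
      Real.pi / 4 * Real.sqrt (X / nz k') := by
    have e2 : z = (nz k' * X) * (Real.exp (-(s / 2)) ^ 2) := by
      rw [hz, ← Real.exp_nat_mul]
      have : ((2 : ℕ) : ℝ) * -(s / 2) = -s := by push_cast; ring
      rw [this]
      ring
    have hE := Real.exp_pos (-(s / 2))
    rw [e2, Real.sqrt_mul (by positivity), Real.sqrt_sq hE.le, Real.sqrt_div hX.le,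
      Real.sqrt_mul hk0.le]
    have h1 : 0 < Real.sqrt X := Real.sqrt_pos.2 hX
    have h2 : 0 < Real.sqrt (nz k') := Real.sqrt_pos.2 hk0
    have h5 : Real.sqrt X * Real.sqrt X = X := Real.mul_self_sqrt hX.le
    field_simp
    rw [pow_two, h5]
  rw [h4]
  ring

end PwI

open PwI Psd Du in
theorem PW_main : QF.S_gd → S_gs → S_phi → S_el → S_PW := by
  intro _ hgs hphi hel N hN c1 hc
  classical
  obtain ⟨C, hC, hB2, hB3⟩ := B2 hgs hN
  refine ⟨C, hC, ?_⟩
  intro P y τ X K δ s0 A hP hτ hX1 hK hδ hδ1 hA0 hA s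
  obtain ⟨c0, C0, hc0, hC0, hph⟩ := hphi
  have hX : 0 < X := by linarith
  set n : ℝ := (P.card : ℝ) with hn
  have hn0 : 0 ≤ n := Nat.cast_nonneg _
  have hFs := Fs_summable hgs hX s
  set G1 := dg1 P y τ s with hG1
  have hG10 : 0 ≤ G1 := dg1_nonneg P y hτ.le s
  have hFF : ∀ k, 0 ≤ Fs X s k := fun k => Fs_nonneg hX.le s k
  -- the four parts of the majorant
  set U1 : ZI → ℝ := fun k => (if k ≠ 0 then Fs X s k else 0) * G1 with hU1
  set U2 : ZI → ℝ := fun k => (if K ≤ nz k then Fs X s k else 0) * (n * G1) with hU2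
  set U3 : ZI → ℝ := fun k => ∑ p ∈ P, (if k ≠ 0 ∧ p ^ 2 ∣ k then Fs X s k else 0) *
    ((1 + 1 / δ) * (n * (y p ^ 2 * gd τ (2 * Real.log (nz p) - s)))) with hU3
  set U4 : ZI → ℝ := fun k => if k = 0 ∨ K ≤ nz (dec k).1 then 0 else
    ((1 + δ) * Fs X s k) * qq P y τ (sy (dec k).1) s with hU4
  have hqb : ∀ k : ZI, qq P y τ (sy k) s ≤ n * G1 := fun k =>
    qq_le_dg P y hτ.le (sy k) (fun p => El.sy_abs k p) s
  have hdg0 : ∀ k : ZI, 0 ≤ ∑ p ∈ P, y p ^ 2 * sy k p ^ 2 * gd τ (2 * Real.log (nz p) - s) :=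
    fun k => Finset.sum_nonneg fun p _ => mul_nonneg (by positivity) (gd_nonneg hτ.le _)
  have hdgb : ∀ k : ZI, ∑ p ∈ P, y p ^ 2 * sy k p ^ 2 * gd τ (2 * Real.log (nz p) - s) ≤ G1 := by
    intro k
    refine Finset.sum_le_sum fun p _ => ?_
    have h1 : sy k p ^ 2 ≤ 1 := by
      rw [← sq_abs]
      exact pow_le_one₀ (abs_nonneg _) (El.sy_abs k p)
    have h2 := gd_nonneg hτ.le (2 * Real.log (nz p) - s)
    have h3 : y p ^ 2 * sy k p ^ 2 ≤ y p ^ 2 * 1 := mul_le_mul_of_nonneg_left h1 (sq_nonneg _)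
    calc _ ≤ (y p ^ 2 * 1) * gd τ (2 * Real.log (nz p) - s) := mul_le_mul_of_nonneg_right h3 h2
      _ = _ := by rw [mul_one]
  have hU1n : ∀ k, 0 ≤ U1 k := by
    intro k
    simp only [hU1]
    split_ifs
    · exact mul_nonneg (hFF k) hG10
    · simp
  have hU2n : ∀ k, 0 ≤ U2 k := by
    intro k
    simp only [hU2]
    split_ifs
    · exact mul_nonneg (hFF k) (by positivity)
    · simp
  have hU3n : ∀ k, 0 ≤ U3 k := by
    intro k
    simp only [hU3]
    refine Finset.sum_nonneg fun p _ => ?_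
    have := gd_nonneg hτ.le (2 * Real.log (nz p) - s)
    split_ifs
    · exact mul_nonneg (hFF k) (by positivity)
    · simp
  have hle : ∀ k : ZI, Fs X s k * (qq P y τ (sy k) s -
      ∑ p ∈ P, y p ^ 2 * sy k p ^ 2 * gd τ (2 * Real.log (nz p) - s)) ≤
        U1 k + U2 k + U3 k + U4 k := by
    intro k
    by_cases hk : k = 0
    · subst hk
      have h1 : qq P y τ (sy 0) s = 0 := by
        unfold qq
        refine Finset.sum_eq_zero fun p hp => Finset.sum_eq_zero fun q _ => ?_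
        rw [El.sy_zero]
        simp
      have h2 : ∑ p ∈ P, y p ^ 2 * sy 0 p ^ 2 * gd τ (2 * Real.log (nz p) - s) = 0 := by
        refine Finset.sum_eq_zero fun p hp => ?_
        rw [El.sy_zero]
        simp
      rw [h1, h2, sub_self, mul_zero]
      have h3 : U4 0 = 0 := by simp [hU4]
      rw [h3]
      have := hU1n 0
      have := hU2n 0
      have := hU3n 0
      linarith
    · by_cases hkK : K ≤ nz (dec k).1
      · have hkK2 : K ≤ nz k := hkK.trans (dec_le hel hk)
        have h4 : U4 k = 0 := by simp [hU4, hkK]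
        have h2 : U2 k = Fs X s k * (n * G1) := by simp [hU2, hkK2]
        have h3 : Fs X s k * qq P y τ (sy k) s ≤ Fs X s k * (n * G1) :=
          mul_le_mul_of_nonneg_left (hqb k) (hFF k)
        have h5 : 0 ≤ Fs X s k * ∑ p ∈ P, y p ^ 2 * sy k p ^ 2 *
            gd τ (2 * Real.log (nz p) - s) := mul_nonneg (hFF k) (hdg0 k)
        rw [mul_sub, h4, h2]
        have := hU3n k
        have := hU1n k
        linarith
      · have hdk := dec_spec hel hk
        have h4 : U4 k = ((1 + δ) * Fs X s k) * qq P y τ (sy (dec k).1) s := by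
          simp only [hU4]
          rw [if_neg]
          push Not
          exact ⟨hk, not_le.1 hkK⟩
        have hd := qq_diff P y hτ.le hδ (sy k) (sy (dec k).1) s
        have h5 := real_bd (F := Fs X s k) (hFF k) (hdg0 k) hd
        refine h5.trans ?_
        rw [h4]
        have h6 : (1 + 1 / δ) * (Fs X s k * qq P y τ (fun p => sy k p - sy (dec k).1 p) s) ≤
            U3 k := by
          have h7 := qq_le P y hτ.le (fun p => sy k p - sy (dec k).1 p) s
          have h8 : ∑ p ∈ P, y p ^ 2 * (sy k p - sy (dec k).1 p) ^ 2 *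
              gd τ (2 * Real.log (nz p) - s) ≤
              ∑ p ∈ P, (if k ≠ 0 ∧ p ^ 2 ∣ k then (1 : ℝ) else 0) *
                (y p ^ 2 * gd τ (2 * Real.log (nz p) - s)) := by
            refine Finset.sum_le_sum fun p hp => ?_
            have h9 := sy_diff (hP p hp) (dec k).1 (dec k).2
            rw [← hdk.2.2.2] at h9
            have h10 : (sy k p - sy (dec k).1 p) ^ 2 ≤
                (if k ≠ 0 ∧ p ^ 2 ∣ k then (1 : ℝ) else 0) := by
              unfold ip at h9
              split_ifs with hc1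
              · rw [if_pos hc1.2] at h9
                rw [← sq_abs]
                exact pow_le_one₀ (abs_nonneg _) h9
              · have hc2 : ¬ (p ^ 2 ∣ k) := fun h => hc1 ⟨hk, h⟩
                rw [if_neg hc2] at h9
                have : sy k p - sy (dec k).1 p = 0 := abs_eq_zero.1 (le_antisymm h9 (abs_nonneg _))
                rw [this]
                norm_num
            have hgdp := gd_nonneg hτ.le (2 * Real.log (nz p) - s)
            calc _ = (sy k p - sy (dec k).1 p) ^ 2 * (y p ^ 2 * gd τ (2 * Real.log (nz p) - s)) := by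
                  ring
              _ ≤ _ := mul_le_mul_of_nonneg_right h10 (by positivity)
          have hδ' : 0 ≤ 1 + 1 / δ := by positivity
          calc _ ≤ (1 + 1 / δ) * (Fs X s k * (n * ∑ p ∈ P,
                (if k ≠ 0 ∧ p ^ 2 ∣ k then (1 : ℝ) else 0) *
                (y p ^ 2 * gd τ (2 * Real.log (nz p) - s)))) := by
                refine mul_le_mul_of_nonneg_left (mul_le_mul_of_nonneg_left (h7.trans ?_) (hFF k)) hδ'
                exact mul_le_mul_of_nonneg_left h8 hn0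
            _ = U3 k := by
                simp only [hU3]
                rw [Finset.mul_sum, Finset.mul_sum, Finset.mul_sum]
                refine Finset.sum_congr rfl fun p _ => ?_
                split_ifs
                · ring
                · simp
        have := hU2n k
        have := hU1n k
        linarith
  -- summability
  have hB := fun (S : ZI → Prop) [DecidablePred S] => part_summable hgs hX s S
  have hsU1 : Summable U1 := (hB (fun k => k ≠ 0)).mul_right _
  have hsU2 : Summable U2 := (hB (fun k => K ≤ nz k)).mul_right _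
  have hsU3 : Summable U3 := summable_sum fun p _ =>
    (hB (fun k => k ≠ 0 ∧ p ^ 2 ∣ k)).mul_right _
  have hsU4 : Summable U4 := by
    refine Summable.of_norm_bounded (g := fun k => (2 * (n * G1)) * Fs X s k) (hFs.mul_left _)
      fun k => ?_
    simp only [hU4]
    split_ifs
    · rw [norm_zero]
      have := hFF k
      positivity
    · rw [norm_mul, Real.norm_eq_abs, Real.norm_eq_abs,
        abs_of_nonneg (qq_nonneg P y hτ.le (sy (dec k).1) s)]
      have h0 : 0 ≤ (1 + δ) * Fs X s k := mul_nonneg (by linarith) (hFF k)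
      have h1 : |((1 + δ) * Fs X s k)| ≤ 2 * Fs X s k := by
        rw [abs_of_nonneg h0]
        exact mul_le_mul_of_nonneg_right (by linarith) (hFF k)
      have h2 := hqb (dec k).1
      have h3 : 0 ≤ 2 * Fs X s k := mul_nonneg (by norm_num) (hFF k)
      calc _ ≤ (2 * Fs X s k) * (n * G1) :=
            mul_le_mul h1 h2 (qq_nonneg P y hτ.le _ s) h3
        _ = _ := by ring
  have hsR : Summable (fun k : ZI => Fs X s k * (qq P y τ (sy k) s -
      ∑ p ∈ P, y p ^ 2 * sy k p ^ 2 * gd τ (2 * Real.log (nz p) - s))) := by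
    refine Summable.of_norm_bounded (g := fun k => (n * G1 + G1) * Fs X s k) (hFs.mul_left _)
      fun k => ?_
    rw [norm_mul, Real.norm_eq_abs, Real.norm_eq_abs, mul_comm, abs_of_nonneg (hFF k)]
    refine mul_le_mul_of_nonneg_right ?_ (hFF k)
    refine (abs_sub _ _).trans ?_
    rw [abs_of_nonneg (qq_nonneg P y hτ.le (sy k) s), abs_of_nonneg (hdg0 k)]
    exact add_le_add (hqb k) (hdgb k)
  have hsU : Summable (fun k => U1 k + U2 k + U3 k + U4 k) := ((hsU1.add hsU2).add hsU3).add hsU4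
  unfold Ph
  refine (Summable.tsum_le_tsum hle hsR hsU).trans ?_
  rw [(((hsU1.add hsU2).add hsU3).tsum_add hsU4), ((hsU1.add hsU2).tsum_add hsU3),
    (hsU1.tsum_add hsU2)]
  -- the first three parts
  have t1 : ∑' k, U1 k ≤ Real.exp (1 / 2 * s) * G1 := by
    simp only [hU1]
    rw [tsum_mul_right]
    exact mul_le_mul_of_nonneg_right (B1 hgs hX s) hG10
  have t2 : ∑' k, U2 k ≤ C * (X / X ^ N) * Real.exp ((N - 1 / 2) * s) * (K ^ 2 / K ^ N) *
      (n * G1) := by
    simp only [hU2]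
    rw [tsum_mul_right]
    exact mul_le_mul_of_nonneg_right (hB2 X s K hX hK) (by positivity)
  have t3 : ∑' k, U3 k ≤ ∑ p ∈ P, C * (X / X ^ N) * Real.exp ((N - 1 / 2) * s) *
      (1 / (nz p ^ 2) ^ N) * ((1 + 1 / δ) * (n * (y p ^ 2 * gd τ (2 * Real.log (nz p) - s)))) := by
    simp only [hU3]
    rw [Summable.tsum_finsetSum (fun p _ => (hB (fun k => k ≠ 0 ∧ p ^ 2 ∣ k)).mul_right _)]
    refine Finset.sum_le_sum fun p hp => ?_
    rw [tsum_mul_right]
    have hp0 : p ≠ 0 := (El.pz_prime p (hP p hp)).ne_zero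
    have hgdp := gd_nonneg hτ.le (2 * Real.log (nz p) - s)
    have h1 := hB3 X s (p ^ 2) hX (pow_ne_zero 2 hp0)
    rw [nz_sq] at h1
    exact mul_le_mul_of_nonneg_right h1 (by positivity)
  -- the main part
  have t4 : ∑' k, U4 k ≤ (1 - δ) * ∑ k' ∈ Kset K, A k' * qq P y τ (sy k') s +
      9 * K * (2 * Real.sqrt X) * n * (Real.exp (N * s) * Real.exp (-(N * s0))) * G1 := by
    rw [sum_classes hel K U4 hsU4 (fun k hk => by simp only [hU4]; rw [if_pos hk])]
    have e1 : ∀ k' ∈ Kset K, ∑' b : {b : ZI // Can b}, U4 (k' * (b : ZI) ^ 2) =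
        ((1 + δ) * ∑' b : {b : ZI // Can b}, Fs X s (k' * (b : ZI) ^ 2)) *
          qq P y τ (sy k') s := by
      intro k' hk'
      obtain ⟨a1, a2, a3⟩ := (hel.1 K k').1 hk'
      have e2 : ∀ b : {b : ZI // Can b}, U4 (k' * (b : ZI) ^ 2) =
          ((1 + δ) * Fs X s (k' * (b : ZI) ^ 2)) * qq P y τ (sy k') s := by
        rintro ⟨b, hb⟩
        obtain ⟨b1, b2⟩ := dec_eq hel a1 a2 hb
        simp only [hU4]
        rw [b1, if_neg]
        push Not
        exact ⟨sq_ne a2 hb, a3⟩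
      simp_rw [e2]
      rw [tsum_mul_right, tsum_mul_left]
    rw [Finset.sum_congr rfl e1]
    have hEx : 0 < Real.exp (N * s) * Real.exp (-(N * s0)) := by positivity
    have e3 : ∀ k' ∈ Kset K, ((1 + δ) * ∑' b : {b : ZI // Can b}, Fs X s (k' * (b : ZI) ^ 2)) *
          qq P y τ (sy k') s ≤
        (1 - δ) * (A k' * qq P y τ (sy k') s) +
        (2 * Real.sqrt X) * (n * G1) * (Real.exp (N * s) * Real.exp (-(N * s0))) := by
      intro k' hk'
      obtain ⟨a1, a2, a3⟩ := (hel.1 K k').1 hk'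
      obtain ⟨f1, f2⟩ := Fs_sq hgs a1.ne_zero hX s
      have hq0 := qq_nonneg P y hτ.le (sy k') s
      have hA0k := hA0 k' hk'
      have hk1 : 1 ≤ nz k' := El.nz_ge_one a1.ne_zero
      have hk0 : 0 < nz k' := by linarith
      have hz0 : 0 < nz k' * (X * Real.exp (-s)) := by positivity
      have hphi0 : 0 ≤ phi (nz k' * (X * Real.exp (-s))) := by
        refine le_trans ?_ (hph _ hz0).1
        positivity
      have f3 : ∑' b : {b : ZI // Can b}, Fs X s (k' * (b : ZI) ^ 2) ≤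
          Real.pi / 4 * Real.sqrt (X / nz k') := by
        rw [f2]
        have : 0 ≤ X * Real.exp (-(s / 2)) * phi (nz k' * (X * Real.exp (-s))) := by positivity
        linarith
      rcases le_or_gt s s0 with hs | hs
      · have h1 := hA k' hk' s hs
        have h2 := hc (nz k' * (X * Real.exp (-s))) hz0
        have h3 : X * Real.exp (-(s / 2)) * (c1 * min 1
            (1 / Real.sqrt (nz k' * (X * Real.exp (-s))))) ≤
            X * Real.exp (-(s / 2)) * phi (nz k' * (X * Real.exp (-s))) :=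
          mul_le_mul_of_nonneg_left h2 (by positivity)
        have h4 : (1 + δ) * ∑' b : {b : ZI // Can b}, Fs X s (k' * (b : ZI) ^ 2) ≤
            (1 - δ) * A k' := by
          have h5 := mul_le_mul_of_nonneg_left f3 hδ.le
          have h6 : c1 * (X * Real.exp (-(s / 2)) * min 1
            (1 / Real.sqrt (nz k' * (X * Real.exp (-s))))) = X * Real.exp (-(s / 2)) * (c1 * min 1
            (1 / Real.sqrt (nz k' * (X * Real.exp (-s))))) := by ring
          rw [h6] at h1
          rw [add_mul, one_mul]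
          linarith
        have h7 := mul_le_mul_of_nonneg_right h4 hq0
        have h8 : 0 ≤ (2 * Real.sqrt X) * (n * G1) *
            (Real.exp (N * s) * Real.exp (-(N * s0))) := by positivity
        linarith
      · have h1 : 1 ≤ Real.exp (N * s) * Real.exp (-(N * s0)) := by
          rw [← Real.exp_add]
          apply Real.one_le_exp
          have : (0 : ℝ) ≤ N := Nat.cast_nonneg _
          nlinarith
        have h2 : Real.sqrt (X / nz k') ≤ Real.sqrt X :=
          Real.sqrt_le_sqrt (div_le_self hX.le hk1)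
        have h4 : ∑' b : {b : ZI // Can b}, Fs X s (k' * (b : ZI) ^ 2) ≤ Real.sqrt X := by
          refine f3.trans ?_
          have hpi : Real.pi / 4 ≤ 1 := by linarith [Real.pi_le_four]
          calc Real.pi / 4 * Real.sqrt (X / nz k') ≤ 1 * Real.sqrt X := by gcongr
            _ = _ := by ring
        have h6 : 0 ≤ ∑' b : {b : ZI // Can b}, Fs X s (k' * (b : ZI) ^ 2) :=
          tsum_nonneg fun b => hFF _
        have h5 : (1 + δ) * ∑' b : {b : ZI // Can b}, Fs X s (k' * (b : ZI) ^ 2) ≤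
            2 * Real.sqrt X := by
          calc _ ≤ 2 * ∑' b : {b : ZI // Can b}, Fs X s (k' * (b : ZI) ^ 2) :=
                mul_le_mul_of_nonneg_right (by linarith) h6
            _ ≤ _ := by linarith
        have h7 : ((1 + δ) * ∑' b : {b : ZI // Can b}, Fs X s (k' * (b : ZI) ^ 2)) *
          qq P y τ (sy k') s ≤ 2 * Real.sqrt X * (n * G1) := by
          calc _ ≤ (2 * Real.sqrt X) * qq P y τ (sy k') s :=
                mul_le_mul_of_nonneg_right h5 hq0
            _ ≤ _ := mul_le_mul_of_nonneg_left (hqb k') (by positivity)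
        have h8 : 2 * Real.sqrt X * (n * G1) ≤ 2 * Real.sqrt X * (n * G1) *
            (Real.exp (N * s) * Real.exp (-(N * s0))) :=
          le_mul_of_one_le_right (by positivity) h1
        have h9 : 0 ≤ (1 - δ) * (A k' * qq P y τ (sy k') s) :=
          mul_nonneg (by linarith) (mul_nonneg hA0k hq0)
        linarith
    refine (Finset.sum_le_sum e3).trans ?_
    rw [Finset.sum_add_distrib, ← Finset.mul_sum, Finset.sum_const, nsmul_eq_mul]
    have h1 := Kset_card hel hK
    have h2 : ((Kset K).card : ℝ) * (2 * Real.sqrt X * (n * G1) *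
        (Real.exp (N * s) * Real.exp (-(N * s0)))) ≤ 9 * K * (2 * Real.sqrt X * (n * G1) *
        (Real.exp (N * s) * Real.exp (-(N * s0)))) :=
      mul_le_mul_of_nonneg_right h1 (by positivity)
    have h3 : 9 * K * (2 * Real.sqrt X * (n * G1) *
        (Real.exp (N * s) * Real.exp (-(N * s0)))) = 9 * K * (2 * Real.sqrt X) * n *
        (Real.exp (N * s) * Real.exp (-(N * s0))) * G1 := by ring
    linarith
  -- collect
  have e5 : ∑ p ∈ P, y p ^ 2 * gd τ (2 * Real.log (nz p) - s) * Ep C N δ X K n s0 p s =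
      Real.exp (1 / 2 * s) * G1 + C * (X / X ^ N) * Real.exp ((N - 1 / 2) * s) *
        (K ^ 2 / K ^ N) * (n * G1) + ∑ p ∈ P, C * (X / X ^ N) * Real.exp ((N - 1 / 2) * s) *
      (1 / (nz p ^ 2) ^ N) * ((1 + 1 / δ) * (n * (y p ^ 2 * gd τ (2 * Real.log (nz p) - s)))) +
      9 * K * (2 * Real.sqrt X) * n * (Real.exp (N * s) * Real.exp (-(N * s0))) * G1 := by
    rw [hG1]
    unfold dg1
    rw [Finset.mul_sum, Finset.mul_sum, Finset.mul_sum, Finset.mul_sum, ← Finset.sum_add_distrib,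
      ← Finset.sum_add_distrib, ← Finset.sum_add_distrib]
    refine Finset.sum_congr rfl fun p _ => ?_
    unfold Ep
    ring
  rw [e5]
  linarith

end Pool.Agent.N880.QI
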