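import Pool.Agent.N880.QI.Stm
import Pool.Agent.N880.QF.Rest
import Pool.Agent.H385R5.HE6

/-!
# QI, leaf G9: prime powers and inert primes, crude sums (helper79)
-/

set_option autoImplicit false

open Complex Filter Topology MeasureTheory Set
open H385 (ZI bt wt lamK2 bt_norm wt_nonneg)
open Pool.Agent.H304R3.HK (tc HC aH psi LamK bb)
open Pool.Agent.H304R3.HK.M4 (norm_nn)
open ArithmeticFunction (vonMangoldt)
open Pool.Agent.N880.QF (PP)

namespace Pool.Agent.N880.QI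

namespace Rest



lemma prm_iff (z : ZI) : (⟨2, 2⟩ : ZI) ∣ z - 1 ↔ Pool.Agent.H304R2.EC.A1.prim z := by
  unfold Pool.Agent.H304R2.EC.A1.prim
  constructor
  · rintro ⟨c, hc⟩
    have h1 := congrArg Zsqrtd.re hc
    have h2 := congrArg Zsqrtd.im hc
    simp [Zsqrtd.re_mul, Zsqrtd.im_mul] at h1 h2
    omega
  · rintro ⟨h1, h2⟩
    refine ⟨⟨(z.re - 1 + z.im) / 4, (z.im - (z.re - 1)) / 4⟩, ?_⟩
    ext
    · simp [Zsqrtd.re_mul]; omega
    · simp [Zsqrtd.im_mul]; omega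

/-- the norm as a natural number -/
def nn (z : ZI) : ℕ := (Zsqrtd.norm z).natAbs

lemma nn_cast (z : ZI) : ((nn z : ℕ) : ℤ) = Zsqrtd.norm z := Int.natAbs_of_nonneg (norm_nn z)

lemma nz_eq (z : ZI) : nz z = ((nn z : ℕ) : ℝ) := by
  unfold nz
  rw [← nn_cast z]
  norm_num

/-- the primary elements of norm `n` -/
noncomputable def Sn (n : ℕ) : Finset ZI := Pool.Agent.H304R2.EC.A1.S n

lemma mem_Sn {n : ℕ} {z : ZI} : z ∈ Sn n ↔ ((⟨2, 2⟩ : ZI) ∣ z - 1) ∧ nn z = n := by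
  unfold Sn
  rw [Pool.Agent.H304R2.EC.A1.mem_S, prm_iff]
  refine and_congr_right fun _ => ?_
  rw [← nn_cast z]
  exact Nat.cast_inj

lemma mem_Sn_prime {n : ℕ} (hn : n.Prime) {z : ZI} : z ∈ Sn n ↔ PZ z ∧ nn z = n := by
  rw [mem_Sn]
  constructor
  · rintro ⟨h1, h2⟩
    exact ⟨⟨by rw [← h2] at hn; exact hn, h1⟩, h2⟩
  · rintro ⟨h1, h2⟩
    exact ⟨h1.prm, h2⟩

lemma mod_four {n : ℕ} {z : ZI} (h : z ∈ Sn n) : n % 4 = 1 := by
  unfold Sn at h
  rw [Pool.Agent.H304R2.EC.A1.mem_S] at h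
  obtain ⟨⟨h1, h2⟩, hn⟩ := h
  rw [Zsqrtd.norm_def] at hn
  obtain ⟨a, ha⟩ : ∃ a, z.re = 2 * a + 1 := ⟨z.re / 2, by omega⟩
  obtain ⟨b, hb⟩ : ∃ b, z.im = 2 * b := ⟨z.im / 2, by omega⟩
  rw [ha, hb] at hn
  have : (n : ℤ) = 4 * (a ^ 2 + a + b ^ 2) + 1 := by rw [← hn]; ring
  omega

lemma card_Sn {p : ℕ} (hp : p.Prime) : (Sn p).card ≤ 2 := by
  rcases Finset.eq_empty_or_nonempty (Sn p) with h | ⟨z, hz⟩
  · rw [h]; simp
  · obtain ⟨x, _, _, _, _, hS, _⟩ := Pool.Agent.H304R3.HK.M4.split_data p hp (mod_four hz)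
    unfold Sn
    rw [hS]
    exact Finset.card_le_two

lemma lamK2_split {p : ℕ} (hp : p.Prime) (h : p % 4 = 1) : lamK2 p = 2 * Real.log p ^ 2 := by
  rw [(H385.lamK2_bound p).2.2 hp, ArithmeticFunction.vonMangoldt_apply_prime hp,
    ZMod.χ₄_nat_one_mod_four h]
  push_cast
  ring

open Classical in
/-- counting with multiplicity at most two -/
lemma fiber_sum (f : ℕ → ℝ) (hf : ∀ n, 0 ≤ f n) (P : Finset ZI) (hP : ∀ p ∈ P, PZ p) :
    ∑ p ∈ P, f (nn p) ≤ ∑ n ∈ P.image nn, 2 * f n := by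
  rw [← Finset.sum_fiberwise_of_maps_to (t := P.image nn) (g := nn)
    (fun p hp => Finset.mem_image_of_mem nn hp)]
  refine Finset.sum_le_sum fun n hn => ?_
  obtain ⟨q, hq, hqn⟩ := Finset.mem_image.1 hn
  have hpr : n.Prime := by rw [← hqn]; exact (hP q hq).pr
  have hsub : P.filter (fun x => nn x = n) ⊆ Sn n := by
    intro x hx
    rw [Finset.mem_filter] at hx
    exact (mem_Sn_prime hpr).2 ⟨hP x hx.1, hx.2⟩
  have h1 : ∑ x ∈ P.filter (fun x => nn x = n), f (nn x) =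
      ((P.filter (fun x => nn x = n)).card : ℝ) * f n := by
    rw [Finset.sum_congr rfl (g := fun _ => f n), Finset.sum_const, nsmul_eq_mul]
    intro x hx
    rw [(Finset.mem_filter.1 hx).2]
  rw [h1]
  refine mul_le_mul_of_nonneg_right ?_ (hf n)
  exact_mod_cast (Finset.card_le_card hsub).trans (card_Sn hpr)

open Classical in
lemma image_data (P : Finset ZI) (hP : ∀ p ∈ P, PZ p) {n : ℕ} (hn : n ∈ P.image nn) :
    n.Prime ∧ n % 4 = 1 := by
  obtain ⟨q, hq, hqn⟩ := Finset.mem_image.1 hn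
  have hpr : n.Prime := by rw [← hqn]; exact (hP q hq).pr
  exact ⟨hpr, mod_four ((mem_Sn_prime hpr).2 ⟨hP q hq, hqn⟩)⟩

/-! ### parts two and three -/

lemma innI_summable (u : ℝ) :
    Summable (fun n : ℕ => lamK2 n / n * Real.exp (-(u - Real.log n) ^ 2)) := by
  have h := (Pool.Agent.N7.MainC.inner_summable (c := 1) one_pos u).mul_left 4
  refine Summable.of_nonneg_of_le (fun n => ?_) (fun n => ?_) h
  · have := (H385.lamK2_bound n).1
    positivity
  · have h2 := (H385.lamK2_bound n).2.1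
    rw [one_mul, ← mul_assoc, ← mul_div_assoc]
    exact mul_le_mul_of_nonneg_right (div_le_div_of_nonneg_right h2 (Nat.cast_nonneg n))
      (Real.exp_pos _).le

lemma part_two (u : ℝ) (P : Finset ZI) (hP : ∀ p ∈ P, PZ p) :
    ∑ p ∈ P, Real.log (nz p) ^ 2 / nz p * Real.exp (-(u - Real.log (nz p)) ^ 2) ≤ innI u := by
  classical
  have h1 := fiber_sum (fun n : ℕ => Real.log n ^ 2 / n * Real.exp (-(u - Real.log n) ^ 2))
    (fun n => by positivity) P hP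
  have h2 : ∑ n ∈ P.image nn,
      2 * (Real.log n ^ 2 / n * Real.exp (-(u - Real.log n) ^ 2)) =
      ∑ n ∈ P.image nn, lamK2 n / n * Real.exp (-(u - Real.log n) ^ 2) := by
    refine Finset.sum_congr rfl fun n hn => ?_
    obtain ⟨hp, h4⟩ := image_data P hP hn
    rw [lamK2_split hp h4]
    ring
  have h3 : ∑ n ∈ P.image nn, lamK2 n / n * Real.exp (-(u - Real.log n) ^ 2) ≤ innI u := by
    unfold innI
    refine (innI_summable u).sum_le_tsum _ fun n _ => ?_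
    have := (H385.lamK2_bound n).1
    positivity
  simp only [nz_eq]
  linarith

lemma part_three : ∃ C5 : ℝ, 0 < C5 ∧ ∀ (u : ℝ) (P : Finset ZI), 0 ≤ u → (∀ p ∈ P, PZ p) →
    ∑ p ∈ P, Real.log (nz p) ^ 2 / nz p * Real.exp (-(u - Real.log (nz p)) ^ 2 / 2) ≤
      C5 * (u + 1) := by
  classical
  obtain ⟨C, hC, h⟩ := H385.lam_sq_crude
  refine ⟨2 * C, by positivity, fun u P hu hP => ?_⟩
  obtain ⟨hs, hb⟩ := h u hu
  have h1 := fiber_sum (fun n : ℕ => Real.log n ^ 2 / n * Real.exp (-(u - Real.log n) ^ 2 / 2))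
    (fun n => by positivity) P hP
  have h2 : ∑ n ∈ P.image nn,
      2 * (Real.log n ^ 2 / n * Real.exp (-(u - Real.log n) ^ 2 / 2)) =
      2 * ∑ n ∈ P.image nn, vonMangoldt n ^ 2 / n * Real.exp (-(u - Real.log n) ^ 2 / 2) := by
    rw [Finset.mul_sum]
    refine Finset.sum_congr rfl fun n hn => ?_
    obtain ⟨hp, h4⟩ := image_data P hP hn
    rw [ArithmeticFunction.vonMangoldt_apply_prime hp]
  have h3 : ∑ n ∈ P.image nn, vonMangoldt n ^ 2 / n * Real.exp (-(u - Real.log n) ^ 2 / 2) ≤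
      ∑' n : ℕ, vonMangoldt n ^ 2 / n * Real.exp (-(u - Real.log n) ^ 2 / 2) :=
    hs.sum_le_tsum _ fun n _ => by positivity
  simp only [nz_eq]
  linarith

/-! ### part one -/

lemma nn_mem_PP {B : ℕ} {ε L u : ℝ} {p : ZI} (h : InP B ε L u p) : nn p ∈ PP B ε L u := by
  obtain ⟨h1, h2, h3⟩ := h
  rw [nz_eq] at h2 h3
  have hpr : (nn p).Prime := h1.pr
  have hp0 : (0 : ℝ) < (nn p : ℕ) := by exact_mod_cast hpr.pos
  unfold PP
  rw [Finset.mem_filter, Finset.mem_range]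
  refine ⟨?_, hpr, by exact_mod_cast h2, h3⟩
  have h5 : Real.log (nn p : ℕ) ≤ u + ε * L := by
    have := (abs_le.1 h3).2
    linarith
  rw [Real.log_le_iff_le_exp hp0] at h5
  exact Nat.lt_succ_of_le (Nat.le_floor h5)

lemma mem_PP_prime {B : ℕ} {ε L u : ℝ} {n : ℕ} (h : n ∈ PP B ε L u) :
    n.Prime ∧ B < n ∧ |Real.log n - u| ≤ ε * L := by
  unfold PP at h
  exact (Finset.mem_filter.1 h).2

lemma part_one (B : ℕ) (ε L u : ℝ) : {p : ZI | InP B ε L u p}.Finite := by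
  classical
  refine (((PP B ε L u).biUnion Sn).finite_toSet).subset ?_
  intro p hp
  have hp' : InP B ε L u p := hp
  have hm := nn_mem_PP hp'
  rw [Finset.mem_coe, Finset.mem_biUnion]
  exact ⟨nn p, hm, (mem_Sn_prime (mem_PP_prime hm).1).2 ⟨hp'.1, rfl⟩⟩

/-! ### part four -/

lemma aH_prime {d : ZI} {ψ : ZI →* ℂ} (H : HC d ψ) {p : ℕ} (hp : p.Prime) (h2 : p ≠ 2) :
    aH ψ p = ∑ z ∈ Sn p, (Real.log p : ℂ) * (ψ z * (tc z / (‖tc z‖ : ℂ))) := by
  have hodd : p % 2 = 1 := by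
    rcases hp.eq_two_or_odd with h | h
    · exact absurd h h2
    · exact h
  have hi : psi ψ ⟨0, 1⟩ = 1 := (Pool.Agent.H304R3.HK.uh_psi d ψ H).hi
  show bb (fun a => (LamK a : ℂ) * psi ψ a) p = _
  rw [Pool.Agent.H304R3.HK.M4.bb_odd _ (Pool.Agent.H304R3.HK.M4.hf2 hi) p hodd]
  refine Finset.sum_congr rfl fun z hz => ?_
  have hz' := Pool.Agent.H304R2.EC.A1.mem_S.1 hz
  have hpz : Prime z := Pool.Agent.H304R3.HK.M4.prime_of_norm hp hz'.2
  rw [Pool.Agent.H304R3.HK.M4.LamK_eq hpz one_pos (by rw [pow_one]), hz'.2,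
    Pool.Agent.H304R3.HK.psi_apply ψ hpz.ne_zero]
  push_cast
  rfl

lemma part_four (B : ℕ) (ε : ℝ) (hε : 0 < ε) : ∃ C : ℝ, 0 < C ∧
    ∀ (L u T t : ℝ) (d : ZI) (ψ : ZI →* ℂ) (P : Finset ZI),
    1 ≤ L → 0 ≤ u → u ≤ L → 0 ≤ T → HC d ψ → (∀ p, p ∈ P ↔ InP B ε L u p) →
    ‖(∑' n : ℕ, aH ψ n * ((Real.sqrt n : ℂ)⁻¹ * bt T u t (Real.log n))) -
      ∑ p ∈ P, (ψ p * (tc p / (‖tc p‖ : ℂ)) * (Real.log (nz p) / Real.sqrt (nz p) : ℝ)) *
        bt T u t (Real.log (nz p))‖ ≤ C * wt T t := by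
  classical
  obtain ⟨C, hC, h⟩ := Pool.Agent.N880.QF.Rest.rest_main B ε hε
  obtain ⟨A, _, hA⟩ := Pool.Agent.H304R3.HK.goodH
  refine ⟨2 * C + 2, by positivity, fun L u T t d ψ P hL hu0 hu hT H hP => ?_⟩
  have hw0 := wt_nonneg T t hT
  have hb := (hA d ψ H).2.2.1
  -- the case of the rational numbers, applied to half of the coefficients
  have h1 := h L u T t (fun n => aH ψ n / 2) hL hu0 hu hT (fun n => by
    rw [norm_div, Complex.norm_ofNat]
    have := hb n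
    linarith)
  set g : ℕ → ℂ := fun n => aH ψ n * ((Real.sqrt n : ℂ)⁻¹ * bt T u t (Real.log n)) with hg
  have h2 : ‖(∑' n, g n) - ∑ n ∈ PP B ε L u, g n‖ ≤ 2 * (C * wt T t) := by
    have e1 : ∑' n, g n = 2 * ∑' n : ℕ, aH ψ n / 2 *
        ((Real.sqrt n : ℂ)⁻¹ * bt T u t (Real.log n)) := by
      rw [← tsum_mul_left]
      refine tsum_congr fun n => ?_
      rw [hg]; ring
    have e2 : ∑ n ∈ PP B ε L u, g n = 2 * ∑ n ∈ PP B ε L u, aH ψ n / 2 *
        ((Real.sqrt n : ℂ)⁻¹ * bt T u t (Real.log n)) := by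
      rw [Finset.mul_sum]
      refine Finset.sum_congr rfl fun n _ => ?_
      rw [hg]; ring
    rw [e1, e2, ← mul_sub, norm_mul, Complex.norm_ofNat]
    exact mul_le_mul_of_nonneg_left h1 (by norm_num)
  -- the sum over the Gaussian primes
  set G : ZI → ℂ := fun p => (ψ p * (tc p / (‖tc p‖ : ℂ)) *
    (Real.log (nz p) / Real.sqrt (nz p) : ℝ)) * bt T u t (Real.log (nz p)) with hG
  have h3 : ∑ p ∈ P, G p = ∑ n ∈ PP B ε L u, ∑ z ∈ Sn n, G z := by
    rw [← Finset.sum_fiberwise_of_maps_to (s := P) (t := PP B ε L u) (g := nn)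
      (fun p hp => nn_mem_PP ((hP p).1 hp))]
    refine Finset.sum_congr rfl fun n hn => ?_
    obtain ⟨hpr, hB, hl⟩ := mem_PP_prime hn
    refine Finset.sum_congr ?_ fun _ _ => rfl
    ext z
    rw [Finset.mem_filter, mem_Sn_prime hpr, hP]
    constructor
    · rintro ⟨h5, h6⟩
      exact ⟨h5.1, h6⟩
    · rintro ⟨h5, h6⟩
      refine ⟨⟨h5, ?_, ?_⟩, h6⟩
      · rw [nz_eq, h6]; exact_mod_cast hB
      · rw [nz_eq, h6]; exact hl
  have h4 : ∀ n ∈ PP B ε L u, n ≠ 2 → ∑ z ∈ Sn n, G z = g n := by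
    intro n hn hn2
    have hpr := (mem_PP_prime hn).1
    rw [hg]
    simp only
    rw [aH_prime H hpr hn2, Finset.sum_mul]
    refine Finset.sum_congr rfl fun z hz => ?_
    have hz' := ((mem_Sn_prime hpr).1 hz).2
    rw [hG]
    simp only
    rw [nz_eq, hz']
    push_cast
    ring
  have h5 : Sn 2 = ∅ := by
    rw [Finset.eq_empty_iff_forall_notMem]
    intro z hz
    have := mod_four hz
    omega
  have hg2 : ‖g 2‖ ≤ 2 * wt T t := by
    have hbt := bt_norm T u t (Real.log ((2 : ℕ) : ℝ)) hT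
    have h6 : 1 / Real.sqrt (2 * Real.pi) ≤ 1 := by
      rw [div_le_one (Real.sqrt_pos.2 (by positivity))]
      exact Real.one_le_sqrt.2 (by linarith [Real.pi_gt_three])
    have h7 : Real.exp (-(u - Real.log ((2 : ℕ) : ℝ)) ^ 2 / 4) ≤ 1 := by
      rw [Real.exp_le_one_iff]
      nlinarith [sq_nonneg (u - Real.log ((2 : ℕ) : ℝ))]
    have h8 : ‖bt T u t (Real.log ((2 : ℕ) : ℝ))‖ ≤ wt T t := by
      refine hbt.trans ?_
      calc _ ≤ 1 * 1 * wt T t := by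
            refine mul_le_mul_of_nonneg_right ?_ hw0
            exact mul_le_mul h6 h7 (Real.exp_pos _).le zero_le_one
        _ = wt T t := by ring
    have h9 : ‖aH ψ 2‖ ≤ 2 := by
      have := hb 2
      rw [ArithmeticFunction.vonMangoldt_apply_prime Nat.prime_two] at this
      have h10 : Real.log ((2 : ℕ) : ℝ) ≤ 1 := by
        have := Real.log_two_lt_d9
        push_cast
        linarith
      linarith
    have h11 : ‖((Real.sqrt ((2 : ℕ) : ℝ) : ℝ) : ℂ)⁻¹‖ ≤ 1 := by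
      rw [norm_inv, Complex.norm_real, Real.norm_of_nonneg (Real.sqrt_nonneg _)]
      apply inv_le_one_of_one_le₀
      rw [Real.one_le_sqrt]
      norm_num
    rw [hg]
    simp only [norm_mul]
    calc ‖aH ψ 2‖ * (‖((Real.sqrt ((2 : ℕ) : ℝ) : ℝ) : ℂ)⁻¹‖ *
        ‖bt T u t (Real.log ((2 : ℕ) : ℝ))‖) ≤ 2 * (1 * wt T t) := by
          refine mul_le_mul h9 ?_ (by positivity) (by norm_num)
          exact mul_le_mul h11 h8 (norm_nonneg _) zero_le_one
      _ = 2 * wt T t := by ring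
  have h6 : ‖(∑ n ∈ PP B ε L u, g n) - ∑ p ∈ P, G p‖ ≤ 2 * wt T t := by
    rw [h3, ← Finset.sum_sub_distrib]
    by_cases hm : 2 ∈ PP B ε L u
    · rw [Finset.sum_eq_single_of_mem 2 hm, h5, Finset.sum_empty, sub_zero]
      · exact hg2
      · intro n hn hn2
        rw [h4 n hn hn2, sub_self]
    · rw [Finset.sum_eq_zero, norm_zero]
      · positivity
      · intro n hn
        rw [h4 n hn (fun h => hm (h ▸ hn)), sub_self]
  calc ‖(∑' n, g n) - ∑ p ∈ P, G p‖ = ‖((∑' n, g n) - ∑ n ∈ PP B ε L u, g n) +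
        ((∑ n ∈ PP B ε L u, g n) - ∑ p ∈ P, G p)‖ := by congr 1; ring
    _ ≤ 2 * (C * wt T t) + 2 * wt T t := (norm_add_le _ _).trans (add_le_add h2 h6)
    _ = (2 * C + 2) * wt T t := by ring

end Rest

theorem rest_main : S_rest :=
  ⟨Rest.part_one, Rest.part_two, Rest.part_three, Rest.part_four⟩

end Pool.Agent.N880.QI
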