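import Pool.Agent.N880.QI.El

/-!
Project QI (helper880), leaf G12: weights of the family (helper407).
-/

set_option autoImplicit false

open Finset Filter Topology
open H385 (ZI)

namespace Pool.Agent.N880.QI.Wgt

open Pool.Agent.N880.QI

/-- the rational majorant -/
noncomputable def Fz (a : ℝ) (m : ZI) : ℝ := 1 / (1 + a * nz m) ^ 2

lemma Fz_nonneg (a : ℝ) (m : ZI) : 0 ≤ Fz a m := by unfold Fz; positivity

lemma tele (a : ℝ) (ha : 0 < a) (n : ℕ) :
    ∑ j ∈ range n, 1 / (1 + a * ((j : ℝ) + 1)) ^ 2 ≤ 1 / a - 1 / (a * (1 + n * a)) := by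
  induction n with
  | zero => simp
  | succ n ih =>
    rw [sum_range_succ]
    have hn : (0 : ℝ) ≤ n := Nat.cast_nonneg n
    have h1 : (0 : ℝ) < 1 + n * a := by positivity
    have h2 : (0 : ℝ) < 1 + (n + 1) * a := by positivity
    have h3 : 1 / (1 + a * ((n : ℝ) + 1)) ^ 2 ≤
        1 / (a * (1 + n * a)) - 1 / (a * (1 + (n + 1) * a)) := by
      have h4 : 1 / (a * (1 + n * a)) - 1 / (a * (1 + (n + 1) * a)) =
          1 / ((1 + n * a) * (1 + (n + 1) * a)) := by
        field_simp; ring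
      rw [h4]
      apply one_div_le_one_div_of_le (by positivity)
      nlinarith
    push_cast
    linarith

lemma tele' (a : ℝ) (ha : 0 < a) (n : ℕ) :
    ∑ j ∈ range n, 1 / (1 + a * ((j : ℝ) + 1)) ^ 2 ≤ 1 / a := by
  have h1 := tele a ha n
  have h2 : 0 ≤ 1 / (a * (1 + n * a)) := by positivity
  linarith

lemma one_d (c : ℝ) (hc : 0 < c) (A : Finset ℤ) :
    ∑ x ∈ A, 1 / (1 + c * |(x : ℝ)|) ^ 2 ≤ 1 + 2 / c := by
  classical
  set n : ℕ := A.sup Int.natAbs with hn
  set f : ℕ → ℤ := fun j => (j : ℤ) + 1 with hf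
  set g : ℕ → ℤ := fun j => -((j : ℤ) + 1) with hg
  have hfi : Function.Injective f := by
    intro a b h
    simp only [hf] at h
    omega
  have hgi : Function.Injective g := by
    intro a b h
    simp only [hg] at h
    omega
  have hsub : A ⊆ insert 0 ((range n).image f ∪ (range n).image g) := by
    intro m hm
    have h1 : m.natAbs ≤ n := Finset.le_sup (f := Int.natAbs) hm
    rw [mem_insert, mem_union, mem_image, mem_image]
    rcases lt_trichotomy m 0 with h | h | h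
    · right; right
      exact ⟨m.natAbs - 1, mem_range.2 (by omega), by simp only [hg]; omega⟩
    · left; exact h
    · right; left
      exact ⟨m.natAbs - 1, mem_range.2 (by omega), by simp only [hf]; omega⟩
  have hnn : ∀ x : ℤ, 0 ≤ 1 / (1 + c * |(x : ℝ)|) ^ 2 := fun x => by positivity
  have e1 : ∀ j : ℕ, 1 / (1 + c * |((f j : ℤ) : ℝ)|) ^ 2 = 1 / (1 + c * ((j : ℝ) + 1)) ^ 2 := by
    intro j
    simp only [hf]
    push_cast
    rw [abs_of_nonneg (by positivity)]
  have e2 : ∀ j : ℕ, 1 / (1 + c * |((g j : ℤ) : ℝ)|) ^ 2 = 1 / (1 + c * ((j : ℝ) + 1)) ^ 2 := by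
    intro j
    simp only [hg]
    push_cast
    rw [abs_neg, abs_of_nonneg (by positivity)]
  have h1 := tele' c hc n
  calc ∑ x ∈ A, 1 / (1 + c * |(x : ℝ)|) ^ 2
      ≤ ∑ x ∈ insert 0 ((range n).image f ∪ (range n).image g), 1 / (1 + c * |(x : ℝ)|) ^ 2 :=
        sum_le_sum_of_subset_of_nonneg hsub (fun m _ _ => hnn m)
    _ = 1 + ∑ x ∈ (range n).image f ∪ (range n).image g, 1 / (1 + c * |(x : ℝ)|) ^ 2 := by
        rw [sum_insert]
        · simp
        · rw [mem_union, mem_image, mem_image]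
          rintro (⟨j, _, h⟩ | ⟨j, _, h⟩)
          · simp only [hf] at h; omega
          · simp only [hg] at h; omega
    _ ≤ 1 + (∑ x ∈ (range n).image f, 1 / (1 + c * |(x : ℝ)|) ^ 2 +
          ∑ x ∈ (range n).image g, 1 / (1 + c * |(x : ℝ)|) ^ 2) := by
        rw [← sum_union_inter]
        have := sum_nonneg (fun m (_ : m ∈ (range n).image f ∩ (range n).image g) => hnn m)
        linarith
    _ = 1 + (∑ j ∈ range n, 1 / (1 + c * ((j : ℝ) + 1)) ^ 2 +
          ∑ j ∈ range n, 1 / (1 + c * ((j : ℝ) + 1)) ^ 2) := by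
        rw [sum_image (fun a _ b _ h => hfi h), sum_image (fun a _ b _ h => hgi h)]
        simp only [e1, e2]
    _ ≤ 1 + 2 / c := by
        have : 2 / c = 1 / c + 1 / c := by ring
        rw [this]
        linarith

lemma one_d_sq (a : ℝ) (ha : 0 < a) (ha1 : a ≤ 1) (A : Finset ℤ) :
    ∑ x ∈ A, 1 / (1 + a * (x : ℝ) ^ 2) ≤ 6 / Real.sqrt a := by
  have hs : 0 < Real.sqrt a := Real.sqrt_pos.2 ha
  have hs1 : Real.sqrt a ≤ 1 := Real.sqrt_le_one.2 ha1
  have hss : Real.sqrt a * Real.sqrt a = a := Real.mul_self_sqrt ha.le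
  have h1 : ∀ x : ℤ, 1 / (1 + a * (x : ℝ) ^ 2) ≤ 2 * (1 / (1 + Real.sqrt a * |(x : ℝ)|) ^ 2) := by
    intro x
    rw [mul_one_div, div_le_div_iff₀ (by positivity) (by positivity)]
    have h2 : a * (x : ℝ) ^ 2 = (Real.sqrt a * |(x : ℝ)|) ^ 2 := by
      rw [mul_pow, sq_abs, pow_two (Real.sqrt a), hss]
    rw [h2]
    nlinarith [sq_nonneg (1 - Real.sqrt a * |(x : ℝ)|)]
  calc ∑ x ∈ A, 1 / (1 + a * (x : ℝ) ^ 2)
      ≤ ∑ x ∈ A, 2 * (1 / (1 + Real.sqrt a * |(x : ℝ)|) ^ 2) := sum_le_sum fun x _ => h1 x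
    _ = 2 * ∑ x ∈ A, 1 / (1 + Real.sqrt a * |(x : ℝ)|) ^ 2 := by rw [mul_sum]
    _ ≤ 2 * (1 + 2 / Real.sqrt a) := by
        have := one_d (Real.sqrt a) hs A
        linarith
    _ ≤ 2 * (1 / Real.sqrt a + 2 / Real.sqrt a) := by
        have : 1 ≤ 1 / Real.sqrt a := by rw [le_div_iff₀ hs]; linarith
        linarith
    _ = 6 / Real.sqrt a := by ring

/-- the sum of the majorant over nonzero elements -/
lemma key : ∃ C : ℝ, 1 ≤ C ∧ ∀ a : ℝ, 0 < a → ∀ J : Finset ZI, (∀ m ∈ J, m ≠ 0) →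
    ∑ m ∈ J, Fz a m ≤ C / a := by
  classical
  obtain ⟨C1, hC1, h1⟩ := El.sum_inv_sq
  refine ⟨max 36 C1, le_trans (by norm_num) (le_max_left _ _), fun a ha J hJ => ?_⟩
  by_cases ha1 : a ≤ 1
  · have hs : 0 < Real.sqrt a := Real.sqrt_pos.2 ha
    have hss : Real.sqrt a * Real.sqrt a = a := Real.mul_self_sqrt ha.le
    set g : ℤ → ℝ := fun x => 1 / (1 + a * (x : ℝ) ^ 2) with hg
    have hg0 : ∀ x, 0 ≤ g x := fun x => by simp only [hg]; positivity
    have h2 : ∀ m : ZI, Fz a m ≤ g m.re * g m.im := by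
      intro m
      unfold Fz
      simp only [hg]
      rw [El.nz_eq, one_div_mul_one_div]
      apply one_div_le_one_div_of_le (by positivity)
      nlinarith [mul_nonneg ha.le (sq_nonneg (m.re : ℝ)), mul_nonneg ha.le (sq_nonneg (m.im : ℝ)),
        mul_nonneg (mul_nonneg ha.le (sq_nonneg (m.re : ℝ)))
          (mul_nonneg ha.le (sq_nonneg (m.im : ℝ)))]
    have hinj : Set.InjOn (fun p : ZI => (p.re, p.im)) (J : Set ZI) := by
      intro a _ b _ h
      simp only [Prod.mk.injEq] at h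
      exact Zsqrtd.ext h.1 h.2
    have h3 : ∑ m ∈ J, g m.re * g m.im ≤
        ∑ q ∈ (J.image Zsqrtd.re) ×ˢ (J.image Zsqrtd.im), g q.1 * g q.2 := by
      have h3 : ∑ p ∈ J, g p.re * g p.im =
          ∑ q ∈ J.image (fun p : ZI => (p.re, p.im)), g q.1 * g q.2 := by
        rw [sum_image hinj]
      rw [h3]
      apply sum_le_sum_of_subset_of_nonneg
      · intro q hq
        rw [mem_image] at hq
        obtain ⟨p, hp, rfl⟩ := hq
        rw [mem_product]
        exact ⟨mem_image_of_mem _ hp, mem_image_of_mem _ hp⟩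
      · intro q _ _
        exact mul_nonneg (hg0 _) (hg0 _)
    rw [sum_product, ← sum_mul_sum] at h3
    have h4 := one_d_sq a ha ha1 (J.image Zsqrtd.re)
    have h5 := one_d_sq a ha ha1 (J.image Zsqrtd.im)
    have h6 : (∑ x ∈ J.image Zsqrtd.re, g x) * (∑ x ∈ J.image Zsqrtd.im, g x) ≤
        6 / Real.sqrt a * (6 / Real.sqrt a) :=
      mul_le_mul h4 h5 (sum_nonneg fun n _ => hg0 n) (by positivity)
    have h7 : 6 / Real.sqrt a * (6 / Real.sqrt a) = 36 / a := by
      rw [div_mul_div_comm, hss]; norm_num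
    calc ∑ m ∈ J, Fz a m ≤ ∑ m ∈ J, g m.re * g m.im := sum_le_sum fun m _ => h2 m
      _ ≤ 36 / a := by linarith
      _ ≤ max 36 C1 / a := div_le_div_of_nonneg_right (le_max_left _ _) ha.le
  · push Not at ha1
    have h2 : ∀ m ∈ J, Fz a m ≤ 1 / a * (1 / nz m ^ 2) := by
      intro m hm
      have h3 := El.nz_ge_one (hJ m hm)
      unfold Fz
      rw [one_div_mul_one_div]
      apply one_div_le_one_div_of_le (by positivity)
      have h4 : a * nz m ^ 2 ≤ (a * nz m) ^ 2 := by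
        rw [mul_pow]
        apply mul_le_mul_of_nonneg_right _ (by positivity)
        nlinarith
      have h5 : (a * nz m) ^ 2 ≤ (1 + a * nz m) ^ 2 := by
        apply pow_le_pow_left₀ (by positivity)
        linarith
      linarith
    calc ∑ m ∈ J, Fz a m ≤ ∑ m ∈ J, 1 / a * (1 / nz m ^ 2) := sum_le_sum h2
      _ = 1 / a * ∑ m ∈ J, 1 / nz m ^ 2 := by rw [mul_sum]
      _ ≤ 1 / a * C1 := mul_le_mul_of_nonneg_left (h1 J hJ) (by positivity)
      _ ≤ max 36 C1 / a := by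
          rw [one_div_mul_eq_div]
          exact div_le_div_of_nonneg_right (le_max_right _ _) ha.le

/-- sums over multiples -/
lemma key_dvd {C : ℝ} (hC : ∀ a : ℝ, 0 < a → ∀ J : Finset ZI, (∀ m ∈ J, m ≠ 0) →
    ∑ m ∈ J, Fz a m ≤ C / a) (a : ℝ) (ha : 0 < a) (D : ZI) (hD : D ≠ 0) (J : Finset ZI)
    (hJ : ∀ m ∈ J, m ≠ 0 ∧ D ∣ m) : ∑ m ∈ J, Fz a m ≤ C / (a * nz D) := by
  classical
  have hD0 := El.nz_pos hD
  have hq : ∀ m ∈ J, D * (m / D) = m := fun m hm => EuclideanDomain.mul_div_cancel' hD (hJ m hm).2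
  have hinj : Set.InjOn (fun m : ZI => m / D) (J : Set ZI) := by
    intro x hx y hy h
    simp only at h
    rw [← hq x hx, ← hq y hy, h]
  have h1 : ∑ m ∈ J, Fz a m = ∑ j ∈ J.image (fun m : ZI => m / D), Fz (a * nz D) j := by
    rw [sum_image hinj]
    apply sum_congr rfl
    intro m hm
    unfold Fz
    have : nz m = nz D * nz (m / D) := by rw [← El.nz_mul, hq m hm]
    rw [this, mul_assoc]
  rw [h1]
  apply hC _ (by positivity)
  intro j hj
  rw [mem_image] at hj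
  obtain ⟨m, hm, rfl⟩ := hj
  intro h0
  have := hq m hm
  rw [h0, mul_zero] at this
  exact (hJ m hm).1 this.symm

/-- the Gaussian majorant -/
noncomputable def gm (X : ℝ) (m : ZI) : ℝ := Real.exp (-(2 * (nz m / X)))

lemma gm_nonneg (X : ℝ) (m : ZI) : 0 ≤ gm X m := (Real.exp_pos _).le

lemma gm_le_one (X : ℝ) (hX : 0 < X) (m : ZI) : gm X m ≤ 1 := by
  unfold gm
  rw [Real.exp_le_one_iff]
  have := El.nz_nonneg m
  have : 0 ≤ nz m / X := by positivity
  linarith

lemma exp_le (y : ℝ) (hy : 0 ≤ y) : Real.exp (-y) ≤ 2 * (1 / (1 + y) ^ 2) := by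
  have h1 := Real.quadratic_le_exp_of_nonneg hy
  rw [Real.exp_neg, mul_one_div, inv_le_comm₀ (Real.exp_pos _) (by positivity), inv_div,
    div_le_iff₀ (by norm_num)]
  nlinarith

lemma exp_le_Fz (X : ℝ) (hX : 0 < X) (m : ZI) : Real.exp (-(nz m / X)) ≤ 2 * Fz (1 / X) m := by
  have h0 := El.nz_nonneg m
  have h1 := exp_le (nz m / X) (by positivity)
  unfold Fz
  rw [one_div_mul_eq_div]
  exact h1

lemma gm_le_Fz (X : ℝ) (hX : 0 < X) (m : ZI) : gm X m ≤ 2 * Fz (1 / X) m := by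
  refine le_trans ?_ (exp_le_Fz X hX m)
  unfold gm
  apply Real.exp_le_exp.2
  have h0 := El.nz_nonneg m
  have : 0 ≤ nz m / X := by positivity
  linarith

/-- the tail -/
lemma W1 {C : ℝ} (hC : ∀ a : ℝ, 0 < a → ∀ J : Finset ZI, (∀ m ∈ J, m ≠ 0) →
    ∑ m ∈ J, Fz a m ≤ C / a) (X : ℝ) (hX : 0 < X) (J : Finset ZI)
    (hJ : ∀ m ∈ J, m ≠ 0 ∧ X * Real.sqrt (Real.log X) < nz m) :
    ∑ m ∈ J, gm X m ≤ 2 * C * (X * Real.exp (-Real.sqrt (Real.log X))) := by
  have h1 : ∀ m ∈ J, gm X m ≤ Real.exp (-Real.sqrt (Real.log X)) * (2 * Fz (1 / X) m) := by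
    intro m hm
    have h2 := (hJ m hm).2
    have h3 : Real.sqrt (Real.log X) ≤ nz m / X := by
      rw [le_div_iff₀ hX]; linarith
    have h4 : gm X m ≤ Real.exp (-Real.sqrt (Real.log X)) * Real.exp (-(nz m / X)) := by
      unfold gm
      rw [← Real.exp_add]
      apply Real.exp_le_exp.2
      linarith
    exact h4.trans (mul_le_mul_of_nonneg_left (exp_le_Fz X hX m) (Real.exp_pos _).le)
  refine (sum_le_sum h1).trans ?_
  rw [← mul_sum, ← mul_sum]
  have h2 := hC (1 / X) (by positivity) J (fun m hm => (hJ m hm).1)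
  rw [div_div_eq_mul_div, div_one] at h2
  have h3 := mul_le_mul_of_nonneg_left h2
    (mul_nonneg (Real.exp_pos (-Real.sqrt (Real.log X))).le (by norm_num : (0 : ℝ) ≤ 2))
  nlinarith

/-- tails of the sum of the inverse squares of the norms -/
lemma inv_tail {C : ℝ} (hC : ∀ a : ℝ, 0 < a → ∀ J : Finset ZI, (∀ m ∈ J, m ≠ 0) →
    ∑ m ∈ J, Fz a m ≤ C / a) (B : ℝ) (hB : 0 < B) (S : Finset ZI) (hS : ∀ b ∈ S, B < nz b) :
    ∑ b ∈ S, 1 / nz b ^ 2 ≤ 4 * C / B := by
  have h0 : ∀ b ∈ S, b ≠ 0 := by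
    rintro b hb rfl
    have := hS _ hb
    rw [El.nz_zero] at this
    linarith
  have h1 : ∀ b ∈ S, 1 / nz b ^ 2 ≤ 4 / B ^ 2 * Fz (1 / B) b := by
    intro b hb
    have h2 := hS b hb
    have h3 := El.nz_pos (h0 b hb)
    unfold Fz
    rw [one_div_mul_eq_div, mul_one_div, div_div, div_le_div_iff₀ (by positivity) (by positivity)]
    have h4 : B * (1 + nz b / B) = B + nz b := by field_simp
    have h5 : B ^ 2 * (1 + nz b / B) ^ 2 = (B + nz b) ^ 2 := by rw [← mul_pow, h4]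
    rw [h5]
    nlinarith
  calc ∑ b ∈ S, 1 / nz b ^ 2 ≤ ∑ b ∈ S, 4 / B ^ 2 * Fz (1 / B) b := sum_le_sum h1
    _ = 4 / B ^ 2 * ∑ b ∈ S, Fz (1 / B) b := by rw [mul_sum]
    _ ≤ 4 / B ^ 2 * (C / (1 / B)) :=
        mul_le_mul_of_nonneg_left (hC _ (by positivity) S h0) (by positivity)
    _ = 4 * C / B := by field_simp

/-- numbers divisible by a large square -/
lemma W2 {C : ℝ} (hC0 : 0 ≤ C) (hC : ∀ a : ℝ, 0 < a → ∀ J : Finset ZI, (∀ m ∈ J, m ≠ 0) →
    ∑ m ∈ J, Fz a m ≤ C / a) (X : ℝ) (hX : 0 < X) (B : ℕ) (hB : 1 ≤ B) (J : Finset ZI)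
    (hJ : ∀ m ∈ J, m ≠ 0 ∧ ∃ b : ZI, (B : ℝ) < nz b ∧ b ^ 2 ∣ m) :
    ∑ m ∈ J, gm X m ≤ 8 * C ^ 2 * X / B := by
  classical
  have hB0 : (0 : ℝ) < B := by exact_mod_cast hB
  choose! bf hbf using fun m (hm : m ∈ J) => (hJ m hm).2
  set S : Finset ZI := J.image bf with hS
  have hS1 : ∀ b ∈ S, (B : ℝ) < nz b := by
    intro b hb
    rw [hS, mem_image] at hb
    obtain ⟨m, hm, rfl⟩ := hb
    exact (hbf m hm).1
  have hS0 : ∀ b ∈ S, b ≠ 0 := by
    rintro b hb rfl
    have := hS1 _ hb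
    rw [El.nz_zero] at this
    linarith
  have h1 : ∀ m ∈ J, gm X m ≤ ∑ b ∈ S, if b ^ 2 ∣ m then 2 * Fz (1 / X) m else 0 := by
    intro m hm
    refine (gm_le_Fz X hX m).trans ?_
    have h7 := single_le_sum (f := fun b : ZI => if b ^ 2 ∣ m then 2 * Fz (1 / X) m else 0)
      (s := S) (fun i _ => by
        split_ifs
        · exact mul_nonneg (by norm_num) (Fz_nonneg _ m)
        · exact le_rfl) (mem_image_of_mem bf hm)
    rw [if_pos (hbf m hm).2] at h7
    exact h7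
  have h2 : ∑ m ∈ J, gm X m ≤ ∑ b ∈ S, 2 * C * X * (1 / nz b ^ 2) := by
    refine (sum_le_sum h1).trans ?_
    rw [sum_comm]
    apply sum_le_sum
    intro b hb
    rw [← sum_filter, ← mul_sum]
    have hb0 := hS0 b hb
    have h3 := key_dvd hC (1 / X) (by positivity) (b ^ 2) (pow_ne_zero 2 hb0)
      (J.filter (fun m => b ^ 2 ∣ m)) (fun m hm => by
        rw [mem_filter] at hm
        exact ⟨(hJ m hm.1).1, hm.2⟩)
    have h4 : nz (b ^ 2) = nz b ^ 2 := by rw [pow_two, El.nz_mul, pow_two]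
    have h5 := El.nz_pos hb0
    rw [h4] at h3
    have h6 : C / (1 / X * nz b ^ 2) = C * X * (1 / nz b ^ 2) := by field_simp
    rw [h6] at h3
    linarith
  refine h2.trans ?_
  rw [← mul_sum]
  have h3 := inv_tail hC B hB0 S hS1
  calc 2 * C * X * ∑ b ∈ S, 1 / nz b ^ 2 ≤ 2 * C * X * (4 * C / B) :=
        mul_le_mul_of_nonneg_left h3 (by positivity)
    _ = 8 * C ^ 2 * X / B := by ring

/-- few numbers -/
lemma W3 (X : ℝ) (hX : 0 < X) (B : ℕ) (hB : 1 ≤ B) (Z : ℝ) (hZ : 1 ≤ Z) (J : Finset ZI)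
    (hJ : ∀ m ∈ J, ∃ k b : ZI, nz b ≤ B ∧ nz k ≤ Z ∧ m = k * b ^ 2) :
    ∑ m ∈ J, gm X m ≤ 81 * B * Z := by
  classical
  have hB1 : (1 : ℝ) ≤ B := by exact_mod_cast hB
  have h1 : J ⊆ (El.box Z ×ˢ El.box B).image (fun p : ZI × ZI => p.1 * p.2 ^ 2) := by
    intro m hm
    obtain ⟨k, b, h1, h2, h3⟩ := hJ m hm
    rw [mem_image]
    exact ⟨(k, b), mem_product.2 ⟨El.mem_box h2, El.mem_box h1⟩, h3.symm⟩
  have h2 : (J.card : ℝ) ≤ 9 * Z * (9 * B) := by
    have h3 := (card_le_card h1).trans card_image_le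
    rw [card_product] at h3
    have h4 : (J.card : ℝ) ≤ (El.box Z).card * (El.box (B : ℝ)).card := by exact_mod_cast h3
    refine h4.trans ?_
    exact mul_le_mul (El.card_box Z hZ) (El.card_box B hB1) (Nat.cast_nonneg _) (by positivity)
  calc ∑ m ∈ J, gm X m ≤ ∑ _m ∈ J, (1 : ℝ) := sum_le_sum (fun m _ => gm_le_one X hX m)
    _ = J.card := by simp
    _ ≤ 9 * Z * (9 * B) := h2
    _ = 81 * B * Z := by ring

lemma nz_one_of_square {k : ZI} (hk : Squarefree k) (h : IsSquare k) : nz k = 1 := by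
  obtain ⟨c, hc⟩ := h
  have hu : IsUnit c := hk c (by rw [hc])
  have h1 : (Zsqrtd.norm c).natAbs = 1 := Zsqrtd.norm_eq_one_iff.2 hu
  have h2 : Zsqrtd.norm c = 1 := by
    have := GaussianInt.norm_nonneg c
    omega
  rw [hc, El.nz_mul]
  unfold nz
  rw [h2]
  norm_num

/-- trichotomy for the numbers outside the main part -/
lemma trich (B : ℕ) (η X : ℝ) (hX : 1 ≤ X) (hη : η < 1) (m : ZI) (hm : m ≠ 0)
    (h : ¬ MainL B η X m) : X * Real.sqrt (Real.log X) < nz m ∨
      (∃ b : ZI, (B : ℝ) < nz b ∧ b ^ 2 ∣ m) ∨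
      ∃ k b : ZI, nz b ≤ B ∧ nz k ≤ X ^ (1 - η) ∧ m = k * b ^ 2 := by
  by_cases h1 : X * Real.sqrt (Real.log X) < nz m
  · exact Or.inl h1
  right
  obtain ⟨k, b, hk, _, hb, he⟩ := El.exists_can m hm
  by_cases h2 : (B : ℝ) < nz b
  · left
    exact ⟨b, h2, ⟨k, by rw [he]; ring⟩⟩
  right
  push Not at h1 h2
  refine ⟨k, b, h2, ?_, he⟩
  by_cases h3 : IsSquare k
  · rw [nz_one_of_square hk h3]
    exact Real.one_le_rpow hX (by linarith)
  · by_contra h4
    push Not at h4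
    exact h ⟨h1, k, b, hk, h3, El.can_ne_zero hb, h2, he, h4.le⟩

lemma split3 (J : Finset ZI) (f : ZI → ℝ) (hf : ∀ m, 0 ≤ f m) (P1 P2 P3 : ZI → Prop)
    [DecidablePred P1] [DecidablePred P2] [DecidablePred P3]
    (h : ∀ m ∈ J, P1 m ∨ P2 m ∨ P3 m) :
    ∑ m ∈ J, f m ≤ ∑ m ∈ J.filter P1, f m + ∑ m ∈ J.filter P2, f m + ∑ m ∈ J.filter P3, f m := by
  rw [sum_filter, sum_filter, sum_filter, ← sum_add_distrib, ← sum_add_distrib]
  apply sum_le_sum
  intro m hm
  have h0 := hf m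
  rcases h m hm with h1 | h1 | h1
  · rw [if_pos h1]
    split_ifs <;> linarith
  · rw [if_pos h1]
    split_ifs <;> linarith
  · rw [if_pos h1]
    split_ifs <;> linarith

/-- total weight outside the main part -/
lemma W {C : ℝ} (hC0 : 0 ≤ C) (hC : ∀ a : ℝ, 0 < a → ∀ J : Finset ZI, (∀ m ∈ J, m ≠ 0) →
    ∑ m ∈ J, Fz a m ≤ C / a) (B : ℕ) (η X : ℝ) (hB : 1 ≤ B) (hX : 1 ≤ X) (hη : η < 1)
    (J : Finset ZI) (hJ : ∀ m ∈ J, m ≠ 0 ∧ ¬ MainL B η X m) :
    ∑ m ∈ J, gm X m ≤ 2 * C * (X * Real.exp (-Real.sqrt (Real.log X))) + 8 * C ^ 2 * X / B +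
      81 * B * X ^ (1 - η) := by
  classical
  refine (split3 J (gm X) (gm_nonneg X) _ _ _
    (fun m hm => trich B η X hX hη m (hJ m hm).1 (hJ m hm).2)).trans ?_
  refine add_le_add (add_le_add ?_ ?_) ?_
  · apply W1 hC X (by linarith)
    intro m hm
    rw [mem_filter] at hm
    exact ⟨(hJ m hm.1).1, hm.2⟩
  · apply W2 hC0 hC X (by linarith) B hB
    intro m hm
    rw [mem_filter] at hm
    exact ⟨(hJ m hm.1).1, hm.2⟩
  · apply W3 X (by linarith) B hB _ (Real.one_le_rpow hX (by linarith))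
    intro m hm
    rw [mem_filter] at hm
    exact hm.2

/-- pointwise bound of the weighted terms -/
lemma pt (X : ℝ) (hX : 3 ≤ X) (m : ZI) :
    om X m * (1 + Real.log (2 + nz m)) ≤ 2 * Real.log X * gm X m := by
  have hX0 : 0 < X := by linarith
  have hl : 1 ≤ Real.log X := by
    rw [Real.le_log_iff_exp_le hX0]
    have := Real.exp_one_lt_d9
    linarith
  have hn := El.nz_nonneg m
  unfold om gm
  set y := nz m / X with hy
  have hy0 : 0 ≤ y := by positivity
  have hm : nz m = X * y := by rw [hy]; field_simp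
  have h1 : Real.log (2 + nz m) ≤ Real.log X + y := by
    have h2 : 2 + nz m ≤ X * (1 + y) := by rw [hm]; linarith
    have h3 : Real.log (2 + nz m) ≤ Real.log (X * (1 + y)) :=
      Real.log_le_log (by linarith) h2
    rw [Real.log_mul hX0.ne' (by positivity)] at h3
    have h4 : Real.log (1 + y) ≤ y := by
      have := Real.log_le_sub_one_of_pos (show 0 < 1 + y by linarith)
      linarith
    linarith
  have h2 : 1 + Real.log (2 + nz m) ≤ 2 * Real.log X * Real.exp (y / 2) := by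
    have h3 := Real.add_one_le_exp (y / 2)
    have h4 : 1 + Real.log (2 + nz m) ≤ Real.log X * (2 + y) := by nlinarith
    have h5 : Real.log X * (2 + y) ≤ Real.log X * (2 * Real.exp (y / 2)) :=
      mul_le_mul_of_nonneg_left (by linarith) (by linarith)
    linarith
  have h3 : Real.exp (-(Real.pi * y)) * Real.exp (y / 2) ≤ Real.exp (-(2 * y)) := by
    rw [← Real.exp_add]
    apply Real.exp_le_exp.2
    have := Real.pi_gt_three
    nlinarith
  calc Real.exp (-(Real.pi * y)) * (1 + Real.log (2 + nz m))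
      ≤ Real.exp (-(Real.pi * y)) * (2 * Real.log X * Real.exp (y / 2)) :=
        mul_le_mul_of_nonneg_left h2 (Real.exp_pos _).le
    _ = 2 * Real.log X * (Real.exp (-(Real.pi * y)) * Real.exp (y / 2)) := by ring
    _ ≤ 2 * Real.log X * Real.exp (-(2 * y)) :=
        mul_le_mul_of_nonneg_left h3 (by positivity)

lemma om_le_gm (X : ℝ) (hX : 0 < X) (m : ZI) : om X m ≤ gm X m := by
  unfold om gm
  apply Real.exp_le_exp.2
  have h0 := El.nz_nonneg m
  have h1 : 0 ≤ nz m / X := by positivity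
  have := Real.pi_gt_three
  nlinarith

lemma om_nonneg (X : ℝ) (m : ZI) : 0 ≤ om X m := (Real.exp_pos _).le

lemma ev_exp (c : ℝ) (hc : 0 < c) : ∀ᶠ X : ℝ in atTop, Real.exp (-Real.sqrt (Real.log X)) ≤ c := by
  have h1 : Tendsto (fun X : ℝ => Real.sqrt (Real.log X)) atTop atTop :=
    Real.tendsto_sqrt_atTop.comp Real.tendsto_log_atTop
  have h2 : Tendsto (fun X : ℝ => Real.exp (-Real.sqrt (Real.log X))) atTop (𝓝 0) :=
    Real.tendsto_exp_neg_atTop_nhds_zero.comp h1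
  exact (h2.eventually (gt_mem_nhds hc)).mono fun X h => h.le

lemma ev_small (K η c : ℝ) (hη : 0 < η) (hc : 0 < c) :
    ∀ᶠ X : ℝ in atTop, K * X ^ (1 - η) ≤ c * X := by
  have h1 : Tendsto (fun X : ℝ => X ^ (-η)) atTop (𝓝 0) := tendsto_rpow_neg_atTop hη
  have h2 : Tendsto (fun X : ℝ => K * X ^ (-η)) atTop (𝓝 (K * 0)) := h1.const_mul K
  rw [mul_zero] at h2
  filter_upwards [h2.eventually (gt_mem_nhds hc), eventually_gt_atTop 0] with X h3 hX
  have h4 : X ^ (1 - η) = X ^ (-η) * X := by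
    rw [← Real.rpow_add_one hX.ne']
    congr 1
    ring
  rw [h4, ← mul_assoc]
  exact mul_le_mul_of_nonneg_right h3.le hX.le

theorem wtA_main' : S_wtA := by
  obtain ⟨C, hC1, hC⟩ := key
  have hC0 : 0 ≤ C := by linarith
  refine ⟨2 * (2 * C + 8 * C ^ 2 + 1), by positivity, fun B η hB hη hη1 => ?_⟩
  have hB0 : (0 : ℝ) < B := by exact_mod_cast hB
  obtain ⟨X1, hX1⟩ := eventually_atTop.1 ((ev_exp (1 / B) (by positivity)).and
    (ev_small (81 * B) η (1 / B) hη (by positivity)))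
  refine ⟨max X1 3, le_max_right _ _, fun X J hX hJ => ?_⟩
  have hX3 : 3 ≤ X := le_trans (le_max_right _ _) hX
  have hX0 : 0 < X := by linarith
  obtain ⟨h1, h2⟩ := hX1 X (le_trans (le_max_left _ _) hX)
  have hl : 0 ≤ Real.log X := Real.log_nonneg (by linarith)
  have h3 := W hC0 hC B η X hB (by linarith) hη1 J hJ
  have h4 : 2 * C * (X * Real.exp (-Real.sqrt (Real.log X))) ≤ 2 * C * (X * (1 / B)) := by
    apply mul_le_mul_of_nonneg_left _ (by positivity)
    exact mul_le_mul_of_nonneg_left h1 hX0.le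
  have h5 : ∑ m ∈ J, gm X m ≤ (2 * C + 8 * C ^ 2 + 1) / B * X := by
    have h6 : (2 * C + 8 * C ^ 2 + 1) / B * X =
        2 * C * (X * (1 / B)) + 8 * C ^ 2 * X / B + 1 / B * X := by ring
    rw [h6]
    linarith
  calc ∑ m ∈ J, om X m * (1 + Real.log (2 + nz m)) ≤ ∑ m ∈ J, 2 * Real.log X * gm X m :=
        sum_le_sum (fun m _ => pt X hX3 m)
    _ = 2 * Real.log X * ∑ m ∈ J, gm X m := by rw [mul_sum]
    _ ≤ 2 * Real.log X * ((2 * C + 8 * C ^ 2 + 1) / B * X) :=
        mul_le_mul_of_nonneg_left h5 (by positivity)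
    _ = 2 * (2 * C + 8 * C ^ 2 + 1) / B * X * Real.log X := by ring

theorem wtB_main' (hgs : S_gs) : S_wtB := by
  classical
  obtain ⟨C, hC1, hC⟩ := key
  have hC0 : 0 ≤ C := by linarith
  intro e he
  refine ⟨⌈32 * C ^ 2 / e⌉₊ + 1, fun B η hB hη hη1 => ?_⟩
  have hB1 : 1 ≤ B := by omega
  have hBr : (0 : ℝ) < B := by exact_mod_cast hB1
  have hBe : 32 * C ^ 2 / e ≤ B := by
    refine (Nat.le_ceil _).trans ?_
    exact_mod_cast (by omega : ⌈32 * C ^ 2 / e⌉₊ ≤ B)
  have hBe' : 8 * C ^ 2 / B ≤ e / 4 := by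
    rw [div_le_iff₀ he] at hBe
    rw [div_le_div_iff₀ hBr (by norm_num)]
    linarith
  have hCp : 0 < C := by linarith
  obtain ⟨X1, hX1⟩ := eventually_atTop.1 (((ev_exp (e / (8 * C)) (by positivity)).and
    (ev_small (81 * B) η (e / 4) hη (by positivity))).and
    (eventually_ge_atTop (4 / e)))
  refine ⟨max X1 3, le_max_right _ _, fun X Y hX hY I hI => ?_⟩
  have hX3 : 3 ≤ X := le_trans (le_max_right _ _) hX
  have hX0 : 0 < X := by linarith
  obtain ⟨⟨h1, h2⟩, h2'⟩ := hX1 X (le_trans (le_max_left _ _) hX)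
  have hl : 1 ≤ Real.log X := by
    rw [Real.le_log_iff_exp_le hX0]
    have := Real.exp_one_lt_d9
    linarith
  have hXe : 1 ≤ e / 4 * X := by
    rw [div_le_iff₀ he] at h2'
    linarith
  -- the total weight
  obtain ⟨hsum, _, htot⟩ := hgs.1 (1 / X) (by positivity)
  rw [one_div_one_div] at htot
  set f : ZI → ℝ := fun k => if k = 0 then 0 else Real.exp (-(Real.pi * (nz k * (1 / X)))) with hf
  have hfn : ∀ k, 0 ≤ f k := by
    intro k
    simp only [hf]
    split_ifs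
    · exact le_rfl
    · exact (Real.exp_pos _).le
  have hfs : Summable f := by
    apply Summable.of_nonneg_of_le hfn _ hsum
    intro k
    simp only [hf]
    split_ifs
    · exact (Real.exp_pos _).le
    · exact le_rfl
  have hfo : ∀ k, k ≠ 0 → f k = om X k := by
    intro k hk
    simp only [hf]
    rw [if_neg hk]
    unfold om
    rw [mul_one_div]
  have hfle : ∀ k, f k ≤ om X k := by
    intro k
    by_cases hk : k = 0
    · simp only [hf]
      rw [if_pos hk]
      exact om_nonneg X k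
    · exact (hfo k hk).le
  set r := 2 * C * (X * Real.exp (-Real.sqrt (Real.log X))) + 8 * C ^ 2 * X / B +
      81 * B * X ^ (1 - η) with hr
  have hle : ∑' k, f k ≤ ∑ m ∈ I, om X m + r := by
    apply hfs.tsum_le_of_sum_le
    intro J
    rw [← sum_filter_add_sum_filter_not J (fun m => m ∈ I)]
    have h3 : ∑ m ∈ J.filter (fun m => m ∈ I), f m ≤ ∑ m ∈ I, om X m := by
      refine (sum_le_sum fun m _ => hfle m).trans ?_
      apply sum_le_sum_of_subset_of_nonneg
      · intro m hm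
        exact (mem_filter.1 hm).2
      · intro m _ _
        exact om_nonneg X m
    have h4 : ∑ m ∈ J.filter (fun m => ¬ m ∈ I), f m ≤ r := by
      have h5 : ∑ m ∈ J.filter (fun m => ¬ m ∈ I), f m =
          ∑ m ∈ (J.filter (fun m => ¬ m ∈ I)).filter (fun m => m ≠ 0), f m := by
        symm
        apply sum_filter_of_ne
        intro m _ hne h0
        apply hne
        simp only [hf]
        rw [if_pos h0]
      rw [h5]
      have h6 := W hC0 hC B η X hB1 (by linarith) hη1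
        ((J.filter (fun m => ¬ m ∈ I)).filter (fun m => m ≠ 0)) (by
          intro m hm
          rw [mem_filter, mem_filter] at hm
          refine ⟨hm.2, fun hM => hm.1.2 ((hI m).2 ⟨?_, hM⟩)⟩
          have h7 : Real.sqrt (Real.log X) ≤ Real.log X := by
            rw [Real.sqrt_le_left (by linarith)]
            nlinarith
          have h8 : X * Real.sqrt (Real.log X) ≤ X * Real.log X :=
            mul_le_mul_of_nonneg_left h7 hX0.le
          exact (hM.1.trans h8).trans hY)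
      exact (sum_le_sum fun m _ => (hfle m).trans (om_le_gm X hX0 m)).trans h6
    linarith
  have h7 : 2 * C * (X * Real.exp (-Real.sqrt (Real.log X))) ≤ e / 4 * X := by
    calc 2 * C * (X * Real.exp (-Real.sqrt (Real.log X))) ≤ 2 * C * (X * (e / (8 * C))) := by
          apply mul_le_mul_of_nonneg_left _ (by positivity)
          exact mul_le_mul_of_nonneg_left h1 hX0.le
      _ = e / 4 * X := by field_simp; ring
  have h8 : 8 * C ^ 2 * X / B ≤ e / 4 * X := by
    have : 8 * C ^ 2 * X / B = 8 * C ^ 2 / B * X := by ring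
    rw [this]
    exact mul_le_mul_of_nonneg_right hBe' hX0.le
  linarith

end Pool.Agent.N880.QI.Wgt

namespace Pool.Agent.N880.QI

/-- weight of the numbers outside the main part -/
theorem wtA_main : S_el → S_wtA := fun _ => Wgt.wtA_main'

/-- weight of the main part -/
theorem wtB_main : S_gs → S_el → S_wtB := fun h _ => Wgt.wtB_main' h

end Pool.Agent.N880.QI
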