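import Pool.Agent.N880.QI.Stm
import Pool.Agent.N253.QF.Small

/-!
Project QI (helper880), parts G4 to G7 (helper457): exchange of sum and integral, lower bound of
the weight, weights of classes.
-/

set_option autoImplicit false

open Filter Topology MeasureTheory Set
open H385 (ZI)
open Pool.Agent.N880.QF (gd)
open Pool.Agent.N253.QF (gd_main gd_nonneg gd_cont int_base int_id)

namespace Pool.Agent.N880.QI

namespace Wsum

/-! ### norms -/

theorem nz_eq (m : ZI) : nz m = (m.re : ℝ) ^ 2 + (m.im : ℝ) ^ 2 := by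
  unfold nz
  rw [Zsqrtd.norm_def]
  push_cast
  ring

theorem nz_nonneg (m : ZI) : 0 ≤ nz m := by
  rw [nz_eq]
  positivity

theorem nz_zero : nz 0 = 0 := by
  rw [nz_eq]
  simp

theorem nz_mul (a b : ZI) : nz (a * b) = nz a * nz b := by
  unfold nz
  rw [Zsqrtd.norm_mul]
  push_cast
  ring

theorem nz_ge_one {m : ZI} (hm : m ≠ 0) : 1 ≤ nz m := by
  have h1 : 0 < Zsqrtd.norm m := by
    rcases lt_or_eq_of_le (GaussianInt.norm_nonneg m) with h | h
    · exact h
    · exact absurd (GaussianInt.norm_eq_zero.1 h.symm) hm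
  unfold nz
  exact_mod_cast h1

theorem nz_pos {m : ZI} (hm : m ≠ 0) : 0 < nz m := lt_of_lt_of_le one_pos (nz_ge_one hm)

/-- the pair of coordinates -/
def eqv : ZI ≃ ℤ × ℤ where
  toFun m := (m.re, m.im)
  invFun p := ⟨p.1, p.2⟩
  left_inv m := by cases m; rfl
  right_inv p := rfl

theorem summ_one : Summable fun a : ℤ => 1 / (1 + (a : ℝ) ^ 2) := by
  have h1 : Summable fun a : ℤ => 1 / (a : ℝ) ^ 2 := Real.summable_one_div_int_pow.mpr (by norm_num)
  have h2 : Summable fun a : ℤ => (if a = 0 then (1 : ℝ) else 0) := by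
    apply summable_of_ne_finset_zero (s := {0})
    intro b hb
    rw [Finset.mem_singleton] at hb
    exact if_neg hb
  refine Summable.of_nonneg_of_le (fun a => by positivity) (fun a => ?_) (h2.add h1)
  by_cases ha : a = 0
  · rw [ha]
    simp
  · rw [if_neg ha, zero_add]
    have : (a : ℝ) ≠ 0 := by exact_mod_cast ha
    have : 0 < (a : ℝ) ^ 2 := by positivity
    exact one_div_le_one_div_of_le this (by linarith)

theorem summ_nz : Summable fun m : ZI => 1 / nz m ^ 2 := by
  have h1 : Summable fun p : ℤ × ℤ => 3 * (1 / (1 + (p.1 : ℝ) ^ 2) * (1 / (1 + (p.2 : ℝ) ^ 2))) :=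
    (summ_one.mul_of_nonneg summ_one (fun a => by positivity) (fun a => by positivity)).mul_left 3
  have h2 : Summable fun m : ZI =>
      3 * (1 / (1 + (m.re : ℝ) ^ 2) * (1 / (1 + (m.im : ℝ) ^ 2))) :=
    (eqv.summable_iff (f := fun p : ℤ × ℤ =>
      3 * (1 / (1 + (p.1 : ℝ) ^ 2) * (1 / (1 + (p.2 : ℝ) ^ 2))))).2 h1
  refine Summable.of_nonneg_of_le (fun m => by positivity) (fun m => ?_) h2
  by_cases hm : m = 0
  · rw [hm, nz_zero]
    simp
  · have h3 := nz_ge_one hm
    have h4 := nz_eq m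
    rw [h4] at h3 ⊢
    obtain ⟨x, hx⟩ : ∃ x : ℝ, x = (m.re : ℝ) ^ 2 := ⟨_, rfl⟩
    obtain ⟨y, hy⟩ : ∃ y : ℝ, y = (m.im : ℝ) ^ 2 := ⟨_, rfl⟩
    have hx0 : 0 ≤ x := by rw [hx]; positivity
    have hy0 : 0 ≤ y := by rw [hy]; positivity
    rw [← hx, ← hy] at h3 ⊢
    rw [one_div_mul_one_div, mul_one_div, div_le_div_iff₀ (by positivity) (by positivity)]
    nlinarith [mul_nonneg hx0 hy0]

/-! ### the functions `he` -/

theorem he_pos (x r : ℝ) : 0 < he x r := Real.exp_pos _

theorem he_cont (x : ℝ) : Continuous (he x) := by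
  unfold he; fun_prop

theorem he_le_one {x : ℝ} (hx : 0 ≤ x) (r : ℝ) : he x r ≤ 1 := by
  unfold he
  apply Real.exp_le_one_iff.mpr
  have := Real.pi_pos
  have : 0 ≤ Real.pi * (x * Real.exp (-r)) := by positivity
  linarith

theorem he_le {X : ℝ} (hX : 0 < X) {m : ZI} (hm : m ≠ 0) (r : ℝ) :
    he (nz m / X) r ≤ X ^ 2 * Real.exp (2 * r) * (1 / nz m ^ 2) := by
  unfold he
  have hm' := nz_pos hm
  obtain ⟨t, ht⟩ : ∃ t : ℝ, t = nz m / X * Real.exp (-r) := ⟨_, rfl⟩
  have ht0 : 0 < t := by rw [ht]; positivity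
  have h2 : X ^ 2 * Real.exp (2 * r) * (1 / nz m ^ 2) = 1 / t ^ 2 := by
    have h3 : Real.exp (2 * r) = Real.exp r ^ 2 := by
      rw [← Real.exp_nat_mul]
      norm_num
    rw [ht, h3, Real.exp_neg]
    field_simp
  rw [h2, ← ht, Real.exp_neg, one_div]
  apply inv_anti₀ (by positivity)
  have h3 := Real.quadratic_le_exp_of_nonneg (x := Real.pi * t) (by positivity)
  have h4 : 3 * t ≤ Real.pi * t := by
    have := Real.pi_gt_three
    nlinarith
  nlinarith

theorem int_term {τ : ℝ} (hτ : 0 < τ) {x : ℝ} (hx : 0 ≤ x) :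
    Integrable (fun r : ℝ => gd τ r * (Real.exp (-(r / 2)) * he x r)) := by
  refine (int_base hτ (-1 / 2)).mono' ?_ ?_
  · have h1 := gd_cont τ
    have h2 := he_cont x
    exact (by fun_prop : Continuous fun r : ℝ =>
      gd τ r * (Real.exp (-(r / 2)) * he x r)).aestronglyMeasurable
  · filter_upwards with r
    have h1 := gd_nonneg hτ r
    have h2 := he_le_one hx r
    have h3 := (he_pos x r).le
    rw [Real.norm_of_nonneg (by positivity)]
    have h4 : Real.exp (-(r / 2)) = Real.exp (-1 / 2 * r) := by congr 1; ring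
    rw [h4]
    have h5 : Real.exp (-1 / 2 * r) * he x r ≤ Real.exp (-1 / 2 * r) := by
      have := Real.exp_pos (-1 / 2 * r)
      nlinarith
    gcongr

theorem summ_he {X : ℝ} (hX : 0 < X) {f : ZI → ℝ} (hf : ∀ m, |f m| ≤ 1) (hf0 : f 0 = 0) (r : ℝ) :
    Summable fun m : ZI => he (nz m / X) r * f m := by
  refine Summable.of_norm_bounded (g := fun m : ZI => X ^ 2 * Real.exp (2 * r) * (1 / nz m ^ 2))
    (summ_nz.mul_left _) ?_
  intro m
  by_cases hm : m = 0
  · rw [hm, hf0, mul_zero, norm_zero]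
    positivity
  · rw [norm_mul, Real.norm_of_nonneg (he_pos _ _).le, Real.norm_eq_abs]
    have h1 := hf m
    have h2 := (he_pos (nz m / X) r).le
    have h3 := he_le hX hm r
    have h4 := abs_nonneg (f m)
    nlinarith

end Wsum

open Wsum

/-! ### G4 -/

theorem exch_main : S_exch := by
  intro τ X f hτ hX hf hf0
  have hct : Countable ZI := eqv.countable_iff.2 inferInstance
  obtain ⟨F, hF⟩ : ∃ F : ZI → ℝ → ℝ, F = fun (m : ZI) (r : ℝ) =>
    gd τ r * (Real.exp (-(r / 2)) * he (nz m / X) r) * f m := ⟨_, rfl⟩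
  have hx : ∀ m : ZI, 0 ≤ nz m / X := fun m => div_nonneg (nz_nonneg m) hX.le
  have hFi : ∀ m, Integrable (F m) := by
    intro m
    rw [hF]
    exact (int_term hτ (hx m)).mul_const _
  have h32 : ∀ r : ℝ, Real.exp (3 / 2 * r) = Real.exp (-(r / 2)) * Real.exp (2 * r) := by
    intro r
    rw [← Real.exp_add]; congr 1; ring
  -- the norms
  have hn : ∀ m r, ‖F m r‖ ≤ X ^ 2 * (1 / nz m ^ 2) * (gd τ r * Real.exp (3 / 2 * r)) := by
    intro m r
    have h1 := gd_nonneg hτ r
    by_cases hm : m = 0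
    · rw [hF, hm]
      simp only [hf0, mul_zero, norm_zero]
      positivity
    · have h2 := he_le hX hm r
      have h3 := (he_pos (nz m / X) r).le
      have h4 : ‖F m r‖ ≤ gd τ r * (Real.exp (-(r / 2)) * he (nz m / X) r) := by
        rw [hF]
        show ‖gd τ r * (Real.exp (-(r / 2)) * he (nz m / X) r) * f m‖ ≤ _
        rw [norm_mul, Real.norm_of_nonneg (by positivity), Real.norm_eq_abs]
        have := hf m
        have h5 : 0 ≤ gd τ r * (Real.exp (-(r / 2)) * he (nz m / X) r) := by positivity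
        nlinarith
      refine h4.trans ?_
      calc gd τ r * (Real.exp (-(r / 2)) * he (nz m / X) r) ≤
          gd τ r * (Real.exp (-(r / 2)) * (X ^ 2 * Real.exp (2 * r) * (1 / nz m ^ 2))) := by
            gcongr
        _ = _ := by
            rw [h32]
            ring
  have hsum : Summable fun m => ∫ r, ‖F m r‖ := by
    refine Summable.of_nonneg_of_le (f := fun m : ZI =>
        X ^ 2 * (1 / nz m ^ 2) * ∫ r, gd τ r * Real.exp (3 / 2 * r)) ?_ ?_ ?_
    · intro m
      exact integral_nonneg fun r => norm_nonneg _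
    · intro m
      rw [← integral_const_mul]
      exact integral_mono (hFi m).norm ((int_base hτ _).const_mul _) (hn m)
    · exact (summ_nz.mul_left _).mul_right _
  have hsw : ∀ r, ∑' m, F m r =
      gd τ r * (Real.exp (-(r / 2)) * ∑' m : ZI, he (nz m / X) r * f m) := by
    intro r
    rw [← tsum_mul_left, ← tsum_mul_left]
    apply tsum_congr
    intro m
    rw [hF]
    ring
  have hWf : ∀ m : ZI, ∫ r, F m r = Wt τ (nz m / X) * f m := by
    intro m
    rw [hF]
    unfold Wt
    exact integral_mul_const _ _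
  have hmain := hasSum_integral_of_summable_integral_norm hFi hsum
  simp only [hWf, hsw] at hmain
  refine ⟨hmain.summable, ?_, hmain.tsum_eq⟩
  -- integrability of the sum
  obtain ⟨S, hS⟩ : ∃ S : ℝ, S = ∑' m : ZI, 1 / nz m ^ 2 := ⟨_, rfl⟩
  have hS0 : 0 ≤ S := by rw [hS]; exact tsum_nonneg fun m => by positivity
  have hsf : ∀ r, Summable fun m : ZI => he (nz m / X) r * f m := summ_he hX hf hf0
  have hdom : Integrable fun r : ℝ => X ^ 2 * S * (gd τ r * Real.exp (3 / 2 * r)) :=
    (int_base hτ _).const_mul _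
  refine hdom.mono' ?_ ?_
  · have h1 := gd_cont τ
    have h2 : AEStronglyMeasurable (fun r : ℝ => ∑' m : ZI, he (nz m / X) r * f m) volume := by
      have h3 : (fun r : ℝ => ∑' m : ZI, he (nz m / X) r * f m) = fun r : ℝ =>
          (∑' m : ZI, ENNReal.ofReal (max (he (nz m / X) r * f m) 0)).toReal -
          (∑' m : ZI, ENNReal.ofReal (max (-(he (nz m / X) r * f m)) 0)).toReal := by
        ext r
        have hs1 : Summable fun m : ZI => max (he (nz m / X) r * f m) 0 := by
          refine Summable.of_nonneg_of_le (fun m => le_max_right _ _) (fun m => ?_) (hsf r).abs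
          exact max_le (le_abs_self _) (abs_nonneg _)
        have hs2 : Summable fun m : ZI => max (-(he (nz m / X) r * f m)) 0 := by
          refine Summable.of_nonneg_of_le (fun m => le_max_right _ _) (fun m => ?_) (hsf r).abs
          exact max_le (neg_le_abs _) (abs_nonneg _)
        rw [← ENNReal.ofReal_tsum_of_nonneg (fun m => le_max_right _ _) hs1,
          ← ENNReal.ofReal_tsum_of_nonneg (fun m => le_max_right _ _) hs2,
          ENNReal.toReal_ofReal (tsum_nonneg fun m => le_max_right _ _),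
          ENNReal.toReal_ofReal (tsum_nonneg fun m => le_max_right _ _), ← hs1.tsum_sub hs2]
        apply tsum_congr
        intro m
        rcases le_total 0 (he (nz m / X) r * f m) with h | h
        · rw [max_eq_left h, max_eq_right (by linarith)]; ring
        · rw [max_eq_right h, max_eq_left (by linarith)]; ring
      rw [h3]
      have hc : ∀ m : ZI, Measurable fun r : ℝ => he (nz m / X) r * f m := fun m =>
        ((he_cont _).measurable.mul_const _)
      apply Measurable.aestronglyMeasurable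
      apply Measurable.sub
      · exact (Measurable.tsum fun m =>
          ((hc m).max measurable_const).ennreal_ofReal).ennreal_toReal
      · exact (Measurable.tsum fun m =>
          ((hc m).neg.max measurable_const).ennreal_ofReal).ennreal_toReal
    exact h1.aestronglyMeasurable.mul
      ((by fun_prop : Continuous fun r : ℝ => Real.exp (-(r / 2))).aestronglyMeasurable.mul h2)
  · filter_upwards with r
    have h1 := gd_nonneg hτ r
    have h2 : ‖∑' m : ZI, he (nz m / X) r * f m‖ ≤ X ^ 2 * Real.exp (2 * r) * S := by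
      have h3 : HasSum (fun m : ZI => X ^ 2 * Real.exp (2 * r) * (1 / nz m ^ 2))
          (X ^ 2 * Real.exp (2 * r) * S) := by
        rw [hS]
        exact summ_nz.hasSum.mul_left _
      refine tsum_of_norm_bounded h3 ?_
      intro m
      by_cases hm : m = 0
      · rw [hm, hf0, mul_zero, norm_zero]
        positivity
      · rw [norm_mul, Real.norm_of_nonneg (he_pos _ _).le, Real.norm_eq_abs]
        have h5 := hf m
        have h6 := (he_pos (nz m / X) r).le
        have h7 := he_le hX hm r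
        nlinarith [abs_nonneg (f m)]
    rw [norm_mul, norm_mul, Real.norm_of_nonneg h1, Real.norm_of_nonneg (Real.exp_pos _).le]
    calc gd τ r * (Real.exp (-(r / 2)) * ‖∑' m : ZI, he (nz m / X) r * f m‖) ≤
        gd τ r * (Real.exp (-(r / 2)) * (X ^ 2 * Real.exp (2 * r) * S)) := by gcongr
      _ = _ := by
          rw [h32]
          ring

/-! ### G5 -/

theorem Wt_lower_main : S_Wt_lower := by
  intro τ x hτ hx
  obtain ⟨a, ha⟩ : ∃ a : ℝ, a = Real.pi * x := ⟨_, rfl⟩
  obtain ⟨b, hb⟩ : ∃ b : ℝ, b = a * Real.exp (1 / τ ^ 2) := ⟨_, rfl⟩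
  rw [show Real.pi * x * Real.exp (1 / τ ^ 2) = b by rw [hb, ha]]
  obtain ⟨i0, e0⟩ := gd_main τ 0 hτ
  obtain ⟨i2, e2⟩ := gd_main τ (-1) hτ
  have i1 := int_id hτ
  have hpt : ∀ r : ℝ, Real.exp (-b) * ((1 + b) * (gd τ r * Real.exp (0 * r)) -
      1 / 2 * (gd τ r * r) - a * (gd τ r * Real.exp (-1 * r))) ≤
      gd τ r * (Real.exp (-(r / 2)) * he x r) := by
    intro r
    have h1 := gd_nonneg hτ r
    have h2 : Real.exp (-(r / 2)) * he x r = Real.exp (-b) *
        Real.exp (b + (-(r / 2) - a * Real.exp (-1 * r))) := by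
      unfold he
      rw [← Real.exp_add, ← Real.exp_add]
      congr 1
      rw [ha, neg_one_mul]
      ring
    have h3 := Real.add_one_le_exp (b + (-(r / 2) - a * Real.exp (-1 * r)))
    rw [h2, zero_mul, Real.exp_zero, mul_one]
    have h4 : Real.exp (-b) * ((1 + b) * gd τ r - 1 / 2 * (gd τ r * r) -
        a * (gd τ r * Real.exp (-1 * r))) =
        gd τ r * (Real.exp (-b) * (b + (-(r / 2) - a * Real.exp (-1 * r)) + 1)) := by ring
    rw [h4]
    gcongr
  have hint : Integrable fun r : ℝ => Real.exp (-b) * ((1 + b) * (gd τ r * Real.exp (0 * r)) -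
      1 / 2 * (gd τ r * r) - a * (gd τ r * Real.exp (-1 * r))) :=
    (((i0.const_mul (1 + b)).sub (i1.const_mul (1 / 2))).sub (i2.const_mul a)).const_mul _
  have h5 := integral_mono hint (int_term hτ hx) hpt
  have i01 : Integrable fun r : ℝ => (1 + b) * (gd τ r * Real.exp (0 * r)) -
      1 / 2 * (gd τ r * r) := (i0.const_mul (1 + b)).sub (i1.const_mul (1 / 2))
  rw [integral_const_mul, integral_sub i01 (i2.const_mul a),
    integral_sub (i0.const_mul (1 + b)) (i1.const_mul (1 / 2)),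
    integral_const_mul, integral_const_mul, integral_const_mul, e0, e2,
    Pool.Agent.N253.QF.integral_id] at h5
  have h6 : Real.exp (-b) * ((1 + b) * Real.exp (0 ^ 2 / τ ^ 2) - 1 / 2 * 0 -
      a * Real.exp ((-1) ^ 2 / τ ^ 2)) = Real.exp (-b) := by
    have h7 : ((-1 : ℝ)) ^ 2 / τ ^ 2 = 1 / τ ^ 2 := by norm_num
    have h8 : ((0 : ℝ)) ^ 2 / τ ^ 2 = 0 := by norm_num
    rw [h7, h8, Real.exp_zero, ← hb]
    ring
  rw [h6] at h5
  exact h5

/-! ### G6 -/

namespace Wsum

/-- the summand -/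
noncomputable def G (Y : ℝ) (k : ZI) : ℝ := Real.exp (-(Real.pi * (nz k * Y)))

theorem G_pos (Y : ℝ) (k : ZI) : 0 < G Y k := Real.exp_pos _

theorem he_eq (X r : ℝ) (m : ZI) : he (nz m / X) r = G (Real.exp (-r) / X) m := by
  unfold he G
  congr 3
  ring

theorem summable_ite {ι : Type*} (g : ι → ℝ) (hg : Summable g) (hg0 : ∀ i, 0 ≤ g i) (P : ι → Prop)
    [DecidablePred P] : Summable (fun i => if P i then g i else 0) := by
  refine Summable.of_nonneg_of_le (fun i => ?_) (fun i => ?_) hg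
  · split_ifs
    · exact hg0 i
    · exact le_refl _
  · split_ifs
    · exact le_refl _
    · exact hg0 i

open Classical in
theorem sum_mult {D : ZI} (hD : D ≠ 0) (Y : ℝ) :
    (∑' m : ZI, (if m ≠ 0 ∧ D ∣ m then G Y m else 0)) =
      ∑' k : ZI, (if k = 0 then 0 else G (nz D * Y) k) := by
  have hinj : Function.Injective (fun k : ZI => D * k) := fun a b h =>
    mul_left_cancel₀ hD h
  rw [← hinj.tsum_eq]
  · refine tsum_congr fun k => ?_
    by_cases hk : k = 0
    · simp [hk]
    · rw [if_pos ⟨mul_ne_zero hD hk, Dvd.intro _ rfl⟩, if_neg hk]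
      unfold G
      rw [nz_mul]
      congr 3
      ring
  · intro m hm
    rw [Function.mem_support] at hm
    by_cases h : m ≠ 0 ∧ D ∣ m
    · obtain ⟨k, hk⟩ := h.2
      exact ⟨k, hk.symm⟩
    · rw [if_neg h] at hm
      exact absurd rfl hm

/-- integration of an upper bound against the Gaussian density -/
theorem int_le (hex : S_exch) (τ X : ℝ) (hτ : 0 < τ) (hX : 0 < X) (f : ZI → ℝ)
    (hf : ∀ m, |f m| ≤ 1) (hf0 : f 0 = 0) (a : ℝ)
    (h : ∀ r : ℝ, ∑' m : ZI, he (nz m / X) r * f m ≤ a * Real.exp r) :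
    ∑' m : ZI, Wt τ (nz m / X) * f m ≤ a * Real.exp (1 / (4 * τ ^ 2)) := by
  obtain ⟨-, hint, heq⟩ := hex τ X f hτ hX hf hf0
  rw [heq]
  obtain ⟨i1, v1⟩ := gd_main τ (1 / 2) hτ
  have i3 : Integrable (fun r => a * (gd τ r * Real.exp (1 / 2 * r))) := i1.const_mul a
  have hv : ∫ r : ℝ, a * (gd τ r * Real.exp (1 / 2 * r)) = a * Real.exp (1 / (4 * τ ^ 2)) := by
    rw [integral_const_mul, v1]
    have e1 : ((1 / 2 : ℝ)) ^ 2 / τ ^ 2 = 1 / (4 * τ ^ 2) := by field_simp; norm_num
    rw [e1]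
  rw [← hv]
  refine integral_mono hint i3 fun r => ?_
  have h1 := h r
  have e1 : Real.exp (1 / 2 * r) = Real.exp (-(r / 2)) * Real.exp r := by
    rw [← Real.exp_add]; congr 1; ring
  have h2 : gd τ r * (Real.exp (-(r / 2)) * ∑' m : ZI, he (nz m / X) r * f m) ≤
      gd τ r * (Real.exp (-(r / 2)) * (a * Real.exp r)) :=
    mul_le_mul_of_nonneg_left (mul_le_mul_of_nonneg_left h1 (Real.exp_pos _).le)
      (gd_nonneg hτ r)
  dsimp only
  rw [e1]
  refine h2.trans (le_of_eq ?_)
  ring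

open Classical in
theorem le_aux {X : ℝ} (hX : 0 < X) (hgs : S_gs) {D : ZI} (hD : D ≠ 0) {f : ZI → ℝ}
    (hf0 : ∀ m, 0 ≤ f m) (hf1 : ∀ m, f m ≤ 1) (hfs : ∀ m, f m ≠ 0 → m ≠ 0 ∧ D ∣ m) (r : ℝ) :
    ∑' m : ZI, he (nz m / X) r * f m ≤ X / nz D * Real.exp r := by
  have hY : 0 < Real.exp (-r) / X := div_pos (Real.exp_pos _) hX
  have hD0 := nz_pos hD
  have h1 : (∑' k : ZI, (if k = 0 then 0 else G (nz D * (Real.exp (-r) / X)) k)) ≤
      1 / (nz D * (Real.exp (-r) / X)) := (hgs.1 _ (mul_pos hD0 hY)).2.1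
  rw [← sum_mult hD] at h1
  have e1 : 1 / (nz D * (Real.exp (-r) / X)) = X / nz D * Real.exp r := by
    rw [Real.exp_neg]; field_simp
  rw [e1] at h1
  refine le_trans ?_ h1
  have hs : Summable (G (Real.exp (-r) / X)) := (hgs.1 _ hY).1
  have hle : ∀ m : ZI, he (nz m / X) r * f m ≤
      (if m ≠ 0 ∧ D ∣ m then G (Real.exp (-r) / X) m else 0) := by
    intro m
    rw [he_eq]
    by_cases h : m ≠ 0 ∧ D ∣ m
    · rw [if_pos h]
      calc G (Real.exp (-r) / X) m * f m ≤ G (Real.exp (-r) / X) m * 1 :=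
            mul_le_mul_of_nonneg_left (hf1 m) (G_pos _ _).le
        _ = _ := mul_one _
    · rw [if_neg h]
      have : f m = 0 := by
        by_contra hne
        exact h (hfs m hne)
      rw [this, mul_zero]
  refine Summable.tsum_le_tsum hle ?_ (summable_ite _ hs (fun i => (G_pos _ i).le) _)
  refine Summable.of_nonneg_of_le (fun m => ?_) hle (summable_ite _ hs (fun i => (G_pos _ i).le) _)
  rw [he_eq]
  exact mul_nonneg (G_pos _ _).le (hf0 m)

end Wsum

theorem Dup_main (hgs : S_gs) (hex : S_exch) : S_Dup := by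
  have key : ∀ (τ X : ℝ) (D : ZI), 1 ≤ τ → 1 ≤ X → D ≠ 0 → ∀ f : ZI → ℝ, (∀ m, 0 ≤ f m) →
      (∀ m, f m ≤ 1) → (∀ m, f m ≠ 0 → m ≠ 0 ∧ D ∣ m) →
      ∑' m : ZI, Wt τ (nz m / X) * f m ≤ X / nz D * Real.exp (1 / (4 * τ ^ 2)) := by
    intro τ X D hτ hX hD f hf0 hf1 hfs
    refine int_le hex τ X (by linarith) (by linarith) f
      (fun m => by rw [abs_of_nonneg (hf0 m)]; exact hf1 m) ?_ (X / nz D)
      (le_aux (by linarith) hgs hD hf0 hf1 hfs)
    by_contra h
    exact (hfs 0 h).1 rfl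
  refine ⟨?_, key⟩
  intro τ X hτ hX f hf0 hf1 hf
  have h1 := key τ X 1 hτ hX one_ne_zero f hf0 hf1 (fun m hm => ⟨by
    rintro rfl
    exact hm hf, one_dvd m⟩)
  have h2 : nz (1 : ZI) = 1 := by
    rw [nz_eq]
    simp
  rwa [h2, div_one] at h1

/-! ### G7 -/

namespace Wsum

/-- integration of a lower bound against the Gaussian density -/
theorem int_ge (hex : S_exch) (τ X : ℝ) (hτ : 1 ≤ τ) (hX : 0 < X) (f : ZI → ℝ)
    (hf : ∀ m, |f m| ≤ 1) (hf0 : f 0 = 0) (a c : ℝ) (hc : 0 ≤ c)
    (h : ∀ r : ℝ, a * Real.exp (r / 2) - c ≤ ∑' m : ZI, he (nz m / X) r * f m) :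
    a - 2 * c ≤ ∑' m : ZI, Wt τ (nz m / X) * f m := by
  have hτ0 : 0 < τ := by linarith
  obtain ⟨-, hint, heq⟩ := hex τ X f hτ0 hX hf hf0
  rw [heq]
  obtain ⟨i1, v1⟩ := gd_main τ 0 hτ0
  obtain ⟨i2, v2⟩ := gd_main τ (-(1 / 2)) hτ0
  have i3 : Integrable (fun r => a * (gd τ r * Real.exp (0 * r)) -
      c * (gd τ r * Real.exp (-(1 / 2) * r))) := (i1.const_mul a).sub (i2.const_mul c)
  have hv : ∫ r : ℝ, (a * (gd τ r * Real.exp (0 * r)) -
      c * (gd τ r * Real.exp (-(1 / 2) * r))) = a - c * Real.exp (1 / (4 * τ ^ 2)) := by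
    rw [integral_sub (i1.const_mul a) (i2.const_mul c), integral_const_mul, integral_const_mul,
      v1, v2]
    have e1 : ((0 : ℝ)) ^ 2 / τ ^ 2 = 0 := by simp
    have e2 : (-(1 / 2 : ℝ)) ^ 2 / τ ^ 2 = 1 / (4 * τ ^ 2) := by field_simp; norm_num
    rw [e1, e2]; simp
  have hexp : Real.exp (1 / (4 * τ ^ 2)) ≤ 2 := by
    have h1 : 1 / (4 * τ ^ 2) ≤ 1 / 4 := by
      apply one_div_le_one_div_of_le (by norm_num)
      nlinarith
    have h2 : Real.exp (1 / 4) ≤ 2 := by
      have h3 : Real.exp (1 / 4) ≤ Real.exp (Real.log 2) := by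
        apply Real.exp_le_exp.2
        linarith [Real.log_two_gt_d9]
      rwa [Real.exp_log (by norm_num)] at h3
    exact (Real.exp_le_exp.2 h1).trans h2
  have hle : a - 2 * c ≤ a - c * Real.exp (1 / (4 * τ ^ 2)) := by nlinarith
  refine hle.trans ?_
  rw [← hv]
  refine integral_mono i3 hint fun r => ?_
  have h1 := h r
  have e1 : Real.exp (0 * r) = Real.exp (-(r / 2)) * Real.exp (r / 2) := by
    rw [← Real.exp_add]; congr 1; ring
  have e2 : Real.exp (-(1 / 2) * r) = Real.exp (-(r / 2)) := by congr 1; ring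
  have h2 : gd τ r * (Real.exp (-(r / 2)) * (a * Real.exp (r / 2) - c)) ≤
      gd τ r * (Real.exp (-(r / 2)) * ∑' m : ZI, he (nz m / X) r * f m) :=
    mul_le_mul_of_nonneg_left (mul_le_mul_of_nonneg_left h1 (Real.exp_pos _).le)
      (gd_nonneg hτ0 r)
  dsimp only
  rw [e1, e2]
  refine le_trans (le_of_eq ?_) h2
  ring

/-- the summand over the squares -/
noncomputable def H (z : ℝ) (b : ZI) : ℝ := Real.exp (-(Real.pi * (nz b ^ 2 * z)))

theorem H_pos (z : ℝ) (b : ZI) : 0 < H z b := Real.exp_pos _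

theorem H_le_one {z : ℝ} (hz : 0 ≤ z) (b : ZI) : H z b ≤ 1 := by
  unfold H
  rw [Real.exp_le_one_iff]
  have := Real.pi_pos
  have : 0 ≤ Real.pi * (nz b ^ 2 * z) := by positivity
  linarith

theorem finite_nz (B : ℕ) : {b : ZI | nz b ≤ B}.Finite := by
  have h1 : (Set.Icc (-(B : ℤ)) B ×ˢ Set.Icc (-(B : ℤ)) B).Finite :=
    (Set.finite_Icc _ _).prod (Set.finite_Icc _ _)
  refine (h1.preimage (f := eqv) eqv.injective.injOn).subset ?_
  intro b hb
  have hb' : nz b ≤ B := hb
  rw [nz_eq] at hb'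
  have h2 : b.re ^ 2 + b.im ^ 2 ≤ (B : ℤ) := by exact_mod_cast hb'
  have key : ∀ a : ℤ, a ^ 2 ≤ (B : ℤ) → a ∈ Set.Icc (-(B : ℤ)) B := by
    intro a ha
    constructor
    · nlinarith [sq_nonneg (a + 1)]
    · nlinarith [sq_nonneg (a - 1)]
  exact ⟨key b.re (by nlinarith [sq_nonneg b.im]), key b.im (by nlinarith [sq_nonneg b.re])⟩

theorem can_inj {a b : ZI} (ha : Can a) (hb : Can b) (h : a ^ 2 = b ^ 2) : a = b := by
  rcases sq_eq_sq_iff_eq_or_eq_neg.1 h with h | h
  · exact h
  · exfalso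
    have h1 : a.re = -b.re := by rw [h]; simp
    have h2 : a.im = -b.im := by rw [h]; simp
    unfold Can at ha hb
    omega

theorem can_ne {a : ZI} (ha : Can a) : a ≠ 0 := by
  rintro rfl
  unfold Can at ha
  simp at ha

open Classical in
/-- removing the small representatives -/
theorem sumH_large (hgs : S_gs) (B : ℕ) {z : ℝ} (hz : 0 < z) :
    Sq z - ((finite_nz B).toFinset.card : ℝ) ≤
      ∑' b : ZI, (if Can b ∧ (B : ℝ) < nz b then H z b else 0) := by
  have hs : Summable (H z) := hgs.2.1 z hz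
  have e1 : ∀ b : ZI, (if Can b then H z b else 0) ≤
      (if Can b ∧ (B : ℝ) < nz b then H z b else 0) +
        (if b ∈ (finite_nz B).toFinset then 1 else 0) := by
    intro b
    have hH := H_le_one hz.le b
    by_cases hc : Can b
    · by_cases hB : (B : ℝ) < nz b
      · rw [if_pos hc, if_pos ⟨hc, hB⟩, if_neg]
        · linarith
        · rw [Set.Finite.mem_toFinset]
          exact not_le.2 hB
      · rw [if_pos hc, if_neg (fun h => hB h.2), if_pos]
        · linarith
        · rw [Set.Finite.mem_toFinset]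
          exact not_lt.1 hB
    · rw [if_neg hc, if_neg (fun h => hc h.1)]
      split_ifs <;> norm_num
  have s1 : Summable (fun b : ZI => (if Can b ∧ (B : ℝ) < nz b then H z b else 0)) :=
    summable_ite _ hs (fun i => (H_pos z i).le) _
  have s2 : Summable (fun b : ZI => (if b ∈ (finite_nz B).toFinset then (1 : ℝ) else 0)) :=
    summable_of_ne_finset_zero (s := (finite_nz B).toFinset) (fun b hb => if_neg hb)
  have e2 : ∑' b : ZI, (if b ∈ (finite_nz B).toFinset then (1 : ℝ) else 0) =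
      (finite_nz B).toFinset.card := by
    rw [tsum_eq_sum (s := (finite_nz B).toFinset) (fun b hb => if_neg hb)]
    rw [Finset.sum_congr rfl (fun b hb => if_pos hb)]
    simp
  have e3 := Summable.tsum_le_tsum e1 (summable_ite _ hs (fun i => (H_pos z i).le) _) (s1.add s2)
  rw [s1.tsum_add s2, e2] at e3
  have e4 : Sq z = ∑' b : ZI, (if Can b then H z b else 0) := rfl
  rw [e4]
  linarith

end Wsum

theorem Alow_main (hgs : S_gs) (hphi : S_phi) (hex : S_exch) : S_Alow := by
  classical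
  intro B
  obtain ⟨c0, C0, hc0, hC0, hph⟩ := hphi
  obtain ⟨M, hM⟩ : ∃ M : ℕ, M = (finite_nz B).toFinset.card := ⟨_, rfl⟩
  have hM0 : (0 : ℝ) ≤ M := Nat.cast_nonneg M
  refine ⟨2 * (C0 + M), by positivity, ?_⟩
  intro τ X k hτ hX hk
  have hX0 : 0 < X := by linarith
  have hk0 := nz_pos hk
  let f : ZI → ℝ := fun m => if ∃ b : ZI, Can b ∧ (B : ℝ) < nz b ∧ m = k * b ^ 2 then 1 else 0
  let e : {b : ZI // Can b} → ZI := fun b => k * (b : ZI) ^ 2
  have hinj : Function.Injective e := by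
    intro a b h
    have h1 : (a : ZI) ^ 2 = (b : ZI) ^ 2 := mul_left_cancel₀ hk h
    exact Subtype.ext (can_inj a.2 b.2 h1)
  have hfk : ∀ b : {b : ZI // Can b}, f (e b) = if (B : ℝ) < nz (b : ZI) then 1 else 0 := by
    intro b
    show (if ∃ b' : ZI, Can b' ∧ (B : ℝ) < nz b' ∧ k * (b : ZI) ^ 2 = k * b' ^ 2
      then (1 : ℝ) else 0) = _
    refine if_congr ?_ rfl rfl
    constructor
    · rintro ⟨b', h1, h2, h3⟩
      have : (b : ZI) = b' := can_inj b.2 h1 (mul_left_cancel₀ hk h3)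
      rwa [this]
    · intro h
      exact ⟨b, b.2, h, rfl⟩
  -- sums over the representatives
  have hind : ∀ g : ZI → ℝ, (fun b : ZI => if Can b ∧ (B : ℝ) < nz b then g (k * b ^ 2) else 0) =
      Set.indicator {b : ZI | Can b} (fun b => if (B : ℝ) < nz b then g (k * b ^ 2) else 0) := by
    intro g
    funext b
    by_cases hc : Can b
    · rw [Set.indicator_of_mem (show b ∈ {b : ZI | Can b} from hc)]
      by_cases hB : (B : ℝ) < nz b
      · rw [if_pos ⟨hc, hB⟩, if_pos hB]
      · rw [if_neg (fun h => hB h.2), if_neg hB]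
    · rw [Set.indicator_of_notMem (show b ∉ {b : ZI | Can b} from hc), if_neg (fun h => hc h.1)]
  have hterm : ∀ (g : ZI → ℝ) (b : {b : ZI // Can b}), g (e b) * f (e b) =
      (if (B : ℝ) < nz (b : ZI) then g (k * (b : ZI) ^ 2) else 0) := by
    intro g b
    rw [hfk b]
    split_ifs
    · rw [mul_one]
    · rw [mul_zero]
  have hsupp : ∀ g : ZI → ℝ, (∑' m : ZI, g m * f m) =
      ∑' b : ZI, (if Can b ∧ (B : ℝ) < nz b then g (k * b ^ 2) else 0) := by
    intro g
    rw [hind g, ← tsum_subtype, ← hinj.tsum_eq]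
    · exact tsum_congr (hterm g)
    · intro m hm
      rw [Function.mem_support] at hm
      have hfm : f m ≠ 0 := right_ne_zero_of_mul hm
      have : ∃ b : ZI, Can b ∧ (B : ℝ) < nz b ∧ m = k * b ^ 2 := by
        by_contra hne
        exact hfm (if_neg hne)
      obtain ⟨b, h1, -, h3⟩ := this
      exact ⟨⟨b, h1⟩, h3.symm⟩
  have hf1 : ∀ m, |f m| ≤ 1 := by
    intro m
    show |(if ∃ b : ZI, Can b ∧ (B : ℝ) < nz b ∧ m = k * b ^ 2 then (1 : ℝ) else 0)| ≤ 1
    split_ifs <;> norm_num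
  have hf0 : f 0 = 0 := by
    refine if_neg ?_
    rintro ⟨b, h1, -, h3⟩
    exact mul_ne_zero hk (pow_ne_zero 2 (can_ne h1)) h3.symm
  refine ⟨?_, ?_⟩
  · have h1 := (hex τ X f (by linarith) hX0 hf1 hf0).1
    have h2 := h1.comp_injective hinj
    rw [hind (fun m => Wt τ (nz m / X)), ← summable_subtype_iff_indicator]
    refine h2.congr ?_
    intro b
    exact hterm (fun m => Wt τ (nz m / X)) b
  have key := int_ge hex τ X hτ hX0 f hf1 hf0 (Real.pi / 4 * Real.sqrt (X / nz k))
    (C0 + M) (by positivity) ?_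
  · rw [hsupp (fun m => Wt τ (nz m / X))] at key
    exact key
  · intro r
    rw [hsupp (fun m => he (nz m / X) r)]
    have hz : 0 < nz k * Real.exp (-r) / X := by positivity
    have h1 := sumH_large hgs B hz
    rw [← hM] at h1
    have h2 := (hph _ hz).2
    unfold phi at h2
    have e1 : Real.pi / 4 / Real.sqrt (nz k * Real.exp (-r) / X) =
        Real.pi / 4 * Real.sqrt (X / nz k) * Real.exp (r / 2) := by
      have : Real.sqrt (X / nz k) * Real.exp (r / 2) =
          1 / Real.sqrt (nz k * Real.exp (-r) / X) := by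
        have e3 : Real.exp (r / 2) = Real.sqrt (Real.exp r) := by
          rw [Real.sqrt_eq_rpow, ← Real.exp_mul]; congr 1; ring
        rw [e3, ← Real.sqrt_mul (by positivity), one_div, ← Real.sqrt_inv]
        congr 1
        rw [Real.exp_neg]
        field_simp
      rw [mul_assoc (Real.pi / 4), this]
      ring
    rw [e1] at h2
    have h3 : Real.pi / 4 * Real.sqrt (X / nz k) * Real.exp (r / 2) - (C0 + M) ≤
        ∑' b : ZI, (if Can b ∧ (B : ℝ) < nz b then H (nz k * Real.exp (-r) / X) b else 0) := by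
      linarith
    refine h3.trans (le_of_eq (tsum_congr fun b => ?_))
    by_cases hb : Can b ∧ (B : ℝ) < nz b
    · rw [if_pos hb, if_pos hb]
      rw [he_eq]
      unfold H G
      rw [nz_mul, pow_two b, nz_mul]
      congr 2
      ring
    · rw [if_neg hb, if_neg hb]

end Pool.Agent.N880.QI
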