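import Pool.Agent.N880.QI.Asm
import Pool.Agent.N880.QI.Pois
import Pool.Agent.N880.QI.Phi
import Pool.Agent.N880.QI.Wsum
import Pool.Agent.N880.QI.Win
import Pool.Agent.N880.QI.Rest
import Pool.Agent.N880.QI.Wgt
import Pool.Agent.N880.QI.Pside
import Pool.Agent.N880.QI.Pw
import Pool.Agent.N880.QI.Char
import Pool.Agent.N880.QI.EC
import Pool.Agent.N253.QF.Small

/-! # Assembly of project QI -/

set_option autoImplicit false

open Complex NumberField IsDedekindDomain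
open H385 (ZI)
open Pool.Agent.N880.QI.Asm

namespace Pool.Agent.N880.QI

theorem exch_all : S_exch := exch_main

theorem Dup_all : S_Dup := Dup_main gs_main exch_all

theorem Alow_all : S_Alow := Alow_main gs_main phi_main exch_all

theorem D_all : S_D := D_main pois_main exch_all gs_main el_main

theorem PW_all : S_PW := PW_main Pool.Agent.N253.QF.gd_main gs_main phi_main el_main

theorem PS_all : S_PS := PS_main Pool.Agent.N253.QF.gd_main exch_all Dup_all el_main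

theorem star_all : S_star :=
  star_main Pool.Agent.N253.QF.gd_main D_all PW_all PS_all Dup_all Alow_all Wt_lower_main phi_main
    el_main

theorem ms_all : S_ms := ms_main star_all win_main rest_main char_main gs_main el_main

theorem core_all : S_core := core_main ms_all char_main

theorem fin_all : S_fin :=
  fin_main core_all char_main (wtA_main el_main) (wtB_main gs_main el_main) el_main

theorem ec_all : S_EC := ec_main char_main

theorem qi_all :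
    (∀ (K : Type) [Field K] [NumberField K], Module.finrank ℚ K = 4 →
      ∀ (ι : ZI →+* 𝓞 K) (m : ZI) (α : 𝓞 K), ¬ IsSquare m → α ^ 2 = ι m →
      ∀ a ε : HeightOneSpectrum (𝓞 K) → ℤ,
      (∀ v ∈ exc K, Poss (Ideal.absNorm v.asIdeal) (a v) (ε v)) →
      ∃ F : ℂ → ℂ, (∀ s : ℂ, 1 / 2 < s.re → AnalyticAt ℂ F s) ∧
        ∀ s : ℂ, 3 / 2 < s.re → HasProd (fac a ε s) (F s)) ∧
    ∃ η X0 : ℝ, 0 < η ∧ 3 ≤ X0 ∧
    ∀ (K : ZI → Type) [∀ m, Field (K m)] [∀ m, NumberField (K m)]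
      (a ε : (m : ZI) → HeightOneSpectrum (𝓞 (K m)) → ℤ) (F : ZI → ℂ → ℂ),
    (∀ m : ZI, ¬ IsSquare m → Module.finrank ℚ (K m) = 4 ∧
      (∃ (ι : ZI →+* 𝓞 (K m)) (α : 𝓞 (K m)), α ^ 2 = ι m) ∧
      (∀ v ∈ exc (K m), Poss (Ideal.absNorm v.asIdeal) (a m v) (ε m v)) ∧
      (∀ s : ℂ, 1 / 2 < s.re → AnalyticAt ℂ (F m) s) ∧
      ∀ s : ℂ, 3 / 2 < s.re → HasProd (fac (a m) (ε m) s) (F m s)) →
    ∀ X T Y : ℝ, X0 ≤ X → (Real.log X) ^ 2 ≤ T → T ≤ X ^ η → X * Real.log X ≤ Y →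
    ∀ S : Finset ZI, (∀ m : ZI, m ∈ S ↔ (nz m ≤ Y ∧ ¬ IsSquare m)) →
    (∀ m ∈ S, (reg (1 / 2) T ∩ {s | F m s = 0}).Finite) ∧
    0.6725 * ∑ m ∈ S, om X m * ((∑ᶠ s ∈ reg (1 / 2) T, analyticOrderNatAt (F m) s : ℕ) : ℝ) ≤
      ∑ m ∈ S, om X m * ((∑ᶠ s ∈ lin 1 T, analyticOrderNatAt (F m) s : ℕ) : ℝ) ∧
    2 / 7 * (X * T * Real.log X) ≤
      ∑ m ∈ S, om X m * ((∑ᶠ s ∈ reg (1 / 2) T, analyticOrderNatAt (F m) s : ℕ) : ℝ) :=
  qi_main fin_all char_main ec_all gs_main el_main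

end Pool.Agent.N880.QI
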