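import Pool.Agent.N880.QI.Stm2

/-!
Project QI (helper880): elementary facts on square classes and residue symbols of the Gaussian
integers (helper407).
-/

set_option autoImplicit false

open Complex Filter Topology MeasureTheory Set
open H385 (ZI)

namespace Pool.Agent.N880.QI.El

open Pool.Agent.N880.QI

/-! ### norms -/

lemma nz_eq (m : ZI) : nz m = (m.re : ℝ) ^ 2 + (m.im : ℝ) ^ 2 := by
  unfold nz
  rw [Zsqrtd.norm_def]
  push_cast
  ring

lemma nz_nonneg (m : ZI) : 0 ≤ nz m := by rw [nz_eq]; positivity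

lemma nz_mul (a b : ZI) : nz (a * b) = nz a * nz b := by
  unfold nz
  rw [Zsqrtd.norm_mul]
  push_cast
  ring

lemma norm_nonneg' (m : ZI) : 0 ≤ Zsqrtd.norm m := GaussianInt.norm_nonneg m

lemma nz_ge_one {m : ZI} (hm : m ≠ 0) : 1 ≤ nz m := by
  have h1 : 0 < Zsqrtd.norm m := GaussianInt.norm_pos.2 hm
  unfold nz
  exact_mod_cast h1

lemma nz_pos {m : ZI} (hm : m ≠ 0) : 0 < nz m := by linarith [nz_ge_one hm]

lemma nz_zero : nz 0 = 0 := by rw [nz_eq]; simp

/-- a finite box which contains all elements of norm at most `K` -/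
noncomputable def box (K : ℝ) : Finset ZI :=
  ((Finset.Icc (-(⌊Real.sqrt K⌋₊ : ℤ)) ⌊Real.sqrt K⌋₊) ×ˢ
    (Finset.Icc (-(⌊Real.sqrt K⌋₊ : ℤ)) ⌊Real.sqrt K⌋₊)).image (fun p : ℤ × ℤ => (⟨p.1, p.2⟩ : ZI))

lemma abs_le_floor (K : ℝ) (a : ℤ) (h : (a : ℝ) ^ 2 ≤ K) :
    a ∈ Finset.Icc (-(⌊Real.sqrt K⌋₊ : ℤ)) ⌊Real.sqrt K⌋₊ := by
  have h1 : |(a : ℝ)| ≤ Real.sqrt K := Real.abs_le_sqrt h
  have h2 : a.natAbs ≤ ⌊Real.sqrt K⌋₊ := by
    apply Nat.le_floor
    rw [Nat.cast_natAbs]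
    push_cast
    exact h1
  rw [Finset.mem_Icc]
  omega

lemma mem_box {K : ℝ} {m : ZI} (h : nz m ≤ K) : m ∈ box K := by
  rw [nz_eq] at h
  rw [box, Finset.mem_image]
  refine ⟨(m.re, m.im), ?_, rfl⟩
  rw [Finset.mem_product]
  exact ⟨abs_le_floor K m.re (by nlinarith [sq_nonneg (m.im : ℝ)]),
    abs_le_floor K m.im (by nlinarith [sq_nonneg (m.re : ℝ)])⟩

lemma card_box (K : ℝ) (hK : 1 ≤ K) : ((box K).card : ℝ) ≤ 9 * K := by
  have h1 := Finset.card_image_le (s := (Finset.Icc (-(⌊Real.sqrt K⌋₊ : ℤ)) ⌊Real.sqrt K⌋₊) ×ˢ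
    (Finset.Icc (-(⌊Real.sqrt K⌋₊ : ℤ)) ⌊Real.sqrt K⌋₊)) (f := fun p : ℤ × ℤ => (⟨p.1, p.2⟩ : ZI))
  rw [Finset.card_product, Int.card_Icc] at h1
  set n := ⌊Real.sqrt K⌋₊ with hn
  have h2 : ((n : ℤ) + 1 - -(n : ℤ)).toNat = 2 * n + 1 := by omega
  rw [h2] at h1
  have h3 : (n : ℝ) ≤ Real.sqrt K := Nat.floor_le (Real.sqrt_nonneg K)
  have h4 : 1 ≤ Real.sqrt K := by
    rw [show (1 : ℝ) = Real.sqrt 1 by simp]
    exact Real.sqrt_le_sqrt hK
  have h5 : Real.sqrt K * Real.sqrt K = K := Real.mul_self_sqrt (by linarith)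
  have h6 : ((box K).card : ℝ) ≤ ((2 * n + 1) * (2 * n + 1) : ℕ) := by exact_mod_cast h1
  refine h6.trans ?_
  push_cast
  have hn0 : (0 : ℝ) ≤ n := Nat.cast_nonneg n
  nlinarith

lemma card_le (K : ℝ) (hK : 1 ≤ K) (S : Finset ZI) (hS : ∀ k ∈ S, nz k ≤ K) :
    (S.card : ℝ) ≤ 9 * K := by
  have h1 : S ⊆ box K := fun k hk => mem_box (hS k hk)
  have h2 : (S.card : ℝ) ≤ (box K).card := by exact_mod_cast Finset.card_le_card h1
  exact h2.trans (card_box K hK)

/-! ### signs -/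

lemma can_or (b : ZI) (hb : b ≠ 0) : Can b ∨ Can (-b) := by
  unfold Can
  rw [Zsqrtd.re_neg, Zsqrtd.im_neg]
  rcases lt_trichotomy b.re 0 with h | h | h
  · right; left; omega
  · rcases lt_trichotomy b.im 0 with h' | h' | h'
    · right; right; omega
    · exfalso
      apply hb
      ext <;> simp [h, h']
    · left; right; omega
  · left; left; exact h

lemma can_neg {b : ZI} (h : Can b) : ¬ Can (-b) := by
  unfold Can at h ⊢
  rw [Zsqrtd.re_neg, Zsqrtd.im_neg]
  omega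

lemma can_ne_zero {b : ZI} (h : Can b) : b ≠ 0 := by
  rintro rfl
  unfold Can at h
  simp at h

lemma can_im {b : ZI} : Can b → b ≠ 0 := can_ne_zero

/-! ### square classes -/

lemma exists_sq (n : ℕ) : ∀ m : ZI, m ≠ 0 → (Zsqrtd.norm m).natAbs ≤ n →
    ∃ k b : ZI, Squarefree k ∧ m = k * b ^ 2 := by
  induction n with
  | zero =>
    intro m hm h
    exfalso
    have h1 : 0 < Zsqrtd.norm m := GaussianInt.norm_pos.2 hm
    omega
  | succ n ih =>
    intro m hm h
    by_cases hs : Squarefree m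
    · exact ⟨m, 1, hs, by ring⟩
    · unfold Squarefree at hs
      push Not at hs
      obtain ⟨x, ⟨m', hx⟩, hu⟩ := hs
      have hm' : m' ≠ 0 := by rintro rfl; simp at hx; exact hm hx
      have hx0 : x ≠ 0 := by rintro rfl; simp at hx; exact hm hx
      have h1 : (Zsqrtd.norm m).natAbs =
          (Zsqrtd.norm x).natAbs * (Zsqrtd.norm x).natAbs * (Zsqrtd.norm m').natAbs := by
        rw [hx, Zsqrtd.norm_mul, Zsqrtd.norm_mul, Int.natAbs_mul, Int.natAbs_mul]
      have h2 : (Zsqrtd.norm x).natAbs ≠ 1 := fun h3 => hu (Zsqrtd.norm_eq_one_iff.1 h3)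
      have h3 : 0 < (Zsqrtd.norm x).natAbs := by
        have := GaussianInt.norm_pos.2 hx0
        omega
      have h4 : 0 < (Zsqrtd.norm m').natAbs := by
        have := GaussianInt.norm_pos.2 hm'
        omega
      have h5 : 2 ≤ (Zsqrtd.norm x).natAbs := by omega
      have h6 : (Zsqrtd.norm m').natAbs ≤ n := by
        have : 4 * (Zsqrtd.norm m').natAbs ≤ (Zsqrtd.norm m).natAbs := by
          rw [h1]
          apply Nat.mul_le_mul_right
          nlinarith
        omega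
      obtain ⟨k, b, hk, hb⟩ := ih m' hm' h6
      exact ⟨k, x * b, hk, by rw [hx, hb]; ring⟩

/-- the imaginary unit -/
def iu : ZI := ⟨0, 1⟩

lemma iu_sq : iu ^ 2 = -1 := by
  rw [pow_two]
  ext <;> simp [iu]

lemma exists_can (m : ZI) (hm : m ≠ 0) :
    ∃ k b : ZI, Squarefree k ∧ Can k ∧ Can b ∧ m = k * b ^ 2 := by
  obtain ⟨k, b, hk, hb⟩ := exists_sq _ m hm le_rfl
  have hk0 : k ≠ 0 := hk.ne_zero
  have hb0 : b ≠ 0 := by
    rintro rfl
    apply hm
    rw [hb]
    ring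
  have key : ∃ k b : ZI, Squarefree k ∧ Can k ∧ b ≠ 0 ∧ m = k * b ^ 2 := by
    rcases can_or k hk0 with h | h
    · exact ⟨k, b, hk, h, hb0, hb⟩
    · refine ⟨-k, iu * b, ?_, h, ?_, ?_⟩
      · intro x hx
        exact hk x ((dvd_neg).1 hx)
      · intro h0
        rcases mul_eq_zero.1 h0 with h1 | h1
        · have := congrArg Zsqrtd.im h1
          simp [iu] at this
        · exact hb0 h1
      · rw [mul_pow, iu_sq, hb]
        ring
  obtain ⟨k, b, hk, hk1, hb0, hb⟩ := key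
  rcases can_or b hb0 with h | h
  · exact ⟨k, b, hk, hk1, h, hb⟩
  · exact ⟨k, -b, hk, hk1, h, by rw [hb]; ring⟩

lemma unit_of_sq_dvd {k β β' k' : ZI} (hk : Squarefree k) (hc : IsCoprime β β')
    (h : k * β ^ 2 = k' * β' ^ 2) : IsUnit β' := by
  have h1 : β' ^ 2 ∣ k * β ^ 2 := ⟨k', by rw [h]; ring⟩
  have h2 : IsCoprime (β' ^ 2) (β ^ 2) := (hc.symm.pow_left).pow_right
  have h3 : β' ^ 2 ∣ k := h2.dvd_of_dvd_mul_right h1
  exact hk β' (by rwa [← pow_two])

lemma unit_cases {u : ZI} (hu : IsUnit u) : u ^ 2 = 1 ∨ u ^ 2 = -1 := by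
  have h1 : (Zsqrtd.norm u).natAbs = 1 := Zsqrtd.norm_eq_one_iff.2 hu
  have h2 : Zsqrtd.norm u = 1 := by
    have := GaussianInt.norm_nonneg u
    omega
  rw [Zsqrtd.norm_def] at h2
  have h3 : u.re * u.re + u.im * u.im = 1 := by linarith
  have h4 : u.re * u.re ≤ 1 := by nlinarith [mul_self_nonneg u.im]
  have h5 : -1 ≤ u.re := by nlinarith
  have h6 : u.re ≤ 1 := by nlinarith
  have h7 : u.re = -1 ∨ u.re = 0 ∨ u.re = 1 := by omega
  rcases h7 with h | h | h
  · left
    have h8 : u.im = 0 := by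
      rw [h] at h3
      have : u.im * u.im = 0 := by linarith
      exact mul_self_eq_zero.1 this
    rw [pow_two]
    ext <;> simp [h, h8]
  · right
    rw [h] at h3
    have h8 : u.im * u.im = 1 := by linarith
    rw [pow_two]
    ext <;> simp [h, h8]
  · left
    have h8 : u.im = 0 := by
      rw [h] at h3
      have : u.im * u.im = 0 := by linarith
      exact mul_self_eq_zero.1 this
    rw [pow_two]
    ext <;> simp [h, h8]

lemma sq_unique (k b k' b' : ZI) (hk : Squarefree k) (hk' : Squarefree k') (ck : Can k)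
    (ck' : Can k') (cb : Can b) (cb' : Can b') (h : k * b ^ 2 = k' * b' ^ 2) : k = k' ∧ b = b' := by
  have hb0 := can_ne_zero cb
  have hb0' := can_ne_zero cb'
  have hg0 : EuclideanDomain.gcd b b' ≠ 0 := by
    intro h0
    exact hb0 (EuclideanDomain.gcd_eq_zero_iff.1 h0).1
  obtain ⟨β, hβ⟩ := EuclideanDomain.gcd_dvd_left b b'
  obtain ⟨β', hβ'⟩ := EuclideanDomain.gcd_dvd_right b b'
  set g := EuclideanDomain.gcd b b' with hg
  have hcop : IsCoprime β β' := by
    have h1 := EuclideanDomain.gcd_eq_gcd_ab b b'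
    refine ⟨EuclideanDomain.gcdA b b', EuclideanDomain.gcdB b b', ?_⟩
    apply mul_left_cancel₀ hg0
    rw [← hg] at h1
    calc g * (EuclideanDomain.gcdA b b' * β + EuclideanDomain.gcdB b b' * β') =
        (g * β) * EuclideanDomain.gcdA b b' + (g * β') * EuclideanDomain.gcdB b b' := by ring
      _ = b * EuclideanDomain.gcdA b b' + b' * EuclideanDomain.gcdB b b' := by
          rw [← hβ, ← hβ']
      _ = g * 1 := by rw [← h1, mul_one]
  have h2 : k * β ^ 2 = k' * β' ^ 2 := by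
    apply mul_left_cancel₀ (pow_ne_zero 2 hg0)
    calc g ^ 2 * (k * β ^ 2) = k * (g * β) ^ 2 := by ring
      _ = k' * (g * β') ^ 2 := by rw [← hβ, ← hβ', h]
      _ = g ^ 2 * (k' * β' ^ 2) := by ring
  have hu' := unit_of_sq_dvd hk hcop h2
  have hu := unit_of_sq_dvd hk' hcop.symm h2.symm
  have e1 := unit_cases hu
  have e2 := unit_cases hu'
  have hkk : k = k' := by
    rcases e1 with e1 | e1 <;> rcases e2 with e2 | e2
    · rw [e1, e2] at h2; simpa using h2
    · rw [e1, e2] at h2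
      exfalso
      have : k' = -k := by linear_combination h2
      rw [this] at ck'
      exact can_neg ck ck'
    · rw [e1, e2] at h2
      exfalso
      have : k' = -k := by linear_combination -h2
      rw [this] at ck'
      exact can_neg ck ck'
    · rw [e1, e2] at h2
      linear_combination -h2
  refine ⟨hkk, ?_⟩
  have hk0 : k ≠ 0 := hk.ne_zero
  rw [← hkk] at h
  have h3 : b ^ 2 = b' ^ 2 := mul_left_cancel₀ hk0 h
  rcases sq_eq_sq_iff_eq_or_eq_neg.1 h3 with h4 | h4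
  · exact h4
  · exfalso
    rw [h4] at cb
    exact can_neg cb' cb

/-! ### residue symbols -/

/-- the residue field of a primary prime of degree one -/
lemma res_field (p : ZI) (hp : Nat.Prime (Zsqrtd.norm p).natAbs) :
    ∃ φ : ZI →+* ZMod (Zsqrtd.norm p).natAbs, (∀ x : ZI, φ x = 0 ↔ p ∣ x) ∧
      Function.Surjective φ := by
  set l := (Zsqrtd.norm p).natAbs with hl
  have : Fact (Nat.Prime l) := ⟨hp⟩
  have hn : (Zsqrtd.norm p) = (l : ℤ) := by
    have := GaussianInt.norm_nonneg p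
    omega
  have hn2 : p.re * p.re + p.im * p.im = (l : ℤ) := by
    rw [← hn, Zsqrtd.norm_def]; ring
  have hb : (p.im : ZMod l) ≠ 0 := by
    intro h0
    have h1 : (l : ℤ) ∣ p.im := (ZMod.intCast_zmod_eq_zero_iff_dvd _ _).1 h0
    have h2 : (l : ℤ) ∣ p.re * p.re := by
      have : p.re * p.re = (l : ℤ) - p.im * p.im := by linarith
      rw [this]
      exact dvd_sub (dvd_refl _) (h1.mul_right _)
    have hlp : Prime (l : ℤ) := Nat.prime_iff_prime_int.1 hp
    have h3 : (l : ℤ) ∣ p.re := by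
      rcases hlp.dvd_or_dvd h2 with h | h <;> exact h
    obtain ⟨c, hc⟩ := h1
    obtain ⟨e, he⟩ := h3
    rw [hc, he] at hn2
    have h4 : (l : ℤ) * ((l : ℤ) * (e * e + c * c)) = (l : ℤ) * 1 := by linarith
    have hl0 : (l : ℤ) ≠ 0 := hlp.ne_zero
    have h5 : (l : ℤ) * (e * e + c * c) = 1 := mul_left_cancel₀ hl0 h4
    exact hlp.not_isUnit (IsUnit.of_mul_eq_one _ h5)
  have hsum : (p.re : ZMod l) * p.re + (p.im : ZMod l) * p.im = 0 := by
    have := congrArg (Int.cast : ℤ → ZMod l) hn2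
    push_cast at this
    rw [this, ZMod.natCast_self]
  set r : ZMod l := -(p.re : ZMod l) / (p.im : ZMod l) with hr
  have hrr : r * r = ((-1 : ℤ) : ZMod l) := by
    rw [hr]
    push_cast
    field_simp
    linear_combination hsum
  refine ⟨Zsqrtd.lift ⟨r, hrr⟩, ?_, ?_⟩
  · intro x
    have hval : ∀ x : ZI, (Zsqrtd.lift (⟨r, hrr⟩ : { r : ZMod l // r * r = ((-1 : ℤ) : ZMod l) }) :
        ZI →+* ZMod l) x = (x.re : ZMod l) + (x.im : ZMod l) * r := fun x => rfl
    constructor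
    · intro h0
      rw [hval] at h0
      have h1 : (x.re : ZMod l) * p.im - (x.im : ZMod l) * p.re = 0 := by
        have h2 : ((x.re : ZMod l) + (x.im : ZMod l) * r) * p.im = 0 := by rw [h0, zero_mul]
        rw [hr] at h2
        field_simp at h2
        linear_combination h2
      have h2 : (x.re : ZMod l) * p.re + (x.im : ZMod l) * p.im = 0 := by
        apply mul_left_cancel₀ hb
        linear_combination (p.re : ZMod l) * h1 + (x.im : ZMod l) * hsum
      have d1 : (l : ℤ) ∣ x.im * p.re - x.re * p.im := by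
        rw [← ZMod.intCast_zmod_eq_zero_iff_dvd]
        push_cast
        linear_combination -h1
      have d2 : (l : ℤ) ∣ x.re * p.re + x.im * p.im := by
        rw [← ZMod.intCast_zmod_eq_zero_iff_dvd]
        push_cast
        exact h2
      obtain ⟨v, hv⟩ := d1
      obtain ⟨w, hw⟩ := d2
      have hl0 : (l : ℤ) ≠ 0 := by
        have := hp.pos
        omega
      refine ⟨⟨w, v⟩, ?_⟩
      have e1 : (l : ℤ) * x.re = (l : ℤ) * (p.re * w - p.im * v) := by
        calc (l : ℤ) * x.re = (p.re * p.re + p.im * p.im) * x.re := by rw [hn2]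
          _ = p.re * (x.re * p.re + x.im * p.im) - p.im * (x.im * p.re - x.re * p.im) := by ring
          _ = (l : ℤ) * (p.re * w - p.im * v) := by rw [hv, hw]; ring
      have e2 : (l : ℤ) * x.im = (l : ℤ) * (p.re * v + p.im * w) := by
        calc (l : ℤ) * x.im = (p.re * p.re + p.im * p.im) * x.im := by rw [hn2]
          _ = p.re * (x.im * p.re - x.re * p.im) + p.im * (x.re * p.re + x.im * p.im) := by ring
          _ = (l : ℤ) * (p.re * v + p.im * w) := by rw [hv, hw]; ring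
      have e3 := mul_left_cancel₀ hl0 e1
      have e4 := mul_left_cancel₀ hl0 e2
      ext
      · rw [Zsqrtd.re_mul, e3]; ring
      · rw [Zsqrtd.im_mul, e4]
    · rintro ⟨c, rfl⟩
      rw [map_mul]
      have : (Zsqrtd.lift (⟨r, hrr⟩ : { r : ZMod l // r * r = ((-1 : ℤ) : ZMod l) }) :
        ZI →+* ZMod l) p = 0 := by
        rw [hval, hr]
        field_simp
        ring
      rw [this, zero_mul]
  · intro y
    refine ⟨⟨(y.val : ℤ), 0⟩, ?_⟩
    show (((y.val : ℕ) : ℤ) : ZMod l) + ((0 : ℤ) : ZMod l) * r = y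
    push_cast
    rw [ZMod.natCast_zmod_val]
    ring

lemma sy_eq (p : ZI) (φ : ZI →+* ZMod (Zsqrtd.norm p).natAbs)
    [Fact (Nat.Prime (Zsqrtd.norm p).natAbs)]
    (h1 : ∀ x : ZI, φ x = 0 ↔ p ∣ x) (h2 : Function.Surjective φ) (m : ZI) :
    sy m p = ((quadraticCharFun (ZMod (Zsqrtd.norm p).natAbs) (φ m) : ℤ) : ℝ) := by
  unfold sy quadraticCharFun
  by_cases hm : p ∣ m
  · rw [if_pos hm, if_pos ((h1 m).2 hm)]
    simp
  · rw [if_neg hm, if_neg (fun h => hm ((h1 m).1 h))]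
    by_cases hs : ∃ b : ZI, p ∣ b ^ 2 - m
    · rw [if_pos hs, if_pos]
      · simp
      · obtain ⟨b, hb⟩ := hs
        have := (h1 _).2 hb
        rw [map_sub, map_pow] at this
        exact ⟨φ b, by linear_combination -this⟩
    · rw [if_neg hs, if_neg]
      · simp
      · rintro ⟨c, hc⟩
        apply hs
        obtain ⟨b, rfl⟩ := h2 c
        refine ⟨b, (h1 _).1 ?_⟩
        rw [map_sub, map_pow, hc]
        ring

lemma sy_mul (m m' p : ZI) (hp : PZ p) : sy (m * m') p = sy m p * sy m' p := by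
  have : Fact (Nat.Prime (Zsqrtd.norm p).natAbs) := ⟨hp.pr⟩
  obtain ⟨φ, h1, h2⟩ := res_field p hp.pr
  rw [sy_eq p φ h1 h2, sy_eq p φ h1 h2, sy_eq p φ h1 h2, map_mul, quadraticCharFun_mul]
  push_cast
  ring

lemma sy_abs (m p : ZI) : |sy m p| ≤ 1 := by
  unfold sy
  split_ifs <;> norm_num

lemma pz_prime (p : ZI) (hp : PZ p) : Prime p := by
  have : Fact (Nat.Prime (Zsqrtd.norm p).natAbs) := ⟨hp.pr⟩
  obtain ⟨φ, h1, h2⟩ := res_field p hp.pr
  refine ⟨?_, ?_, ?_⟩
  · rintro rfl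
    have := hp.pr
    simp at this
    exact Nat.not_prime_zero this
  · intro hu
    have h3 := Zsqrtd.norm_eq_one_iff.2 hu
    have := hp.pr
    rw [h3] at this
    exact Nat.not_prime_one this
  · intro a b hab
    have h3 := (h1 _).2 hab
    rw [map_mul] at h3
    rcases mul_eq_zero.1 h3 with h | h
    · exact Or.inl ((h1 _).1 h)
    · exact Or.inr ((h1 _).1 h)

lemma sy_zero (p : ZI) : sy 0 p = 0 := by
  unfold sy
  rw [if_pos (dvd_zero p)]

lemma sy_sq (b p : ZI) (hp : PZ p) : sy (b ^ 2) p = open Classical in if p ∣ b then 0 else 1 := by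
  have hpp := pz_prime p hp
  unfold sy
  by_cases h : p ∣ b
  · rw [if_pos (h.trans (dvd_pow_self b two_ne_zero)), if_pos h]
  · rw [if_neg (fun h2 => h (hpp.dvd_of_dvd_pow h2)), if_neg h, if_pos ⟨b, by simp⟩]

/-! ### the sum of the inverse squares of the norms -/

lemma summ_int : Summable (fun n : ℤ => 1 / (1 + (n : ℝ) ^ 2)) := by
  have h1 : Summable (fun n : ℤ => 1 / (n : ℝ) ^ 2) := Real.summable_one_div_int_pow.2 (by norm_num)
  have h2 : Summable (fun n : ℤ => if n = 0 then (1 : ℝ) else 0) :=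
    summable_of_hasFiniteSupport (Set.Finite.subset (Set.finite_singleton (0 : ℤ)) (by
      intro n hn
      rw [Function.mem_support] at hn
      by_contra h
      rw [Set.mem_singleton_iff] at h
      rw [if_neg h] at hn
      exact hn rfl))
  refine Summable.of_nonneg_of_le (fun n => by positivity) (fun n => ?_) (h1.add h2)
  by_cases hn : n = 0
  · rw [hn]; simp
  · rw [if_neg hn, add_zero]
    have hn' : (n : ℝ) ≠ 0 := by exact_mod_cast hn
    have : 0 < (n : ℝ) ^ 2 := by positivity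
    apply one_div_le_one_div_of_le this
    linarith

lemma inv_sq_le (p : ZI) (hp : p ≠ 0) :
    1 / nz p ^ 2 ≤ 9 / 4 * (1 / (1 + (p.re : ℝ) ^ 2) * (1 / (1 + (p.im : ℝ) ^ 2))) := by
  have h1 := nz_ge_one hp
  have h2 := nz_eq p
  set x := (p.re : ℝ) ^ 2 with hx
  set y := (p.im : ℝ) ^ 2 with hy
  have hx0 : 0 ≤ x := by positivity
  have hy0 : 0 ≤ y := by positivity
  rw [h2] at h1 ⊢
  rw [one_div_mul_one_div, mul_one_div, div_le_div_iff₀ (by positivity) (by positivity)]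
  nlinarith [sq_nonneg (x - y), mul_nonneg hx0 hy0]

lemma sum_inv_sq : ∃ C : ℝ, 0 < C ∧ ∀ P : Finset ZI, (∀ p ∈ P, p ≠ 0) → ∑ p ∈ P, 1 / nz p ^ 2 ≤ C := by
  set g : ℤ → ℝ := fun n => 1 / (1 + (n : ℝ) ^ 2) with hg
  have hg0 : ∀ n, 0 ≤ g n := fun n => by simp only [hg]; positivity
  set S := ∑' n : ℤ, g n with hS
  have hS0 : 0 ≤ S := tsum_nonneg hg0
  refine ⟨9 / 4 * (S * S) + 1, by positivity, fun P hP => ?_⟩
  have h1 : ∑ p ∈ P, 1 / nz p ^ 2 ≤ ∑ p ∈ P, 9 / 4 * (g p.re * g p.im) :=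
    Finset.sum_le_sum fun p hp => inv_sq_le p (hP p hp)
  have h2 : ∑ p ∈ P, g p.re * g p.im ≤
      ∑ q ∈ (P.image Zsqrtd.re) ×ˢ (P.image Zsqrtd.im), g q.1 * g q.2 := by
    have hinj : Set.InjOn (fun p : ZI => (p.re, p.im)) (P : Set ZI) := by
      intro a _ b _ h
      simp only [Prod.mk.injEq] at h
      exact Zsqrtd.ext h.1 h.2
    have h3 : ∑ p ∈ P, g p.re * g p.im =
        ∑ q ∈ P.image (fun p : ZI => (p.re, p.im)), g q.1 * g q.2 := by
      rw [Finset.sum_image hinj]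
    rw [h3]
    apply Finset.sum_le_sum_of_subset_of_nonneg
    · intro q hq
      rw [Finset.mem_image] at hq
      obtain ⟨p, hp, rfl⟩ := hq
      rw [Finset.mem_product]
      exact ⟨Finset.mem_image_of_mem _ hp, Finset.mem_image_of_mem _ hp⟩
    · intro q _ _
      exact mul_nonneg (hg0 _) (hg0 _)
  rw [Finset.sum_product, ← Finset.sum_mul_sum] at h2
  have h4 : ∑ n ∈ P.image Zsqrtd.re, g n ≤ S := summ_int.sum_le_tsum _ (fun n _ => hg0 n)
  have h5 : ∑ n ∈ P.image Zsqrtd.im, g n ≤ S := summ_int.sum_le_tsum _ (fun n _ => hg0 n)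
  have h6 : (∑ n ∈ P.image Zsqrtd.re, g n) * (∑ n ∈ P.image Zsqrtd.im, g n) ≤ S * S :=
    mul_le_mul h4 h5 (Finset.sum_nonneg fun n _ => hg0 n) hS0
  rw [← Finset.mul_sum] at h1
  linarith

lemma kset_iff (K : ℝ) (k : ZI) : k ∈ Kset K ↔ Squarefree k ∧ Can k ∧ nz k < K := by
  have h : {k : ZI | Squarefree k ∧ Can k ∧ nz k < K}.Finite := by
    apply Set.Finite.subset (box K).finite_toSet
    intro k hk
    exact mem_box hk.2.2.le
  unfold Kset
  rw [dif_pos h, Set.Finite.mem_toFinset]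
  rfl

lemma card_pz (P : Finset ZI) (X : ℝ) (hX : 1 ≤ X)
    (hP : ∀ p ∈ P, PZ p ∧ Real.log (nz p) ≤ Real.log X) : (P.card : ℝ) ≤ 9 * X := by
  apply card_le X hX
  intro p hp
  obtain ⟨h1, h2⟩ := hP p hp
  have h3 : 0 < nz p := nz_pos (pz_prime p h1).ne_zero
  exact (Real.log_le_log_iff h3 (by linarith)).1 h2

end Pool.Agent.N880.QI.El

namespace Pool.Agent.N880.QI

/-- elementary facts on square classes and symbols -/
theorem el_main : S_el :=
  ⟨El.kset_iff, El.card_le, El.exists_can, El.sq_unique, El.sy_abs, El.sy_mul,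
    fun p hp => ⟨El.pz_prime p hp, El.nz_pos (El.pz_prime p hp).ne_zero, El.sy_zero p⟩,
    El.sy_sq, El.sum_inv_sq, El.card_pz⟩

end Pool.Agent.N880.QI
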