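import Pool.Agent.N880.QI.Stm2
import Pool.Agent.H385R2.NLowD
import Pool.Agent.H385R2.FinA0
import Pool.Agent.H385R2.WinE
import Pool.Agent.H304R3.HK.Fin

/-!
Project QI, G13: the final step.  (helper615, after `Pool.Agent.N880.QF.Fin` of helper692.)
-/

set_option autoImplicit false

open Complex Filter Topology MeasureTheory Set
open H385 (ZI bt wt Rw Rw_nonneg)
open H370 (NN Nd Ns)
open Pool.Agent.H304R3.HK (tc HC LH aH)

namespace Pool.Agent.N880.QI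

/-! ### norms and symbols -/

lemma nz_mul (a b : ZI) : nz (a * b) = nz a * nz b := by
  unfold nz
  rw [Zsqrtd.norm_mul]
  push_cast
  rfl

lemma nz_tc (a : ZI) : ‖tc a‖ ^ 2 = nz a := Pool.Agent.H304R3.HK.tc_star_mul a

lemma nz_nonneg (a : ZI) : 0 ≤ nz a := by rw [← nz_tc]; positivity

lemma one_le_nz {a : ZI} (ha : a ≠ 0) : 1 ≤ nz a := by
  rw [← nz_tc]
  have := Pool.Agent.H304R3.HK.one_le_norm_tc ha
  nlinarith

lemma sy_sq_mul {k b p : ZI} (hp : Prime p) (hb : ¬ p ∣ b) : sy (k * b ^ 2) p = sy k p := by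
  have h0 : p ∣ k * b ^ 2 ↔ p ∣ k := by
    constructor
    · intro h
      rcases hp.dvd_or_dvd h with h | h
      · exact h
      · exact absurd (hp.dvd_of_dvd_pow h) hb
    · intro h
      exact Dvd.dvd.mul_right h _
  have h1 : (∃ c : ZI, p ∣ c ^ 2 - k * b ^ 2) ↔ ∃ c : ZI, p ∣ c ^ 2 - k := by
    constructor
    · rintro ⟨c, hc⟩
      have hcop : IsCoprime p b := (Prime.coprime_iff_not_dvd hp).2 hb
      obtain ⟨u, v, huv⟩ := hcop
      refine ⟨c * v, ?_⟩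
      have e : (c * v) ^ 2 - k = v ^ 2 * (c ^ 2 - k * b ^ 2) + p * (k * (-2 * u + u ^ 2 * p)) := by
        have hv : v * b = 1 - u * p := by linear_combination huv
        have : (v * b) ^ 2 = (1 - u * p) ^ 2 := by rw [hv]
        linear_combination k * this
      rw [e]
      exact dvd_add (Dvd.dvd.mul_left hc _) (Dvd.intro _ rfl)
    · rintro ⟨c, hc⟩
      refine ⟨c * b, ?_⟩
      have e : (c * b) ^ 2 - k * b ^ 2 = (c ^ 2 - k) * b ^ 2 := by ring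
      rw [e]
      exact Dvd.dvd.mul_right hc _
  unfold sy
  by_cases h2 : p ∣ k
  · rw [if_pos h2, if_pos (h0.2 h2)]
  · rw [if_neg h2, if_neg (fun h => h2 (h0.1 h))]
    by_cases h3 : ∃ c : ZI, p ∣ c ^ 2 - k
    · rw [if_pos h3, if_pos (h1.2 h3)]
    · rw [if_neg h3, if_neg (fun h => h3 (h1.1 h))]

lemma att_of {ψ₀ ψ : ZI →* ℂ} {k b : ZI} (hb : b ≠ 0) (h : Att ψ₀ (k * b ^ 2) ψ) :
    Att ψ₀ k ψ := by
  obtain ⟨B, hB⟩ := h
  refine ⟨max B (nz b + 1), fun p hp hBp => ?_⟩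
  have hpb : ¬ p ∣ b := by
    rintro ⟨c, hc⟩
    have hc0 : c ≠ 0 := by
      rintro rfl
      exact hb (by rw [hc, mul_zero])
    have h1 : nz b = nz p * nz c := by rw [hc, nz_mul]
    have h2 := one_le_nz hc0
    have h3 : nz b + 1 ≤ nz p := (le_max_right _ _).trans hBp
    have h4 := nz_nonneg p
    nlinarith
  rw [hB p hp ((le_max_left _ _).trans hBp), sy_sq_mul hp hpb]

lemma isSquare_of {k b : ZI} (hb : b ≠ 0) (h : IsSquare (k * b ^ 2)) : IsSquare k := by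
  obtain ⟨r, hr⟩ := h
  have h2 : b ^ 2 ∣ r ^ 2 := ⟨k, by rw [sq r, ← hr]; ring⟩
  have h3 : b ∣ r := (IsIntegrallyClosed.pow_dvd_pow_iff two_ne_zero).1 h2
  obtain ⟨t, rfl⟩ := h3
  refine ⟨t, ?_⟩
  have h5 : b ^ 2 * k = b ^ 2 * (t * t) := by rw [mul_comm, hr]; ring
  exact mul_left_cancel₀ (pow_ne_zero 2 hb) h5

lemma ne_zero_of {m : ZI} (h : ¬ IsSquare m) : m ≠ 0 := by
  rintro rfl
  exact h ⟨0, by ring⟩

lemma mainL_ne {B : ℕ} {η X : ℝ} {m : ZI} (hm : MainL B η X m) : ¬ IsSquare m := by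
  obtain ⟨h1, k, b, h2, h3, h4, h5, h6, h7⟩ := hm
  rw [h6]
  exact fun h => h3 (isSquare_of h4 h)

lemma mainL_mono {B : ℕ} {η η' X : ℝ} (hX : 1 ≤ X) (h : η' ≤ η) {m : ZI}
    (hm : MainL B η' X m) : MainL B η X m := by
  obtain ⟨h1, k, b, h2, h3, h4, h5, h6, h7⟩ := hm
  refine ⟨h1, k, b, h2, h3, h4, h5, h6, le_trans ?_ h7⟩
  exact Real.rpow_le_rpow_of_exponent_le hX (by linarith)

lemma om_nonneg (X : ℝ) (m : ZI) : 0 ≤ om X m := (Real.exp_pos _).le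

lemma om_le_one {X : ℝ} (hX : 0 < X) (m : ZI) : om X m ≤ 1 := by
  unfold om
  refine Real.exp_le_one_iff.2 ?_
  have h1 := Real.pi_pos
  have h2 := nz_nonneg m
  have : 0 ≤ Real.pi * (nz m / X) := by positivity
  linarith

/-! ### the members of the family -/

/-- the conductors -/
lemma cond_bounds (hel : S_el) {d₀ : ZI} {ψ₀ : ZI →* ℂ} {C : ℝ}
    (hC : ∀ k : ZI, Squarefree k →
      (∃ (d : ZI) (ψ : ZI →* ℂ), HC d ψ ∧ Att ψ₀ k ψ) ∧
      ∀ (d : ZI) (ψ : ZI →* ℂ), HC d ψ → Att ψ₀ k ψ →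
        (∀ π : ZI, Prime π → ¬ π ∣ 2 → ¬ π ∣ d₀ → ψ π = ψ₀ π * ((sy k π : ℝ) : ℂ)) ∧
        nz k ≤ C * nz d ∧ nz d ≤ C * nz k) (hC0 : 0 ≤ C)
    {d : ZI → ZI} {ψ : ZI → (ZI →* ℂ)} (hq : QD ψ₀ d ψ) {m : ZI} (hsq : ¬ IsSquare m) :
    nz (d m) ≤ C * nz m ∧
    ∀ k b : ZI, Squarefree k → b ≠ 0 → m = k * b ^ 2 → nz k ≤ C * nz (d m) := by
  have key : ∀ k b : ZI, Squarefree k → b ≠ 0 → m = k * b ^ 2 →
      nz k ≤ C * nz (d m) ∧ nz (d m) ≤ C * nz k := by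
    intro k b hk hb hm
    have hatt : Att ψ₀ k (ψ m) := by
      refine att_of (b := b) hb ?_
      rw [← hm]
      exact hq.att m hsq
    exact ((hC k hk).2 (d m) (ψ m) (hq.hc m hsq) hatt).2
  refine ⟨?_, fun k b hk hb hm => (key k b hk hb hm).1⟩
  obtain ⟨k, b, hk, hck, hcb, hm⟩ := hel.2.2.1 m (ne_zero_of hsq)
  have hb : b ≠ 0 := by
    rintro rfl
    apply hsq
    rw [hm]
    exact ⟨0, by ring⟩
  have h1 := (key k b hk hb hm).2
  have h2 : nz k ≤ nz m := by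
    rw [hm, nz_mul, sq, nz_mul]
    have h3 := one_le_nz hb
    have h4 := nz_nonneg k
    have h5 : 1 ≤ nz b * nz b := by nlinarith
    nlinarith
  exact h1.trans (mul_le_mul_of_nonneg_left h2 hC0)

lemma log_tc {a : ZI} (_ha : a ≠ 0) : Real.log ‖tc a‖ = Real.log (nz a) / 2 := by
  rw [← nz_tc, Real.log_pow]
  push_cast
  ring

lemma count_small (hel : S_el) (J : Finset ZI) (X : ℝ) (hX : 1 ≤ X) :
    ∑ m ∈ J, (if nz m < Real.sqrt X then (1 : ℝ) else 0) ≤ 9 * Real.sqrt X := by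
  have hs1 : 1 ≤ Real.sqrt X := Real.one_le_sqrt.2 hX
  rw [← Finset.sum_filter, Finset.sum_const, nsmul_eq_mul, mul_one]
  refine hel.2.1 (Real.sqrt X) hs1 _ (fun m hm => ?_)
  exact (Finset.mem_filter.1 hm).2.le

theorem tail_bound (hchar : S_char) (hel : S_el) (d₀ : ZI) (ψ₀ : ZI →* ℂ) (h0 : HC d₀ ψ₀) :
    ∃ C : ℝ, 0 < C ∧ ∀ (d : ZI → ZI) (ψ : ZI → (ZI →* ℂ)), QD ψ₀ d ψ →
    ∀ (X T η θ : ℝ) (J : Finset ZI),
    Real.exp 12 ≤ X → (Real.log X) ^ 2 ≤ T → T ≤ X ^ η → η < 1 / 10 →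
    9 * Real.sqrt X ≤ θ * X → (∀ m ∈ J, ¬ IsSquare m) →
    ∑ m ∈ J, om X m * (1 + Real.log (2 + nz m)) ≤ θ * X * Real.log X →
    ∑ m ∈ J, om X m * (NN (LH (ψ m)) T (2 * T) : ℝ) ≤ C * θ * (X * T * Real.log X) := by
  obtain ⟨A, hA, hgood⟩ := Pool.Agent.H304R3.HK.goodH
  obtain ⟨C5, hC5, hz⟩ := H385.zcount_long_D 2 A (by norm_num) hA
  obtain ⟨Cc, hCc1, hCc⟩ := hchar d₀ ψ₀ h0
  have hlC : 0 ≤ Real.log Cc := Real.log_nonneg hCc1
  obtain ⟨K, hK⟩ : ∃ K, K = 1 + Real.log Cc := ⟨_, rfl⟩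
  have hK1 : 1 ≤ K := by linarith
  refine ⟨C5 * (K + 1), by positivity, ?_⟩
  intro d ψ hq X T η θ J hX hT1 hT2 hη1 hθX hJ hsum
  have hX0 : 0 < X := lt_of_lt_of_le (Real.exp_pos _) hX
  obtain ⟨L, hL⟩ : ∃ L, L = Real.log X := ⟨_, rfl⟩
  have hL12 : 12 ≤ L := by rwa [hL, Real.le_log_iff_exp_le hX0]
  have hX1 : 1 ≤ X := by
    have : (1 : ℝ) ≤ Real.exp 12 := Real.one_le_exp (by norm_num)
    linarith
  rw [← hL] at hT1 hsum ⊢
  have hLT : L ≤ T := by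
    refine le_trans ?_ hT1
    rw [sq]
    exact le_mul_of_one_le_right (by linarith) (by linarith)
  have hT0 : 0 < T := by linarith
  have hlogT : Real.log T ≤ L / 10 := by
    have := Real.log_le_log hT0 hT2
    rw [Real.log_rpow hX0, ← hL] at this
    have h2 : η * L ≤ 1 / 10 * L := mul_le_mul_of_nonneg_right hη1.le (by linarith)
    linarith
  have hsqL : Real.log (Real.sqrt X) = L / 2 := by
    rw [Real.log_sqrt hX0.le, hL]
  have hs0 : 0 < Real.sqrt X := Real.sqrt_pos.2 hX0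
  have hper : ∀ m ∈ J, om X m * (NN (LH (ψ m)) T (2 * T) : ℝ) ≤
      C5 * T * ((K + 0.2) * (om X m * (1 + Real.log (2 + nz m))) +
        L / 10 * (if nz m < Real.sqrt X then (1 : ℝ) else 0)) := by
    intro m hm
    have hsq := hJ m hm
    have hm0 := ne_zero_of hsq
    have hd := hq.hc m hsq
    obtain ⟨-, -, -, hg⟩ := hgood (d m) (ψ m) hd
    have hQ1 := Pool.Agent.H304R3.HK.one_le_norm_tc hd.q0
    have hz1 := hz ‖tc (d m)‖ (LH (ψ m)) _ hQ1 hg T (2 * T) (by linarith) (by linarith)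
    have hNm := (cond_bounds hel hCc (by linarith) hq hsq).1
    have hnm := one_le_nz hm0
    have hlog : Real.log (‖tc (d m)‖ * (2 * T)) ≤ K * (1 + Real.log (2 + nz m)) + L / 10 := by
      rw [Real.log_mul (by positivity) (by positivity), Real.log_mul (by norm_num) hT0.ne',
        log_tc hd.q0]
      have a1 : Real.log (nz (d m)) ≤ Real.log Cc + Real.log (2 + nz m) := by
        have b1 : nz (d m) ≤ Cc * (2 + nz m) := by
          refine hNm.trans (mul_le_mul_of_nonneg_left (by linarith) (by linarith))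
        have b2 := Real.log_le_log (by linarith [one_le_nz hd.q0]) b1
        rwa [Real.log_mul (by linarith) (by linarith)] at b2
      have a2 : 0 ≤ Real.log (2 + nz m) := Real.log_nonneg (by linarith)
      have a3 : Real.log 2 ≤ 1 := by linarith [Real.log_two_lt_d9]
      have a4 : K * (1 + Real.log (2 + nz m)) =
        1 + Real.log Cc + Real.log (2 + nz m) + Real.log Cc * Real.log (2 + nz m) := by
        rw [hK]; ring
      have a5 : 0 ≤ Real.log Cc * Real.log (2 + nz m) := mul_nonneg hlC a2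
      linarith
    have hlp : 0 ≤ Real.log (2 + nz m) := Real.log_nonneg (by linarith)
    have hNN : (NN (LH (ψ m)) T (2 * T) : ℝ) ≤
        C5 * T * (K * (1 + Real.log (2 + nz m)) + L / 10) := by
      refine hz1.trans ?_
      have e1 : C5 * (2 * T - T) * Real.log (‖tc (d m)‖ * (2 * T)) =
        C5 * T * Real.log (‖tc (d m)‖ * (2 * T)) := by ring
      rw [e1]
      exact mul_le_mul_of_nonneg_left hlog (by positivity)
    have h1 : om X m * (NN (LH (ψ m)) T (2 * T) : ℝ) ≤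
        om X m * (C5 * T * (K * (1 + Real.log (2 + nz m)) + L / 10)) :=
      mul_le_mul_of_nonneg_left hNN (om_nonneg X m)
    refine h1.trans ?_
    have e2 : om X m * (C5 * T * (K * (1 + Real.log (2 + nz m)) + L / 10)) =
      C5 * T * (K * (om X m * (1 + Real.log (2 + nz m))) + om X m * (L / 10)) := by ring
    rw [e2]
    refine mul_le_mul_of_nonneg_left ?_ (by positivity)
    have h2 : om X m * (L / 10) ≤ 0.2 * (om X m * (1 + Real.log (2 + nz m))) +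
        L / 10 * (if nz m < Real.sqrt X then (1 : ℝ) else 0) := by
      split_ifs with hlt
      · have a1 : om X m * (L / 10) ≤ 1 * (L / 10) :=
          mul_le_mul_of_nonneg_right (om_le_one hX0 m) (by linarith)
        have a2 : 0 ≤ om X m * (1 + Real.log (2 + nz m)) :=
          mul_nonneg (om_nonneg X m) (by linarith)
        linarith
      · push Not at hlt
        have a1 : L / 2 ≤ Real.log (2 + nz m) := by
          rw [← hsqL]
          exact Real.log_le_log hs0 (by linarith)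
        have a2 : om X m * (L / 10) ≤ om X m * (0.2 * (1 + Real.log (2 + nz m))) :=
          mul_le_mul_of_nonneg_left (by linarith) (om_nonneg X m)
        linarith
    linarith
  refine (Finset.sum_le_sum hper).trans ?_
  rw [← Finset.mul_sum, Finset.sum_add_distrib, ← Finset.mul_sum, ← Finset.mul_sum]
  have hcs := count_small hel J X hX1
  have h1 : L / 10 * ∑ m ∈ J, (if nz m < Real.sqrt X then (1 : ℝ) else 0) ≤
      L / 10 * (θ * X) := mul_le_mul_of_nonneg_left (hcs.trans hθX) (by linarith)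
  have hθX0 : 0 ≤ θ * X := le_trans (by positivity) hθX
  have h2 : (K + 0.2) * ∑ m ∈ J, om X m * (1 + Real.log (2 + nz m)) +
      L / 10 * ∑ m ∈ J, (if nz m < Real.sqrt X then (1 : ℝ) else 0) ≤
      (K + 1) * (θ * X * L) := by
    have h3 : 0 ≤ θ * X * L := mul_nonneg hθX0 (by linarith)
    have h4 : L / 10 * (θ * X) = 0.1 * (θ * X * L) := by ring
    have h5 : (K + 0.2) * ∑ m ∈ J, om X m * (1 + Real.log (2 + nz m)) ≤
      (K + 0.2) * (θ * X * L) := mul_le_mul_of_nonneg_left hsum (by linarith)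
    linarith
  calc _ ≤ C5 * T * ((K + 1) * (θ * X * L)) := mul_le_mul_of_nonneg_left h2 (by positivity)
    _ = _ := by ring

/-- lower bound for the number of zeros of a member of the family -/
theorem per_low (hchar : S_char) (hel : S_el) (d₀ : ZI) (ψ₀ : ZI →* ℂ) (h0 : HC d₀ ψ₀) :
    ∃ C : ℝ, 0 < C ∧ ∀ (B : ℕ) (η : ℝ), 0 < η → η < 1 / 10 →
    ∀ (d : ZI → ZI) (ψ : ZI → (ZI →* ℂ)), QD ψ₀ d ψ →
    ∀ (X T : ℝ) (m : ZI), Real.exp (C + 12) ≤ X → (Real.log X) ^ 2 ≤ T →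
      T ≤ X ^ η → MainL B η X m →
      (1 - η) * (T / (2 * Real.pi) * Real.log X) - C * T ≤ (NN (LH (ψ m)) T (2 * T) : ℝ) := by
  obtain ⟨A, hA, hgood⟩ := Pool.Agent.H304R3.HK.goodH
  obtain ⟨C2, hC2, hlow⟩ := H385.N_lower_D 2 A (by norm_num) hA
  obtain ⟨Cc, hCc1, hCc⟩ := hchar d₀ ψ₀ h0
  have hlC : 0 ≤ Real.log Cc := Real.log_nonneg hCc1
  refine ⟨5 * C2 + Real.log Cc, by positivity, ?_⟩
  intro B η hη hη1 d ψ hq X T m hX hT1 hT2 hm
  have hX0 : 0 < X := lt_of_lt_of_le (Real.exp_pos _) hX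
  obtain ⟨L, hL⟩ : ∃ L, L = Real.log X := ⟨_, rfl⟩
  have hLb : 5 * C2 + Real.log Cc + 12 ≤ L := by rwa [hL, Real.le_log_iff_exp_le hX0]
  have hL12 : 12 ≤ L := by linarith
  rw [← hL] at hT1 ⊢
  have hTT : 1 ≤ T := by nlinarith
  have hT0 : 0 < T := by linarith
  have hsq := mainL_ne hm
  have hcb := cond_bounds hel hCc (by linarith) hq hsq
  obtain ⟨hmX, k, b, hk, hk1, hb, hbB, hmk, hkX⟩ := hm
  rw [← hL] at hmX
  have hd := hq.hc m hsq
  have hkd := hcb.2 k b hk hb hmk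
  have hdm := hcb.1
  obtain ⟨-, -, -, hg⟩ := hgood (d m) (ψ m) hd
  have hQ1 := Pool.Agent.H304R3.HK.one_le_norm_tc hd.q0
  have hnd := one_le_nz hd.q0
  have hlogT : Real.log T ≤ η * L := by
    have := Real.log_le_log hT0 hT2
    rwa [Real.log_rpow hX0, ← hL] at this
  have hlogT0 : 0 ≤ Real.log T := Real.log_nonneg hTT
  have hsqL : 0 < Real.sqrt L := Real.sqrt_pos.2 (by linarith)
  have hT2' : T ≤ Real.exp (η * L) := by
    rw [hL, mul_comm, ← Real.rpow_def_of_pos hX0]; exact hT2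
  obtain ⟨p1, p2, p3, p4, p5, p6⟩ := H385.param_ok 1 L T η one_pos (by linarith)
    (by linarith) (by linarith) hT1 hT2'
  have hl := hlow ‖tc (d m)‖ (LH (ψ m)) _ hQ1 hg T L p1 p2
  refine le_trans ?_ hl
  have hpi := Real.pi_pos
  obtain ⟨V, hV⟩ : ∃ V, V = Real.log (‖tc (d m)‖ * T) := ⟨_, rfl⟩
  rw [← hV]
  have hVe : V = Real.log (nz (d m)) / 2 + Real.log T := by
    rw [hV, Real.log_mul (by positivity) hT0.ne', log_tc hd.q0]
  -- lower bound
  have g4 : (1 - η) * L - Real.log Cc ≤ 2 * V := by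
    have h1 : X ^ (1 - η) ≤ Cc * nz (d m) := hkX.trans hkd
    have h2 := Real.log_le_log (Real.rpow_pos_of_pos hX0 _) h1
    rw [Real.log_rpow hX0, ← hL, Real.log_mul (by linarith) (by linarith)] at h2
    linarith
  -- upper bound
  have g3 : V ≤ 3 * L := by
    have h1 : nz (d m) ≤ Cc * (X * Real.sqrt L) :=
      hdm.trans (mul_le_mul_of_nonneg_left hmX (by linarith))
    have h2 := Real.log_le_log (by linarith) h1
    rw [Real.log_mul (by linarith) (by positivity), Real.log_mul hX0.ne' hsqL.ne', ← hL] at h2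
    have h5 : Real.log (Real.sqrt L) ≤ Real.sqrt L := by
      have := Real.log_le_sub_one_of_pos hsqL
      linarith
    have h6 : Real.sqrt L ≤ L := by
      rw [Real.sqrt_le_left (by linarith)]
      nlinarith
    have h7 : η * L ≤ 1 / 10 * L := mul_le_mul_of_nonneg_right hη1.le (by linarith)
    linarith
  have hV0 : 0 ≤ V := by
    rw [hVe]
    have := Real.log_nonneg hnd
    linarith
  have a1 : T / (2 * Real.pi) * ((1 - η) * L - Real.log Cc) ≤ T / (2 * Real.pi) * (2 * V) :=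
    mul_le_mul_of_nonneg_left g4 (by positivity)
  have a2 : L * V ≤ 3 * T := by
    have : L * V ≤ L * (3 * L) := mul_le_mul_of_nonneg_left g3 (by linarith)
    linarith [show L * (3 * L) = 3 * L ^ 2 by ring]
  have a3 : T * V ^ 2 * Real.exp (-L ^ 2 / 2) ≤ T := by
    have b1 : V ^ 2 ≤ (3 * L) ^ 2 := pow_le_pow_left₀ hV0 g3 2
    have b2 : V ^ 2 * Real.exp (-L ^ 2 / 2) ≤ 1 := by
      refine le_trans (mul_le_mul_of_nonneg_right b1 (Real.exp_pos _).le) ?_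
      rw [show (3 * L) ^ 2 = 9 * L ^ 2 by ring]; exact p6
    calc _ = T * (V ^ 2 * Real.exp (-L ^ 2 / 2)) := by ring
      _ ≤ T * 1 := mul_le_mul_of_nonneg_left b2 hT0.le
      _ = T := mul_one T
  have a4 : C2 * (T + L * V + T * V ^ 2 * Real.exp (-L ^ 2 / 2)) ≤ C2 * (5 * T) :=
    mul_le_mul_of_nonneg_left (by linarith) hC2.le
  have a5 : T / (2 * Real.pi) * Real.log Cc ≤ T * Real.log Cc := by
    refine mul_le_mul_of_nonneg_right ?_ hlC
    exact div_le_self hT0.le (by linarith [Real.pi_gt_three])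
  have a6 : T / (2 * Real.pi) * ((1 - η) * L - Real.log Cc) =
    (1 - η) * (T / (2 * Real.pi) * L) - T / (2 * Real.pi) * Real.log Cc := by ring
  linarith

lemma combine (S : Finset ZI) (P : ZI → Prop) [DecidablePred P] (o n a : ZI → ℝ) (κ E : ℝ)
    (hκ : 0 ≤ κ) (ho : ∀ m, 0 ≤ o m) (hn : ∀ m, 0 ≤ n m) (ha : ∀ m, a m ≤ 3 * n m)
    (h1 : ∑ m ∈ S.filter P, o m * a m + E ≤ κ * ∑ m ∈ S.filter P, o m * n m)
    (h2 : 3 * ∑ m ∈ S.filter (fun m => ¬ P m), o m * n m ≤ E) :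
    ∑ m ∈ S, o m * a m ≤ κ * ∑ m ∈ S, o m * n m := by
  rw [← Finset.sum_filter_add_sum_filter_not S P (fun m => o m * a m),
    ← Finset.sum_filter_add_sum_filter_not S P (fun m => o m * n m)]
  have h3 : ∑ m ∈ S.filter (fun m => ¬ P m), o m * a m ≤
      3 * ∑ m ∈ S.filter (fun m => ¬ P m), o m * n m := by
    rw [Finset.mul_sum]
    refine Finset.sum_le_sum fun m _ => ?_
    have := mul_le_mul_of_nonneg_left (ha m) (ho m)
    linarith
  have h4 : 0 ≤ κ * ∑ m ∈ S.filter (fun m => ¬ P m), o m * n m :=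
    mul_nonneg hκ (Finset.sum_nonneg fun m _ => mul_nonneg (ho m) (hn m))
  rw [mul_add]
  linarith

lemma third_claim {W X T L η w a C : ℝ} (hX : 0 ≤ X) (hT : 0 ≤ T) (hWX : w * X ≤ W)
    (hw : 0 < w) (hw1 : w ≤ 1) (hη : η ≤ 1 / 50) (hL : 0 ≤ L)
    (ha : a + 1 / 300 ≤ 0.98 * w / (2 * Real.pi)) (hLC : 300 * C ≤ L) :
    a * (X * T * L) ≤ W * ((1 - η) * (T / (2 * Real.pi) * L) - C * T) := by
  have hpi := Real.pi_pos
  have h1 : T * L * (0.98 / (2 * Real.pi) - 1 / 300) ≤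
      (1 - η) * (T / (2 * Real.pi) * L) - C * T := by
    have b1 : 300 * C * T ≤ L * T := mul_le_mul_of_nonneg_right hLC hT
    have b2 : 0.98 * (T / (2 * Real.pi) * L) ≤ (1 - η) * (T / (2 * Real.pi) * L) :=
      mul_le_mul_of_nonneg_right (by linarith) (by positivity)
    have b3 : T * L * (0.98 / (2 * Real.pi) - 1 / 300) =
      0.98 * (T / (2 * Real.pi) * L) - T * L / 300 := by ring
    linarith
  have hc : 0 ≤ 0.98 / (2 * Real.pi) - 1 / 300 := by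
    have : 1 / 300 ≤ 0.98 / (2 * Real.pi) := by
      rw [le_div_iff₀ (by positivity)]
      linarith [Real.pi_lt_four]
    linarith
  have h2 : 0 ≤ T * L * (0.98 / (2 * Real.pi) - 1 / 300) := by positivity
  have h3 : a ≤ w * (0.98 / (2 * Real.pi) - 1 / 300) := by
    have : w * (0.98 / (2 * Real.pi) - 1 / 300) = 0.98 * w / (2 * Real.pi) - w / 300 := by ring
    rw [this]
    linarith
  calc a * (X * T * L) ≤ (w * (0.98 / (2 * Real.pi) - 1 / 300)) * (X * T * L) :=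
        mul_le_mul_of_nonneg_right h3 (by positivity)
    _ = (w * X) * (T * L * (0.98 / (2 * Real.pi) - 1 / 300)) := by ring
    _ ≤ W * (T * L * (0.98 / (2 * Real.pi) - 1 / 300)) := mul_le_mul_of_nonneg_right hWX h2
    _ ≤ _ := mul_le_mul_of_nonneg_left h1 (le_trans (by positivity) hWX)

lemma J_nonneg : 0 ≤ ∫ α in (0 : ℝ)..1, α * Rw 1.414 α := by
  apply intervalIntegral.integral_nonneg zero_le_one
  intro α hα
  exact mul_nonneg hα.1 (Rw_nonneg 1.414 (by norm_num) (by linarith [Real.pi_gt_three]) α)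

lemma piece_nonneg (F : ℂ → ℂ) (T1 T2 : ℝ) :
    (2 * (NN F T1 T2 : ℝ) - (Ns F T1 T2 : ℝ)) ≤ 3 * (NN F T1 T2 : ℝ) ∧
    (3 * (NN F T1 T2 : ℝ) - 2 * (Nd F T1 T2 : ℝ)) ≤ 3 * (NN F T1 T2 : ℝ) := by
  have h1 : (0 : ℝ) ≤ (NN F T1 T2 : ℝ) := Nat.cast_nonneg _
  have h2 : (0 : ℝ) ≤ (Ns F T1 T2 : ℝ) := Nat.cast_nonneg _
  have h3 : (0 : ℝ) ≤ (Nd F T1 T2 : ℝ) := Nat.cast_nonneg _
  constructor <;> linarith

lemma exists_X0 (X1 X2 X3 θ C : ℝ) (h1 : 3 ≤ X1) (hθ : 0 < θ) : ∃ X0 : ℝ, 3 ≤ X0 ∧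
    ∀ X : ℝ, X0 ≤ X → X1 ≤ X ∧ X2 ≤ X ∧ X3 ≤ X ∧ Real.exp (C + 12) ≤ X ∧ Real.exp 12 ≤ X ∧
      300 * C ≤ Real.log X ∧ 9 * Real.sqrt X ≤ θ * X := by
  refine ⟨max X1 (max X2 (max X3 (max (Real.exp (C + 12)) (max (Real.exp 12)
    (max (Real.exp (300 * C)) ((9 / θ) ^ 2)))))), h1.trans (le_max_left _ _), ?_⟩
  intro X hX
  simp only [max_le_iff] at hX
  obtain ⟨a1, a2, a3, a4, a5, a6, a7⟩ := hX
  have hX0 : 0 < X := by linarith
  refine ⟨a1, a2, a3, a4, a5, ?_, ?_⟩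
  · rwa [Real.le_log_iff_exp_le hX0]
  · have b1 : 9 / θ ≤ Real.sqrt X := Real.le_sqrt_of_sq_le a7
    rw [div_le_iff₀ hθ] at b1
    have b2 := Real.mul_self_sqrt hX0.le
    calc 9 * Real.sqrt X ≤ (Real.sqrt X * θ) * Real.sqrt X :=
          mul_le_mul_of_nonneg_right b1 (Real.sqrt_nonneg X)
      _ = θ * (Real.sqrt X * Real.sqrt X) := by ring
      _ = θ * X := by rw [b2]

/-- G13: all non-squares -/
theorem fin_main (hcore : S_core) (hchar : S_char) (hA : S_wtA) (hB : S_wtB) (hel : S_el) :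
    S_fin := by
  classical
  obtain ⟨CA, hCA, hA⟩ := hA
  obtain ⟨J, hJ⟩ : ∃ J, J = ∫ α in (0:ℝ)..1, α * Rw 1.414 α := ⟨_, rfl⟩
  have hJ0 : 0 ≤ J := hJ ▸ J_nonneg
  have hd2 : Rw 1.414 0 + 2 * J < 1.3275 := by rw [hJ]; exact H385.Rw_const_d2
  have hR0 : 0 ≤ Rw 1.414 0 :=
    Rw_nonneg 1.414 (by norm_num) (by linarith [Real.pi_gt_three]) 0
  obtain ⟨κ, hκ1, hκ2⟩ : ∃ κ : ℝ, Rw 1.414 0 + 2 * J < κ ∧ κ < 1.3275 := exists_between hd2
  refine ⟨κ, hκ2, ?_⟩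
  intro d₀ ψ₀ h0
  obtain ⟨C5, hC5, htail⟩ := tail_bound hchar hel d₀ ψ₀ h0
  obtain ⟨C, hC, hlow⟩ := per_low hchar hel d₀ ψ₀ h0
  obtain ⟨δ, hδ⟩ : ∃ δ, δ = κ - (Rw 1.414 0 + 2 * J) := ⟨_, rfl⟩
  have hδ0 : 0 < δ := by linarith
  obtain ⟨e', he0, he1, he2⟩ : ∃ e' : ℝ, 0 < e' ∧ e' ≤ 1 / 1000 ∧ e' * (4 * J) < δ := by
    refine ⟨min (1 / 1000) (δ / (4 * (J + 1))), by positivity, min_le_left _ _, ?_⟩
    have h1 : min (1 / 1000) (δ / (4 * (J + 1))) ≤ δ / (4 * (J + 1)) := min_le_right _ _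
    calc min (1 / 1000) (δ / (4 * (J + 1))) * (4 * J) ≤ δ / (4 * (J + 1)) * (4 * J) :=
          mul_le_mul_of_nonneg_right h1 (by positivity)
      _ < δ := by
        rw [div_mul_eq_mul_div, div_lt_iff₀ (by positivity)]
        exact mul_lt_mul_of_pos_left (by linarith) hδ0
  have hκ : Rw 1.414 0 + 2 * (1 / (1 - e')) * (∫ α in (0 : ℝ)..1, α * Rw 1.414 α) < κ := by
    rw [← hJ]
    have h1 : 1 / (1 - e') ≤ 1 + 2 * e' := by
      rw [div_le_iff₀ (by linarith)]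
      nlinarith
    have h2 : 2 * (1 / (1 - e')) * J ≤ 2 * (1 + 2 * e') * J := by gcongr
    linarith [show 2 * (1 + 2 * e') * J = 2 * J + e' * (4 * J) by ring]
  obtain ⟨e, η0, he, hη0, hη01, hc⟩ := hcore d₀ ψ₀ h0 (1 - e') κ (by linarith) hκ
  obtain ⟨η, hη, hηη0, hη50⟩ : ∃ η : ℝ, 0 < η ∧ η ≤ η0 ∧ η ≤ 1 / 50 :=
    ⟨min η0 (1 / 50), by positivity, min_le_left _ _, min_le_right _ _⟩
  obtain ⟨B0, hB0⟩ := hB e' he0
  obtain ⟨B, hB1, hBB0, hBe⟩ : ∃ B : ℕ, 1 ≤ B ∧ B0 ≤ B ∧ 3 * (C5 * (CA / B)) ≤ e := by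
    have hb : (1 : ℕ) ≤ max (max B0 1) ⌈3 * C5 * CA / e⌉₊ :=
      (le_max_right _ _).trans (le_max_left _ _)
    refine ⟨max (max B0 1) ⌈3 * C5 * CA / e⌉₊, hb,
      (le_max_left _ _).trans (le_max_left _ _), ?_⟩
    have h1 : 3 * C5 * CA / e ≤ ((max (max B0 1) ⌈3 * C5 * CA / e⌉₊ : ℕ) : ℝ) :=
      (Nat.le_ceil _).trans (by exact_mod_cast le_max_right _ _)
    have h2 : (0 : ℝ) < ((max (max B0 1) ⌈3 * C5 * CA / e⌉₊ : ℕ) : ℝ) := by
      exact_mod_cast hb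
    have e1 : 3 * (C5 * (CA / ((max (max B0 1) ⌈3 * C5 * CA / e⌉₊ : ℕ) : ℝ))) =
      3 * C5 * CA / ((max (max B0 1) ⌈3 * C5 * CA / e⌉₊ : ℕ) : ℝ) := by ring
    rw [e1, div_le_iff₀ h2]
    rw [div_le_iff₀ he] at h1
    linarith
  have hBpos : (0 : ℝ) < B := by exact_mod_cast hB1
  obtain ⟨X1, hX1, h1⟩ := hc B hB1
  obtain ⟨X2, hX2, h2⟩ := hA B η hB1 hη (by linarith)
  obtain ⟨X3, hX3, h3⟩ := hB0 B η hBB0 hη (by linarith)
  obtain ⟨X0, hX0, hXX⟩ := exists_X0 X1 X2 X3 (CA / B) C hX1 (by positivity)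
  refine ⟨η, X0, hη, hX0, ?_⟩
  intro d ψ hq X T Y hX hT1 hT2 hY S hS
  obtain ⟨g1, g2, g3, g4, g4', g5, g6⟩ := hXX X hX
  have hX1' : 1 ≤ X := by linarith
  have hXpos : 0 < X := by linarith
  have hL12 : 12 ≤ Real.log X := by rwa [Real.le_log_iff_exp_le hXpos]
  have hT0 : 0 ≤ T := le_trans (sq_nonneg _) hT1
  have hWI : (1 - e') * X ≤ ∑ m ∈ S.filter (MainL B η X), om X m := by
    refine h3 X Y g3 hY _ (fun m => ?_)
    rw [Finset.mem_filter, hS]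
    exact ⟨fun h => ⟨h.1.1, h.2⟩, fun h => ⟨⟨h.1, mainL_ne h.2⟩, h.2⟩⟩
  have hWJ : ∑ m ∈ S.filter (fun m => ¬ MainL B η X m),
      om X m * (1 + Real.log (2 + nz m)) ≤ CA / B * X * Real.log X := by
    refine h2 X _ g2 (fun m hm => ?_)
    rw [Finset.mem_filter, hS] at hm
    exact ⟨ne_zero_of hm.1.2, hm.2⟩
  have hTη : T ≤ X ^ η0 := hT2.trans (Real.rpow_le_rpow_of_exponent_le hX1' hηη0)
  have hI := h1 d ψ hq X T (S.filter (MainL B η X)) g1 hT1 hTη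
    (fun m hm => mainL_mono hX1' hηη0 (Finset.mem_filter.1 hm).2) hWI
  have hpi := Real.pi_pos
  have hNN : ∀ m, 0 ≤ (NN (LH (ψ m)) T (2 * T) : ℝ) := fun m => Nat.cast_nonneg _
  have hXTL : 0 ≤ X * T * Real.log X := by positivity
  have hκ0 : 0 ≤ κ := by linarith
  have hJ' : 3 * ∑ m ∈ S.filter (fun m => ¬ MainL B η X m),
      om X m * (NN (LH (ψ m)) T (2 * T) : ℝ) ≤ e * (X * T * Real.log X) := by
    have k1 := htail d ψ hq X T η (CA / B) (S.filter (fun m => ¬ MainL B η X m)) g4' hT1 hT2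
      (by linarith) g6 (fun m hm => ((hS m).1 (Finset.mem_filter.1 hm).1).2) hWJ
    have k2 : 3 * (C5 * (CA / B)) * (X * T * Real.log X) ≤ e * (X * T * Real.log X) :=
      mul_le_mul_of_nonneg_right hBe hXTL
    linarith
  refine ⟨?_, ?_, ?_⟩
  · exact combine S (MainL B η X) (om X) (fun m => (NN (LH (ψ m)) T (2 * T) : ℝ))
      (fun m => 2 * (NN (LH (ψ m)) T (2 * T) : ℝ) - (Ns (LH (ψ m)) T (2 * T) : ℝ))
      κ _ hκ0 (om_nonneg X) hNN (fun m => (piece_nonneg _ _ _).1) hI.1 hJ'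
  · exact combine S (MainL B η X) (om X) (fun m => (NN (LH (ψ m)) T (2 * T) : ℝ))
      (fun m => 3 * (NN (LH (ψ m)) T (2 * T) : ℝ) -
        2 * (Nd (LH (ψ m)) T (2 * T) : ℝ))
      κ _ hκ0 (om_nonneg X) hNN (fun m => (piece_nonneg _ _ _).2) hI.2 hJ'
  · have k1 := third_claim (a := 1 / 7) hXpos.le hT0 hWI (by linarith) (by linarith) hη50
      (by linarith) (by
        rw [le_div_iff₀ (by positivity)]
        have := Real.pi_lt_d2
        linarith) g5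
    have k2 : (∑ m ∈ S.filter (MainL B η X), om X m) *
        ((1 - η) * (T / (2 * Real.pi) * Real.log X) - C * T) ≤
        ∑ m ∈ S.filter (MainL B η X), om X m * (NN (LH (ψ m)) T (2 * T) : ℝ) := by
      rw [Finset.sum_mul]
      refine Finset.sum_le_sum fun m hm => mul_le_mul_of_nonneg_left ?_ (om_nonneg X m)
      exact hlow B η hη (by linarith) d ψ hq X T m g4 hT1 hT2 (Finset.mem_filter.1 hm).2
    have k3 : ∑ m ∈ S.filter (MainL B η X), om X m * (NN (LH (ψ m)) T (2 * T) : ℝ) ≤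
        ∑ m ∈ S, om X m * (NN (LH (ψ m)) T (2 * T) : ℝ) :=
      Finset.sum_le_sum_of_subset_of_nonneg (Finset.filter_subset _ _)
        (fun m _ _ => mul_nonneg (om_nonneg X m) (hNN m))
    linarith

end Pool.Agent.N880.QI
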