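import Pool.Agent.N880.QI.Stm

/-!
Project QI (helper880), leaf G3 (helper756): Gaussian sums over the Gaussian integers.
-/

set_option autoImplicit false

open Filter Topology MeasureTheory Set
open H385 (ZI)

namespace Pool.Agent.N880.QI

namespace Gsum

/-- the Gaussian integers as pairs -/
def eqv : ZI ≃ ℤ × ℤ where
  toFun m := (m.re, m.im)
  invFun p := ⟨p.1, p.2⟩
  left_inv _ := rfl
  right_inv _ := rfl

theorem nz_eq (m : ZI) : nz m = (m.re : ℝ) ^ 2 + (m.im : ℝ) ^ 2 := by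
  unfold nz
  rw [Zsqrtd.norm_def]
  push_cast
  ring

theorem nz_nonneg (m : ZI) : 0 ≤ nz m := by
  rw [nz_eq]; positivity

theorem nz_int (m : ZI) : ∃ n : ℕ, nz m = n := by
  refine ⟨(Zsqrtd.norm m).toNat, ?_⟩
  have h0 : (0 : ℤ) ≤ Zsqrtd.norm m := by
    have := nz_nonneg m
    unfold nz at this
    exact_mod_cast this
  unfold nz
  have h1 : (((Zsqrtd.norm m).toNat : ℤ) : ℝ) = ((Zsqrtd.norm m : ℤ) : ℝ) := by
    rw [Int.toNat_of_nonneg h0]
  rw [← h1]
  push_cast
  rfl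

theorem one_le_nz {m : ZI} (hm : m ≠ 0) : 1 ≤ nz m := by
  obtain ⟨n, hn⟩ := nz_int m
  have h1 : nz m ≠ 0 := by
    intro h
    apply hm
    rw [nz_eq] at h
    have h2 : (m.re : ℝ) = 0 := by nlinarith [sq_nonneg (m.re : ℝ), sq_nonneg (m.im : ℝ)]
    have h3 : (m.im : ℝ) = 0 := by nlinarith [sq_nonneg (m.re : ℝ), sq_nonneg (m.im : ℝ)]
    have h2' : m.re = 0 := by exact_mod_cast h2
    have h3' : m.im = 0 := by exact_mod_cast h3
    exact Zsqrtd.ext h2' h3'
  rw [hn] at h1 ⊢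
  have : n ≠ 0 := by exact_mod_cast h1
  exact_mod_cast Nat.one_le_iff_ne_zero.2 this

theorem nz_mul (a b : ZI) : nz (a * b) = nz a * nz b := by
  unfold nz
  rw [Zsqrtd.norm_mul]
  push_cast
  rfl

/-- the theta function -/
noncomputable def th (Y : ℝ) : ℝ := ∑' n : ℤ, Real.exp (-(Real.pi * ((n : ℝ) ^ 2 * Y)))

theorem nat_sum (Y : ℝ) (hY : 0 < Y) :
    Summable (fun n : ℕ => Real.exp (-(Real.pi * (((n : ℝ) + 1) ^ 2 * Y)))) ∧
    (1 ≤ Y → ∑' n : ℕ, Real.exp (-(Real.pi * (((n : ℝ) + 1) ^ 2 * Y))) ≤ 2 / (15 * Y)) := by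
  have hpY : 0 < Real.pi * Y := mul_pos Real.pi_pos hY
  set r : ℝ := Real.exp (-(Real.pi * Y)) with hr
  have hr0 : 0 < r := Real.exp_pos _
  have hr1 : r < 1 := by rw [hr, Real.exp_lt_one_iff]; linarith
  have hle : ∀ n : ℕ, Real.exp (-(Real.pi * (((n : ℝ) + 1) ^ 2 * Y))) ≤ r * r ^ n := by
    intro n
    have e : r * r ^ n = Real.exp (-(Real.pi * (((n : ℝ) + 1) * Y))) := by
      rw [hr, ← Real.exp_nat_mul, ← Real.exp_add]
      congr 1
      ring
    rw [e]
    apply Real.exp_le_exp.2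
    have h1 : ((n : ℝ) + 1) * Y ≤ ((n : ℝ) + 1) ^ 2 * Y := by
      apply mul_le_mul_of_nonneg_right _ hY.le
      nlinarith [Nat.cast_nonneg (α := ℝ) n]
    have := mul_le_mul_of_nonneg_left h1 Real.pi_pos.le
    linarith
  have hg : Summable (fun n : ℕ => r * r ^ n) := (summable_geometric_of_lt_one hr0.le hr1).mul_left _
  have hs : Summable (fun n : ℕ => Real.exp (-(Real.pi * (((n : ℝ) + 1) ^ 2 * Y)))) :=
    Summable.of_nonneg_of_le (fun n => (Real.exp_pos _).le) hle hg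
  refine ⟨hs, fun hY1 => (hs.tsum_le_tsum hle hg).trans ?_⟩
  rw [tsum_mul_left, tsum_geometric_of_lt_one hr0.le hr1]
  have h2 : 1 + Real.pi * Y + (Real.pi * Y) ^ 2 / 2 ≤ Real.exp (Real.pi * Y) :=
    Real.quadratic_le_exp_of_nonneg hpY.le
  have h3 : 3 * Y ≤ Real.pi * Y := mul_le_mul_of_nonneg_right Real.pi_gt_three.le hY.le
  have h4 : 1 + 15 / 2 * Y ≤ Real.exp (Real.pi * Y) := by
    have h5 : (3 * Y) ^ 2 ≤ (Real.pi * Y) ^ 2 := by gcongr
    nlinarith
  have h5 : r * Real.exp (Real.pi * Y) = 1 := by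
    rw [hr, ← Real.exp_add]; simp
  have h6 : r * (1 + 15 / 2 * Y) ≤ 1 := by
    calc r * (1 + 15 / 2 * Y) ≤ r * Real.exp (Real.pi * Y) := mul_le_mul_of_nonneg_left h4 hr0.le
      _ = 1 := h5
  rw [← div_eq_mul_inv, div_le_div_iff₀ (by linarith) (by positivity)]
  linarith

theorem int_sum (Y : ℝ) (hY : 0 < Y) :
    HasSum (fun n : ℤ => Real.exp (-(Real.pi * ((n : ℝ) ^ 2 * Y))))
      (1 + 2 * ∑' n : ℕ, Real.exp (-(Real.pi * (((n : ℝ) + 1) ^ 2 * Y)))) := by
  obtain ⟨hs, -⟩ := nat_sum Y hY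
  set S := ∑' n : ℕ, Real.exp (-(Real.pi * (((n : ℝ) + 1) ^ 2 * Y))) with hS
  have h1 : HasSum (fun n : ℕ => Real.exp (-(Real.pi * ((((n : ℕ) : ℤ) : ℝ) ^ 2 * Y)))) (S + 1) := by
    have h2 := (hasSum_nat_add_iff
      (f := fun n : ℕ => Real.exp (-(Real.pi * ((((n : ℕ) : ℤ) : ℝ) ^ 2 * Y)))) (g := S) 1).1 (by
        have : (fun n : ℕ => Real.exp (-(Real.pi * ((((n + 1 : ℕ) : ℤ) : ℝ) ^ 2 * Y)))) =
            fun n : ℕ => Real.exp (-(Real.pi * (((n : ℝ) + 1) ^ 2 * Y))) := by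
          funext n
          push_cast
          rfl
        rw [this]
        exact hs.hasSum)
    simpa using h2
  have h4 := HasSum.of_nat_of_neg_add_one
    (f := fun n : ℤ => Real.exp (-(Real.pi * ((n : ℝ) ^ 2 * Y)))) h1 (by
      have : (fun n : ℕ => Real.exp (-(Real.pi * (((-((n : ℤ) + 1) : ℤ) : ℝ) ^ 2 * Y)))) =
          fun n : ℕ => Real.exp (-(Real.pi * (((n : ℝ) + 1) ^ 2 * Y))) := by
        funext n
        congr 3
        push_cast
        ring
      rw [this]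
      exact hs.hasSum)
  convert h4 using 1
  ring

theorem th_eq (Y : ℝ) (hY : 0 < Y) :
    th Y = 1 + 2 * ∑' n : ℕ, Real.exp (-(Real.pi * (((n : ℝ) + 1) ^ 2 * Y))) :=
  (int_sum Y hY).tsum_eq

theorem one_le_th (Y : ℝ) (hY : 0 < Y) : 1 ≤ th Y := by
  rw [th_eq Y hY]
  have : 0 ≤ ∑' n : ℕ, Real.exp (-(Real.pi * (((n : ℝ) + 1) ^ 2 * Y))) :=
    tsum_nonneg fun j => (Real.exp_pos _).le
  linarith

theorem th_inv (Y : ℝ) (hY : 0 < Y) : th Y ^ 2 = 1 / Y * th (1 / Y) ^ 2 := by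
  have h2 := Real.tsum_exp_neg_mul_int_sq (a := Y) hY
  have h3 : (Y ^ (1 / 2 : ℝ)) ^ 2 = Y := by
    rw [← Real.sqrt_eq_rpow, Real.sq_sqrt hY.le]
  have e1 : th Y = ∑' n : ℤ, Real.exp (-Real.pi * Y * (n : ℝ) ^ 2) := by
    unfold th
    refine tsum_congr fun k => ?_
    congr 1
    ring
  have e2 : th (1 / Y) = ∑' n : ℤ, Real.exp (-Real.pi / Y * (n : ℝ) ^ 2) := by
    unfold th
    refine tsum_congr fun k => ?_
    congr 1
    field_simp
  rw [e1, e2, h2, mul_pow, div_pow, one_pow, h3]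

theorem th_ge (Y : ℝ) (hY : 0 < Y) : 1 / Y ≤ th Y ^ 2 := by
  rw [th_inv Y hY]
  have h1 := one_le_th (1 / Y) (by positivity)
  have h2 : 1 ≤ th (1 / Y) ^ 2 := one_le_pow₀ h1
  calc 1 / Y = 1 / Y * 1 := (mul_one _).symm
    _ ≤ _ := mul_le_mul_of_nonneg_left h2 (by positivity)

theorem th_le_one (Y : ℝ) (hY : 1 ≤ Y) : th Y ^ 2 ≤ 1 + 1 / Y := by
  have hY0 : 0 < Y := by linarith
  have h1 := (nat_sum Y hY0).2 hY
  have h0 := one_le_th Y hY0
  have h2 : th Y ≤ 1 + 4 / 15 * (1 / Y) := by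
    rw [th_eq Y hY0]
    have : 2 / (15 * Y) = 2 / 15 * (1 / Y) := by field_simp
    rw [this] at h1
    linarith
  have h3 : 1 / Y ≤ 1 := by rw [div_le_one hY0]; exact hY
  have h4 : 0 < 1 / Y := by positivity
  have h5 : th Y ^ 2 ≤ (1 + 4 / 15 * (1 / Y)) ^ 2 := by gcongr
  nlinarith

theorem th_le (Y : ℝ) (hY : 0 < Y) : th Y ^ 2 ≤ 1 + 1 / Y := by
  rcases le_total 1 Y with h | h
  · exact th_le_one Y h
  · have h1 : 1 ≤ 1 / Y := by rw [le_div_iff₀ hY]; linarith
    have h2 := th_le_one (1 / Y) h1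
    rw [one_div_one_div] at h2
    rw [th_inv Y hY]
    calc 1 / Y * th (1 / Y) ^ 2 ≤ 1 / Y * (1 + Y) := mul_le_mul_of_nonneg_left h2 (by positivity)
      _ = 1 + 1 / Y := by field_simp; ring

theorem full (Y : ℝ) (hY : 0 < Y) :
    Summable (fun k : ZI => Real.exp (-(Real.pi * (nz k * Y)))) ∧
    ∑' k : ZI, Real.exp (-(Real.pi * (nz k * Y))) = th Y ^ 2 := by
  have hs := (int_sum Y hY).summable
  have hp : Summable (fun x : ℤ × ℤ => Real.exp (-(Real.pi * ((x.1 : ℝ) ^ 2 * Y))) *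
      Real.exp (-(Real.pi * ((x.2 : ℝ) ^ 2 * Y)))) :=
    hs.mul_of_nonneg hs (fun _ => (Real.exp_pos _).le) (fun _ => (Real.exp_pos _).le)
  have he : (fun k : ZI => Real.exp (-(Real.pi * (nz k * Y)))) =
      (fun x : ℤ × ℤ => Real.exp (-(Real.pi * ((x.1 : ℝ) ^ 2 * Y))) *
      Real.exp (-(Real.pi * ((x.2 : ℝ) ^ 2 * Y)))) ∘ eqv := by
    funext k
    rw [Function.comp_apply, ← Real.exp_add, nz_eq]
    congr 1
    simp only [eqv, Equiv.coe_fn_mk]
    ring
  rw [he]
  refine ⟨eqv.summable_iff.2 hp, ?_⟩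
  have h1 := eqv.tsum_eq (fun x : ℤ × ℤ => Real.exp (-(Real.pi * ((x.1 : ℝ) ^ 2 * Y))) *
      Real.exp (-(Real.pi * ((x.2 : ℝ) ^ 2 * Y))))
  have h2 := hs.tsum_mul_tsum hs hp
  have h3 : th Y ^ 2 = th Y * th Y := pow_two _
  rw [h3]
  unfold th
  rw [h2, ← h1]
  rfl

theorem nz_zero : nz 0 = 0 := by
  rw [nz_eq]
  simp

theorem sum_ne (Y : ℝ) (hY : 0 < Y) (inst : ∀ k : ZI, Decidable (k = 0)) :
    ∑' k : ZI, (if k = 0 then 0 else Real.exp (-(Real.pi * (nz k * Y)))) = th Y ^ 2 - 1 := by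
  classical
  obtain ⟨h1, h2⟩ := full Y hY
  have h3 := h1.tsum_eq_add_tsum_ite (0 : ZI)
  rw [h2] at h3
  have h4 : Real.exp (-(Real.pi * (nz 0 * Y))) = 1 := by
    rw [nz_zero]; simp
  rw [h4] at h3
  rw [h3, add_sub_cancel_left]
  refine tsum_congr fun k => ?_
  by_cases hk : k = 0
  · rw [if_pos hk, if_pos hk]
  · rw [if_neg hk, if_neg hk]

/-- the constant of the decay -/
theorem decay (N : ℕ) (x : ℝ) (hx : 0 < x) : Real.exp (-(Real.pi * x)) ≤ (N.factorial : ℝ) / x ^ N := by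
  have h2 := Real.pow_div_factorial_le_exp x hx.le N
  have hf : (0 : ℝ) < N.factorial := by positivity
  have h3 : x ^ N ≤ N.factorial * Real.exp x := by
    rw [div_le_iff₀ hf] at h2; linarith
  have h5 : Real.exp x ≤ Real.exp (Real.pi * x) := by
    apply Real.exp_le_exp.2
    nlinarith [Real.pi_gt_three]
  have h6 : x ^ N ≤ N.factorial * Real.exp (Real.pi * x) :=
    h3.trans (mul_le_mul_of_nonneg_left h5 hf.le)
  rw [Real.exp_neg, le_div_iff₀ (by positivity), inv_mul_le_iff₀ (Real.exp_pos _), mul_comm]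
  exact h6

theorem sum_inv : Summable (fun n : ℤ => 1 / (1 + (n : ℝ) ^ 2)) := by
  classical
  have h1 : Summable (fun n : ℤ => 1 / (n : ℝ) ^ 2 + (if n = 0 then (1 : ℝ) else 0)) := by
    refine (Real.summable_one_div_int_pow.2 (by norm_num)).add ?_
    exact summable_of_ne_finset_zero (s := {0}) fun n hn => by
      rw [if_neg (by simpa using hn)]
  refine Summable.of_nonneg_of_le (fun n => by positivity) (fun n => ?_) h1
  by_cases hn : n = 0
  · subst hn; simp
  · rw [if_neg hn, add_zero]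
    have : (n : ℝ) ≠ 0 := by exact_mod_cast hn
    apply one_div_le_one_div_of_le (by positivity)
    linarith

theorem sum2 : Summable (fun k : ZI => 1 / nz k ^ 2) := by
  have hp : Summable (fun x : ℤ × ℤ => 1 / (1 + (x.1 : ℝ) ^ 2) * (1 / (1 + (x.2 : ℝ) ^ 2))) :=
    sum_inv.mul_of_nonneg sum_inv (fun _ => by positivity) (fun _ => by positivity)
  have hq : Summable (fun k : ZI => 3 * (1 / (1 + (k.re : ℝ) ^ 2) * (1 / (1 + (k.im : ℝ) ^ 2)))) := by
    have : Summable ((fun x : ℤ × ℤ => 1 / (1 + (x.1 : ℝ) ^ 2) * (1 / (1 + (x.2 : ℝ) ^ 2))) ∘ eqv) :=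
      eqv.summable_iff.2 hp
    exact this.mul_left 3
  refine Summable.of_nonneg_of_le (fun k => by positivity) (fun k => ?_) hq
  by_cases hk : k = 0
  · subst hk
    rw [nz_zero]
    simp
  · have h1 := one_le_nz hk
    rw [nz_eq] at h1 ⊢
    set a : ℝ := (k.re : ℝ) ^ 2 with ha
    set b : ℝ := (k.im : ℝ) ^ 2 with hb
    have ha0 : 0 ≤ a := by positivity
    have hb0 : 0 ≤ b := by positivity
    rw [one_div_mul_one_div, mul_one_div, div_le_div_iff₀ (by positivity) (by positivity)]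
    nlinarith [sq_nonneg (a - b), mul_nonneg ha0 hb0]

/-- the sum of the `N(k)^(-2)` -/
noncomputable def Z2 : ℝ := ∑' k : ZI, 1 / nz k ^ 2

theorem Z2_nonneg : 0 ≤ Z2 := tsum_nonneg fun k => by positivity

theorem key (N : ℕ) (hN : 2 ≤ N) (K : ℝ) (hK : 1 ≤ K) (k : ℝ) (hk : K ≤ k) :
    1 / k ^ N ≤ K ^ 2 / K ^ N * (1 / k ^ 2) := by
  obtain ⟨M, rfl⟩ : ∃ M, N = M + 2 := ⟨N - 2, by omega⟩
  have hK0 : 0 < K := by linarith
  have hk0 : 0 < k := by linarith
  have h1 : K ^ 2 / K ^ (M + 2) = 1 / K ^ M := by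
    rw [pow_add]; field_simp
  rw [h1, pow_add, ← one_div_mul_one_div]
  have h3 : 1 / k ^ M ≤ 1 / K ^ M :=
    one_div_le_one_div_of_le (by positivity) (pow_le_pow_left₀ hK0.le hk M)
  exact mul_le_mul_of_nonneg_right h3 (by positivity)

end Gsum

open Gsum

/-- G3 -/
theorem gs_main : S_gs := by
  classical
  refine ⟨fun Y hY => ⟨(full Y hY).1, ?_, ?_⟩, fun z hz => ?_, fun N hN =>
    ⟨N.factorial * (Z2 + 1), ?_, ?_, ?_⟩⟩
  · rw [sum_ne Y hY]
    have := th_le Y hY
    linarith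
  · rw [sum_ne Y hY]
    have := th_ge Y hY
    linarith
  · refine Summable.of_nonneg_of_le (fun b => (Real.exp_pos _).le) (fun b => ?_) (full z hz).1
    apply Real.exp_le_exp.2
    obtain ⟨n, hn⟩ := nz_int b
    have h1 : nz b ≤ nz b ^ 2 := by
      rw [hn]
      exact_mod_cast Nat.le_self_pow (by norm_num) n
    have h2 := mul_le_mul_of_nonneg_left (mul_le_mul_of_nonneg_right h1 hz.le) Real.pi_pos.le
    linarith
  · have := Z2_nonneg
    positivity
  · intro Y K hY hK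
    have hK0 : 0 < K := by linarith
    have hf : (0 : ℝ) < N.factorial := by positivity
    have hle : ∀ k : ZI, (if K ≤ nz k then Real.exp (-(Real.pi * (nz k * Y))) else 0) ≤
        N.factorial / Y ^ N * (K ^ 2 / K ^ N) * (1 / nz k ^ 2) := by
      intro k
      split_ifs with h
      · have hk0 : 0 < nz k := by linarith
        have h1 := decay N (nz k * Y) (by positivity)
        refine h1.trans ?_
        rw [mul_pow]
        have h3 := key N hN K hK (nz k) h
        calc (N.factorial : ℝ) / (nz k ^ N * Y ^ N) = N.factorial / Y ^ N * (1 / nz k ^ N) := by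
              field_simp
          _ ≤ N.factorial / Y ^ N * (K ^ 2 / K ^ N * (1 / nz k ^ 2)) :=
              mul_le_mul_of_nonneg_left h3 (by positivity)
          _ = _ := by ring
      · positivity
    have hs1 : Summable fun k : ZI => N.factorial / Y ^ N * (K ^ 2 / K ^ N) * (1 / nz k ^ 2) :=
      sum2.mul_left _
    have hs0 : Summable fun k : ZI => (if K ≤ nz k then Real.exp (-(Real.pi * (nz k * Y))) else 0) :=
      Summable.of_nonneg_of_le (fun k => by split_ifs <;> positivity) hle hs1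
    refine (hs0.tsum_le_tsum hle hs1).trans ?_
    rw [tsum_mul_left]
    calc N.factorial / Y ^ N * (K ^ 2 / K ^ N) * ∑' k : ZI, 1 / nz k ^ 2
        ≤ N.factorial / Y ^ N * (K ^ 2 / K ^ N) * (Z2 + 1) :=
          mul_le_mul_of_nonneg_left (by rw [Z2]; linarith) (by positivity)
      _ = _ := by ring
  · intro Y D hY hD
    have hD1 := one_le_nz hD
    have hD0 : 0 < nz D := by linarith
    have hf : (0 : ℝ) < N.factorial := by positivity
    have hinj : Function.Injective (fun j : ZI => D * j) := fun a b h => mul_left_cancel₀ hD h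
    have hsupp : Function.support (fun k : ZI => (if k ≠ 0 ∧ D ∣ k then
        Real.exp (-(Real.pi * (nz k * Y))) else 0)) ⊆ Set.range (fun j : ZI => D * j) := by
      intro k hk
      rw [Function.mem_support] at hk
      by_contra h
      apply hk
      rw [if_neg]
      rintro ⟨-, j, rfl⟩
      exact h ⟨j, rfl⟩
    rw [← hinj.tsum_eq hsupp]
    have hle : ∀ j : ZI, (if D * j ≠ 0 ∧ D ∣ D * j then
        Real.exp (-(Real.pi * (nz (D * j) * Y))) else 0) ≤
        N.factorial / (nz D * Y) ^ N * (1 / nz j ^ 2) := by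
      intro j
      split_ifs with h
      · have hj : j ≠ 0 := by
          rintro rfl
          exact h.1 (mul_zero _)
        have hj1 := one_le_nz hj
        have h1 := decay N (nz j * (nz D * Y)) (by positivity)
        have h2 : nz j * (nz D * Y) = nz (D * j) * Y := by
          rw [nz_mul]; ring
        rw [← h2]
        refine h1.trans ?_
        rw [mul_pow]
        have h3 := key N hN 1 le_rfl (nz j) hj1
        rw [one_pow, one_pow, div_one, one_mul] at h3
        calc (N.factorial : ℝ) / (nz j ^ N * (nz D * Y) ^ N) =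
              N.factorial / (nz D * Y) ^ N * (1 / nz j ^ N) := by
              field_simp
          _ ≤ N.factorial / (nz D * Y) ^ N * (1 / nz j ^ 2) :=
              mul_le_mul_of_nonneg_left h3 (by positivity)
      · positivity
    have hs1 : Summable fun j : ZI => N.factorial / (nz D * Y) ^ N * (1 / nz j ^ 2) := sum2.mul_left _
    have hs0 := Summable.of_nonneg_of_le (fun k => by split_ifs <;> positivity) hle hs1
    refine (hs0.tsum_le_tsum hle hs1).trans ?_
    rw [tsum_mul_left]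
    calc N.factorial / (nz D * Y) ^ N * ∑' k : ZI, 1 / nz k ^ 2
        ≤ N.factorial / (nz D * Y) ^ N * (Z2 + 1) :=
          mul_le_mul_of_nonneg_left (by rw [Z2]; linarith) (by positivity)
      _ = _ := by ring

end Pool.Agent.N880.QI
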