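import Pool.Agent.N880.QI.Stm

/-!
Project QI (helper880): `E : y² = x³ - x` over the quadratic extensions of `ℚ(i)`, statement.
-/

set_option autoImplicit false

open Complex NumberField IsDedekindDomain
open H385 (ZI)
open Pool.Agent.H304R3.HK (HC LH)

namespace Pool.Agent.N880.QI

/-- `1 - a n^(-s) + ε n^(1-2s)` -/
noncomputable def lp (a ε : ℤ) (n : ℕ) (s : ℂ) : ℂ :=
  1 - (a : ℂ) * (n : ℂ) ^ (-s) + (ε : ℂ) * (n : ℂ) ^ (1 - 2 * s)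

/-- the possible `(a, ε)` -/
def Poss (n : ℕ) (a ε : ℤ) : Prop := (ε = 1 ∧ a ^ 2 ≤ 4 * (n : ℤ)) ∨ (ε = 0 ∧ a ^ 2 ≤ 1)

section
variable {K : Type} [Field K] [NumberField K]

/-- the places above `2` -/
def exc (K : Type) [Field K] [NumberField K] : Set (HeightOneSpectrum (𝓞 K)) :=
  {v | (2 : 𝓞 K) ∈ v.asIdeal}

open Classical in
/-- the Euler factor at `v` of `y² = x³ - x`; for the places above `2` it is given by `a v, ε v` -/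
noncomputable def fac (a ε : HeightOneSpectrum (𝓞 K) → ℤ) (s : ℂ) (v : HeightOneSpectrum (𝓞 K)) :
    ℂ :=
  if v ∈ exc K then (lp (a v) (ε v) (Ideal.absNorm v.asIdeal) s)⁻¹
  else (lp (((Ideal.absNorm v.asIdeal : ℕ) : ℤ) -
      ((Nat.card {p : (𝓞 K ⧸ v.asIdeal) × (𝓞 K ⧸ v.asIdeal) //
        p.2 ^ 2 = p.1 ^ 3 - p.1} : ℕ) : ℤ)) 1 (Ideal.absNorm v.asIdeal) s)⁻¹

end

/-- EC: `L(E/K, s)` for `K = ℚ(i, √m)` -/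
def S_EC : Prop := ∃ (d₀ : ZI) (ψ₀ : ZI →* ℂ), HC d₀ ψ₀ ∧
  ∀ (K : Type) [Field K] [NumberField K], Module.finrank ℚ K = 4 →
  ∀ (ι : ZI →+* 𝓞 K) (m : ZI) (α : 𝓞 K), ¬ IsSquare m → α ^ 2 = ι m →
  ∀ (d d' : ZI) (ψ ψ' : ZI →* ℂ), HC d ψ → Att ψ₀ m ψ → HC d' ψ' → Att ψ₀ (star m) ψ' →
  ∀ a ε : HeightOneSpectrum (𝓞 K) → ℤ,
    (∀ v ∈ exc K, Poss (Ideal.absNorm v.asIdeal) (a v) (ε v)) →
  (exc K).Finite ∧ ∃ R R0 : ℂ → ℂ, Differentiable ℂ R0 ∧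
    (∀ s : ℂ, 1 / 2 < s.re → AnalyticAt ℂ R s ∧ R s ≠ 0 ∧
      R s * ∏ᶠ v ∈ exc K, lp (a v) (ε v) (Ideal.absNorm v.asIdeal) s = R0 s) ∧
    ∀ s : ℂ, 3 / 2 < s.re → HasProd (fac a ε s)
      (LH ψ₀ (s - 1 / 2) ^ 2 * LH ψ (s - 1 / 2) * LH ψ' (s - 1 / 2) * R s)

end Pool.Agent.N880.QI
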