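import Pool.Agent.N880.QI.Ms
import Pool.Agent.N880.QI.Fin
import Pool.Agent.N880.QI.Stm3
import Pool.Agent.N880.QI.Gsum
import Pool.Agent.N880.QI.El
import Pool.Agent.N880.QF.Prod

/-!
Project QI: the zeros of `L(E/K, s)`, `E : y² = x³ - x`, `K` running through the quadratic
extensions of `ℚ(i)`.
-/

set_option autoImplicit false

open Complex Filter Topology MeasureTheory Set NumberField IsDedekindDomain
open H385 (ZI)
open H370 (NN Nd Ns zset mult)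
open Pool.Agent.H304R3.HK (tc HC LH aH)

namespace Pool.Agent.N880.QI

namespace Asm

/-! ### counting zeros by orders -/

/-- the region of the zeros -/
def reg (c T : ℝ) : Set ℂ := {s : ℂ | c < s.re ∧ T < s.im ∧ s.im ≤ 2 * T}

/-- the line -/
def lin (c T : ℝ) : Set ℂ := {s : ℂ | s.re = c ∧ T < s.im ∧ s.im ≤ 2 * T}

section count
variable {A Q : ℝ} {F : ℂ → ℂ} {a : ℕ → ℂ}

lemma good_ne (hg : H385.GoodD 2 A Q F a) (hA : 1 ≤ A) : ∃ s : ℂ, 0 < s.im ∧ F s ≠ 0 := by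
  refine ⟨⟨2, 1⟩, by norm_num, ?_⟩
  exact hg.nzr ⟨2, 1⟩ (by norm_num) (by norm_num)

lemma good_fin (hg : H385.GoodD 2 A Q F a) (hA : 1 ≤ A) {T : ℝ} (hT : 1 ≤ T) :
    (zset F T (2 * T)).Finite :=
  QF.PrAux.fin hg.an (good_ne hg hA) (by linarith)

lemma good_ord (hg : H385.GoodD 2 A Q F a) (hA : 1 ≤ A) {s : ℂ} (hs : 0 < s.im) :
    analyticOrderAt F s ≠ ⊤ := QF.PrAux.ord_ne_top hg.an (good_ne hg hA) hs

lemma good_supp (hg : H385.GoodD 2 A Q F a) {T : ℝ} (hT : 1 ≤ T) {s : ℂ}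
    (hs : s ∈ reg 0 T) (h : analyticOrderNatAt F s ≠ 0) : s ∈ zset F T (2 * T) := by
  obtain ⟨h1, h2, h3⟩ := hs
  have h4 : F s = 0 := apply_eq_zero_of_analyticOrderNatAt_ne_zero h
  refine ⟨h1, ?_, h2, h3, h4⟩
  by_contra h5
  push Not at h5
  exact hg.nzr s h5 (by linarith) h4

lemma good_supp_fin (hg : H385.GoodD 2 A Q F a) (hA : 1 ≤ A) {T : ℝ} (hT : 1 ≤ T) {B : Set ℂ}
    (hB : B ⊆ reg 0 T) : (B ∩ Function.support (fun s => analyticOrderNatAt F s)).Finite := by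
  refine (good_fin hg hA hT).subset ?_
  rintro s ⟨h1, h2⟩
  exact good_supp hg hT (hB h1) h2

lemma good_count (hg : H385.GoodD 2 A Q F a) {T : ℝ} (hT : 1 ≤ T) :
    ∑ᶠ s ∈ reg 0 T, analyticOrderNatAt F s = NN F T (2 * T) := by
  unfold NN mult
  refine finsum_mem_inter_support_eq (fun s => analyticOrderNatAt F s) _ _ ?_
  ext s
  constructor
  · rintro ⟨h1, h2⟩
    exact ⟨good_supp hg hT h1 h2, h2⟩
  · rintro ⟨h1, h2⟩
    exact ⟨⟨h1.1, h1.2.2.1, h1.2.2.2.1⟩, h2⟩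

lemma good_line (hg : H385.GoodD 2 A Q F a) (hA : 1 ≤ A) {T : ℝ} (hT : 1 ≤ T) :
    Ns F T (2 * T) ≤ ∑ᶠ s ∈ lin (1 / 2) T, analyticOrderNatAt F s := by
  classical
  have hfin := good_fin hg hA hT
  have hsub : {s : ℂ | s ∈ zset F T (2 * T) ∧ s.re = 1 / 2 ∧ mult F s = 1} ⊆
      zset F T (2 * T) := fun s hs => hs.1
  have hfin2 := hfin.subset hsub
  have hlin : lin (1 / 2) T ⊆ reg 0 T := by
    rintro s ⟨h1, h2, h3⟩
    exact ⟨by rw [h1]; norm_num, h2, h3⟩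
  have hf3 := good_supp_fin hg hA hT hlin
  unfold Ns
  rw [Set.ncard_eq_toFinset_card _ hfin2, finsum_mem_eq_sum_of_inter_support_eq
    (fun s => analyticOrderNatAt F s) (t := hf3.toFinset) (by
      ext s
      simp only [Set.mem_inter_iff, Set.Finite.coe_toFinset]
      tauto)]
  rw [Finset.card_eq_sum_ones]
  have h1 : hfin2.toFinset ⊆ hf3.toFinset := by
    intro s hs
    rw [Set.Finite.mem_toFinset] at hs ⊢
    obtain ⟨h1, h2, h3⟩ := hs
    refine ⟨⟨h2, h1.2.2.1, h1.2.2.2.1⟩, ?_⟩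
    rw [Function.mem_support]
    have h4 : analyticOrderNatAt F s = 1 := h3
    rw [h4]
    exact one_ne_zero
  refine le_trans (Finset.sum_le_sum fun s hs => ?_) (Finset.sum_le_sum_of_subset h1)
  rw [Set.Finite.mem_toFinset] at hs
  exact (hs.2.2 : analyticOrderNatAt F s = 1).ge

end count

/-! ### translation -/

lemma ord_shift (F : ℂ → ℂ) (s : ℂ) :
    analyticOrderAt (fun s : ℂ => F (s - 1 / 2)) s = analyticOrderAt F (s - 1 / 2) := by
  have hg : AnalyticAt ℂ (fun s : ℂ => s - 1 / 2) s := analyticAt_id.sub analyticAt_const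
  have hd : deriv (fun s : ℂ => s - 1 / 2) s ≠ 0 := by
    rw [deriv_sub_const, deriv_id'']
    exact one_ne_zero
  exact analyticOrderAt_comp_of_deriv_ne_zero (f := F) hg hd

lemma image_reg (T : ℝ) : reg (1 / 2) T = (fun z : ℂ => z + 1 / 2) '' reg 0 T := by
  ext s
  constructor
  · rintro ⟨h1, h2, h3⟩
    refine ⟨s - 1 / 2, ⟨?_, ?_, ?_⟩, by ring⟩
    · simp only [sub_re]
      norm_num
      linarith
    · simpa using h2
    · simpa using h3
  · rintro ⟨z, ⟨h1, h2, h3⟩, rfl⟩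
    refine ⟨?_, ?_, ?_⟩
    · simp only [add_re]
      norm_num
      linarith
    · simpa using h2
    · simpa using h3

lemma image_lin (T : ℝ) : lin 1 T = (fun z : ℂ => z + 1 / 2) '' lin (1 / 2) T := by
  ext s
  constructor
  · rintro ⟨h1, h2, h3⟩
    refine ⟨s - 1 / 2, ⟨?_, ?_, ?_⟩, by ring⟩
    · simp only [sub_re, h1]
      norm_num
    · simpa using h2
    · simpa using h3
  · rintro ⟨z, ⟨h1, h2, h3⟩, rfl⟩
    refine ⟨?_, ?_, ?_⟩
    · simp only [add_re, h1]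
      norm_num
    · simpa using h2
    · simpa using h3

lemma shift_sum (f : ℂ → ℕ) (B : Set ℂ) :
    ∑ᶠ s ∈ (fun z : ℂ => z + 1 / 2) '' B, f (s - 1 / 2) = ∑ᶠ z ∈ B, f z := by
  rw [finsum_mem_image (fun a _ b _ h => by
    have h' : a + 1 / 2 = b + 1 / 2 := h
    exact add_right_cancel h')]
  refine finsum_mem_congr rfl fun z _ => ?_
  congr 1
  ring

/-! ### the product -/

/-- the main computation for one field -/
theorem one_field {A : ℝ} (hA : 1 ≤ A) {Q0 Q1 Q2 : ℝ} {F0 F1 F2 : ℂ → ℂ} {a0 a1 a2 : ℕ → ℂ}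
    (h0 : H385.GoodD 2 A Q0 F0 a0) (h1 : H385.GoodD 2 A Q1 F1 a1) (h2 : H385.GoodD 2 A Q2 F2 a2)
    (d0 : Differentiable ℂ F0) (d1 : Differentiable ℂ F1) (d2 : Differentiable ℂ F2)
    {R F : ℂ → ℂ} (hR : ∀ s : ℂ, 1 / 2 < s.re → AnalyticAt ℂ R s ∧ R s ≠ 0)
    (hF : ∀ s : ℂ, 1 / 2 < s.re → AnalyticAt ℂ F s)
    (hFR : ∀ s : ℂ, 3 / 2 < s.re →
      F s = F0 (s - 1 / 2) ^ 2 * F1 (s - 1 / 2) * F2 (s - 1 / 2) * R s)
    {T : ℝ} (hT : 1 ≤ T) :
    (reg (1 / 2) T ∩ Function.support (fun s => analyticOrderNatAt F s)).Finite ∧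
    ∑ᶠ s ∈ reg (1 / 2) T, analyticOrderNatAt F s =
      2 * NN F0 T (2 * T) + NN F1 T (2 * T) + NN F2 T (2 * T) ∧
    Ns F1 T (2 * T) + Ns F2 T (2 * T) ≤ ∑ᶠ s ∈ lin 1 T, analyticOrderNatAt F s ∧
    ∀ s ∈ reg (1 / 2) T, F s = 0 → analyticOrderNatAt F s ≠ 0 := by
  classical
  -- the identity on the half plane
  have hpre : IsPreconnected {s : ℂ | 1 / 2 < s.re} := (convex_halfSpace_re_gt _).isPreconnected
  have hopen : IsOpen {s : ℂ | 1 / 2 < s.re} := isOpen_lt continuous_const Complex.continuous_re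
  have hsub : ∀ s : ℂ, AnalyticAt ℂ (fun s : ℂ => s - 1 / 2) s :=
    fun s => analyticAt_id.sub analyticAt_const
  have hcomp : ∀ G : ℂ → ℂ, Differentiable ℂ G → ∀ s : ℂ,
      AnalyticAt ℂ (fun s : ℂ => G (s - 1 / 2)) s := fun G hG s =>
    (hG.comp (differentiable_id.sub_const (1 / 2 : ℂ))).analyticAt s
  obtain ⟨P, hP⟩ : ∃ P : ℂ → ℂ, P = fun s =>
    F0 (s - 1 / 2) ^ 2 * F1 (s - 1 / 2) * F2 (s - 1 / 2) * R s := ⟨_, rfl⟩
  have hPan : ∀ s : ℂ, 1 / 2 < s.re → AnalyticAt ℂ P s := by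
    intro s hs
    rw [hP]
    exact ((((hcomp F0 d0 s).pow 2).mul (hcomp F1 d1 s)).mul (hcomp F2 d2 s)).mul (hR s hs).1
  have heq : ∀ s : ℂ, 1 / 2 < s.re → F s = P s := by
    have h3 : F =ᶠ[𝓝 (2 : ℂ)] P := by
      have hU : {s : ℂ | 3 / 2 < s.re} ∈ 𝓝 (2 : ℂ) :=
        (isOpen_lt continuous_const Complex.continuous_re).mem_nhds (by norm_num)
      filter_upwards [hU] with s hs
      rw [hP]
      exact hFR s hs
    have h4 := AnalyticOnNhd.eqOn_of_preconnected_of_eventuallyEq (U := {s : ℂ | 1 / 2 < s.re})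
      (fun s hs => hF s hs) (fun s hs => hPan s hs) hpre (z₀ := 2) (by norm_num) h3
    exact fun s hs => h4 hs
  -- the orders
  have hord : ∀ s : ℂ, 1 / 2 < s.re → 0 < s.im → analyticOrderAt F s =
      2 * analyticOrderAt F0 (s - 1 / 2) + analyticOrderAt F1 (s - 1 / 2) +
        analyticOrderAt F2 (s - 1 / 2) := by
    intro s hs hs0
    have hev : F =ᶠ[𝓝 s] P := by
      filter_upwards [hopen.mem_nhds hs] with z hz
      exact heq z hz
    rw [analyticOrderAt_congr hev, hP]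
    have e0 := hcomp F0 d0 s
    have e1 := hcomp F1 d1 s
    have e2 := hcomp F2 d2 s
    have q : (fun s : ℂ => F0 (s - 1 / 2) ^ 2 * F1 (s - 1 / 2) * F2 (s - 1 / 2) * R s) =
      ((((fun s : ℂ => F0 (s - 1 / 2)) ^ 2) * (fun s : ℂ => F1 (s - 1 / 2))) *
        (fun s : ℂ => F2 (s - 1 / 2))) * R := rfl
    rw [q, analyticOrderAt_mul (((e0.pow 2).mul e1).mul e2) (hR s hs).1,
      analyticOrderAt_mul ((e0.pow 2).mul e1) e2, analyticOrderAt_mul (e0.pow 2) e1,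
      analyticOrderAt_pow e0, ord_shift F0, ord_shift F1, ord_shift F2,
      (hR s hs).1.analyticOrderAt_eq_zero.2 (hR s hs).2, add_zero]
    simp
  have hnat : ∀ s : ℂ, 1 / 2 < s.re → 0 < s.im → analyticOrderNatAt F s =
      2 * analyticOrderNatAt F0 (s - 1 / 2) + analyticOrderNatAt F1 (s - 1 / 2) +
        analyticOrderNatAt F2 (s - 1 / 2) := by
    intro s hs hs0
    have hs0' : 0 < (s - 1 / 2 : ℂ).im := by simpa using hs0
    have t0 := good_ord h0 hA hs0'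
    have t1 := good_ord h1 hA hs0'
    have t2 := good_ord h2 hA hs0'
    have h5 := hord s hs hs0
    unfold analyticOrderNatAt
    rw [h5]
    obtain ⟨n0, e0⟩ := ENat.ne_top_iff_exists.1 t0
    obtain ⟨n1, e1⟩ := ENat.ne_top_iff_exists.1 t1
    obtain ⟨n2, e2⟩ := ENat.ne_top_iff_exists.1 t2
    rw [← e0, ← e1, ← e2]
    have : (2 * (n0 : ℕ∞) + n1 + n2) = ((2 * n0 + n1 + n2 : ℕ) : ℕ∞) := by push_cast; ring
    rw [this]
    rfl
  -- the sums
  have himg : reg (1 / 2) T = (fun z : ℂ => z + 1 / 2) '' reg 0 T := image_reg T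
  have hlin0 : lin (1 / 2) T ⊆ reg 0 T := by
    rintro s ⟨g1, g2, g3⟩
    exact ⟨by rw [g1]; norm_num, g2, g3⟩
  have hsplit : ∀ B : Set ℂ, B ⊆ reg 0 T → ∑ᶠ s ∈ (fun z : ℂ => z + 1 / 2) '' B,
      analyticOrderNatAt F s = 2 * ∑ᶠ z ∈ B, analyticOrderNatAt F0 z +
        ∑ᶠ z ∈ B, analyticOrderNatAt F1 z + ∑ᶠ z ∈ B, analyticOrderNatAt F2 z := by
    intro B hB
    have g1 : ∑ᶠ s ∈ (fun z : ℂ => z + 1 / 2) '' B, analyticOrderNatAt F s =
        ∑ᶠ s ∈ (fun z : ℂ => z + 1 / 2) '' B,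
          (fun z => 2 * analyticOrderNatAt F0 z + analyticOrderNatAt F1 z +
            analyticOrderNatAt F2 z) (s - 1 / 2) := by
      refine finsum_mem_congr rfl fun s hs => ?_
      obtain ⟨z, hz, rfl⟩ := hs
      obtain ⟨b1, b2, b3⟩ := hB hz
      refine hnat _ ?_ ?_
      · simp only [add_re]
        norm_num
        linarith
      · have : (z + 1 / 2 : ℂ).im = z.im := by simp
        rw [this]
        linarith
    rw [g1, shift_sum (fun z => 2 * analyticOrderNatAt F0 z + analyticOrderNatAt F1 z +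
            analyticOrderNatAt F2 z) B]
    have f0 := good_supp_fin h0 hA hT hB
    have f1 := good_supp_fin h1 hA hT hB
    have f2 := good_supp_fin h2 hA hT hB
    have f00 : (B ∩ Function.support (fun z => 2 * analyticOrderNatAt F0 z)).Finite := by
      refine f0.subset ?_
      rintro z ⟨k1, k2⟩
      refine ⟨k1, ?_⟩
      rw [Function.mem_support] at k2 ⊢
      intro h
      exact k2 (by rw [h, mul_zero])
    have f01 : (B ∩ Function.support (fun z => 2 * analyticOrderNatAt F0 z +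
        analyticOrderNatAt F1 z)).Finite := by
      refine (f0.union f1).subset ?_
      rintro z ⟨k1, k2⟩
      rw [Function.mem_support] at k2
      by_cases h : analyticOrderNatAt F0 z = 0
      · right
        refine ⟨k1, ?_⟩
        rw [Function.mem_support]
        intro h'
        exact k2 (by simp [h, h'])
      · left
        exact ⟨k1, h⟩
    rw [finsum_mem_add_distrib' f01 f2, finsum_mem_add_distrib' f00 f1]
    congr 2
    exact (mul_finsum_mem _ _).symm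
  refine ⟨?_, ?_, ?_, ?_⟩
  · rw [himg]
    have f0 := good_supp_fin h0 hA hT (Set.Subset.refl (reg 0 T))
    have f1 := good_supp_fin h1 hA hT (Set.Subset.refl (reg 0 T))
    have f2 := good_supp_fin h2 hA hT (Set.Subset.refl (reg 0 T))
    refine (((f0.union f1).union f2).image (fun z : ℂ => z + 1 / 2)).subset ?_
    rintro s ⟨⟨z, hz, rfl⟩, hs⟩
    refine ⟨z, ?_, rfl⟩
    have hz0 : (z + 1 / 2 : ℂ) - 1 / 2 = z := by ring
    have e := hnat (z + 1 / 2) (by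
      have := hz.1
      simp only [add_re]
      norm_num
      linarith) (by
      have : (z + 1 / 2 : ℂ).im = z.im := by simp
      rw [this]
      linarith [hz.2.1])
    rw [hz0] at e
    have hs' : analyticOrderNatAt F (z + 1 / 2) ≠ 0 := hs
    by_contra hcon
    apply hs'
    rw [e]
    simp only [Set.mem_union, not_or] at hcon
    have c0 : analyticOrderNatAt F0 z = 0 := by
      by_contra h; exact hcon.1.1 ⟨hz, h⟩
    have c1 : analyticOrderNatAt F1 z = 0 := by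
      by_contra h; exact hcon.1.2 ⟨hz, h⟩
    have c2 : analyticOrderNatAt F2 z = 0 := by
      by_contra h; exact hcon.2 ⟨hz, h⟩
    rw [c0, c1, c2]
  · rw [himg, hsplit _ (Set.Subset.refl _), good_count h0 hT, good_count h1 hT, good_count h2 hT]
  · rw [image_lin, hsplit _ hlin0]
    have k1 := good_line h1 hA hT
    have k2 := good_line h2 hA hT
    omega
  · intro s hs hFs
    have h5 := hord s hs.1 (by linarith [hs.2.1])
    have hs0' : 0 < (s - 1 / 2 : ℂ).im := by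
      have : (s - 1 / 2 : ℂ).im = s.im := by simp
      rw [this]
      linarith [hs.2.1]
    have t0 := good_ord h0 hA hs0'
    have t1 := good_ord h1 hA hs0'
    have t2 := good_ord h2 hA hs0'
    have h6 : analyticOrderAt F s ≠ 0 := (hF s hs.1).analyticOrderAt_ne_zero.2 hFs
    have h7 : analyticOrderAt F s ≠ ⊤ := by
      rw [h5]
      obtain ⟨n0, e0⟩ := ENat.ne_top_iff_exists.1 t0
      obtain ⟨n1, e1⟩ := ENat.ne_top_iff_exists.1 t1
      obtain ⟨n2, e2⟩ := ENat.ne_top_iff_exists.1 t2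
      rw [← e0, ← e1, ← e2]
      have : (2 * (n0 : ℕ∞) + n1 + n2) = ((2 * n0 + n1 + n2 : ℕ) : ℕ∞) := by push_cast; ring
      rw [this]
      exact ENat.natCast_ne_top _
    have h8 := Nat.cast_analyticOrderNatAt h7
    intro h
    rw [h] at h8
    exact h6 h8.symm

/-! ### the family -/

lemma att_to {ψ₀ ψ : ZI →* ℂ} {k b : ZI} (hb : b ≠ 0) (h : Att ψ₀ k ψ) :
    Att ψ₀ (k * b ^ 2) ψ := by
  obtain ⟨B, hB⟩ := h
  refine ⟨max B (nz b + 1), fun p hp hBp => ?_⟩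
  have hpb : ¬ p ∣ b := core_not_dvd hb (by linarith [(le_max_right B (nz b + 1)).trans hBp])
  rw [hB p hp ((le_max_left _ _).trans hBp), core_sy_mul_sq hp hpb]

lemma nz_star (m : ZI) : nz (star m) = nz m := by
  unfold nz
  rw [Zsqrtd.norm_conj]

lemma sq_star {m : ZI} (h : ¬ IsSquare m) : ¬ IsSquare (star m) := by
  rintro ⟨c, hc⟩
  refine h ⟨star c, ?_⟩
  rw [← star_star m, hc, star_mul]

lemma exists_char (hchar : S_char) (hel : S_el) {d₀ : ZI} {ψ₀ : ZI →* ℂ} (h0 : HC d₀ ψ₀)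
    (m : ZI) (hm : ¬ IsSquare m) : ∃ (d : ZI) (ψ : ZI →* ℂ), HC d ψ ∧ Att ψ₀ m ψ := by
  have hm0 : m ≠ 0 := ne_zero_of hm
  obtain ⟨-, -, e3, -⟩ := hel
  obtain ⟨k, b, hk, -, hb, hmk⟩ := e3 m hm0
  obtain ⟨C, hC, hc⟩ := hchar d₀ ψ₀ h0
  obtain ⟨⟨d, ψ, h1, h2⟩, -⟩ := hc k hk
  have hb0 : b ≠ 0 := by
    rintro rfl
    exact hm0 (by rw [hmk]; ring)
  exact ⟨d, ψ, h1, hmk ▸ att_to hb0 h2⟩

/-- the number of the zeros of one function -/
lemma one_count {d₀ : ZI} {ψ₀ : ZI →* ℂ} (h0 : HC d₀ ψ₀) : ∃ C X0 : ℝ, 0 < C ∧ ∀ T : ℝ, 3 ≤ T →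
    X0 ≤ T → (NN (LH ψ₀) T (2 * T) : ℝ) ≤ C * T * Real.log T := by
  obtain ⟨A, hA, hgood⟩ := Pool.Agent.H304R3.HK.goodH
  obtain ⟨C5, hC5, hz⟩ := H385.zcount_long_D 2 A (by norm_num) hA
  have hQ := Pool.Agent.H304R3.HK.one_le_norm_tc h0.q0
  refine ⟨C5 * 2, 2 * ‖tc d₀‖, by positivity, fun T hT hT2 => ?_⟩
  obtain ⟨-, -, -, hg⟩ := hgood d₀ ψ₀ h0
  have h1 := hz ‖tc d₀‖ (LH ψ₀) _ hQ hg T (2 * T) hT (by linarith)
  refine h1.trans ?_
  have h2 : Real.log (‖tc d₀‖ * (2 * T)) ≤ 2 * Real.log T := by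
    have h3 : ‖tc d₀‖ * (2 * T) ≤ T ^ 2 := by nlinarith
    have h4 := Real.log_le_log (by positivity) h3
    rwa [Real.log_pow] at h4
  calc C5 * (2 * T - T) * Real.log (‖tc d₀‖ * (2 * T)) ≤ C5 * (2 * T - T) * (2 * Real.log T) :=
        mul_le_mul_of_nonneg_left h2 (mul_nonneg hC5.le (by linarith))
    _ = C5 * 2 * T * Real.log T := by ring

end Asm

open Asm

/-- the zeros of `L(E/K, s)` -/
theorem qi_main (hfin : S_fin) (hchar : S_char) (hec : S_EC) (hgs : S_gs) (hel : S_el) :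
    (∀ (K : Type) [Field K] [NumberField K], Module.finrank ℚ K = 4 →
      ∀ (ι : ZI →+* 𝓞 K) (m : ZI) (α : 𝓞 K), ¬ IsSquare m → α ^ 2 = ι m →
      ∀ a ε : HeightOneSpectrum (𝓞 K) → ℤ,
      (∀ v ∈ exc K, Poss (Ideal.absNorm v.asIdeal) (a v) (ε v)) →
      ∃ F : ℂ → ℂ, (∀ s : ℂ, 1 / 2 < s.re → AnalyticAt ℂ F s) ∧
        ∀ s : ℂ, 3 / 2 < s.re → HasProd (fac a ε s) (F s)) ∧
    ∃ η X0 : ℝ, 0 < η ∧ 3 ≤ X0 ∧
    ∀ (K : ZI → Type) [∀ m, Field (K m)] [∀ m, NumberField (K m)]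
      (a ε : (m : ZI) → HeightOneSpectrum (𝓞 (K m)) → ℤ) (F : ZI → ℂ → ℂ),
    (∀ m : ZI, ¬ IsSquare m → Module.finrank ℚ (K m) = 4 ∧
      (∃ (ι : ZI →+* 𝓞 (K m)) (α : 𝓞 (K m)), α ^ 2 = ι m) ∧
      (∀ v ∈ exc (K m), Poss (Ideal.absNorm v.asIdeal) (a m v) (ε m v)) ∧
      (∀ s : ℂ, 1 / 2 < s.re → AnalyticAt ℂ (F m) s) ∧
      ∀ s : ℂ, 3 / 2 < s.re → HasProd (fac (a m) (ε m) s) (F m s)) →
    ∀ X T Y : ℝ, X0 ≤ X → (Real.log X) ^ 2 ≤ T → T ≤ X ^ η → X * Real.log X ≤ Y →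
    ∀ S : Finset ZI, (∀ m : ZI, m ∈ S ↔ (nz m ≤ Y ∧ ¬ IsSquare m)) →
    (∀ m ∈ S, (reg (1 / 2) T ∩ {s | F m s = 0}).Finite) ∧
    0.6725 * ∑ m ∈ S, om X m * ((∑ᶠ s ∈ reg (1 / 2) T, analyticOrderNatAt (F m) s : ℕ) : ℝ) ≤
      ∑ m ∈ S, om X m * ((∑ᶠ s ∈ lin 1 T, analyticOrderNatAt (F m) s : ℕ) : ℝ) ∧
    2 / 7 * (X * T * Real.log X) ≤
      ∑ m ∈ S, om X m * ((∑ᶠ s ∈ reg (1 / 2) T, analyticOrderNatAt (F m) s : ℕ) : ℝ) := by
  classical
  obtain ⟨d₀, ψ₀, h0, hec⟩ := hec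
  obtain ⟨κ, hκ, hfin⟩ := hfin
  obtain ⟨η1, X1, hη1, hX1, hfin⟩ := hfin d₀ ψ₀ h0
  obtain ⟨C, X2, hC, hcnt⟩ := one_count h0
  obtain ⟨A, hA, hgood⟩ := Pool.Agent.H304R3.HK.goodH
  have hex := fun m hm => exists_char hchar hel h0 m hm
  constructor
  · intro K _ _ hK ι m α hm hα a ε hpos
    obtain ⟨d, ψ, h1, h2⟩ := hex m hm
    obtain ⟨d', ψ', h1', h2'⟩ := hex (star m) (sq_star hm)
    obtain ⟨-, R, R0, hR0, hR1, hR2⟩ := hec K hK ι m α hm hα d d' ψ ψ' h1 h2 h1' h2' a ε hpos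
    refine ⟨fun s => LH ψ₀ (s - 1 / 2) ^ 2 * LH ψ (s - 1 / 2) * LH ψ' (s - 1 / 2) * R s,
      fun s hs => ?_, hR2⟩
    have hcomp : ∀ G : ℂ → ℂ, Differentiable ℂ G → AnalyticAt ℂ (fun s : ℂ => G (s - 1 / 2)) s :=
      fun G hG => (hG.comp (differentiable_id.sub_const (1 / 2 : ℂ))).analyticAt s
    exact ((((hcomp _ (hgood d₀ ψ₀ h0).1).pow 2).mul (hcomp _ (hgood d ψ h1).1)).mul
      (hcomp _ (hgood d' ψ' h1').1)).mul (hR1 s hs).1
  obtain ⟨η, hη, hηη1, hηC⟩ : ∃ η : ℝ, 0 < η ∧ η ≤ η1 ∧ 0.6725 * 7 * C * η ≤ 1.3275 - κ := by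
    refine ⟨min η1 ((1.3275 - κ) / (0.6725 * 7 * C)), ?_, min_le_left _ _, ?_⟩
    · have : 0 < 1.3275 - κ := by linarith
      positivity
    · have h1 : min η1 ((1.3275 - κ) / (0.6725 * 7 * C)) ≤ (1.3275 - κ) / (0.6725 * 7 * C) :=
        min_le_right _ _
      rw [le_div_iff₀ (by positivity)] at h1
      linarith
  refine ⟨η, max X1 (max (Real.exp (max X2 3)) 3), hη, hX1.trans (le_max_left _ _), ?_⟩
  intro K _ _ a ε F hKF X T Y hX hT1 hT2 hY S hS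
  simp only [max_le_iff] at hX
  obtain ⟨hX1', hX2', hX3⟩ := hX
  have hX0 : 0 < X := by linarith
  have hL : max X2 3 ≤ Real.log X := by rwa [Real.le_log_iff_exp_le hX0]
  have hL3 : 3 ≤ Real.log X := (le_max_right _ _).trans hL
  have hL2 : X2 ≤ Real.log X := (le_max_left _ _).trans hL
  have hLT : Real.log X ≤ T := by nlinarith
  have hT3 : 3 ≤ T := hL3.trans hLT
  have hT0 : 0 < T := by linarith
  have hTη : T ≤ X ^ η1 := hT2.trans (Real.rpow_le_rpow_of_exponent_le (by linarith) hηη1)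
  -- characters
  have hex2 : ∀ m : ZI, ∃ (d : ZI) (ψ : ZI →* ℂ), ¬ IsSquare m → HC d ψ ∧ Att ψ₀ m ψ := by
    intro m
    by_cases hm : IsSquare m
    · exact ⟨0, 1, fun h => absurd hm h⟩
    · obtain ⟨d, ψ, h1, h2⟩ := hex m hm
      exact ⟨d, ψ, fun _ => ⟨h1, h2⟩⟩
  choose d ψ hψ using hex2
  have hq : QD ψ₀ d ψ := ⟨fun m hm => (hψ m hm).1, fun m hm => (hψ m hm).2⟩
  obtain ⟨f1, -, f3⟩ := hfin d ψ hq X T Y hX1' hT1 hTη hY S hS
  have g0 := hgood d₀ ψ₀ h0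
  -- one field
  have hone : ∀ m ∈ S,
      (reg (1 / 2) T ∩ Function.support (fun s => analyticOrderNatAt (F m) s)).Finite ∧
      ∑ᶠ s ∈ reg (1 / 2) T, analyticOrderNatAt (F m) s =
        2 * NN (LH ψ₀) T (2 * T) + NN (LH (ψ m)) T (2 * T) + NN (LH (ψ (star m))) T (2 * T) ∧
      Ns (LH (ψ m)) T (2 * T) + Ns (LH (ψ (star m))) T (2 * T) ≤
        ∑ᶠ s ∈ lin 1 T, analyticOrderNatAt (F m) s ∧
      ∀ s ∈ reg (1 / 2) T, F m s = 0 → analyticOrderNatAt (F m) s ≠ 0 := by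
    intro m hm
    have hmsq := ((hS m).1 hm).2
    have hmsq' := sq_star hmsq
    obtain ⟨hK, ⟨ι, α, hα⟩, hpos, hFan, hFprod⟩ := hKF m hmsq
    obtain ⟨-, R, R0, hR0, hR1, hR2⟩ := hec (K m) hK ι m α hmsq hα (d m) (d (star m)) (ψ m)
      (ψ (star m)) (hψ m hmsq).1 (hψ m hmsq).2 (hψ _ hmsq').1 (hψ _ hmsq').2 (a m) (ε m) hpos
    have g1 := hgood (d m) (ψ m) (hψ m hmsq).1
    have g2 := hgood (d (star m)) (ψ (star m)) (hψ _ hmsq').1
    exact one_field hA g0.2.2.2 g1.2.2.2 g2.2.2.2 g0.1 g1.1 g2.1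
      (fun s hs => ⟨(hR1 s hs).1, (hR1 s hs).2.1⟩) hFan
      (fun s hs => (hFprod s hs).unique (hR2 s hs)) (by linarith)
  -- symmetry
  have hom : ∀ m, 0 ≤ om X m := fun m => (Real.exp_pos _).le
  have hstar : ∀ f : ZI → ℝ, ∑ m ∈ S, om X m * f (star m) = ∑ m ∈ S, om X m * f m := by
    intro f
    refine Finset.sum_nbij' star star (fun m hm => ?_) (fun m hm => ?_)
      (fun m _ => star_star m) (fun m _ => star_star m) (fun m _ => ?_)
    · rw [hS] at hm ⊢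
      exact ⟨by rw [nz_star]; exact hm.1, sq_star hm.2⟩
    · rw [hS] at hm ⊢
      exact ⟨by rw [nz_star]; exact hm.1, sq_star hm.2⟩
    · unfold om
      rw [nz_star]
  -- the numbers
  obtain ⟨z, hz⟩ : ∃ z : ℝ, z = NN (LH ψ₀) T (2 * T) := ⟨_, rfl⟩
  have hz0 : 0 ≤ z := by rw [hz]; exact Nat.cast_nonneg _
  have hzle : z ≤ C * T * (η * Real.log X) := by
    rw [hz]
    refine (hcnt T hT3 (hL2.trans hLT)).trans (mul_le_mul_of_nonneg_left ?_ (by positivity))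
    have h1 := Real.log_le_log hT0 hT2
    rwa [Real.log_rpow hX0] at h1
  have hW : ∑ m ∈ S, om X m ≤ X := Ms.om_total hgs hX0 S fun m hm => ne_zero_of ((hS m).1 hm).2
  have hW0 : 0 ≤ ∑ m ∈ S, om X m := Finset.sum_nonneg fun m _ => hom m
  obtain ⟨NL, hNL⟩ : ∃ NL : ℝ, NL = ∑ m ∈ S, om X m * (NN (LH (ψ m)) T (2 * T) : ℝ) := ⟨_, rfl⟩
  obtain ⟨SL, hSL⟩ : ∃ SL : ℝ, SL = ∑ m ∈ S, om X m * (Ns (LH (ψ m)) T (2 * T) : ℝ) := ⟨_, rfl⟩
  rw [← hNL] at f1 f3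
  have f1' : 2 * NL - SL ≤ κ * NL := by
    refine le_trans (le_of_eq ?_) f1
    rw [hNL, hSL, Finset.mul_sum, ← Finset.sum_sub_distrib]
    refine Finset.sum_congr rfl fun m _ => ?_
    ring
  have e1 : ∑ m ∈ S, om X m * ((∑ᶠ s ∈ reg (1 / 2) T, analyticOrderNatAt (F m) s : ℕ) : ℝ) =
      2 * z * ∑ m ∈ S, om X m + 2 * NL := by
    have h1 : ∑ m ∈ S, om X m * ((∑ᶠ s ∈ reg (1 / 2) T, analyticOrderNatAt (F m) s : ℕ) : ℝ) =
        ∑ m ∈ S, (2 * z * om X m + om X m * (NN (LH (ψ m)) T (2 * T) : ℝ) +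
          om X m * (NN (LH (ψ (star m))) T (2 * T) : ℝ)) := by
      refine Finset.sum_congr rfl fun m hm => ?_
      rw [(hone m hm).2.1, hz]
      push_cast
      ring
    rw [h1, Finset.sum_add_distrib, Finset.sum_add_distrib, ← Finset.mul_sum,
      hstar (fun m => (NN (LH (ψ m)) T (2 * T) : ℝ)), ← hNL]
    ring
  have e2 : 2 * SL ≤ ∑ m ∈ S, om X m *
      ((∑ᶠ s ∈ lin 1 T, analyticOrderNatAt (F m) s : ℕ) : ℝ) := by
    have h1 : ∑ m ∈ S, (om X m * (Ns (LH (ψ m)) T (2 * T) : ℝ) +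
        om X m * (Ns (LH (ψ (star m))) T (2 * T) : ℝ)) = 2 * SL := by
      rw [Finset.sum_add_distrib, hstar (fun m => (Ns (LH (ψ m)) T (2 * T) : ℝ)), ← hSL]
      ring
    rw [← h1]
    refine Finset.sum_le_sum fun m hm => ?_
    rw [← mul_add]
    refine mul_le_mul_of_nonneg_left ?_ (hom m)
    have := (hone m hm).2.2.1
    exact_mod_cast this
  have habs : 0.6725 * z * ∑ m ∈ S, om X m ≤ (1.3275 - κ) * NL := by
    have hκ' : 0 ≤ 1.3275 - κ := by linarith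
    calc 0.6725 * z * ∑ m ∈ S, om X m ≤ 0.6725 * (C * T * (η * Real.log X)) * X := by
          refine mul_le_mul (by linarith) hW hW0 ?_
          have : 0 ≤ C * T * (η * Real.log X) := hz0.trans hzle
          linarith
      _ = (0.6725 * 7 * C * η) * (X * T * Real.log X / 7) := by ring
      _ ≤ (1.3275 - κ) * (X * T * Real.log X / 7) :=
          mul_le_mul_of_nonneg_right hηC (by positivity)
      _ ≤ (1.3275 - κ) * NL := mul_le_mul_of_nonneg_left f3 hκ'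
  have hzW : 0 ≤ z * ∑ m ∈ S, om X m := mul_nonneg hz0 hW0
  refine ⟨fun m hm => ?_, ?_, ?_⟩
  · refine (hone m hm).1.subset ?_
    rintro s ⟨h1, h2⟩
    exact ⟨h1, (hone m hm).2.2.2 s h1 h2⟩
  · rw [e1]
    refine le_trans ?_ e2
    nlinarith
  · rw [e1]
    nlinarith

end Pool.Agent.N880.QI
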