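import Pool.Agent.N880.QI.Pside

/-!
Project QI (helper880): duality, the total mass.
-/

set_option autoImplicit false

open Complex Filter Topology MeasureTheory Set
open H385 (ZI)
open Pool.Agent.N880.QF (gd gd_nonneg)

namespace Pool.Agent.N880.QI.Du

open Pool.Agent.N880.QI Psd

lemma KK_self (τ : ℝ) (p : ZI) : KK τ p p = 1 := by simp [KK]

lemma sy2_abs (m p q : ZI) : |sy m p * sy m q| ≤ 1 := by
  rw [abs_mul]
  have h1 := El.sy_abs m p
  have h2 := El.sy_abs m q
  calc |sy m p| * |sy m q| ≤ 1 * 1 := by gcongr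
    _ = 1 := one_mul 1

/-- theta sum -/
noncomputable def Th (Y s : ℝ) (p q : ZI) : ℝ :=
  ∑' k : ZI, Real.exp (-(Real.pi * (nz k * (Y * Real.exp (-s))))) * (sy k p * sy k q)

lemma nz_pz (hel : S_el) {p : ZI} (hp : PZ p) : 0 < nz p := (hel.2.2.2.2.2.2.1 p hp).2.1

lemma D1 (hpois : S_pois) (hex : S_exch) (hel : S_el) {τ X : ℝ} (hτ : 0 < τ) (hX : 0 < X) {p q : ZI}
    (hp : PZ p) (hq : PZ q) (hne : p ≠ q) :
    Integrable (fun s => gd τ (Real.log (nz p) + Real.log (nz q) - s) *
      (X * Real.exp (-(s / 2)) * Th X s p q)) ∧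
    ∑' m : ZI, Wt τ (nz m / X) * (sy m p * sy m q) =
      ∫ s : ℝ, gd τ (Real.log (nz p) + Real.log (nz q) - s) *
      (X * Real.exp (-(s / 2)) * Th X s p q) := by
  obtain ⟨_, e2, e3⟩ := hex τ X (fun m => sy m p * sy m q) hτ hX (fun m => sy2_abs m p q)
    (by rw [El.sy_zero, zero_mul])
  set σ := Real.log (nz p) + Real.log (nz q) with hσ
  have hp0 : 0 < nz p := nz_pz hel hp
  have hq0 : 0 < nz q := nz_pz hel hq
  have hσe : Real.exp σ = nz p * nz q := by
    rw [hσ, Real.exp_add, Real.exp_log hp0, Real.exp_log hq0]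
  have key : (fun r : ℝ => gd τ r * (Real.exp (-(r / 2)) * ∑' m : ZI, he (nz m / X) r *
      (sy m p * sy m q))) =
      fun r : ℝ => (fun s => gd τ (σ - s) * (X * Real.exp (-(s / 2)) * Th X s p q)) (σ - r) := by
    funext r
    simp only
    rw [hpois p q X r hp hq hne hX, sub_sub_cancel]
    have e4 : (∑' k : ZI, Real.exp (-(Real.pi * (nz k * (X * Real.exp r) / (nz p * nz q)))) *
        (sy k p * sy k q)) = Th X (σ - r) p q := by
      unfold Th
      refine tsum_congr fun k => ?_
      congr 4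
      rw [neg_sub, Real.exp_sub, hσe]
      ring
    rw [e4]
    have e5 : Real.sqrt (nz p * nz q) = Real.exp (σ / 2) := by
      rw [← hσe, Real.exp_half]
    rw [e5]
    have e6 : Real.exp (-((σ - r) / 2)) = Real.exp (-(r / 2)) * Real.exp r / Real.exp (σ / 2) := by
      rw [← Real.exp_add, ← Real.exp_sub]
      congr 1
      ring
    rw [e6]
    ring
  constructor
  · have h := e2
    rw [key] at h
    have h3 := h.comp_sub_left σ
    simpa using h3
  · rw [e3, key]
    exact integral_sub_left_eq_self (μ := volume)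
      (fun s => gd τ (σ - s) * (X * Real.exp (-(s / 2)) * Th X s p q)) σ

/-- the off-diagonal integrand, expanded over the pairs of primes -/
noncomputable def Pp (P : Finset ZI) (y : ZI → ℝ) (τ X s : ℝ) : ℝ :=
  ∑ p ∈ P, ∑ q ∈ P, open Classical in if p = q then 0 else y p * y q * KK τ p q *
    (gd τ (Real.log (nz p) + Real.log (nz q) - s) * (X * Real.exp (-(s / 2)) * Th X s p q))

lemma Fs_nonneg {X : ℝ} (hX : 0 ≤ X) (s : ℝ) (k : ZI) : 0 ≤ Fs X s k := by
  unfold Fs; positivity

lemma Fs_summable (hgs : S_gs) {X : ℝ} (hX : 0 < X) (s : ℝ) : Summable (fun k : ZI => Fs X s k) := by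
  unfold Fs
  exact (hgs.1 _ (by positivity : 0 < X * Real.exp (-s))).1.mul_left _

/-- expansion of the integrand over the dual variable -/
theorem D3 (hgs : S_gs) (P : Finset ZI) (y : ZI → ℝ) {τ X : ℝ} (hX : 0 < X) (s : ℝ) :
    Ph P y τ X s = Pp P y τ X s := by
  classical
  have hFs := Fs_summable hgs hX s
  have hq : ∀ k : ZI, qq P y τ (sy k) s - ∑ p ∈ P, y p ^ 2 * sy k p ^ 2 *
      gd τ (2 * Real.log (nz p) - s) =
      ∑ p ∈ P, ∑ q ∈ P, if p = q then 0 else y p * y q * KK τ p q *
        gd τ (Real.log (nz p) + Real.log (nz q) - s) * (sy k p * sy k q) := by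
    intro k
    unfold qq
    rw [← Finset.sum_sub_distrib]
    refine Finset.sum_congr rfl fun p hp => ?_
    have h6 : ∀ q ∈ P, y p * y q * (sy k p * sy k q) *
        (KK τ p q * gd τ (Real.log (nz p) + Real.log (nz q) - s)) =
        (if p = q then y p ^ 2 * sy k p ^ 2 * gd τ (2 * Real.log (nz p) - s) else 0) +
        (if p = q then 0 else y p * y q * KK τ p q *
        gd τ (Real.log (nz p) + Real.log (nz q) - s) * (sy k p * sy k q)) := by
      intro q hq
      by_cases hne : p = q
      · subst hne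
        rw [if_pos rfl, if_pos rfl, add_zero, KK_self, two_mul]
        ring
      · rw [if_neg hne, if_neg hne, zero_add]
        ring
    rw [Finset.sum_congr rfl h6, Finset.sum_add_distrib, Finset.sum_ite_eq, if_pos hp]
    ring
  have hsj : ∀ p q : ZI, Summable (fun k : ZI => Fs X s k * (sy k p * sy k q)) := by
    intro p q
    refine Summable.of_norm_bounded hFs fun k => ?_
    rw [norm_mul, Real.norm_eq_abs, Real.norm_eq_abs, abs_of_nonneg (Fs_nonneg hX.le s k)]
    exact mul_le_of_le_one_right (Fs_nonneg hX.le s k) (sy2_abs k p q)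
  have hTh : ∀ p q : ZI, ∑' k : ZI, Fs X s k * (sy k p * sy k q) =
      X * Real.exp (-(s / 2)) * Th X s p q := by
    intro p q
    unfold Th Fs
    rw [← tsum_mul_left]
    refine tsum_congr fun k => ?_
    ring
  have e2 : ∀ k : ZI, Fs X s k * (qq P y τ (sy k) s -
      ∑ p ∈ P, y p ^ 2 * sy k p ^ 2 * gd τ (2 * Real.log (nz p) - s)) =
      ∑ p ∈ P, ∑ q ∈ P, if p = q then 0 else (y p * y q * KK τ p q *
        gd τ (Real.log (nz p) + Real.log (nz q) - s)) * (Fs X s k * (sy k p * sy k q)) := by
    intro k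
    rw [hq, Finset.mul_sum]
    refine Finset.sum_congr rfl fun p _ => ?_
    rw [Finset.mul_sum]
    refine Finset.sum_congr rfl fun q _ => ?_
    split_ifs
    · simp
    · ring
  unfold Ph
  simp_rw [e2]
  have hsum : ∀ p q : ZI, Summable (fun k : ZI => if p = q then 0 else (y p * y q * KK τ p q *
        gd τ (Real.log (nz p) + Real.log (nz q) - s)) * (Fs X s k * (sy k p * sy k q))) := by
    intro p q
    split_ifs
    · exact summable_zero
    · exact (hsj _ _).mul_left _
  rw [Summable.tsum_finsetSum (fun p _ => summable_sum fun q _ => hsum p q)]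
  unfold Pp
  refine Finset.sum_congr rfl fun p _ => ?_
  rw [Summable.tsum_finsetSum (fun q _ => hsum p q)]
  refine Finset.sum_congr rfl fun q _ => ?_
  by_cases hne : p = q
  · simp [hne]
  · simp only [if_neg hne]
    rw [tsum_mul_left, hTh]
    ring

lemma psum (hex : S_exch) {τ X : ℝ} (hτ : 0 < τ) (hX : 0 < X) (p q : ZI) :
    Summable (fun m : ZI => Wt τ (nz m / X) * (sy m p * sy m q)) :=
  (hex τ X (fun m => sy m p * sy m q) hτ hX (fun m => sy2_abs m p q)
    (by rw [El.sy_zero, zero_mul])).1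

end Du

open Du Psd in
/-- the total mass -/
theorem D_main : S_pois → S_exch → S_gs → S_el → S_D := by
  intro hpois hex hgs hel P hP y τ X hτ hX
  classical
  have h1 : ∀ m : ZI, Wt τ (nz m / X) * GG P y τ (sy m) =
      ∑ p ∈ P, ∑ q ∈ P, (y p * y q * KK τ p q) *
        (Wt τ (nz m / X) * (sy m p * sy m q)) := by
    intro m
    rw [Psd.GG_eq, Finset.mul_sum]
    refine Finset.sum_congr rfl fun p _ => ?_
    rw [Finset.mul_sum]
    refine Finset.sum_congr rfl fun q _ => ?_
    ring
  have hs : ∀ p q : ZI, Summable (fun m : ZI => (y p * y q * KK τ p q) *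
      (Wt τ (nz m / X) * (sy m p * sy m q))) := fun p q => (psum hex hτ hX p q).mul_left _
  have hs2 : ∀ p ∈ P, Summable (fun m : ZI => ∑ q ∈ P, (y p * y q * KK τ p q) *
      (Wt τ (nz m / X) * (sy m p * sy m q))) := fun p _ => summable_sum fun q _ => hs p q
  have hint2 : ∀ p ∈ P, ∀ q ∈ P, Integrable (fun s => if p = q then 0 else y p * y q * KK τ p q *
    (gd τ (Real.log (nz p) + Real.log (nz q) - s) * (X * Real.exp (-(s / 2)) * Th X s p q))) := by
    intro p hp q hq
    by_cases hne : p = q
    · simp [hne]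
    · simp only [if_neg hne]
      exact (D1 hpois hex hel hτ hX (hP p hp) (hP q hq) hne).1.const_mul _
  have hPh : (fun s => Ph P y τ X s) = fun s => ∑ p ∈ P, ∑ q ∈ P, if p = q then 0 else
      y p * y q * KK τ p q *
    (gd τ (Real.log (nz p) + Real.log (nz q) - s) * (X * Real.exp (-(s / 2)) * Th X s p q)) := by
    funext s
    rw [D3 hgs P y hX s]
    unfold Pp
    refine Finset.sum_congr rfl fun p _ => Finset.sum_congr rfl fun q _ => ?_
    split_ifs <;> rfl
  refine ⟨?_, ?_, ?_⟩
  · refine (summable_sum hs2).congr fun m => ?_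
    exact (h1 m).symm
  · rw [hPh]
    exact integrable_finsetSum _ fun p hp => integrable_finsetSum _ fun q hq => hint2 p hp q hq
  · simp_rw [h1]
    rw [Summable.tsum_finsetSum hs2]
    have h3 : ∀ p ∈ P, ∑' m : ZI, ∑ q ∈ P, (y p * y q * KK τ p q) *
        (Wt τ (nz m / X) * (sy m p * sy m q)) =
        ∑ q ∈ P, (y p * y q * KK τ p q) * ∑' m : ZI,
          (Wt τ (nz m / X) * (sy m p * sy m q)) := by
      intro p _
      rw [Summable.tsum_finsetSum (fun q _ => hs p q)]
      exact Finset.sum_congr rfl fun q _ => tsum_mul_left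
    rw [Finset.sum_congr rfl h3]
    have h4 : ∫ s : ℝ, Ph P y τ X s = ∑ p ∈ P, ∑ q ∈ P, if p = q then 0 else
        y p * y q * KK τ p q * ∑' m : ZI, (Wt τ (nz m / X) * (sy m p * sy m q)) := by
      rw [hPh]
      rw [integral_finsetSum _ (fun p hp => integrable_finsetSum _ fun q hq => hint2 p hp q hq)]
      refine Finset.sum_congr rfl fun p hp => ?_
      rw [integral_finsetSum _ (fun q hq => hint2 p hp q hq)]
      refine Finset.sum_congr rfl fun q hq => ?_
      by_cases hne : p = q
      · simp [hne]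
      · simp only [if_neg hne]
        rw [integral_const_mul, (D1 hpois hex hel hτ hX (hP p hp) (hP q hq) hne).2]
    rw [h4, ← Finset.sum_add_distrib]
    refine Finset.sum_congr rfl fun p hp => ?_
    have h6 : ∀ q ∈ P, (y p * y q * KK τ p q) * ∑' m : ZI,
          (Wt τ (nz m / X) * (sy m p * sy m q)) =
        (if p = q then y p ^ 2 * Dg τ X p else 0) + (if p = q then 0 else
        y p * y q * KK τ p q * ∑' m : ZI, (Wt τ (nz m / X) * (sy m p * sy m q))) := by
      intro q _
      by_cases hne : p = q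
      · subst hne
        rw [if_pos rfl, if_pos rfl, add_zero, KK_self, mul_one, Dg, pow_two]
        congr 1
        exact tsum_congr fun m => by rw [pow_two]
      · rw [if_neg hne, if_neg hne, zero_add]
    rw [Finset.sum_congr rfl h6, Finset.sum_add_distrib, Finset.sum_ite_eq, if_pos hp]

end Pool.Agent.N880.QI
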