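import Pool.Agent.Y697.MQ.Rcp
import Pool.Agent.N880.QI.El

/-!
Project QI (helper880): quadratic characters of the Gaussian integers.
-/

set_option autoImplicit false

namespace Pool.Agent.N880.QI.Qch

open Pool.Agent.Y697.MQ (leg OP Pr ci leg_eq_zero leg_cases leg_ne leg_congr leg_mul leg_one
  leg_one_deg leg_inert types recip leg_I norm_eq ci_ne ci_mul)

/-- the supplementary symbol -/
def c2 (g : GaussianInt) : ℤ := ZMod.χ₈ ((g.re + g.im : ℤ) : ZMod 8)

lemma par {g : GaussianInt} (h : Pr g) : g.re % 2 = 1 ∧ g.im % 2 = 0 := by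
  unfold Pr at h
  omega

lemma cop_ri {p : GaussianInt} (hp : OP p) {q : ℕ} (hqp : q.Prime) (hq : p.norm.natAbs = q) :
    IsCoprime p.re p.im := by
  have hqz : (q : ℤ) = p.re * p.re + p.im * p.im := by
    rw [← hq, Int.natCast_natAbs, abs_of_nonneg (GaussianInt.norm_nonneg _), norm_eq]
  rw [Int.isCoprime_iff_gcd_eq_one]
  by_contra hg
  obtain ⟨r, hr, hrd⟩ := Nat.exists_prime_and_dvd hg
  obtain ⟨a, ha⟩ : (r : ℤ) ∣ p.re := (Int.natCast_dvd_natCast.2 hrd).trans (Int.gcd_dvd_left _ _)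
  obtain ⟨b, hb⟩ : (r : ℤ) ∣ p.im := (Int.natCast_dvd_natCast.2 hrd).trans (Int.gcd_dvd_right _ _)
  have h3 : ((r : ℤ) * r) ∣ q := ⟨a * a + b * b, by rw [hqz, ha, hb]; ring⟩
  have h4 : r * r ∣ q := by exact_mod_cast h3
  have h5 : r ∣ q := (dvd_mul_right r r).trans h4
  have h6 : r = q := (Nat.prime_dvd_prime_iff_eq hr hqp).1 h5
  rw [h6] at h4
  have h7 := Nat.le_of_dvd hqp.pos h4
  have h8 := hqp.two_le
  nlinarith

/-- the symbol of `1 + i` -/
theorem leg_lam {p : GaussianInt} (hp : OP p) : leg p ⟨1, 1⟩ = c2 p := by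
  obtain ⟨q, hqp, -, h⟩ := types hp
  have : Fact q.Prime := ⟨hqp⟩
  have hx : ¬ p ∣ (⟨1, 1⟩ : GaussianInt) := hp.odd
  rcases h with ⟨h4, hN⟩ | ⟨h3, hpq, hN⟩
  · rw [leg_one_deg hp hN h4 _ hx]
    have hqz : (q : ℤ) = p.re * p.re + p.im * p.im := by
      rw [← hN, Int.natCast_natAbs, abs_of_nonneg (GaussianInt.norm_nonneg _), norm_eq]
    have hc := cop_ri hp hqp hN
    obtain ⟨o1, o2⟩ := par hp.pm
    have e : (⟨1, 1⟩ : GaussianInt).re * p.re + (⟨1, 1⟩ : GaussianInt).im * p.im = p.re + p.im := by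
      show 1 * p.re + 1 * p.im = _
      ring
    rw [e]
    set s := p.re + p.im with hs
    have hso : s % 2 = 1 := by omega
    have hmo : Odd s.natAbs := by
      rw [Int.natAbs_odd, Int.odd_iff]; exact hso
    have hNo : Odd q := Nat.odd_iff.2 (by omega)
    rw [jacobiSym.legendreSym.to_jacobiSym]
    have h1 : jacobiSym s q = jacobiSym (s.natAbs : ℤ) q := by
      rcases Int.natAbs_eq s with h2 | h2
      · rw [← h2]
      · conv_lhs => rw [h2]
        rw [jacobiSym.neg _ hNo, ZMod.χ₄_nat_one_mod_four h4, one_mul]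
    rw [h1, ← jacobiSym.quadratic_reciprocity_one_mod_four h4 hmo]
    have hcs : IsCoprime s (p.re - p.im) := by
      obtain ⟨u, v, huv⟩ := hc
      -- gcd(s, t) divides 2 re, 2 im; s odd
      obtain ⟨w, hw⟩ : ∃ w, s = 2 * w + 1 := ⟨s / 2, by omega⟩
      have h2 : IsCoprime s (2 * p.re) := by
        refine IsCoprime.mul_right ⟨1, -w, by rw [hw]; ring⟩ ⟨v, u - v, ?_⟩
        rw [hs]; linear_combination huv
      have h3 : 2 * p.re = s + (p.re - p.im) := by rw [hs]; ring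
      rw [h3] at h2
      have h4 : s + (p.re - p.im) = (p.re - p.im) + s * 1 := by ring
      rw [h4] at h2
      exact IsCoprime.of_add_mul_left_right h2
    have h5 : jacobiSym (2 * (q : ℤ)) s.natAbs = 1 := by
      have h2 : (2 * (q : ℤ)) % (s.natAbs : ℤ) = ((p.re - p.im) ^ 2) % (s.natAbs : ℤ) := by
        rw [← Int.ModEq, Int.modEq_iff_dvd]
        rw [Int.natAbs_dvd]
        exact ⟨-s, by rw [hqz, hs]; ring⟩
      rw [jacobiSym.mod_left' h2]
      apply jacobiSym.sq_one'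
      have h3 : Int.gcd s (p.re - p.im) = 1 := Int.isCoprime_iff_gcd_eq_one.1 hcs
      rw [Int.gcd_comm] at h3
      rw [← h3]
      unfold Int.gcd
      rw [Int.natAbs_natCast]
    rw [jacobiSym.mul_left] at h5
    have h6 : jacobiSym 2 s.natAbs = ZMod.χ₈ s.natAbs := jacobiSym.at_two hmo
    have h7 : jacobiSym (q : ℤ) s.natAbs = jacobiSym 2 s.natAbs := by
      rcases jacobiSym.trichotomy 2 s.natAbs with h | h | h
      · rw [h, zero_mul] at h5; omega
      · rw [h, one_mul] at h5; rw [h5, h]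
      · rw [h] at h5 ⊢; omega
    rw [h7, h6]
    unfold c2
    rw [← hs]
    rcases Int.natAbs_eq s with h8 | h8
    · conv_rhs => rw [h8]
      rw [Int.cast_natCast]
    · conv_rhs => rw [h8]
      rw [Int.cast_neg, Int.cast_natCast]
      have : ∀ x : ZMod 8, ZMod.χ₈ (-x) = ZMod.χ₈ x := by decide
      rw [this]
  · rw [leg_inert hp h3 hpq hN _ hx]
    have e : Zsqrtd.norm (⟨1, 1⟩ : GaussianInt) = 2 := by decide
    rw [e]
    have hq2 : q ≠ 2 := by rintro rfl; omega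
    rw [legendreSym.at_two hq2]
    unfold c2
    have h4 : p.re + p.im = -(q : ℤ) := by
      rw [hpq]; simp
    rw [h4]
    push_cast
    have : ∀ x : ZMod 8, ZMod.χ₈ (-x) = ZMod.χ₈ x := by decide
    rw [this]

/-- a quadratic character modulo `8 k` -/
structure QE (k : GaussianInt) (ρ : GaussianInt →* ℤ) : Prop where
  per : ∀ a b : GaussianInt, 8 * k ∣ a - b → ρ a = ρ b
  supp : ∀ a : GaussianInt, ρ a ≠ 0 ↔ IsCoprime a (8 * k)
  vals : ∀ a : GaussianInt, ρ a = 0 ∨ ρ a = 1 ∨ ρ a = -1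
  unit : ρ ⟨0, 1⟩ = 1
  prm : ∀ π : GaussianInt, Prime π → ¬ π ∣ 2 → ρ π = leg π k

theorem QE.mul {k k' : GaussianInt} {ρ ρ' : GaussianInt →* ℤ} (h : QE k ρ) (h' : QE k' ρ') :
    QE (k * k') (ρ * ρ') where
  per := fun a b hab => by
    rw [MonoidHom.mul_apply, MonoidHom.mul_apply,
      h.per a b (Dvd.dvd.trans ⟨k', by ring⟩ hab), h'.per a b (Dvd.dvd.trans ⟨k, by ring⟩ hab)]
  supp := fun a => by
    rw [MonoidHom.mul_apply, mul_ne_zero_iff, h.supp, h'.supp]
    constructor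
    · rintro ⟨h1, h2⟩
      have : (8 : GaussianInt) * (k * k') = (8 * k) * k' := by ring
      rw [this]
      exact h1.mul_right h2.of_mul_right_right
    · intro h1
      constructor
      · exact h1.of_isCoprime_of_dvd_right ⟨k', by ring⟩
      · exact h1.of_isCoprime_of_dvd_right ⟨k, by ring⟩
  vals := fun a => by
    rw [MonoidHom.mul_apply]
    rcases h.vals a with h1 | h1 | h1 <;> rcases h'.vals a with h2 | h2 | h2 <;> rw [h1, h2] <;> simp
  unit := by rw [MonoidHom.mul_apply, h.unit, h'.unit, mul_one]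
  prm := fun π hπ h2 => by
    rw [MonoidHom.mul_apply, h.prm π hπ h2, h'.prm π hπ h2, leg_mul hπ]

/-- odd Gaussian integers -/
def Od (a : GaussianInt) : Prop := ¬ (⟨1, 1⟩ : GaussianInt) ∣ a

lemma prime_lam : Prime (⟨1, 1⟩ : GaussianInt) := by
  rw [← irreducible_iff_prime]
  refine ⟨?_, ?_⟩
  · intro hu
    have := Zsqrtd.norm_eq_one_iff.2 hu
    revert this
    decide
  · intro a b hab
    have h2 := congrArg (fun x : GaussianInt => x.norm.natAbs) hab
    simp only [Zsqrtd.norm_mul, Int.natAbs_mul] at h2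
    have h3 : (Zsqrtd.norm (⟨1, 1⟩ : GaussianInt)).natAbs = 2 := by decide
    rw [h3] at h2
    have h4 : (Zsqrtd.norm a).natAbs ∣ 2 := ⟨_, h2⟩
    rcases (Nat.dvd_prime Nat.prime_two).1 h4 with h5 | h5
    · exact Or.inl (Zsqrtd.norm_eq_one_iff.1 h5)
    · rw [h5] at h2
      exact Or.inr (Zsqrtd.norm_eq_one_iff.1 (by omega))

lemma Od_mul {a b : GaussianInt} : Od (a * b) ↔ Od a ∧ Od b := by
  unfold Od
  rw [prime_lam.dvd_mul]
  tauto

lemma Pr_Od {a : GaussianInt} (h : Pr a) : Od a := by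
  intro h1
  obtain ⟨b, hb⟩ := h.odd
  have h2 : (⟨1, 1⟩ : GaussianInt) ∣ 1 := by
    have := dvd_sub h1 (dvd_mul_right (⟨1, 1⟩ : GaussianInt) b)
    rwa [hb, add_sub_cancel_right] at this
  exact prime_lam.not_isUnit (isUnit_of_dvd_one h2)

lemma Od_cop {a : GaussianInt} : Od a ↔ IsCoprime a 8 := by
  have e : (8 : GaussianInt) = ⟨1, 1⟩ ^ 6 * ⟨0, 1⟩ := by decide
  constructor
  · intro h
    have h1 : IsCoprime a (⟨1, 1⟩ : GaussianInt) :=
      ((prime_lam.irreducible.coprime_iff_not_dvd).2 h).symm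
    rw [e]
    refine (h1.pow_right).mul_right ?_
    exact ⟨0, ⟨0, -1⟩, by rw [zero_mul, zero_add]; decide⟩
  · intro h h1
    rw [e] at h
    have h2 := h.of_mul_right_left
    have h3 : (⟨1, 1⟩ : GaussianInt) ∣ ⟨1, 1⟩ ^ 6 := dvd_pow_self _ (by norm_num)
    exact prime_lam.not_isUnit (h2.isUnit_of_dvd' h1 h3)

open Classical in
/-- the primary associate of an odd number -/
noncomputable def pa (a : GaussianInt) : GaussianInt :=
  if h : Od a then (Pr.exists_star a h).choose * a else 0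

lemma pa_spec {a : GaussianInt} (h : Od a) : ∃ u : GaussianInt, IsUnit u ∧ pa a = u * a ∧ Pr (pa a) := by
  unfold pa
  rw [dif_pos h]
  obtain ⟨_, h2, h3⟩ := (Pr.exists_star a h).choose_spec
  exact ⟨_, h2, rfl, h3⟩

lemma pa_eq {a u : GaussianInt} (h : Od a) (hu : IsUnit u) (hp : Pr (u * a)) : pa a = u * a := by
  obtain ⟨v, hv, h1, h2⟩ := pa_spec h
  refine h2.assoc hp ?_
  rw [h1]
  have e1 : Associated (v * a) a := (associated_unit_mul_left a v hv)
  have e2 : Associated (u * a) a := (associated_unit_mul_left a u hu)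
  exact e1.trans e2.symm

lemma pa_mul {a b : GaussianInt} (ha : Od a) (hb : Od b) : pa (a * b) = pa a * pa b := by
  obtain ⟨u, hu, h1, h2⟩ := pa_spec ha
  obtain ⟨v, hv, h3, h4⟩ := pa_spec hb
  have h5 : pa a * pa b = (u * v) * (a * b) := by rw [h1, h3]; ring
  rw [h5]
  refine pa_eq (Od_mul.2 ⟨ha, hb⟩) (hu.mul hv) ?_
  rw [← h5]
  exact (Pr.mul h2 h4).1

lemma pa_pr {a : GaussianInt} (h : Pr a) : pa a = a := by
  have := pa_eq (Pr_Od h) isUnit_one (by rwa [one_mul])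
  rwa [one_mul] at this

/-- from functions on primary numbers to characters -/
theorem base (k : GaussianInt) (f : GaussianInt → ℤ) (f1 : f 1 = 1)
    (fm : ∀ g h, Pr g → Pr h → f (g * h) = f g * f h)
    (fp : ∀ g h, Pr g → Pr h → 8 * k ∣ g - h → f g = f h)
    (fs : ∀ g, Pr g → (f g ≠ 0 ↔ IsCoprime g k))
    (fv : ∀ g, Pr g → f g = 0 ∨ f g = 1 ∨ f g = -1)
    (fq : ∀ π, OP π → f π = leg π k) :
    ∃ ρ : GaussianInt →* ℤ, QE k ρ ∧ ∀ g, Pr g → ρ g = f g := by
  classical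
  refine ⟨{ toFun := fun a => if Od a then f (pa a) else 0, map_one' := ?_, map_mul' := ?_ },
    ⟨?_, ?_, ?_, ?_, ?_⟩, ?_⟩
  · have h1 : Pr (1 : GaussianInt) := Pool.Agent.Y697.MQ.Pr_one
    rw [if_pos (Pr_Od h1), pa_pr h1, f1]
  · intro a b
    by_cases ha : Od a
    · by_cases hb : Od b
      · rw [if_pos ha, if_pos hb, if_pos (Od_mul.2 ⟨ha, hb⟩), pa_mul ha hb]
        obtain ⟨u, hu, h1, h2⟩ := pa_spec ha
        obtain ⟨v, hv, h3, h4⟩ := pa_spec hb
        exact fm _ _ h2 h4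
      · rw [if_neg hb, if_neg (fun h => hb (Od_mul.1 h).2), mul_zero]
    · rw [if_neg ha, if_neg (fun h => ha (Od_mul.1 h).1), zero_mul]
  · intro a b hab
    show (if Od a then f (pa a) else 0) = if Od b then f (pa b) else 0
    have h8 : (⟨1, 1⟩ : GaussianInt) ∣ a - b := by
      refine Dvd.dvd.trans ?_ hab
      exact Dvd.dvd.mul_right ⟨⟨4, -4⟩, by decide⟩ k
    have hiff : Od a ↔ Od b := by
      unfold Od
      have : (⟨1, 1⟩ : GaussianInt) ∣ a ↔ (⟨1, 1⟩ : GaussianInt) ∣ b := by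
        constructor
        · intro h
          have := dvd_sub h h8
          rwa [sub_sub_cancel] at this
        · intro h
          have := dvd_add h8 h
          rwa [sub_add_cancel] at this
      rw [this]
    by_cases ha : Od a
    · rw [if_pos ha, if_pos (hiff.1 ha)]
      obtain ⟨u, hu, h1, h2⟩ := pa_spec ha
      have h4 : (4 : GaussianInt) ∣ u * a - u * b := by
        rw [← mul_sub]
        refine Dvd.dvd.mul_left (Dvd.dvd.trans ?_ hab) u
        exact Dvd.dvd.mul_right ⟨2, by norm_num⟩ k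
      have h5 : Pr (u * b) := (Pr.congr (h1 ▸ h2) h4).1
      rw [pa_eq (hiff.1 ha) hu h5, h1]
      refine fp _ _ (h1 ▸ h2) h5 ?_
      rw [← mul_sub]
      exact hab.mul_left u
    · rw [if_neg ha, if_neg (fun h => ha (hiff.2 h))]
  · intro a
    show (if Od a then f (pa a) else 0) ≠ 0 ↔ _
    by_cases ha : Od a
    · rw [if_pos ha]
      obtain ⟨u, hu, h1, h2⟩ := pa_spec ha
      rw [fs _ h2, h1]
      constructor
      · intro h
        exact (Od_cop.1 ha).mul_right ((isCoprime_mul_unit_left_left hu a k).1 h)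
      · intro h
        exact (isCoprime_mul_unit_left_left hu a k).2 h.of_mul_right_right
    · rw [if_neg ha]
      constructor
      · intro h; exact absurd rfl h
      · intro h
        exact absurd (Od_cop.2 h.of_mul_right_left) ha
  · intro a
    show (if Od a then f (pa a) else 0) = 0 ∨ (if Od a then f (pa a) else 0) = 1 ∨
      (if Od a then f (pa a) else 0) = -1
    by_cases ha : Od a
    · rw [if_pos ha]
      obtain ⟨u, hu, h1, h2⟩ := pa_spec ha
      exact fv _ h2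
    · rw [if_neg ha]; left; rfl
  · show (if Od ⟨0, 1⟩ then f (pa ⟨0, 1⟩) else 0) = 1
    have hod : Od (⟨0, 1⟩ : GaussianInt) := by
      intro h
      exact prime_lam.not_isUnit (isUnit_of_dvd_one (h.trans ⟨⟨0, -1⟩, by decide⟩))
    have hu : IsUnit (⟨0, -1⟩ : GaussianInt) := IsUnit.of_mul_eq_one ⟨0, 1⟩ (by decide)
    have h2 : (⟨0, -1⟩ : GaussianInt) * ⟨0, 1⟩ = 1 := by decide
    have h1 : pa ⟨0, 1⟩ = 1 := by
      rw [pa_eq hod hu (by rw [h2]; exact Pool.Agent.Y697.MQ.Pr_one), h2]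
    rw [if_pos hod, h1, f1]
  · intro π hπ h2
    show (if Od π then f (pa π) else 0) = leg π k
    have hod : Od π := by
      intro h
      have h3 : Associated (⟨1, 1⟩ : GaussianInt) π := prime_lam.associated_of_dvd hπ h
      exact h2 (h3.symm.dvd.trans ⟨⟨1, -1⟩, by decide⟩)
    rw [if_pos hod]
    obtain ⟨u, hu, h1, h3⟩ := pa_spec hod
    have hass : Associated (pa π) π := by
      rw [h1]; exact associated_unit_mul_left π u hu
    have hop : OP (pa π) := ⟨hass.symm.prime hπ, h3⟩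
    rw [fq _ hop]
    unfold leg
    simp only [hass.dvd_iff_dvd_left]
  · intro g hg
    show (if Od g then f (pa g) else 0) = f g
    rw [if_pos (Pr_Od hg), pa_pr hg]

lemma cop_unit {g u : GaussianInt} (hu : IsUnit u) : IsCoprime g u := by
  obtain ⟨v, hv⟩ := hu.exists_left_inv
  exact ⟨0, v, by rw [zero_mul, zero_add, hv]⟩

theorem QE_one : ∃ ρ : GaussianInt →* ℤ, QE 1 ρ := by
  suffices h : ∃ ρ : GaussianInt →* ℤ, QE 1 ρ ∧ ∀ g, Pr g → ρ g = 1 from ⟨h.choose, h.choose_spec.1⟩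
  refine base 1 (fun _ => 1) rfl (fun _ _ _ _ => by norm_num) (fun _ _ _ _ _ => rfl) ?_
    (fun _ _ => Or.inr (Or.inl rfl)) ?_
  · intro g _
    exact ⟨fun _ => isCoprime_one_right, fun _ => one_ne_zero⟩
  · intro π hπ
    exact (leg_one hπ.pr).symm

theorem QE_I : ∃ ρ : GaussianInt →* ℤ, QE ⟨0, 1⟩ ρ := by
  suffices h : ∃ ρ : GaussianInt →* ℤ, QE ⟨0, 1⟩ ρ ∧ ∀ g, Pr g → ρ g = ci g from
    ⟨h.choose, h.choose_spec.1⟩
  refine base ⟨0, 1⟩ ci ?_ ?_ ?_ ?_ ?_ ?_
  · decide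
  · intro g h hg hh
    exact (Pr.mul hg hh).2
  · intro g h hg hh h8
    have h4 : (4 : GaussianInt) ∣ g - h := by
      refine Dvd.dvd.trans ?_ h8
      exact Dvd.dvd.mul_right ⟨2, by norm_num⟩ _
    exact (Pr.congr hg h4).2.symm
  · intro g hg
    constructor
    · intro _
      exact cop_unit (IsUnit.of_mul_eq_one ⟨0, -1⟩ (by decide))
    · intro _
      rcases ci_ne hg with h | h <;> rw [h] <;> norm_num
  · intro g hg
    exact Or.inr (ci_ne hg)
  · intro π hπ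
    exact (leg_I hπ).symm

lemma c2_vals {g : GaussianInt} (hg : Pr g) : c2 g = 1 ∨ c2 g = -1 := by
  obtain ⟨o1, o2⟩ := par hg
  have h1 : (g.re + g.im) % 2 = 1 := by omega
  unfold c2
  have h2 : ((g.re + g.im : ℤ) : ZMod 8) = (((g.re + g.im) % 8 : ℤ) : ZMod 8) := by
    rw [ZMod.intCast_eq_intCast_iff_dvd_sub]
    exact ⟨-((g.re + g.im) / 8), by push_cast; omega⟩
  rw [h2]
  have h3 : (g.re + g.im) % 8 = 1 ∨ (g.re + g.im) % 8 = 3 ∨ (g.re + g.im) % 8 = 5 ∨
      (g.re + g.im) % 8 = 7 := by omega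
  rcases h3 with h | h | h | h <;> rw [h]
  · left; decide
  · right; decide
  · right; decide
  · left; decide

theorem QE_lam : ∃ ρ : GaussianInt →* ℤ, QE ⟨1, 1⟩ ρ := by
  suffices h : ∃ ρ : GaussianInt →* ℤ, QE ⟨1, 1⟩ ρ ∧ ∀ g, Pr g → ρ g = c2 g from
    ⟨h.choose, h.choose_spec.1⟩
  refine base ⟨1, 1⟩ c2 ?_ ?_ ?_ ?_ ?_ ?_
  · decide
  · intro g h hg hh
    obtain ⟨o1, o2⟩ := par hg
    obtain ⟨o3, o4⟩ := par hh
    unfold c2
    rw [← map_mul]
    congr 1
    rw [Zsqrtd.re_mul, Zsqrtd.im_mul]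
    obtain ⟨a, ha⟩ : ∃ a, g.im = 2 * a := ⟨g.im / 2, by omega⟩
    obtain ⟨b, hb⟩ : ∃ b, h.im = 2 * b := ⟨h.im / 2, by omega⟩
    rw [ha, hb, ← Int.cast_mul, ZMod.intCast_eq_intCast_iff_dvd_sub]
    exact ⟨a * b, by push_cast; ring⟩
  · intro g h hg hh h8
    obtain ⟨c, hc⟩ := h8
    unfold c2
    congr 1
    rw [ZMod.intCast_eq_intCast_iff_dvd_sub]
    have h1 := congrArg Zsqrtd.re hc
    have h2 := congrArg Zsqrtd.im hc
    rw [Zsqrtd.re_sub, Zsqrtd.re_mul] at h1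
    rw [Zsqrtd.im_sub, Zsqrtd.im_mul] at h2
    have e1 : (8 * (⟨1, 1⟩ : GaussianInt)).re = 8 := by decide
    have e2 : (8 * (⟨1, 1⟩ : GaussianInt)).im = 8 := by decide
    rw [e1, e2] at h1 h2
    exact ⟨-(2 * c.re), by push_cast; linarith⟩
  · intro g hg
    constructor
    · intro _
      exact ((prime_lam.irreducible.coprime_iff_not_dvd).2 (Pr_Od hg)).symm
    · intro _
      rcases c2_vals hg with h | h <;> rw [h] <;> norm_num
  · intro g hg
    exact Or.inr (c2_vals hg)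
  · intro π hπ
    exact (leg_lam hπ).symm

theorem QE_odd {l : GaussianInt} (hl : OP l) :
    ∃ ρ : GaussianInt →* ℤ, QE l ρ ∧ ∀ g, Pr g → ρ g = leg l g := by
  refine base l (leg l) (leg_one hl.pr) ?_ ?_ ?_ ?_ ?_
  · intro g h _ _
    exact leg_mul hl.pr g h
  · intro g h _ _ h8
    exact leg_congr ((dvd_mul_left l 8).trans h8)
  · intro g _
    rw [Ne, leg_eq_zero]
    rw [isCoprime_comm]
    exact (hl.pr.irreducible.coprime_iff_not_dvd).symm
  · intro g _
    exact leg_cases l g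
  · intro π hπ
    by_cases h : π = l
    · rw [h]
    · exact (recip hπ hl h).symm

lemma unit4 {u : GaussianInt} (hu : IsUnit u) :
    u = 1 ∨ u = ⟨0, 1⟩ * ⟨0, 1⟩ ∨ u = ⟨0, 1⟩ ∨ u = ⟨0, 1⟩ * (⟨0, 1⟩ * ⟨0, 1⟩) := by
  have hn := Zsqrtd.norm_eq_one_iff.2 hu
  have h0 := GaussianInt.norm_nonneg u
  have h2 : u.re * u.re + u.im * u.im = 1 := by
    have := norm_eq u
    omega
  have hr : u.re * u.re ≤ 1 := by nlinarith [mul_self_nonneg u.im]
  have hi' : u.im * u.im ≤ 1 := by nlinarith [mul_self_nonneg u.re]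
  have a1 : -1 ≤ u.re := by nlinarith
  have a2 : u.re ≤ 1 := by nlinarith
  have a3 : -1 ≤ u.im := by nlinarith
  have a4 : u.im ≤ 1 := by nlinarith
  have hre : u.re = -1 ∨ u.re = 0 ∨ u.re = 1 := by omega
  have him : u.im = -1 ∨ u.im = 0 ∨ u.im = 1 := by omega
  rcases hre with h | h | h <;> rcases him with h' | h' | h' <;> rw [h, h'] at h2 <;>
    first
    | (exfalso; omega)
    | (left; ext <;> [exact h; exact h'])
    | (right; left; ext <;> [(rw [h]; decide); (rw [h']; decide)])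
    | (right; right; left; ext <;> [exact h; exact h'])
    | (right; right; right; ext <;> [(rw [h]; decide); (rw [h']; decide)])

lemma QE_unit (u : GaussianInt) (hu : IsUnit u) : ∃ ρ : GaussianInt →* ℤ, QE u ρ := by
  obtain ⟨ρ1, h1⟩ := QE_one
  obtain ⟨ρi, hi⟩ := QE_I
  rcases unit4 hu with h | h | h | h
  · exact ⟨ρ1, h ▸ h1⟩
  · exact ⟨ρi * ρi, h ▸ hi.mul hi⟩
  · exact ⟨ρi, h ▸ hi⟩
  · exact ⟨ρi * (ρi * ρi), h ▸ hi.mul (hi.mul hi)⟩

/-- the character of an odd prime, with a non-residue -/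
lemma QE_oddprime {π : GaussianInt} (hπ : Prime π) (h2 : ¬ π ∣ 2) :
    ∃ ρ : GaussianInt →* ℤ, QE π ρ ∧ ∃ b : GaussianInt, ¬ π ∣ b ∧
      ∀ a : GaussianInt, 8 ∣ a - 1 → π ∣ a - b → ρ a = -1 := by
  have hod : Od π := by
    intro h
    have h3 : Associated (⟨1, 1⟩ : GaussianInt) π := prime_lam.associated_of_dvd hπ h
    exact h2 (h3.symm.dvd.trans ⟨⟨1, -1⟩, by decide⟩)
  obtain ⟨u, hu, h1, h3⟩ := pa_spec hod
  have hass : Associated (pa π) π := by
    rw [h1]; exact associated_unit_mul_left π u hu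
  have hop : OP (pa π) := ⟨hass.symm.prime hπ, h3⟩
  obtain ⟨ρ1, h4, h4'⟩ := QE_odd hop
  obtain ⟨b, hb⟩ := hop.nonres
  have hass' := hass
  obtain ⟨v, hv⟩ := hass
  obtain ⟨ρ2, h5⟩ := QE_unit v v.isUnit
  refine ⟨ρ1 * ρ2, hv ▸ h4.mul h5, b, ?_, ?_⟩
  · intro h
    have h6 : pa π ∣ b := hass'.dvd_iff_dvd_left.2 h
    rw [leg_eq_zero.2 h6] at hb
    omega
  · intro a h8 hab
    have h6 : Pr a := by
      refine (Pr.congr Pool.Agent.Y697.MQ.Pr_one (h := a) ?_).1
      have h7 : (4 : GaussianInt) ∣ a - 1 := Dvd.dvd.trans ⟨2, by norm_num⟩ h8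
      rw [← dvd_neg, neg_sub] at h7
      exact h7
    have h7 : ρ2 a = 1 := by
      refine (h5.per a 1 ?_).trans (map_one ρ2)
      obtain ⟨c, hc⟩ := h8
      exact ⟨((v⁻¹ : GaussianIntˣ) : GaussianInt) * c, by
        rw [hc, mul_assoc, ← mul_assoc (v : GaussianInt), Units.mul_inv, one_mul]⟩
    rw [MonoidHom.mul_apply, h7, mul_one, h4' a h6, ← hb]
    exact leg_congr (hass'.dvd_iff_dvd_left.2 hab)

/-- quadratic characters for all `k` -/
theorem QE_all (k : GaussianInt) (hk : k ≠ 0) : ∃ ρ : GaussianInt →* ℤ, QE k ρ := by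
  revert hk
  refine UniqueFactorizationMonoid.induction_on_prime k (fun h => absurd rfl h)
    (fun u hu _ => QE_unit u hu) ?_
  intro a p ha hp ih _
  obtain ⟨ρ, hρ⟩ := ih ha
  have hp' : ∃ ρ' : GaussianInt →* ℤ, QE p ρ' := by
    by_cases hod : Od p
    · obtain ⟨u, hu, h1, h3⟩ := pa_spec hod
      have hass : Associated (pa p) p := by
        rw [h1]; exact associated_unit_mul_left p u hu
      have hop : OP (pa p) := ⟨hass.symm.prime hp, h3⟩
      obtain ⟨ρ1, h4, -⟩ := QE_odd hop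
      obtain ⟨v, hv⟩ := hass
      obtain ⟨ρ2, h5⟩ := QE_unit v v.isUnit
      exact ⟨ρ1 * ρ2, hv ▸ h4.mul h5⟩
    · unfold Od at hod
      rw [not_not] at hod
      obtain ⟨v, hv⟩ : Associated (⟨1, 1⟩ : GaussianInt) p := prime_lam.associated_of_dvd hp hod
      obtain ⟨ρ1, h4⟩ := QE_lam
      obtain ⟨ρ2, h5⟩ := QE_unit v v.isUnit
      exact ⟨ρ1 * ρ2, hv ▸ h4.mul h5⟩
  obtain ⟨ρ', h'⟩ := hp'
  exact ⟨ρ' * ρ, h'.mul hρ⟩

end Pool.Agent.N880.QI.Qch
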