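import Pool.Agent.N880.QI.Stm

/-!
Project QI (helper880): duality over the Gaussian integers, statements.
-/

set_option autoImplicit false

open Complex Filter Topology MeasureTheory Set
open H385 (ZI)
open Pool.Agent.N880.QF (gd)

namespace Pool.Agent.N880.QI

/-- the kernel -/
noncomputable def KK (τ : ℝ) (p q : ZI) : ℝ :=
  Real.exp (-(τ ^ 2 * (Real.log (nz p) - Real.log (nz q)) ^ 2 / 4))

/-- the quadratic form localised at `s` -/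
noncomputable def qq (P : Finset ZI) (y : ZI → ℝ) (τ : ℝ) (z : ZI → ℝ) (s : ℝ) : ℝ :=
  ∑ p ∈ P, ∑ q ∈ P, y p * y q * (z p * z q) *
    (KK τ p q * gd τ (Real.log (nz p) + Real.log (nz q) - s))

/-- coefficients on the dual side -/
noncomputable def Fs (X s : ℝ) (k : ZI) : ℝ :=
  Real.exp (-(s / 2)) * X * Real.exp (-(Real.pi * (nz k * (X * Real.exp (-s)))))

/-- the off-diagonal integrand -/
noncomputable def Ph (P : Finset ZI) (y : ZI → ℝ) (τ X s : ℝ) : ℝ :=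
  ∑' k : ZI, Fs X s k * (qq P y τ (sy k) s -
    ∑ p ∈ P, y p ^ 2 * sy k p ^ 2 * gd τ (2 * Real.log (nz p) - s))

/-- the diagonal weight -/
noncomputable def Dg (τ X : ℝ) (p : ZI) : ℝ := ∑' m : ZI, Wt τ (nz m / X) * sy m p ^ 2

open Classical in
/-- canonical squarefree numbers of norm `< K` -/
noncomputable def Kset (K : ℝ) : Finset ZI :=
  if h : {k : ZI | Squarefree k ∧ Can k ∧ nz k < K}.Finite then h.toFinset else ∅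

/-- elementary facts on square classes and symbols -/
def S_el : Prop :=
  (∀ (K : ℝ) (k : ZI), k ∈ Kset K ↔ Squarefree k ∧ Can k ∧ nz k < K) ∧
  (∀ K : ℝ, 1 ≤ K → ∀ S : Finset ZI, (∀ k ∈ S, nz k ≤ K) → (S.card : ℝ) ≤ 9 * K) ∧
  (∀ m : ZI, m ≠ 0 → ∃ k b : ZI, Squarefree k ∧ Can k ∧ Can b ∧ m = k * b ^ 2) ∧
  (∀ k b k' b' : ZI, Squarefree k → Squarefree k' → Can k → Can k' → Can b → Can b' →
    k * b ^ 2 = k' * b' ^ 2 → k = k' ∧ b = b') ∧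
  (∀ m p : ZI, |sy m p| ≤ 1) ∧
  (∀ m m' p : ZI, PZ p → sy (m * m') p = sy m p * sy m' p) ∧
  (∀ p : ZI, PZ p → Prime p ∧ 0 < nz p ∧ sy 0 p = 0) ∧
  (∀ b p : ZI, PZ p → sy (b ^ 2) p = open Classical in if p ∣ b then 0 else 1) ∧
  (∃ C : ℝ, 0 < C ∧ ∀ P : Finset ZI, (∀ p ∈ P, p ≠ 0) → ∑ p ∈ P, 1 / nz p ^ 2 ≤ C) ∧
  (∀ (P : Finset ZI) (X : ℝ), 1 ≤ X → (∀ p ∈ P, PZ p ∧ Real.log (nz p) ≤ Real.log X) →
    (P.card : ℝ) ≤ 9 * X)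

/-- D: the total mass -/
def S_D : Prop := ∀ (P : Finset ZI), (∀ p ∈ P, PZ p) → ∀ (y : ZI → ℝ) (τ X : ℝ), 0 < τ → 0 < X →
  Summable (fun m : ZI => Wt τ (nz m / X) * GG P y τ (sy m)) ∧
  Integrable (fun s => Ph P y τ X s) ∧
  ∑' m : ZI, Wt τ (nz m / X) * GG P y τ (sy m) =
    ∑ p ∈ P, y p ^ 2 * Dg τ X p + ∫ s : ℝ, Ph P y τ X s

/-- error function of one prime -/
noncomputable def Ep (C : ℝ) (N : ℕ) (δ X K n s0 : ℝ) (p : ZI) (s : ℝ) : ℝ :=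
  Real.exp (1 / 2 * s) + n * (C * (X / X ^ N) * Real.exp ((N - 1 / 2) * s) *
    (K ^ 2 / K ^ N + (1 + 1 / δ) * (1 / (nz p ^ 2) ^ N))) +
    9 * K * (2 * Real.sqrt X) * n * (Real.exp (N * s) * Real.exp (-(N * s0)))

/-- PW: the pointwise bound -/
def S_PW : Prop := ∀ N : ℕ, 2 ≤ N → ∀ c1 : ℝ,
  (∀ z : ℝ, 0 < z → c1 * min 1 (1 / Real.sqrt z) ≤ phi z) →
  ∃ C : ℝ, 0 < C ∧ ∀ (P : Finset ZI) (y : ZI → ℝ) (τ X K δ s0 : ℝ) (A : ZI → ℝ),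
    (∀ p ∈ P, PZ p) → 0 < τ → 1 ≤ X → 1 ≤ K → 0 < δ → δ ≤ 1 → (∀ k ∈ Kset K, 0 ≤ A k) →
    (∀ k ∈ Kset K, ∀ s ≤ s0, Real.pi / 4 * Real.sqrt (X / nz k) -
      c1 * (X * Real.exp (-(s / 2)) * min 1 (1 / Real.sqrt (nz k * (X * Real.exp (-s))))) +
      δ * (Real.pi / 4 * Real.sqrt (X / nz k)) ≤ (1 - δ) * A k) →
    ∀ s : ℝ, Ph P y τ X s ≤ (1 - δ) * ∑ k ∈ Kset K, A k * qq P y τ (sy k) s +
      ∑ p ∈ P, y p ^ 2 * gd τ (2 * Real.log (nz p) - s) * Ep C N δ X K P.card s0 p s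

/-- the weight of a square class -/
noncomputable def Aw (τ X : ℝ) (Bs : Finset ZI) (k : ZI) : ℝ :=
  ∑ b ∈ Bs, Wt τ (nz (k * b ^ 2) / X)

/-- PS: the primal side -/
def S_PS : Prop := ∃ C3 : ℝ, 0 < C3 ∧ ∀ (P : Finset ZI), (∀ p ∈ P, PZ p) →
  ∀ (y : ZI → ℝ) (τ X K δ : ℝ), 1 ≤ τ → 1 ≤ X → 0 < δ → ∀ (B : ℕ) (I : Finset ZI),
    (∀ m ∈ I, ∃ k b : ZI, Squarefree k ∧ b ≠ 0 ∧ nz b ≤ B ∧ m = k * b ^ 2) →
  ∀ Bs : Finset ZI, (∀ b ∈ Bs, Can b ∧ (B : ℝ) < nz b) →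
    ∑ m ∈ I, Wt τ (nz m / X) * GG P y τ (sy m) +
      (1 - δ) * ∑ k ∈ Kset K, Aw τ X Bs k * GG P y τ (sy k) ≤
    ∑' m : ZI, Wt τ (nz m / X) * GG P y τ (sy m) +
      (1 + 1 / δ) * (X * Real.exp (1 / (4 * τ ^ 2)) *
        (C3 * ∑ p ∈ P, y p ^ 2 * (1 / nz p ^ 2)))

end Pool.Agent.N880.QI
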