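import Pool.Agent.N880.QF.Star4
import Pool.Agent.N880.QI.Stm2

/-! # Project QI: the family inequality for Gaussian windows over the Gaussian integers -/

set_option autoImplicit false

open Complex Filter Topology MeasureTheory Set
open H385 (ZI)
open Pool.Agent.N880.QF (gd gd_nonneg gd_mom gd_int X_pow sqrt_exp exp_le_of cond_main ev_exp ev_one
  fin_alg)

namespace Pool.Agent.N880.QI

namespace Sta

lemma Wt_nonneg {τ : ℝ} (hτ : 0 ≤ τ) (x : ℝ) : 0 ≤ Wt τ x := by
  unfold Wt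
  refine integral_nonneg fun r => ?_
  have := gd_nonneg hτ r
  unfold he
  positivity

lemma GG_eq (P : Finset ZI) (y : ZI → ℝ) (τ : ℝ) (z : ZI → ℝ) :
    GG P y τ z = ∑ p ∈ P, ∑ q ∈ P, y p * y q * (z p * z q) * KK τ p q := rfl

/-- the local Gaussian factor -/
noncomputable def gf (τ s : ℝ) (p : ZI) : ℝ :=
  Real.exp (-(τ ^ 2 * (Real.log (nz p) - s / 2) ^ 2 / 2))

/-- linear forms -/
noncomputable def Lc (P : Finset ZI) (y : ZI → ℝ) (τ : ℝ) (z : ZI → ℝ) (s : ℝ) : ℝ :=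
  ∑ p ∈ P, y p * z p * gf τ s p

lemma gf_mul (τ s : ℝ) (p q : ZI) : KK τ p q *
    gd τ (Real.log (nz p) + Real.log (nz q) - s) =
      τ / (2 * Real.sqrt Real.pi) * (gf τ s p * gf τ s q) := by
  unfold KK gd gf
  rw [← Real.exp_add, mul_comm, mul_assoc, ← Real.exp_add]
  congr 2
  ring

lemma qq_eq (P : Finset ZI) (y : ZI → ℝ) (τ : ℝ) (z : ZI → ℝ) (s : ℝ) :
    qq P y τ z s = τ / (2 * Real.sqrt Real.pi) * Lc P y τ z s ^ 2 := by
  unfold Lc qq
  rw [pow_two, Finset.sum_mul_sum, Finset.mul_sum]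
  refine Finset.sum_congr rfl fun p _ => ?_
  rw [Finset.mul_sum]
  refine Finset.sum_congr rfl fun q _ => ?_
  rw [gf_mul]
  ring

lemma qq_nonneg (P : Finset ZI) (y : ZI → ℝ) {τ : ℝ} (hτ : 0 ≤ τ) (z : ZI → ℝ) (s : ℝ) :
    0 ≤ qq P y τ z s := by
  rw [qq_eq]
  positivity

lemma qq_integrable (hgd : QF.S_gd) (P : Finset ZI) (y : ZI → ℝ) {τ : ℝ} (hτ : 0 < τ)
    (z : ZI → ℝ) : Integrable (fun s => qq P y τ z s) := by
  unfold qq
  refine integrable_finsetSum _ fun p _ => integrable_finsetSum _ fun q _ => ?_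
  exact ((gd_int hgd hτ _).1.const_mul _).const_mul _

lemma qq_integral (hgd : QF.S_gd) (P : Finset ZI) (y : ZI → ℝ) {τ : ℝ} (hτ : 0 < τ)
    (z : ZI → ℝ) : ∫ s : ℝ, qq P y τ z s = GG P y τ z := by
  unfold qq
  rw [integral_finsetSum _ (fun p _ => integrable_finsetSum _ fun q _ =>
    ((gd_int hgd hτ _).1.const_mul _).const_mul _), GG_eq]
  refine Finset.sum_congr rfl fun p _ => ?_
  rw [integral_finsetSum _ (fun q _ => ((gd_int hgd hτ _).1.const_mul _).const_mul _)]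
  refine Finset.sum_congr rfl fun q _ => ?_
  rw [integral_const_mul, integral_const_mul, (gd_int hgd hτ _).2, mul_one]

lemma GG_nonneg (hgd : QF.S_gd) (P : Finset ZI) (y : ZI → ℝ) {τ : ℝ} (hτ : 0 < τ)
    (z : ZI → ℝ) : 0 ≤ GG P y τ z := by
  rw [← qq_integral hgd P y hτ z]
  exact integral_nonneg fun s => qq_nonneg P y hτ.le z s

/-- moment factor -/
noncomputable def JJ (τ α : ℝ) (p : ZI) : ℝ :=
  Real.exp (α * (2 * Real.log (nz p))) * Real.exp (α ^ 2 / τ ^ 2)

lemma Ep_int (hgd : QF.S_gd) {τ : ℝ} (hτ : 0 < τ) (C : ℝ) (N : ℕ) (δ X K n s0 : ℝ) (p : ZI) :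
    Integrable (fun s => gd τ (2 * Real.log (nz p) - s) * Ep C N δ X K n s0 p s) ∧
    ∫ s : ℝ, gd τ (2 * Real.log (nz p) - s) * Ep C N δ X K n s0 p s =
      JJ τ (1 / 2) p + n * (C * (X / X ^ N) * JJ τ (N - 1 / 2) p *
        (K ^ 2 / K ^ N + (1 + 1 / δ) * (1 / (nz p ^ 2) ^ N))) +
      9 * K * (2 * Real.sqrt X) * n * (JJ τ N p * Real.exp (-(N * s0))) := by
  obtain ⟨a1, a2⟩ := gd_mom hgd hτ (1 / 2) (2 * Real.log (nz p))
  obtain ⟨b1, b2⟩ := gd_mom hgd hτ (N - 1 / 2) (2 * Real.log (nz p))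
  obtain ⟨c1, c2⟩ := gd_mom hgd hτ N (2 * Real.log (nz p))
  have e : (fun s => gd τ (2 * Real.log (nz p) - s) * Ep C N δ X K n s0 p s) = fun s =>
      (Real.exp (1 / 2 * s) * gd τ (2 * Real.log (nz p) - s)) +
      (n * (C * (X / X ^ N) * (K ^ 2 / K ^ N + (1 + 1 / δ) * (1 / (nz p ^ 2) ^ N)))) *
        (Real.exp ((N - 1 / 2) * s) * gd τ (2 * Real.log (nz p) - s)) +
      (9 * K * (2 * Real.sqrt X) * n * Real.exp (-(N * s0))) *
        (Real.exp (N * s) * gd τ (2 * Real.log (nz p) - s)) := by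
    funext s
    unfold Ep
    ring
  have i1 := a1
  have i2 := b1.const_mul (n * (C * (X / X ^ N) *
    (K ^ 2 / K ^ N + (1 + 1 / δ) * (1 / (nz p ^ 2) ^ N))))
  have i3 := c1.const_mul (9 * K * (2 * Real.sqrt X) * n * Real.exp (-(N * s0)))
  constructor
  · rw [e]
    exact (i1.add i2).add i3
  · rw [e]
    have := integral_add (i1.add i2) i3
    simp only [Pi.add_apply] at this
    rw [this, integral_add i1 i2, integral_const_mul, integral_const_mul, a2, b2, c2]
    unfold JJ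
    ring

lemma Dg_le (hDup : S_Dup) (hel : S_el) {τ X : ℝ} {p : ZI} (hp : PZ p) (hτ : 1 ≤ τ)
    (hX : 1 ≤ X) : Dg τ X p ≤ X * Real.exp (1 / (4 * τ ^ 2)) := by
  obtain ⟨_, _, _, _, habs, _, hp0, _⟩ := hel
  refine hDup.1 τ X hτ hX (fun m => sy m p ^ 2) (fun m => sq_nonneg _) (fun m => ?_) ?_
  · have : sy m p ^ 2 = |sy m p| ^ 2 := (sq_abs _).symm
    rw [this]
    exact pow_le_one₀ (abs_nonneg _) (habs m p)
  · rw [(hp0 p hp).2.2]
    norm_num

open Classical in
/-- choice of a finite set of `b` -/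
lemma Bs_ex {τ : ℝ} (hτ : 0 ≤ τ) (X : ℝ) (B : ℕ) (F : Finset ZI) : ∃ Bs : Finset ZI,
    (∀ b ∈ Bs, Can b ∧ (B : ℝ) < nz b) ∧ ∀ k ∈ F,
    (∑' b : ZI, (if Can b ∧ (B : ℝ) < nz b then Wt τ (nz (k * b ^ 2) / X) else 0)) - 1 ≤
      Aw τ X Bs k := by
  have h1 : ∀ k : ZI, ∃ S : Finset ZI,
      (∑' b : ZI, (if Can b ∧ (B : ℝ) < nz b then Wt τ (nz (k * b ^ 2) / X) else 0)) - 1 ≤
      ∑ b ∈ S, (if Can b ∧ (B : ℝ) < nz b then Wt τ (nz (k * b ^ 2) / X) else 0) := by
    intro k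
    by_cases hs : Summable (fun b : ZI =>
        (if Can b ∧ (B : ℝ) < nz b then Wt τ (nz (k * b ^ 2) / X) else 0))
    · have h2 := hs.hasSum
      have h3 := h2.eventually (lt_mem_nhds (show (∑' b : ZI, (if Can b ∧ (B : ℝ) < nz b then
        Wt τ (nz (k * b ^ 2) / X) else 0)) - 1 < ∑' b : ZI, (if Can b ∧ (B : ℝ) < nz b then
        Wt τ (nz (k * b ^ 2) / X) else 0) by linarith))
      obtain ⟨S, hS⟩ := h3.exists
      exact ⟨S, hS.le⟩
    · refine ⟨∅, ?_⟩
      rw [tsum_eq_zero_of_not_summable hs]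
      simp
  choose S hS using h1
  refine ⟨(F.biUnion S).filter (fun b => Can b ∧ (B : ℝ) < nz b),
    fun b hb => (Finset.mem_filter.1 hb).2, fun k hk => (hS k).trans ?_⟩
  unfold Aw
  rw [Finset.sum_filter]
  refine Finset.sum_le_sum_of_subset_of_nonneg (Finset.subset_biUnion_of_mem S hk) fun b _ _ => ?_
  split_ifs
  · exact Wt_nonneg hτ _
  · exact le_rfl

lemma Aw_nonneg {τ : ℝ} (hτ : 0 ≤ τ) (X : ℝ) (Bs : Finset ZI) (k : ZI) : 0 ≤ Aw τ X Bs k :=
  Finset.sum_nonneg fun _ _ => Wt_nonneg hτ _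

lemma JJ_le {τ α M : ℝ} (hτ : 1 ≤ τ) (hα : 0 ≤ α) {p : ZI} (hM : Real.log (nz p) ≤ M) :
    JJ τ α p ≤ Real.exp (2 * α * M) * Real.exp (α ^ 2) := by
  unfold JJ
  have h1 : α * (2 * Real.log (nz p)) ≤ 2 * α * M := by nlinarith
  have h2 : α ^ 2 / τ ^ 2 ≤ α ^ 2 := div_le_self (sq_nonneg _) (by nlinarith)
  exact mul_le_mul (Real.exp_le_exp.2 h1) (Real.exp_le_exp.2 h2) (Real.exp_pos _).le
    (Real.exp_pos _).le

lemma JJ_nonneg (τ α : ℝ) (p : ZI) : 0 ≤ JJ τ α p := by unfold JJ; positivity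

lemma nz_ge_one {p : ZI} (h : p ≠ 0) : 1 ≤ nz p := by
  unfold nz
  have h1 : 0 < Zsqrtd.norm p := GaussianInt.norm_pos.2 h
  exact_mod_cast h1

lemma PZ_ne (hel : S_el) {p : ZI} (hp : PZ p) : p ≠ 0 := (hel.2.2.2.2.2.2.1 p hp).1.ne_zero

/-- the integral of the off-diagonal part -/
lemma Ph_int (hgd : QF.S_gd) (hD : S_D) {P : Finset ZI} (hP : ∀ p ∈ P, PZ p) (y : ZI → ℝ)
    {τ X : ℝ} (hτ : 0 < τ) (hX : 0 < X)
    {K δ C s0 E : ℝ} {N : ℕ} (A : ZI → ℝ)
    (hPW : ∀ s : ℝ, Ph P y τ X s ≤ (1 - δ) * ∑ k ∈ Kset K, A k * qq P y τ (sy k) s +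
        ∑ p ∈ P, y p ^ 2 * gd τ (2 * Real.log (nz p) - s) * Ep C N δ X K P.card s0 p s)
    (hE : ∀ p ∈ P, JJ τ (1 / 2) p + P.card * (C * (X / X ^ N) * JJ τ (N - 1 / 2) p *
        (K ^ 2 / K ^ N + (1 + 1 / δ) * (1 / (nz p ^ 2) ^ N))) +
      9 * K * (2 * Real.sqrt X) * P.card * (JJ τ N p * Real.exp (-(N * s0))) ≤ E) :
    ∑' m : ZI, Wt τ (nz m / X) * GG P y τ (sy m) ≤ ∑ p ∈ P, y p ^ 2 * Dg τ X p +
      (1 - δ) * ∑ k ∈ Kset K, A k * GG P y τ (sy k) + E * ∑ p ∈ P, y p ^ 2 := by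
  obtain ⟨_, hPi, hPs⟩ := hD P hP y τ X hτ hX
  rw [hPs, add_assoc]
  refine add_le_add le_rfl ?_
  have i1 : Integrable (fun s => (1 - δ) * ∑ k ∈ Kset K, A k * qq P y τ (sy k) s) :=
    (integrable_finsetSum _ fun k _ => (qq_integrable hgd P y hτ (sy k)).const_mul _).const_mul _
  have i2' : ∀ p ∈ P, Integrable (fun s => y p ^ 2 * gd τ (2 * Real.log (nz p) - s) *
      Ep C N δ X K P.card s0 p s) := by
    intro p _
    have := (Ep_int hgd hτ C N δ X K P.card s0 p).1.const_mul (y p ^ 2)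
    refine this.congr (Eventually.of_forall fun s => ?_)
    simp only
    ring
  have i2 : Integrable (fun s => ∑ p ∈ P, y p ^ 2 * gd τ (2 * Real.log (nz p) - s) *
      Ep C N δ X K P.card s0 p s) := integrable_finsetSum _ i2'
  have h1 := integral_mono hPi (i1.add i2) hPW
  refine h1.trans ?_
  simp only [Pi.add_apply]
  rw [integral_add i1 i2, integral_const_mul, integral_finsetSum _
    (fun k _ => (qq_integrable hgd P y hτ (sy k)).const_mul _), integral_finsetSum _ i2']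
  refine add_le_add (le_of_eq ?_) ?_
  · congr 1
    refine Finset.sum_congr rfl fun k _ => ?_
    rw [integral_const_mul, qq_integral hgd P y hτ]
  · rw [Finset.mul_sum]
    refine Finset.sum_le_sum fun p hp => ?_
    have h2 := (Ep_int hgd hτ C N δ X K P.card s0 p).2
    have e : (fun s => y p ^ 2 * gd τ (2 * Real.log (nz p) - s) * Ep C N δ X K P.card s0 p s) =
        fun s => y p ^ 2 * (gd τ (2 * Real.log (nz p) - s) * Ep C N δ X K P.card s0 p s) := by
      funext s; ring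
    rw [e, integral_const_mul, h2, mul_comm E]
    exact mul_le_mul_of_nonneg_left (hE p hp) (sq_nonneg _)

/-- the error terms in the first range -/
lemma err1 (hel : S_el) (N : ℕ) (C : ℝ) (hC : 0 < C) (hN : 16 ≤ N) : ∃ E : ℝ, 0 < E ∧
    ∀ (P : Finset ZI) (τ X : ℝ), 1 ≤ τ → 1 ≤ X →
    (∀ p ∈ P, PZ p ∧ Real.log (nz p) ≤ 45 / 100 * Real.log X) → ∀ p ∈ P,
    JJ τ (1 / 2) p + P.card * (C * (X / X ^ N) * JJ τ (N - 1 / 2) p *
        ((1 : ℝ) ^ 2 / 1 ^ N + (1 + 1 / 1) * (1 / (nz p ^ 2) ^ N))) +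
      9 * 1 * (2 * Real.sqrt X) * P.card * (JJ τ N p * Real.exp (-(N * Real.log X))) ≤
      E * Real.exp (45 / 100 * Real.log X) := by
  refine ⟨Real.exp ((1 / 2) ^ 2) + 27 * C * Real.exp ((N - 1 / 2) ^ 2) +
    162 * Real.exp ((N : ℝ) ^ 2) + 1, by positivity, ?_⟩
  intro P τ X hτ hX hP p hp
  have hX0 : 0 < X := by linarith
  set L := Real.log X with hL
  have hL0 : 0 ≤ L := Real.log_nonneg hX
  have hcard : (P.card : ℝ) ≤ 9 * X := hel.2.2.2.2.2.2.2.2.2 P X hX fun p hp => ⟨(hP p hp).1, by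
    have := (hP p hp).2; linarith⟩
  have hXe : X = Real.exp L := (Real.exp_log hX0).symm
  have hN' : (16 : ℝ) ≤ N := by exact_mod_cast hN
  have hlp := (hP p hp).2
  have j1 := JJ_le hτ (show (0 : ℝ) ≤ 1 / 2 by norm_num) hlp
  have j2 := JJ_le hτ (show (0 : ℝ) ≤ N - 1 / 2 by linarith) hlp
  have j3 := JJ_le hτ (show (0 : ℝ) ≤ N by linarith) hlp
  have hn1 : 1 ≤ nz p := nz_ge_one (PZ_ne hel (hP p hp).1)
  have hp1 : (1 : ℝ) ≤ (nz p ^ 2) ^ N := one_le_pow₀ (one_le_pow₀ hn1)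
  have hb : (1 : ℝ) ^ 2 / 1 ^ N + (1 + 1 / 1) * (1 / (nz p ^ 2) ^ N) ≤ 3 := by
    have : 1 / (nz p ^ 2) ^ N ≤ 1 := by
      rw [div_le_one (by linarith)]
      exact hp1
    rw [one_pow, one_pow]
    linarith
  have hb0 : 0 ≤ (1 : ℝ) ^ 2 / 1 ^ N + (1 + 1 / 1) * (1 / (nz p ^ 2) ^ N) := by positivity
  -- term 1
  have t1 : JJ τ (1 / 2) p ≤ Real.exp ((1 / 2) ^ 2) * Real.exp (45 / 100 * L) := by
    have e : 2 * (1 / 2) * (45 / 100 * L) = 45 / 100 * L := by ring
    rw [e] at j1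
    calc _ ≤ Real.exp (45 / 100 * L) * Real.exp ((1 / 2) ^ 2) := j1
      _ = _ := by ring
  -- term 2
  have t2 : P.card * (C * (X / X ^ N) * JJ τ (N - 1 / 2) p *
        ((1 : ℝ) ^ 2 / 1 ^ N + (1 + 1 / 1) * (1 / (nz p ^ 2) ^ N))) ≤
      27 * C * Real.exp ((N - 1 / 2) ^ 2) * Real.exp (45 / 100 * L) := by
    rw [X_pow hX0]
    calc _ ≤ (9 * Real.exp L) * (C * Real.exp ((1 - N) * L) *
          (Real.exp (2 * (N - 1 / 2) * (45 / 100 * L)) * Real.exp ((N - 1 / 2) ^ 2)) * 3) := by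
          rw [← hXe]
          have := JJ_nonneg τ (N - 1 / 2) p
          gcongr
      _ = 27 * C * Real.exp ((N - 1 / 2) ^ 2) * Real.exp (L + (1 - N) * L +
          2 * (N - 1 / 2) * (45 / 100 * L)) := by
          rw [Real.exp_add, Real.exp_add]
          ring
      _ ≤ _ := by
          refine mul_le_mul_of_nonneg_left (exp_le_of ?_) (by positivity)
          nlinarith
  -- term 3
  have t3 : 9 * 1 * (2 * Real.sqrt X) * P.card * (JJ τ N p * Real.exp (-(N * L))) ≤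
      162 * Real.exp ((N : ℝ) ^ 2) * Real.exp (45 / 100 * L) := by
    rw [sqrt_exp hX0]
    calc _ ≤ 9 * 1 * (2 * Real.exp (L / 2)) * (9 * Real.exp L) *
          ((Real.exp (2 * N * (45 / 100 * L)) * Real.exp ((N : ℝ) ^ 2)) * Real.exp (-(N * L))) := by
          rw [← hXe]
          have := JJ_nonneg τ N p
          gcongr
      _ = 162 * Real.exp ((N : ℝ) ^ 2) * Real.exp (L / 2 + L + 2 * N * (45 / 100 * L) +
          -(N * L)) := by
          rw [Real.exp_add, Real.exp_add, Real.exp_add]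
          ring
      _ ≤ _ := by
          refine mul_le_mul_of_nonneg_left (exp_le_of ?_) (by positivity)
          nlinarith
  have h5 : 0 < Real.exp (45 / 100 * L) := Real.exp_pos _
  nlinarith

/-- the error terms in the second range -/
lemma err2 (hel : S_el) (N : ℕ) (C : ℝ) (hC : 0 < C) {ε K1 : ℝ} (hε : 0 < ε) (hε1 : ε < 1 / 2)
    (hK1 : 1 ≤ K1) (hN : 16 ≤ N) (hNε : 3 ≤ N * ε) : ∃ E : ℝ, 0 < E ∧
    ∀ (P : Finset ZI) (τ X : ℝ), 1 ≤ τ → K1 ≤ X →
    (∀ p ∈ P, PZ p ∧ Real.log (nz p) ≤ (1 - ε) * Real.log X) → ∀ p ∈ P,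
    JJ τ (1 / 2) p + P.card * (C * (X / X ^ N) * JJ τ (N - 1 / 2) p *
        ((X / K1) ^ 2 / (X / K1) ^ N + (1 + 1 / (1 / Real.sqrt X)) * (1 / (nz p ^ 2) ^ N))) +
      9 * (X / K1) * (2 * Real.sqrt X) * P.card *
        (JJ τ N p * Real.exp (-(N * (2 * (1 - ε / 2) * Real.log X)))) ≤
      E * Real.exp ((1 - ε) * Real.log X) := by
  refine ⟨Real.exp ((1 / 2) ^ 2) + 9 * (K1 ^ N + 2) * C * Real.exp ((N - 1 / 2) ^ 2) +
    162 * Real.exp ((N : ℝ) ^ 2) + 1, by positivity, ?_⟩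
  intro P τ X hτ hXK hP p hp
  have hX : 1 ≤ X := hK1.trans hXK
  have hX0 : 0 < X := by linarith
  have hK0 : 0 < K1 := by linarith
  set L := Real.log X with hL
  have hL0 : 0 ≤ L := Real.log_nonneg hX
  have hcard : (P.card : ℝ) ≤ 9 * X := hel.2.2.2.2.2.2.2.2.2 P X hX fun p hp => ⟨(hP p hp).1, by
    have := (hP p hp).2; nlinarith⟩
  have hXe : X = Real.exp L := (Real.exp_log hX0).symm
  have hN' : (16 : ℝ) ≤ N := by exact_mod_cast hN
  have hlp := (hP p hp).2
  have j1 := JJ_le hτ (show (0 : ℝ) ≤ 1 / 2 by norm_num) hlp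
  have j2 := JJ_le hτ (show (0 : ℝ) ≤ N - 1 / 2 by linarith) hlp
  have j3 := JJ_le hτ (show (0 : ℝ) ≤ N by linarith) hlp
  have hp1 : 1 ≤ nz p := nz_ge_one (PZ_ne hel (hP p hp).1)
  have hp0 : (0 : ℝ) < nz p := by linarith
  have hlogp : 0 ≤ Real.log (nz p) := Real.log_nonneg hp1
  -- term 1
  have t1 : JJ τ (1 / 2) p ≤ Real.exp ((1 / 2) ^ 2) * Real.exp ((1 - ε) * L) := by
    have e : 2 * (1 / 2) * ((1 - ε) * L) = (1 - ε) * L := by ring
    rw [e] at j1
    calc _ ≤ Real.exp ((1 - ε) * L) * Real.exp ((1 / 2) ^ 2) := j1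
      _ = _ := by ring
  -- term 2a
  have hKp : (X / K1) ^ 2 / (X / K1) ^ N ≤ K1 ^ N * Real.exp ((2 - N) * L) := by
    have e1 : (X / K1) ^ 2 / (X / K1) ^ N = (K1 ^ N / K1 ^ 2) * (X ^ 2 / X ^ N) := by
      rw [div_pow, div_pow]
      field_simp
    have e2 : X ^ 2 / X ^ N = Real.exp ((2 - N) * L) := by
      have := X_pow hX0 N
      have e3 : X ^ 2 / X ^ N = X * (X / X ^ N) := by ring
      rw [e3, this, ← hL]
      conv_lhs => rw [hXe]
      rw [← Real.exp_add]
      congr 1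
      ring
    rw [e1, e2]
    refine mul_le_mul_of_nonneg_right ?_ (Real.exp_pos _).le
    exact div_le_self (by positivity) (by nlinarith)
  have t2a : P.card * (C * (X / X ^ N) * JJ τ (N - 1 / 2) p *
        ((X / K1) ^ 2 / (X / K1) ^ N)) ≤
      9 * K1 ^ N * C * Real.exp ((N - 1 / 2) ^ 2) * Real.exp ((1 - ε) * L) := by
    rw [X_pow hX0]
    calc _ ≤ (9 * Real.exp L) * (C * Real.exp ((1 - N) * L) *
          (Real.exp (2 * (N - 1 / 2) * ((1 - ε) * L)) * Real.exp ((N - 1 / 2) ^ 2)) *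
          (K1 ^ N * Real.exp ((2 - N) * L))) := by
          rw [← hXe]
          have := JJ_nonneg τ (N - 1 / 2) p
          gcongr
      _ = 9 * K1 ^ N * C * Real.exp ((N - 1 / 2) ^ 2) * Real.exp (L + (1 - N) * L +
          2 * (N - 1 / 2) * ((1 - ε) * L) + (2 - N) * L) := by
          rw [Real.exp_add, Real.exp_add, Real.exp_add]
          ring
      _ ≤ _ := by
          refine mul_le_mul_of_nonneg_left (exp_le_of ?_) (by positivity)
          have e1 : L + (1 - N) * L + 2 * (N - 1 / 2) * ((1 - ε) * L) + (2 - N) * L =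
              (3 - (2 * N - 1) * ε) * L := by ring
          rw [e1]
          have e2 : 3 - (2 * N - 1) * ε ≤ 1 - ε := by nlinarith
          exact mul_le_mul_of_nonneg_right e2 hL0
  -- term 2b
  have hpp : JJ τ (N - 1 / 2) p * (1 / (nz p ^ 2) ^ N) ≤ Real.exp ((N - 1 / 2) ^ 2) := by
    unfold JJ
    have h2 : ((N : ℝ) - 1 / 2) ^ 2 / τ ^ 2 ≤ (N - 1 / 2) ^ 2 := div_le_self (sq_nonneg _) (by nlinarith)
    have h3 : 1 / (nz p ^ 2) ^ N = Real.exp (-(2 * N * Real.log (nz p))) := by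
      rw [Real.exp_neg, one_div]
      congr 1
      have : (2 : ℝ) * N * Real.log (nz p) = Real.log (nz p) * ((2 * N : ℕ) : ℝ) := by
        push_cast; ring
      rw [this, Real.exp_mul, Real.exp_log hp0, Real.rpow_natCast, pow_mul]
    rw [h3]
    calc _ = Real.exp ((N - 1 / 2) * (2 * Real.log (nz p)) + -(2 * N * Real.log (nz p))) *
          Real.exp (((N : ℝ) - 1 / 2) ^ 2 / τ ^ 2) := by
          rw [Real.exp_add]; ring
      _ ≤ 1 * Real.exp (((N : ℝ) - 1 / 2) ^ 2) := by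
          refine mul_le_mul ?_ (exp_le_of h2) (Real.exp_pos _).le (by norm_num)
          rw [Real.exp_le_one_iff]
          nlinarith
      _ = _ := one_mul _
  have hsq1 : 1 ≤ Real.sqrt X := Real.one_le_sqrt.2 hX
  have t2b : P.card * (C * (X / X ^ N) * JJ τ (N - 1 / 2) p *
        ((1 + 1 / (1 / Real.sqrt X)) * (1 / (nz p ^ 2) ^ N))) ≤
      18 * C * Real.exp ((N - 1 / 2) ^ 2) * Real.exp ((1 - ε) * L) := by
    have h1 : 1 + 1 / (1 / Real.sqrt X) ≤ 2 * Real.sqrt X := by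
      rw [one_div_one_div]; linarith
    have h1' : 0 ≤ 1 + 1 / (1 / Real.sqrt X) := by positivity
    rw [X_pow hX0]
    calc _ = P.card * (C * Real.exp ((1 - N) * L)) * (1 + 1 / (1 / Real.sqrt X)) *
          (JJ τ (N - 1 / 2) p * (1 / (nz p ^ 2) ^ N)) := by ring
      _ ≤ (9 * Real.exp L) * (C * Real.exp ((1 - N) * L)) * (2 * Real.sqrt X) *
          Real.exp ((N - 1 / 2) ^ 2) := by
          rw [← hXe]
          have := JJ_nonneg τ (N - 1 / 2) p
          gcongr
      _ = 18 * C * Real.exp ((N - 1 / 2) ^ 2) * Real.exp (L + (1 - N) * L + L / 2) := by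
          rw [sqrt_exp hX0, Real.exp_add, Real.exp_add]
          ring
      _ ≤ _ := by
          refine mul_le_mul_of_nonneg_left (exp_le_of ?_) (by positivity)
          nlinarith
  -- term 3
  have t3 : 9 * (X / K1) * (2 * Real.sqrt X) * P.card *
        (JJ τ N p * Real.exp (-(N * (2 * (1 - ε / 2) * L)))) ≤
      162 * Real.exp ((N : ℝ) ^ 2) * Real.exp ((1 - ε) * L) := by
    have hXK1 : X / K1 ≤ X := div_le_self hX0.le hK1
    rw [sqrt_exp hX0]
    have a0 : 0 ≤ 2 * Real.exp (L / 2) := by positivity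
    have a1 : 9 * (X / K1) * (2 * Real.exp (L / 2)) * P.card ≤
        9 * Real.exp L * (2 * Real.exp (L / 2)) * (9 * Real.exp L) := by
      have b1 : 9 * (X / K1) * (2 * Real.exp (L / 2)) ≤
          9 * Real.exp L * (2 * Real.exp (L / 2)) :=
        mul_le_mul_of_nonneg_right (by rw [← hXe]; linarith) a0
      exact mul_le_mul b1 (by rw [← hXe]; exact hcard) (Nat.cast_nonneg _)
        (mul_nonneg (by positivity) a0)
    have a2 : JJ τ N p * Real.exp (-(N * (2 * (1 - ε / 2) * L))) ≤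
        (Real.exp (2 * N * ((1 - ε) * L)) * Real.exp ((N : ℝ) ^ 2)) *
            Real.exp (-(N * (2 * (1 - ε / 2) * L))) :=
      mul_le_mul_of_nonneg_right j3 (Real.exp_pos _).le
    calc _ ≤ 9 * Real.exp L * (2 * Real.exp (L / 2)) * (9 * Real.exp L) *
          ((Real.exp (2 * N * ((1 - ε) * L)) * Real.exp ((N : ℝ) ^ 2)) *
            Real.exp (-(N * (2 * (1 - ε / 2) * L)))) :=
          mul_le_mul a1 a2 (mul_nonneg (JJ_nonneg τ N p) (Real.exp_pos _).le) (by positivity)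
      _ = 162 * Real.exp ((N : ℝ) ^ 2) * Real.exp (L + L / 2 + L + 2 * N * ((1 - ε) * L) +
          -(N * (2 * (1 - ε / 2) * L))) := by
          rw [Real.exp_add, Real.exp_add, Real.exp_add, Real.exp_add]
          ring
      _ ≤ _ := by
          refine mul_le_mul_of_nonneg_left (exp_le_of ?_) (by positivity)
          have e1 : L + L / 2 + L + 2 * N * ((1 - ε) * L) + -(N * (2 * (1 - ε / 2) * L)) =
              (5 / 2 - N * ε) * L := by ring
          rw [e1]
          exact mul_le_mul_of_nonneg_right (by linarith) hL0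
  have h5 : 0 < Real.exp ((1 - ε) * L) := Real.exp_pos _
  have e6 : P.card * (C * (X / X ^ N) * JJ τ (N - 1 / 2) p *
        ((X / K1) ^ 2 / (X / K1) ^ N + (1 + 1 / (1 / Real.sqrt X)) * (1 / (nz p ^ 2) ^ N))) =
      P.card * (C * (X / X ^ N) * JJ τ (N - 1 / 2) p * ((X / K1) ^ 2 / (X / K1) ^ N)) +
      P.card * (C * (X / X ^ N) * JJ τ (N - 1 / 2) p *
        ((1 + 1 / (1 / Real.sqrt X)) * (1 / (nz p ^ 2) ^ N))) := by ring
  rw [e6]
  nlinarith

lemma sum_le_T (hgd : QF.S_gd) (hD : S_D) {P : Finset ZI} (hP : ∀ p ∈ P, PZ p) (y : ZI → ℝ)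
    {τ X : ℝ} (hτ : 0 < τ) (hX : 0 < X) (I : Finset ZI) :
    ∑ m ∈ I, Wt τ (nz m / X) * GG P y τ (sy m) ≤
      ∑' m : ZI, Wt τ (nz m / X) * GG P y τ (sy m) := by
  obtain ⟨hs, _, _⟩ := hD P hP y τ X hτ hX
  exact hs.sum_le_tsum I fun m _ => mul_nonneg (Wt_nonneg hτ.le _) (GG_nonneg hgd P y hτ _)

lemma Kset_one (hel : S_el) : Kset 1 = ∅ := by
  rw [Finset.eq_empty_iff_forall_notMem]
  intro k hk
  obtain ⟨h1, _, h2⟩ := (hel.1 1 k).1 hk
  have := nz_ge_one h1.ne_zero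
  linarith

theorem starW (hgd : QF.S_gd) (hD : S_D) (hPW : S_PW) (hPS : S_PS) (hDup : S_Dup)
    (hAlow : S_Alow) (hphi : S_phi) (hel : S_el) {ε : ℝ} (B : ℕ) (hε : 0 < ε)
    (hε1 : ε < 1 / 2) :
    ∃ C X1 : ℝ, 0 < C ∧ 1 ≤ X1 ∧ ∀ (X τ : ℝ) (P : Finset ZI) (I : Finset ZI) (y : ZI → ℝ),
      X1 ≤ X → 1 ≤ τ → (∀ p ∈ P, PZ p) →
      ((∀ p ∈ P, Real.log (nz p) ≤ 45 / 100 * Real.log X) ∨
        (∀ p ∈ P, 3 / 10 * Real.log X ≤ Real.log (nz p) ∧
          Real.log (nz p) ≤ (1 - ε) * Real.log X)) →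
      (∀ m ∈ I, ∃ k b : ZI, Squarefree k ∧ b ≠ 0 ∧ nz b ≤ B ∧ m = k * b ^ 2) →
      ∑ m ∈ I, Wt τ (nz m / X) * GG P y τ (sy m) ≤
        ((1 * X + C) * Real.exp (1 / (4 * τ ^ 2)) + C * (Real.exp (45 / 100 * Real.log X) +
          Real.exp ((1 - ε) * Real.log X) + Real.exp (9 / 10 * Real.log X))) *
            ∑ p ∈ P, y p ^ 2 := by
  obtain ⟨c1, _, hc1p, _, hcc'⟩ := hphi
  have hcc : ∀ z : ℝ, 0 < z → c1 * min 1 (1 / Real.sqrt z) ≤ phi z := fun z hz => (hcc' z hz).1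
  obtain ⟨CA, hCA, hAl⟩ := hAlow B
  obtain ⟨CS, hCS, hPSi⟩ := hPS
  set N : ℕ := ⌈3 / ε⌉₊ + 16 with hN
  have hN16 : 16 ≤ N := by omega
  have hNε : 3 ≤ N * ε := by
    have h1 : 3 / ε ≤ (⌈3 / ε⌉₊ : ℝ) := Nat.le_ceil _
    have h2 : (N : ℝ) = (⌈3 / ε⌉₊ : ℝ) + 16 := by rw [hN]; push_cast; ring
    rw [h2]
    have h3 : 3 / ε * ε = 3 := by field_simp
    nlinarith
  obtain ⟨CP, hCP, hPWi⟩ := hPW N (by omega : 2 ≤ N) c1 hcc
  set C3 : ℝ := CA + 1 with hC3
  set C4 : ℝ := 2 * 1 + C3 with hC4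
  have hC4p : 0 < C4 := by rw [hC4, hC3]; positivity
  set K1 : ℝ := (C4 / c1) ^ 2 + 1 with hK1
  have hK11 : 1 ≤ K1 := by rw [hK1]; have := sq_nonneg (C4 / c1); linarith
  obtain ⟨E1, hE1, herr1⟩ := err1 hel N CP hCP hN16
  obtain ⟨E2, hE2, herr2⟩ := err2 hel N CP hCP hε hε1 hK11 hN16 hNε
  set XL : ℝ := Real.exp (2 / ε * Real.log (C4 / c1 + 1)) with hXL
  have hXLp : 0 < XL := Real.exp_pos _
  refine ⟨E1 + E2 + 4 * CS, K1 + XL + 3, by positivity, by linarith, ?_⟩
  intro X τ P I y hX hτ hP hreg hI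
  have hXK : K1 ≤ X := by linarith
  have hX1 : 1 ≤ X := hK11.trans hXK
  have hX0 : 0 < X := by linarith
  have hτ0 : 0 < τ := by linarith
  set L := Real.log X with hL
  have hL0 : 0 ≤ L := Real.log_nonneg hX1
  set S2 := ∑ p ∈ P, y p ^ 2 with hS2
  have hS20 : 0 ≤ S2 := Finset.sum_nonneg fun p _ => sq_nonneg _
  have hDsum : ∑ p ∈ P, y p ^ 2 * Dg τ X p ≤
      X * Real.exp (1 / (4 * τ ^ 2)) * S2 := by
    rw [hS2, Finset.mul_sum]
    refine Finset.sum_le_sum fun p hp => ?_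
    rw [mul_comm]
    exact mul_le_mul_of_nonneg_right (Dg_le hDup hel (hP p hp) hτ hX1) (sq_nonneg _)
  have hx1 : 0 < Real.exp (45 / 100 * L) := Real.exp_pos _
  have hx2 : 0 < Real.exp ((1 - ε) * L) := Real.exp_pos _
  have hx3 : 0 < Real.exp (9 / 10 * L) := Real.exp_pos _
  have hxt : 0 < Real.exp (1 / (4 * τ ^ 2)) := Real.exp_pos _
  have h4 : X * Real.exp (1 / (4 * τ ^ 2)) * S2 ≤
      (1 * X + (E1 + E2 + 4 * CS)) * Real.exp (1 / (4 * τ ^ 2)) * S2 := by
    refine mul_le_mul_of_nonneg_right (mul_le_mul_of_nonneg_right (by linarith) hxt.le) hS20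
  rcases hreg with hr | hr
  · -- first range
    have hcond : ∀ p ∈ P, PZ p ∧ Real.log (nz p) ≤ 45 / 100 * Real.log X :=
      fun p hp => ⟨hP p hp, hr p hp⟩
    have hpw := hPWi P y τ X 1 1 L (fun _ => 0) hP hτ0 hX1 le_rfl one_pos le_rfl
      (fun k' _ => le_rfl)
      (fun k' hk' => by rw [Kset_one hel] at hk'; simp at hk')
    have h1 := Ph_int hgd hD hP y hτ0 hX0 (fun _ => 0) hpw
      (herr1 P τ X hτ hX1 hcond)
    have h2 := sum_le_T hgd hD hP y hτ0 hX0 I
    rw [Kset_one hel, Finset.sum_empty, mul_zero, add_zero] at h1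
    have h3 : E1 * Real.exp (45 / 100 * L) * S2 ≤ (E1 + E2 + 4 * CS) * (Real.exp (45 / 100 * L) +
        Real.exp ((1 - ε) * L) + Real.exp (9 / 10 * L)) * S2 := by
      refine mul_le_mul_of_nonneg_right ?_ hS20
      exact mul_le_mul (by linarith) (by linarith) hx1.le (by linarith)
    rw [add_mul]
    linarith
  · -- second range
    have hcond : ∀ p ∈ P, PZ p ∧ Real.log (nz p) ≤ (1 - ε) * Real.log X :=
      fun p hp => ⟨hP p hp, (hr p hp).2⟩
    set K : ℝ := X / K1 with hK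
    have hK1' : 1 ≤ K := by rw [hK, le_div_iff₀ (by linarith)]; linarith
    have hsqX : 1 ≤ Real.sqrt X := Real.one_le_sqrt.2 hX1
    set δ : ℝ := 1 / Real.sqrt X with hδ
    have hδ0 : 0 < δ := by positivity
    have hδ1 : δ ≤ 1 := by rw [hδ, div_le_one (by linarith)]; exact hsqX
    obtain ⟨Bs, hBs, hBA⟩ := Bs_ex hτ0.le X B (Kset K)
    set A : ZI → ℝ := Aw τ X Bs with hA
    have hAlo : ∀ k' ∈ Kset K, 1 * (Real.pi / 4) * Real.sqrt (X / nz k') - C3 ≤ A k' := by
      intro k' hk'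
      have h1 := (hAl τ X k' hτ hX1 ((hel.1 K k').1 hk').1.ne_zero).2
      have h2 := hBA k' hk'
      rw [hC3]
      linarith
    set s0 : ℝ := 2 * (1 - ε / 2) * L with hs0
    have hpi4 : Real.pi / 4 ≤ 1 := by linarith [Real.pi_lt_four]
    have hpi0 : 0 ≤ Real.pi / 4 := by positivity
    have hpw := hPWi P y τ X K δ s0 A hP hτ0 hX1 hK1' hδ0 hδ1
      (fun k' _ => Aw_nonneg hτ0.le X Bs k') (by
        intro k' hk' s hs
        obtain ⟨a1, _, a2⟩ := (hel.1 K k').1 hk'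
        have hk1 : 1 ≤ nz k' := nz_ge_one a1.ne_zero
        have hk0 : 0 < nz k' := by linarith
        set aa := Real.sqrt (X / nz k') with haa
        have haX : aa ≤ Real.sqrt X := Real.sqrt_le_sqrt (div_le_self hX0.le hk1)
        have hδa : δ * aa ≤ 1 := by
          rw [hδ, one_div, inv_mul_le_iff₀ (by linarith), mul_one]
          exact haX
        have hmain := cond_main (nq := 1) (c1 := c1) (b := X * Real.exp (-(s / 2)) * min 1
            (1 / Real.sqrt (nz k' * (X * Real.exp (-s))))) hδ0.le hδ1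
          (hAlo k' hk') hpi0 hpi4 (le_refl 1) zero_le_one
          (by rw [hC3]; positivity) (Real.sqrt_nonneg _) hδa ?_
        · rw [one_mul] at hmain
          exact hmain
        -- lower bound of the defect
        have hb : C4 / c1 ≤ X * Real.exp (-(s / 2)) * min 1
            (1 / Real.sqrt (nz k' * (X * Real.exp (-s)))) := by
          have hpos : 0 < X * Real.exp (-(s / 2)) := by positivity
          rw [mul_min_of_nonneg _ _ hpos.le, mul_one]
          refine le_min ?_ ?_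
          · -- X e^{-s/2} ≥ X^{ε/2}
            have h1 : Real.exp (ε / 2 * L) ≤ X * Real.exp (-(s / 2)) := by
              have hXe : X = Real.exp L := (Real.exp_log hX0).symm
              conv_rhs => rw [hXe]
              rw [← Real.exp_add]
              apply exp_le_of
              rw [hs0] at hs
              linarith
            have h2 : C4 / c1 + 1 ≤ Real.exp (ε / 2 * L) := by
              have h3 : 0 < C4 / c1 + 1 := by positivity
              rw [← Real.exp_log h3]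
              apply exp_le_of
              have h4 : 2 / ε * Real.log (C4 / c1 + 1) ≤ L := by
                rw [hL, Real.le_log_iff_exp_le hX0, ← hXL]
                linarith
              calc Real.log (C4 / c1 + 1) = ε / 2 * (2 / ε * Real.log (C4 / c1 + 1)) := by
                    field_simp
                _ ≤ ε / 2 * L := mul_le_mul_of_nonneg_left h4 (by positivity)
            linarith
          · -- the other term is `sqrt (X/|k|) ≥ sqrt K1`
            have h1 : X * Real.exp (-(s / 2)) * (1 / Real.sqrt (nz k' * (X * Real.exp (-s)))) =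
                Real.sqrt (X / nz k') := by
              have e1 : nz k' * (X * Real.exp (-s)) =
                  (nz k' * X) * (Real.exp (-(s / 2))) ^ 2 := by
                have : Real.exp (-s) = Real.exp (-(s / 2)) ^ 2 := by
                  rw [← Real.exp_nat_mul]
                  congr 1
                  push_cast
                  ring
                rw [this]; ring
              have hEE := Real.exp_pos (-(s / 2))
              rw [e1, Real.sqrt_mul (by positivity), Real.sqrt_sq hEE.le, Real.sqrt_div hX0.le,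
                Real.sqrt_mul hk0.le]
              have h1 : 0 < Real.sqrt X := Real.sqrt_pos.2 hX0
              have h2 : 0 < Real.sqrt (nz k') := Real.sqrt_pos.2 hk0
              field_simp
              rw [Real.sq_sqrt hX0.le]
            rw [h1]
            apply Real.le_sqrt_of_sq_le
            rw [le_div_iff₀ hk0]
            have h3 : nz k' * K1 ≤ X := by
              have h4 : nz k' < X / K1 := a2
              rw [lt_div_iff₀ (by linarith)] at h4
              exact h4.le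
            have h5 : (C4 / c1) ^ 2 ≤ K1 := by rw [hK1]; linarith
            calc (C4 / c1) ^ 2 * nz k' ≤ K1 * nz k' :=
                  mul_le_mul_of_nonneg_right h5 hk0.le
              _ = nz k' * K1 := mul_comm _ _
              _ ≤ X := h3
        have h6 := mul_le_mul_of_nonneg_left hb hc1p.le
        have h7 : c1 * (C4 / c1) = C4 := by field_simp
        rw [h7] at h6
        exact h6)
    have h1 := Ph_int hgd hD hP y hτ0 hX0 A hpw (herr2 P τ X hτ hXK hcond)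
    have h2 := hPSi P hP y τ X K δ hτ hX1 hδ0 B I hI Bs hBs
    -- the primal error
    have h3 : (1 + 1 / δ) * (X * Real.exp (1 / (4 * τ ^ 2)) *
        (CS * ∑ p ∈ P, y p ^ 2 * (1 / nz p ^ 2))) ≤ 4 * CS * Real.exp (9 / 10 * L) * S2 := by
      have e1 : 1 + 1 / δ ≤ 2 * Real.exp (L / 2) := by
        rw [hδ, one_div_one_div, ← sqrt_exp hX0]; linarith
      have e2 : Real.exp (1 / (4 * τ ^ 2)) ≤ 2 := by
        have : 1 / (4 * τ ^ 2) ≤ 1 / 4 := by
          apply div_le_div_of_nonneg_left (by norm_num) (by norm_num)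
          nlinarith
        refine (exp_le_of this).trans ?_
        have h4 := Real.exp_bound_div_one_sub_of_interval (x := 1 / 4) (by norm_num) (by norm_num)
        linarith [show (1 : ℝ) / (1 - 1 / 4) = 4 / 3 by norm_num]
      have e3 : ∑ p ∈ P, y p ^ 2 * (1 / nz p ^ 2) ≤ Real.exp (-(6 / 10 * L)) * S2 := by
        rw [hS2, Finset.mul_sum]
        refine Finset.sum_le_sum fun p hp => ?_
        rw [mul_comm]
        refine mul_le_mul_of_nonneg_right ?_ (sq_nonneg _)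
        have hp0 : (0 : ℝ) < nz p := by
          have := nz_ge_one (PZ_ne hel (hP p hp))
          linarith
        have h4 : Real.exp (6 / 10 * L) ≤ nz p ^ 2 := by
          have h5 : nz p ^ 2 = Real.exp (2 * Real.log (nz p)) := by
            rw [mul_comm, Real.exp_mul, Real.exp_log hp0]
            exact (Real.rpow_natCast _ 2).symm
          rw [h5]
          apply exp_le_of
          linarith [(hr p hp).1]
        rw [Real.exp_neg, ← one_div]
        exact one_div_le_one_div_of_le (Real.exp_pos _) h4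
      have hXe : X = Real.exp L := (Real.exp_log hX0).symm
      have e4 : 0 ≤ ∑ p ∈ P, y p ^ 2 * (1 / nz p ^ 2) :=
        Finset.sum_nonneg fun p _ => by positivity
      calc _ ≤ (2 * Real.exp (L / 2)) * (Real.exp L * 2 *
            (CS * (Real.exp (-(6 / 10 * L)) * S2))) := by
            rw [← hXe]
            gcongr
        _ = 4 * CS * Real.exp (L / 2 + L + -(6 / 10 * L)) * S2 := by
            rw [Real.exp_add, Real.exp_add]; ring
        _ = _ := by
            congr 3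
            ring
    have h5 : E2 * Real.exp ((1 - ε) * L) * S2 + 4 * CS * Real.exp (9 / 10 * L) * S2 ≤
        (E1 + E2 + 4 * CS) * (Real.exp (45 / 100 * L) +
        Real.exp ((1 - ε) * L) + Real.exp (9 / 10 * L)) * S2 := by
      rw [← add_mul]
      refine mul_le_mul_of_nonneg_right ?_ hS20
      have q1 : 0 ≤ E1 * (Real.exp (45 / 100 * L) + Real.exp ((1 - ε) * L) +
        Real.exp (9 / 10 * L)) := by positivity
      have q2 : 0 ≤ E2 * (Real.exp (45 / 100 * L) + Real.exp (9 / 10 * L)) := by positivity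
      have q3 : 0 ≤ 4 * CS * (Real.exp (45 / 100 * L) + Real.exp ((1 - ε) * L)) := by positivity
      linarith
    rw [add_mul]
    linarith

lemma om_le_Wt (hWl : S_Wt_lower) {X : ℝ} (hX : 0 < X) (hL : 2 ≤ Real.log X) {m : ZI}
    (hm : nz m ≤ X * Real.sqrt (Real.log X)) :
    om X m ≤ Real.exp (8 * Real.pi / Real.log X) * Wt (Real.log X) (nz m / X) := by
  set L := Real.log X with hLd
  have hL0 : 0 < L := by linarith
  have hnz : 0 ≤ nz m := by
    unfold nz
    exact_mod_cast GaussianInt.norm_nonneg m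
  have hx0 : 0 ≤ nz m / X := by positivity
  have h1 := hWl L (nz m / X) hL0 hx0
  refine le_trans ?_ (mul_le_mul_of_nonneg_left h1 (Real.exp_pos _).le)
  rw [← Real.exp_add]
  unfold om
  apply Real.exp_le_exp.2
  have h2 : nz m / X ≤ L := by
    have h3 : nz m / X ≤ Real.sqrt L := by
      rw [div_le_iff₀ hX, mul_comm]
      exact hm
    have h5 : Real.sqrt L ≤ L := by
      rw [Real.sqrt_le_left (by linarith)]
      nlinarith
    linarith
  have h4 : Real.exp (1 / L ^ 2) ≤ 1 + 8 / L ^ 2 := by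
    have h5 : 1 / L ^ 2 ≤ 1 := by
      rw [div_le_one (by positivity)]
      nlinarith
    have h6 : 0 ≤ 1 / L ^ 2 := by positivity
    have h7 := Real.abs_exp_sub_one_le (x := 1 / L ^ 2) (by rw [abs_of_nonneg h6]; exact h5)
    rw [abs_of_nonneg h6] at h7
    have h8 := (abs_le.1 h7).2
    have h9 : 2 * (1 / L ^ 2) ≤ 8 / L ^ 2 := by
      rw [show (8 : ℝ) / L ^ 2 = 8 * (1 / L ^ 2) by ring]
      linarith
    linarith
  have hpi := Real.pi_pos
  have h10 : Real.pi * (nz m / X) * Real.exp (1 / L ^ 2) ≤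
      Real.pi * (nz m / X) + 8 * Real.pi / L := by
    calc _ ≤ Real.pi * (nz m / X) * (1 + 8 / L ^ 2) := by gcongr
      _ = Real.pi * (nz m / X) + Real.pi * (nz m / X) * (8 / L ^ 2) := by ring
      _ ≤ Real.pi * (nz m / X) + Real.pi * L * (8 / L ^ 2) := by gcongr
      _ = _ := by field_simp
  linarith

end Sta

open Sta in
theorem star_main : QF.S_gd → S_D → S_PW → S_PS → S_Dup → S_Alow → S_Wt_lower → S_phi → S_el →
    S_star := by
  intro hgd hD hPW hPS hDup hAlow hWl hphi hel s ε B hs hε hε1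
  obtain ⟨C, X1, hC, hX1, hW⟩ := starW hgd hD hPW hPS hDup hAlow hphi hel B hε hε1
  set s' : ℝ := min (1 * s / 20) (1 / 20) with hs'
  have hs'0 : 0 < s' := by rw [hs']; positivity
  have hs'1 : 20 * s' ≤ 1 * s := by
    have := min_le_left (1 * s / 20) (1 / 20)
    linarith
  have hs'2 : 20 * s' ≤ 1 := by
    have := min_le_right (1 * s / 20) (1 / 20)
    linarith
  have t1 : Tendsto (fun L : ℝ => 8 * Real.pi / L) atTop (𝓝 0) :=
    tendsto_const_nhds.div_atTop tendsto_id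
  have t2 : Tendsto (fun L : ℝ => 1 / (4 * L ^ 2)) atTop (𝓝 0) := by
    apply tendsto_const_nhds.div_atTop
    exact (tendsto_pow_atTop (by norm_num)).const_mul_atTop (by norm_num)
  have hev : ∀ᶠ L : ℝ in atTop, Real.exp (8 * Real.pi / L) ≤ 1 + s' ∧
      Real.exp (1 / (4 * L ^ 2)) ≤ 1 + s' ∧ C * Real.exp (0 * L) ≤ s' * Real.exp L ∧
      C * Real.exp (45 / 100 * L) ≤ s' / 3 * Real.exp L ∧
      C * Real.exp ((1 - ε) * L) ≤ s' / 3 * Real.exp L ∧
      C * Real.exp (9 / 10 * L) ≤ s' / 3 * Real.exp L ∧ 2 ≤ L := by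
    filter_upwards [ev_one t1 hs'0, ev_one t2 hs'0, ev_exp (c := 0) (C := C) (by norm_num) hs'0,
      ev_exp (c := 45 / 100) (C := C) (by norm_num) (show 0 < s' / 3 by positivity),
      ev_exp (c := 1 - ε) (C := C) (by linarith) (show 0 < s' / 3 by positivity),
      ev_exp (c := 9 / 10) (C := C) (by norm_num) (show 0 < s' / 3 by positivity),
      eventually_ge_atTop 2] with L a1 a2 a3 a4 a5 a6 a7
    exact ⟨a1, a2, a3, a4, a5, a6, a7⟩
  obtain ⟨L0, hL0⟩ := eventually_atTop.1 hev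
  refine ⟨max 3 (max X1 (Real.exp L0)), le_max_left _ _, ?_⟩
  intro X P I y hX hP hreg hI
  have hX3 : 3 ≤ X := (le_max_left _ _).trans hX
  have hXX1 : X1 ≤ X := (le_max_left _ _).trans ((le_max_right _ _).trans hX)
  have hXe : Real.exp L0 ≤ X := (le_max_right _ _).trans ((le_max_right _ _).trans hX)
  have hX0 : 0 < X := by linarith
  set L := Real.log X with hL
  have hLL : L0 ≤ L := by
    rw [hL, Real.le_log_iff_exp_le hX0]
    exact hXe
  obtain ⟨b1, b2, b3, b4, b5, b6, b7⟩ := hL0 L hLL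
  have hXE : Real.exp L = X := Real.exp_log hX0
  rw [hXE] at b3 b4 b5 b6
  rw [zero_mul, Real.exp_zero, mul_one] at b3
  have hLpos : 0 < L := by linarith
  have h1 := hW X L P I y hXX1 (by linarith) (fun p hp => (hP p hp).1) hreg (fun m hm => by
    obtain ⟨_, k, b, c1, _, c3, c4, c5⟩ := hI m hm
    exact ⟨k, b, c1, c3, c4, c5⟩)
  have hS2 : 0 ≤ ∑ p ∈ P, y p ^ 2 := Finset.sum_nonneg fun p _ => sq_nonneg _
  have h2 : ∑ m ∈ I, om X m * GG P y L (sy m) ≤
      (1 + s') * ∑ m ∈ I, Wt L (nz m / X) * GG P y L (sy m) := by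
    rw [Finset.mul_sum]
    refine Finset.sum_le_sum fun m hm => ?_
    have c1 := om_le_Wt hWl hX0 b7 (hI m hm).1
    have c2 := GG_nonneg hgd P y hLpos (sy m)
    have c3 := Wt_nonneg hLpos.le (nz m / X)
    calc om X m * GG P y L (sy m) ≤
        (Real.exp (8 * Real.pi / L) * Wt L (nz m / X)) * GG P y L (sy m) :=
          mul_le_mul_of_nonneg_right c1 c2
      _ ≤ ((1 + s') * Wt L (nz m / X)) * GG P y L (sy m) := by gcongr
      _ = _ := by ring
  have hE : 1 ≤ Real.exp (1 / (4 * L ^ 2)) := Real.one_le_exp (by positivity)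
  have h3 := fin_alg (f := 1) one_pos le_rfl hs hs'0 hs'1 hs'2 hX0 b3 hE b2
    (show C * (Real.exp (45 / 100 * L) + Real.exp ((1 - ε) * L) + Real.exp (9 / 10 * L)) ≤ s' * X by
      rw [mul_add, mul_add]
      linarith)
  calc _ ≤ (1 + s') * ∑ m ∈ I, Wt L (nz m / X) * GG P y L (sy m) := h2
    _ ≤ (1 + s') * (((1 * X + C) * Real.exp (1 / (4 * L ^ 2)) +
        C * (Real.exp (45 / 100 * L) + Real.exp ((1 - ε) * L) + Real.exp (9 / 10 * L))) *
          ∑ p ∈ P, y p ^ 2) := mul_le_mul_of_nonneg_left h1 (by linarith)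
    _ = ((1 + s') * ((1 * X + C) * Real.exp (1 / (4 * L ^ 2)) +
        C * (Real.exp (45 / 100 * L) + Real.exp ((1 - ε) * L) + Real.exp (9 / 10 * L)))) *
          ∑ p ∈ P, y p ^ 2 := by ring
    _ ≤ ((1 + s) * (1 * X)) * ∑ p ∈ P, y p ^ 2 := mul_le_mul_of_nonneg_right h3 hS2
    _ = _ := by ring

end Pool.Agent.N880.QI
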