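import Pool.Agent.N880.QF.Stm
import Pool.Agent.H385R5.HeDefs

/-!
Project QI (helper880): quadratic twists over the Gaussian field.  All quadratic extensions
`ℚ(i, √m)` of `ℚ(i)`.  Definitions and statements of the leaves.
-/

set_option autoImplicit false

open Complex Filter Topology MeasureTheory Set
open H385 (ZI bt wt Rw lamK2)
open H370 (NN Nd Ns)
open Pool.Agent.H304R3.HK (tc HC LH aH)
open Pool.Agent.N880.QF (gd)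

namespace Pool.Agent.N880.QI

/-! ### definitions -/

/-- the norm as a real number -/
noncomputable def nz (m : ZI) : ℝ := ((Zsqrtd.norm m : ℤ) : ℝ)

open Classical in
/-- the quadratic residue symbol `(m / π)` -/
noncomputable def sy (m π : ZI) : ℝ :=
  if π ∣ m then 0 else if ∃ b : ZI, π ∣ b ^ 2 - m then 1 else -1

/-- primary Gaussian primes of degree one -/
structure PZ (π : ZI) : Prop where
  pr : Nat.Prime (Zsqrtd.norm π).natAbs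
  prm : (⟨2, 2⟩ : ZI) ∣ π - 1

/-- representatives modulo `±1` -/
def Can (b : ZI) : Prop := 0 < b.re ∨ (b.re = 0 ∧ 0 < b.im)

/-- `exp(-π x e^{-r})` -/
noncomputable def he (x r : ℝ) : ℝ := Real.exp (-(Real.pi * (x * Real.exp (-r))))

/-- log-smoothed weight -/
noncomputable def Wt (τ x : ℝ) : ℝ := ∫ r : ℝ, gd τ r * (Real.exp (-(r / 2)) * he x r)

/-- quadratic form with the kernel `exp(-τ² (log N p - log N q)² / 4)` -/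
noncomputable def GG (P : Finset ZI) (y : ZI → ℝ) (τ : ℝ) (z : ZI → ℝ) : ℝ :=
  ∑ p ∈ P, ∑ q ∈ P, y p * y q * (z p * z q) *
    Real.exp (-(τ ^ 2 * (Real.log (nz p) - Real.log (nz q)) ^ 2 / 4))

open Classical in
/-- sum over the squares -/
noncomputable def Sq (z : ℝ) : ℝ :=
  ∑' b : ZI, if Can b then Real.exp (-(Real.pi * (nz b ^ 2 * z))) else 0

/-- defect of the sum over the squares -/
noncomputable def phi (z : ℝ) : ℝ := Real.pi / 4 / Real.sqrt z - Sq z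

/-- the weight of `m` -/
noncomputable def om (X : ℝ) (m : ZI) : ℝ := Real.exp (-(Real.pi * (nz m / X)))

/-- main part of the family: bounded square part -/
def Main (B : ℕ) (X : ℝ) (m : ZI) : Prop :=
  nz m ≤ X * Real.sqrt (Real.log X) ∧
    ∃ k b : ZI, Squarefree k ∧ ¬ IsSquare k ∧ b ≠ 0 ∧ nz b ≤ B ∧ m = k * b ^ 2

/-- main part of the family, large conductors -/
def MainL (B : ℕ) (η X : ℝ) (m : ZI) : Prop :=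
  nz m ≤ X * Real.sqrt (Real.log X) ∧
    ∃ k b : ZI, Squarefree k ∧ ¬ IsSquare k ∧ b ≠ 0 ∧ nz b ≤ B ∧ m = k * b ^ 2 ∧
      X ^ (1 - η) ≤ nz k

/-- `ψ = ψ₀ χ_m` at all large primes -/
def Att (ψ₀ : ZI →* ℂ) (m : ZI) (ψ : ZI →* ℂ) : Prop :=
  ∃ B : ℝ, ∀ π : ZI, Prime π → B ≤ nz π → ψ π = ψ₀ π * ((sy m π : ℝ) : ℂ)

/-- the primitive characters (finite parts of the Hecke characters `ψ₀ χ_m`) -/
structure QD (ψ₀ : ZI →* ℂ) (d : ZI → ZI) (ψ : ZI → (ZI →* ℂ)) : Prop where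
  hc : ∀ m, ¬ IsSquare m → HC (d m) (ψ m)
  att : ∀ m, ¬ IsSquare m → Att ψ₀ m (ψ m)

/-- `∑ Λ(𝔞)² / N𝔞 exp(-(u - log N𝔞)²)` -/
noncomputable def innI (u : ℝ) : ℝ :=
  ∑' n : ℕ, lamK2 n / n * Real.exp (-(u - Real.log n) ^ 2)

/-! ### leaves -/

/-- G1: Poisson summation for the product of two primes (with quadratic reciprocity and the value
of the Gauss sums) -/
def S_pois : Prop := ∀ (p q : ZI) (X r : ℝ), PZ p → PZ q → p ≠ q → 0 < X →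
  ∑' m : ZI, he (nz m / X) r * (sy m p * sy m q) =
    X * Real.exp r / Real.sqrt (nz p * nz q) *
      ∑' k : ZI, Real.exp (-(Real.pi * (nz k * (X * Real.exp r) / (nz p * nz q)))) *
        (sy k p * sy k q)

/-- G2: the defect is positive -/
def S_phi : Prop := ∃ c0 C0 : ℝ, 0 < c0 ∧ 0 < C0 ∧ ∀ z : ℝ, 0 < z →
  c0 * min 1 (1 / Real.sqrt z) ≤ phi z ∧ phi z ≤ C0

open Classical in
/-- G3: Gaussian sums over `ℤ[i]` -/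
def S_gs : Prop := (∀ Y : ℝ, 0 < Y →
    Summable (fun k : ZI => Real.exp (-(Real.pi * (nz k * Y)))) ∧
    (∑' k : ZI, (if k = 0 then 0 else Real.exp (-(Real.pi * (nz k * Y))))) ≤ 1 / Y ∧
    1 / Y - 1 ≤ ∑' k : ZI, (if k = 0 then 0 else Real.exp (-(Real.pi * (nz k * Y))))) ∧
  (∀ z : ℝ, 0 < z → Summable (fun b : ZI => Real.exp (-(Real.pi * (nz b ^ 2 * z))))) ∧
  ∀ N : ℕ, 2 ≤ N → ∃ C : ℝ, 0 < C ∧
    (∀ Y K : ℝ, 0 < Y → 1 ≤ K →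
      (∑' k : ZI, (if K ≤ nz k then Real.exp (-(Real.pi * (nz k * Y))) else 0)) ≤
        C / Y ^ N * K ^ 2 / K ^ N) ∧
    (∀ (Y : ℝ) (D : ZI), 0 < Y → D ≠ 0 →
      (∑' k : ZI, (if k ≠ 0 ∧ D ∣ k then Real.exp (-(Real.pi * (nz k * Y))) else 0)) ≤
        C / (nz D * Y) ^ N)

/-- G4: exchange of the sum over `m` and the integral over `r` -/
def S_exch : Prop := ∀ (τ X : ℝ) (f : ZI → ℝ), 0 < τ → 0 < X → (∀ m, |f m| ≤ 1) → f 0 = 0 →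
  Summable (fun m : ZI => Wt τ (nz m / X) * f m) ∧
  Integrable (fun r : ℝ => gd τ r * (Real.exp (-(r / 2)) * ∑' m : ZI, he (nz m / X) r * f m)) ∧
  ∑' m : ZI, Wt τ (nz m / X) * f m =
    ∫ r : ℝ, gd τ r * (Real.exp (-(r / 2)) * ∑' m : ZI, he (nz m / X) r * f m)

/-- G5: the weight is at least a slightly narrower one -/
def S_Wt_lower : Prop := ∀ (τ x : ℝ), 0 < τ → 0 ≤ x →
  Real.exp (-(Real.pi * x * Real.exp (1 / τ ^ 2))) ≤ Wt τ x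

/-- G6: upper bounds for sums of weights -/
def S_Dup : Prop :=
  (∀ (τ X : ℝ), 1 ≤ τ → 1 ≤ X → ∀ f : ZI → ℝ, (∀ m, 0 ≤ f m) → (∀ m, f m ≤ 1) → f 0 = 0 →
    ∑' m : ZI, Wt τ (nz m / X) * f m ≤ X * Real.exp (1 / (4 * τ ^ 2))) ∧
  (∀ (τ X : ℝ) (D : ZI), 1 ≤ τ → 1 ≤ X → D ≠ 0 → ∀ f : ZI → ℝ, (∀ m, 0 ≤ f m) →
    (∀ m, f m ≤ 1) → (∀ m, f m ≠ 0 → m ≠ 0 ∧ D ∣ m) →
    ∑' m : ZI, Wt τ (nz m / X) * f m ≤ X / nz D * Real.exp (1 / (4 * τ ^ 2)))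

open Classical in
/-- G7: lower bound of the weight of a square class without its small square parts -/
def S_Alow : Prop := ∀ B : ℕ, ∃ C : ℝ, 0 < C ∧ ∀ (τ X : ℝ) (k : ZI), 1 ≤ τ → 1 ≤ X → k ≠ 0 →
  Summable (fun b : ZI => if Can b ∧ (B : ℝ) < nz b then Wt τ (nz (k * b ^ 2) / X) else 0) ∧
  Real.pi / 4 * Real.sqrt (X / nz k) - C ≤
    ∑' b : ZI, (if Can b ∧ (B : ℝ) < nz b then Wt τ (nz (k * b ^ 2) / X) else 0)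

/-- the family inequality for Gaussian windows (helper880) -/
def S_star : Prop := ∀ (s ε : ℝ) (B : ℕ), 0 < s → 0 < ε → ε < 1 / 2 → ∃ X0 : ℝ, 3 ≤ X0 ∧
  ∀ (X : ℝ) (P : Finset ZI) (I : Finset ZI) (x : ZI → ℝ), X0 ≤ X →
    (∀ p ∈ P, PZ p ∧ (B : ℝ) < nz p) →
    ((∀ p ∈ P, Real.log (nz p) ≤ 45 / 100 * Real.log X) ∨
      (∀ p ∈ P, 3 / 10 * Real.log X ≤ Real.log (nz p) ∧
        Real.log (nz p) ≤ (1 - ε) * Real.log X)) →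
    (∀ m ∈ I, Main B X m) →
    ∑ m ∈ I, om X m * GG P x (Real.log X) (sy m) ≤ (1 + s) * X * ∑ p ∈ P, x p ^ 2

/-- G8: from Gaussian windows to the mean square of the smoothed sums (general index types,
complex coefficients) -/
def S_win : Prop := ∀ δ : ℝ, 0 < δ → ∃ C κ0 : ℝ, 0 < C ∧ 1 ≤ κ0 ∧
  ∀ (J ι : Type) (I : Finset J) (ω : J → ℝ) (z : J → ι → ℝ) (P : Finset ι) (ℓ : ι → ℝ)
    (y : ι → ℂ) (A κ T u : ℝ),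
    (∀ i ∈ I, 0 ≤ ω i) → (∀ i p, |z i p| ≤ 1) → (∀ p ∈ P, 0 ≤ ℓ p) → κ0 ≤ κ → κ ^ 2 ≤ T →
    0 ≤ A →
    (∀ x : ι → ℝ, ∑ i ∈ I, ω i * ∑ p ∈ P, ∑ q ∈ P, x p * x q * (z i p * z i q) *
        Real.exp (-(κ ^ 2 * (ℓ p - ℓ q) ^ 2 / 4)) ≤ A * ∑ p ∈ P, x p ^ 2) →
    ∫ t : ℝ, ∑ i ∈ I, ω i * ‖∑ p ∈ P, ((z i p : ℝ) : ℂ) * y p * bt T u t (ℓ p)‖ ^ 2 ≤
      (1 + δ) * A * (T / (2 * Real.pi)) *
          ∑ p ∈ P, ‖y p‖ ^ 2 * Real.exp (-(u - ℓ p) ^ 2) +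
        C * A * κ * ∑ p ∈ P, ‖y p‖ ^ 2 * Real.exp (-(u - ℓ p) ^ 2 / 2) +
        C * (∑ i ∈ I, ω i) * T * Real.exp (-κ ^ 2 / 16) * (∑ p ∈ P, ‖y p‖) ^ 2

/-- the main primes -/
def InP (B : ℕ) (ε L u : ℝ) (p : ZI) : Prop :=
  PZ p ∧ (B : ℝ) < nz p ∧ |Real.log (nz p) - u| ≤ ε * L

/-- G9: the other prime powers; the sum of the `innI` type over the main primes -/
def S_rest : Prop :=
  (∀ (B : ℕ) (ε L u : ℝ), {p : ZI | InP B ε L u p}.Finite) ∧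
  (∀ (u : ℝ) (P : Finset ZI), (∀ p ∈ P, PZ p) →
    ∑ p ∈ P, Real.log (nz p) ^ 2 / nz p * Real.exp (-(u - Real.log (nz p)) ^ 2) ≤ innI u) ∧
  (∃ C5 : ℝ, 0 < C5 ∧ ∀ (u : ℝ) (P : Finset ZI), 0 ≤ u → (∀ p ∈ P, PZ p) →
    ∑ p ∈ P, Real.log (nz p) ^ 2 / nz p * Real.exp (-(u - Real.log (nz p)) ^ 2 / 2) ≤
      C5 * (u + 1)) ∧
  ∀ (B : ℕ) (ε : ℝ), 0 < ε → ∃ C : ℝ, 0 < C ∧ ∀ (L u T t : ℝ) (d : ZI) (ψ : ZI →* ℂ)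
    (P : Finset ZI), 1 ≤ L → 0 ≤ u → u ≤ L → 0 ≤ T → HC d ψ → (∀ p, p ∈ P ↔ InP B ε L u p) →
    ‖(∑' n : ℕ, aH ψ n * ((Real.sqrt n : ℂ)⁻¹ * bt T u t (Real.log n))) -
      ∑ p ∈ P, (ψ p * (tc p / (‖tc p‖ : ℂ)) * (Real.log (nz p) / Real.sqrt (nz p) : ℝ)) *
        bt T u t (Real.log (nz p))‖ ≤ C * wt T t

/-- G10: the primitive characters attached to `ψ₀` and a squarefree number -/
def S_char : Prop := ∀ (d₀ : ZI) (ψ₀ : ZI →* ℂ), HC d₀ ψ₀ → ∃ C : ℝ, 1 ≤ C ∧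
  ∀ k : ZI, Squarefree k →
    (∃ (d : ZI) (ψ : ZI →* ℂ), HC d ψ ∧ Att ψ₀ k ψ) ∧
    ∀ (d : ZI) (ψ : ZI →* ℂ), HC d ψ → Att ψ₀ k ψ →
      (∀ π : ZI, Prime π → ¬ π ∣ 2 → ¬ π ∣ d₀ → ψ π = ψ₀ π * ((sy k π : ℝ) : ℂ)) ∧
      nz k ≤ C * nz d ∧ nz d ≤ C * nz k

/-- the mean square over the family (helper880) -/
def S_ms : Prop := ∀ (d₀ : ZI) (ψ₀ : ZI →* ℂ), HC d₀ ψ₀ → ∀ (s ε : ℝ) (B : ℕ), 0 < s → 0 < ε →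
  ε < 1 / 2 → 1 ≤ B → ∃ C X0 : ℝ, 0 < C ∧ 3 ≤ X0 ∧
  ∀ (d : ZI → ZI) (ψ : ZI → (ZI →* ℂ)), QD ψ₀ d ψ →
  ∀ (X T u : ℝ) (I : Finset ZI), X0 ≤ X → (Real.log X) ^ 2 ≤ T → T ≤ X → 0 ≤ u →
    u ≤ (1 - ε) * Real.log X → (∀ m ∈ I, Main B X m) →
    ∫ t : ℝ, ∑ m ∈ I, om X m *
        ‖∑' n : ℕ, aH (ψ m) n * ((Real.sqrt n : ℂ)⁻¹ * bt T u t (Real.log n))‖ ^ 2 ≤
      (1 + s) * X * (T / (2 * Real.pi)) * innI u + C * X * (T + Real.log X * (u + 1))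

/-- G11: the main inequality for a part of the family -/
def S_core : Prop := ∀ (d₀ : ZI) (ψ₀ : ZI →* ℂ), HC d₀ ψ₀ → ∀ (w κ0 : ℝ), 0 < w →
  Rw 1.414 0 + 2 * (1 / w) * (∫ α in (0 : ℝ)..1, α * Rw 1.414 α) < κ0 →
  ∃ e η : ℝ, 0 < e ∧ 0 < η ∧ η < 1 / 10 ∧ ∀ B : ℕ, 1 ≤ B → ∃ X0 : ℝ, 3 ≤ X0 ∧
  ∀ (d : ZI → ZI) (ψ : ZI → (ZI →* ℂ)), QD ψ₀ d ψ →
  ∀ (X T : ℝ) (I : Finset ZI), X0 ≤ X → (Real.log X) ^ 2 ≤ T → T ≤ X ^ η →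
    (∀ m ∈ I, MainL B η X m) → w * X ≤ ∑ m ∈ I, om X m →
    ∑ m ∈ I, om X m * (2 * (NN (LH (ψ m)) T (2 * T) : ℝ) -
        (Ns (LH (ψ m)) T (2 * T) : ℝ)) + e * (X * T * Real.log X) ≤
      κ0 * ∑ m ∈ I, om X m * (NN (LH (ψ m)) T (2 * T) : ℝ) ∧
    ∑ m ∈ I, om X m * (3 * (NN (LH (ψ m)) T (2 * T) : ℝ) -
        2 * (Nd (LH (ψ m)) T (2 * T) : ℝ)) + e * (X * T * Real.log X) ≤
      κ0 * ∑ m ∈ I, om X m * (NN (LH (ψ m)) T (2 * T) : ℝ)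

/-- G12a: weight of the numbers outside the main part -/
def S_wtA : Prop := ∃ C : ℝ, 0 < C ∧ ∀ (B : ℕ) (η : ℝ), 1 ≤ B → 0 < η → η < 1 → ∃ X0 : ℝ, 3 ≤ X0 ∧
  ∀ (X : ℝ) (J : Finset ZI), X0 ≤ X → (∀ m ∈ J, m ≠ 0 ∧ ¬ MainL B η X m) →
    ∑ m ∈ J, om X m * (1 + Real.log (2 + nz m)) ≤ C / B * X * Real.log X

/-- G12b: weight of the main part -/
def S_wtB : Prop := ∀ e : ℝ, 0 < e → ∃ B0 : ℕ, ∀ (B : ℕ) (η : ℝ), B0 ≤ B → 0 < η → η < 1 →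
  ∃ X0 : ℝ, 3 ≤ X0 ∧ ∀ (X Y : ℝ), X0 ≤ X → X * Real.log X ≤ Y →
  ∀ I : Finset ZI, (∀ m : ZI, m ∈ I ↔ (nz m ≤ Y ∧ MainL B η X m)) →
    (1 - e) * X ≤ ∑ m ∈ I, om X m

/-- G13: the zeros of `L(s, ψ₀ χ_m)`, all `m ∈ ℤ[i]` which are not squares -/
def S_fin : Prop := ∃ κ : ℝ, κ < 1.3275 ∧ ∀ (d₀ : ZI) (ψ₀ : ZI →* ℂ), HC d₀ ψ₀ →
  ∃ η X0 : ℝ, 0 < η ∧ 3 ≤ X0 ∧
  ∀ (d : ZI → ZI) (ψ : ZI → (ZI →* ℂ)), QD ψ₀ d ψ →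
  ∀ (X T Y : ℝ), X0 ≤ X → (Real.log X) ^ 2 ≤ T → T ≤ X ^ η → X * Real.log X ≤ Y →
  ∀ S : Finset ZI, (∀ m : ZI, m ∈ S ↔ (nz m ≤ Y ∧ ¬ IsSquare m)) →
    ∑ m ∈ S, om X m * (2 * (NN (LH (ψ m)) T (2 * T) : ℝ) -
        (Ns (LH (ψ m)) T (2 * T) : ℝ)) ≤
      κ * ∑ m ∈ S, om X m * (NN (LH (ψ m)) T (2 * T) : ℝ) ∧
    ∑ m ∈ S, om X m * (3 * (NN (LH (ψ m)) T (2 * T) : ℝ) -
        2 * (Nd (LH (ψ m)) T (2 * T) : ℝ)) ≤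
      κ * ∑ m ∈ S, om X m * (NN (LH (ψ m)) T (2 * T) : ℝ) ∧
    X * T * Real.log X / 7 ≤ ∑ m ∈ S, om X m * (NN (LH (ψ m)) T (2 * T) : ℝ)

end Pool.Agent.N880.QI
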